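import Pool.Agent.Work.MP_308fa9_nt.BF.Defs

set_option autoImplicit false

/-!
The curves `y² = f(t)`, `w² = q(t)`, `f = a₀ T^n + ... + aₙ`, `q = b₀ T^m + ... + bₘ`, `n` and `m`
even, with arbitrary integral coefficients, over the number fields of odd degree: definitions of the
statement.
-/

namespace Stoll308.DQ

open Polynomial Finset Stoll308.BF TensorProduct

/-- The smooth projective curve with the affine equations `y² = f(t)`, `w² = q(t)` (`f` and `q` of
even degree) has a point over the field `K`: an affine one, or one of the four points at infinity,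
which are defined over `K` if and only if the leading coefficients of `f` and `q` are squares
in `K`. -/
def HasPoint {n m : ℕ} (a : Fin (n + 1) → ℤ) (b : Fin (m + 1) → ℤ) (K : Type*) [Field K] : Prop :=
  (∃ t y w : K, y ^ 2 = (GZ K a).eval t ∧ w ^ 2 = (GZ K b).eval t) ∨
    (IsSquare (a 0 : K) ∧ IsSquare (b 0 : K))

/-- The curve has points over all completions of `ℚ`. -/
def ELS {n m : ℕ} (a : Fin (n + 1) → ℤ) (b : Fin (m + 1) → ℤ) : Prop :=
  (∀ (p : ℕ) [Fact p.Prime], HasPoint a b ℚ_[p]) ∧ HasPoint a b ℝ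

/-- The polynomials `f` and `q` have the degrees `n` and `m`, and `f q` has no multiple factor. -/
def Smooth {n m : ℕ} (a : Fin (n + 1) → ℤ) (b : Fin (m + 1) → ℤ) : Prop :=
  a 0 ≠ 0 ∧ b 0 ≠ 0 ∧ Squarefree (GZ ℚ a * GZ ℚ b)

/-- There is a point `(t, y, w)`, `y` and `w` invertible, of the curve over the ring `K ⊗ k` (for
`K = ℚ_p`: the product of the completions of the number field `k` at the places above `p`) such that
`t - θ` is `c δ` times a square in `(K ⊗ k)[θ] = (K ⊗ k)[T]/(f)` and `t - ρ` is `c ε` times a square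
in `(K ⊗ k)[ρ] = (K ⊗ k)[T]/(q)`, for a unit `c` of `K ⊗ k`. -/
def LocImage {n m : ℕ} (a : Fin (n + 1) → ℤ) (b : Fin (m + 1) → ℤ) (k : Type) [Field k]
    [Algebra ℚ k] (δ ε : k[X]) (K : Type) [Field K] [Algebra ℚ K] : Prop :=
  ∃ (t y w c : K ⊗[ℚ] k) (s s' : (K ⊗[ℚ] k)[X]), IsUnit y ∧ IsUnit w ∧ IsUnit c ∧
    y ^ 2 = (GZ (K ⊗[ℚ] k) a).eval t ∧ w ^ 2 = (GZ (K ⊗[ℚ] k) b).eval t ∧
    GZ (K ⊗[ℚ] k) a ∣ (C t - X) -
      C c * δ.map (Algebra.TensorProduct.includeRight : k →ₐ[ℚ] K ⊗[ℚ] k).toRingHom * s ^ 2 ∧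
    GZ (K ⊗[ℚ] k) b ∣ (C t - X) -
      C c * ε.map (Algebra.TensorProduct.includeRight : k →ₐ[ℚ] K ⊗[ℚ] k).toRingHom * s' ^ 2

/-- The Selmer set of the curve over the number field `k` is nonempty: some `δ ∈ k[θ]ˣ` and
`ε ∈ k[ρ]ˣ`, `k[θ] = k[T]/(f)`, `k[ρ] = k[T]/(q)`, are, up to a common factor `c`, the classes of a
point at all places of `k` over the odd primes. -/
def SelOver {n m : ℕ} (a : Fin (n + 1) → ℤ) (b : Fin (m + 1) → ℤ) (k : Type) [Field k]
    [Algebra ℚ k] : Prop :=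
  ∃ δ ε : k[X], IsCoprime δ (GZ k a) ∧ IsCoprime ε (GZ k b) ∧
    ∀ (p : ℕ) [Fact p.Prime], p ≠ 2 → LocImage a b k δ ε ℚ_[p]

/-- Over some number field of odd degree the curve has a point or a nonempty Selmer set. -/
def OddField {n m : ℕ} (a : Fin (n + 1) → ℤ) (b : Fin (m + 1) → ℤ) : Prop :=
  ∃ (k : Type) (_ : Field k) (_ : Algebra ℚ k), Odd (Module.finrank ℚ k) ∧
    (HasPoint a b k ∨ SelOver a b k)

open Classical in
/-- The number of pairs of vectors `a = (a₀, ..., aₙ)`, `b = (b₀, ..., bₘ)` of integers with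
`|a_i| ≤ H` and `|b_j| ≤ H` which have the property `P`. -/
noncomputable def cnt (n m : ℕ) (P : (Fin (n + 1) → ℤ) → (Fin (m + 1) → ℤ) → Prop) (H : ℕ) : ℕ :=
  (((Fintype.piFinset fun _ : Fin (n + 1) => Icc (-(H : ℤ)) (H : ℤ)) ×ˢ
    (Fintype.piFinset fun _ : Fin (m + 1) => Icc (-(H : ℤ)) (H : ℤ))).filter
      fun x => P x.1 x.2).card

end Stoll308.DQ
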