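import Pool.Agent.Work.MP_308fa9_nt.DQ.Basic
import Pool.Agent.Work.MP_308fa9_nt.BF.BadCount

set_option autoImplicit false

/-!
The number of residue classes modulo `l²` which are bad at `0`.
-/

namespace Stoll308.DQ

open Finset Matrix BG BF
open Stoll308.BE.BadCount (red isUnit_of_red)

namespace BadA

/-- The condition for one pair in `ZMod (l ^ 2)`, with the sign `s` of the character. -/
def BadS {n : ℕ} (s : ℤ) (l : ℕ) (A B : Matrix (Fin n) (Fin n) (ZMod (l ^ 2))) : Prop :=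
  red l B.det = 0 ∧ B.det ≠ 0 ∧ red l (B.adjugate * A).trace ≠ 0 ∧
    ∃ _h : Fact l.Prime, ∃ i, quadraticChar (ZMod l)
      ((-1) ^ (n / 2 + 1) * red l (B.adjugate i i)) = s

/-- The condition for two pairs in `ZMod (l ^ 2)`. -/
def Bad0R {n m : ℕ} (l : ℕ) (A B : Matrix (Fin n) (Fin n) (ZMod (l ^ 2)))
    (A' B' : Matrix (Fin m) (Fin m) (ZMod (l ^ 2))) : Prop :=
  red l B.det = 0 ∧ red l B'.det = 0 ∧ red l (B.adjugate * A).trace ≠ 0 ∧
    red l (B'.adjugate * A').trace ≠ 0 ∧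
    B.det * (B'.adjugate * A').trace - B'.det * (B.adjugate * A).trace ≠ 0 ∧
    ∃ _h : Fact l.Prime, ∃ i j, quadraticChar (ZMod l)
      ((-1) ^ ((n + m) / 2) * (red l (B.adjugate i i) * red l (B'.adjugate j j))) = -1

lemma badS_iff {n : ℕ} (l : ℕ) (A B : Matrix (Fin n) (Fin n) ℤ) :
    BF.Bad l A B ↔ BadS (-1) l (A.map (Int.castRingHom (ZMod (l ^ 2))))
      (B.map (Int.castRingHom (ZMod (l ^ 2)))) := by
  unfold BF.Bad BadS
  rw [← BG.BadCount.cast_det, ← BG.BadCount.cast_trace]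
  simp only [← BG.BadCount.cast_adj, map_intCast]
  rw [ZMod.intCast_zmod_eq_zero_iff_dvd, Ne, ZMod.intCast_zmod_eq_zero_iff_dvd, Ne,
    ZMod.intCast_zmod_eq_zero_iff_dvd]
  simp only [legendreSym]
  push_cast
  rfl

lemma bad0_iff {n m : ℕ} (l : ℕ) (A B : Matrix (Fin n) (Fin n) ℤ)
    (A' B' : Matrix (Fin m) (Fin m) ℤ) :
    Bad0 l A B A' B' ↔ Bad0R l (A.map (Int.castRingHom (ZMod (l ^ 2))))
      (B.map (Int.castRingHom (ZMod (l ^ 2)))) (A'.map (Int.castRingHom (ZMod (l ^ 2))))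
      (B'.map (Int.castRingHom (ZMod (l ^ 2)))) := by
  unfold Bad0 Bad0R
  rw [← BG.BadCount.cast_det, ← BG.BadCount.cast_det, ← BG.BadCount.cast_trace,
    ← BG.BadCount.cast_trace, ← Int.cast_mul, ← Int.cast_mul, ← Int.cast_sub]
  simp only [← BG.BadCount.cast_adj, map_intCast]
  rw [ZMod.intCast_zmod_eq_zero_iff_dvd, ZMod.intCast_zmod_eq_zero_iff_dvd, Ne,
    ZMod.intCast_zmod_eq_zero_iff_dvd, Ne, ZMod.intCast_zmod_eq_zero_iff_dvd, Ne,
    ZMod.intCast_zmod_eq_zero_iff_dvd]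
  simp only [legendreSym]
  push_cast
  rfl

lemma map_eq {n : ℕ} (k : ℕ) (A A₁ : Matrix (Fin n) (Fin n) ℤ)
    (h : ∀ i j, (k : ℤ) ∣ A i j - A₁ i j) :
    A.map (Int.castRingHom (ZMod k)) = A₁.map (Int.castRingHom (ZMod k)) := by
  ext i j
  simp only [Matrix.map_apply, eq_intCast]
  have := (ZMod.intCast_zmod_eq_zero_iff_dvd (A i j - A₁ i j) k).2 (h i j)
  rw [Int.cast_sub, sub_eq_zero] at this
  exact this

end BadA

open BadA

/-- The condition depends only on the matrices modulo `l²`. -/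
theorem bad0_congr {n m : ℕ} (l : ℕ) (A B A₁ B₁ : Matrix (Fin n) (Fin n) ℤ)
    (A' B' A₁' B₁' : Matrix (Fin m) (Fin m) ℤ)
    (hA : ∀ i j, ((l ^ 2 : ℕ) : ℤ) ∣ A i j - A₁ i j)
    (hB : ∀ i j, ((l ^ 2 : ℕ) : ℤ) ∣ B i j - B₁ i j)
    (hA' : ∀ i j, ((l ^ 2 : ℕ) : ℤ) ∣ A' i j - A₁' i j)
    (hB' : ∀ i j, ((l ^ 2 : ℕ) : ℤ) ∣ B' i j - B₁' i j) :
    Bad0 l A B A' B' ↔ Bad0 l A₁ B₁ A₁' B₁' := by
  rw [bad0_iff, bad0_iff, map_eq _ A A₁ hA, map_eq _ B B₁ hB, map_eq _ A' A₁' hA',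
    map_eq _ B' B₁' hB']

namespace BadA

section scale

variable {l : ℕ} {n m : ℕ}

/-- The first matrix of a vector. -/
def mA {R : Type*} (x : Ix n ⊕ Ix n → R) : Matrix (Fin n) (Fin n) R := symM fun p => x (Sum.inl p)

/-- The second matrix of a vector. -/
def mB {R : Type*} (x : Ix n ⊕ Ix n → R) : Matrix (Fin n) (Fin n) R := symM fun p => x (Sum.inr p)

/-- The second matrix is multiplied by `c`. -/
def scal {R : Type*} [Mul R] (c : R) (x : Ix n ⊕ Ix n → R) : Ix n ⊕ Ix n → R :=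
  Sum.elim (fun p => x (Sum.inl p)) (fun p => c * x (Sum.inr p))

lemma mA_scal {R : Type*} [CommRing R] (c : R) (x : Ix n ⊕ Ix n → R) : mA (scal c x) = mA x := rfl

lemma mB_scal {R : Type*} [CommRing R] (c : R) (x : Ix n ⊕ Ix n → R) :
    mB (scal c x) = c • mB x := rfl

lemma scal_inj {R : Type*} [CommRing R] {c : R} (hc : IsUnit c) :
    Function.Injective (scal c : (Ix n ⊕ Ix n → R) → (Ix n ⊕ Ix n → R)) := by
  intro x y h
  funext i
  have h1 := congrFun h i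
  rcases i with p | p
  · exact h1
  · exact hc.mul_left_cancel h1

lemma det_smul' {R : Type*} [CommRing R] (c : R) (B : Matrix (Fin n) (Fin n) R) :
    (c • B).det = c ^ n * B.det := by
  rw [Matrix.det_smul, Fintype.card_fin]

lemma adj_smul' {R : Type*} [CommRing R] (c : R) (B : Matrix (Fin n) (Fin n) R) (i j : Fin n) :
    (c • B).adjugate i j = c ^ (n - 1) * B.adjugate i j := by
  rw [Matrix.adjugate_smul, Fintype.card_fin]
  rfl

lemma tr_smul' {R : Type*} [CommRing R] (c : R) (A B : Matrix (Fin n) (Fin n) R) :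
    ((c • B).adjugate * A).trace = c ^ (n - 1) * (B.adjugate * A).trace := by
  rw [Matrix.adjugate_smul, Fintype.card_fin, Matrix.smul_mul, Matrix.trace_smul, smul_eq_mul]

variable [hl : Fact l.Prime]

lemma badS_scal {s : ℤ} {c : ZMod (l ^ 2)} (hc : red l c ≠ 0) {x : Ix n ⊕ Ix n → ZMod (l ^ 2)}
    (h : BadS s l (mA x) (mB x)) :
    BadS (quadraticChar (ZMod l) (red l c ^ (n - 1)) * s) l (mA (scal c x)) (mB (scal c x)) := by
  obtain ⟨h1, h2, h3, hF, i, hi⟩ := h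
  have hu : IsUnit c := isUnit_of_red hc
  rw [mA_scal, mB_scal]
  refine ⟨?_, ?_, ?_, hF, i, ?_⟩
  · rw [det_smul', map_mul, h1, mul_zero]
  · rw [det_smul']
    intro h4
    exact h2 ((hu.pow n).mul_right_eq_zero.1 h4)
  · rw [tr_smul', map_mul, map_pow]
    exact mul_ne_zero (pow_ne_zero _ hc) h3
  · rw [adj_smul', map_mul (red l), map_pow, mul_left_comm, map_mul (quadraticChar (ZMod l)), hi]

end scale

section count

variable {l : ℕ} [hl : Fact l.Prime] {n m : ℕ}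

open Classical in
/-- The pairs with the sign `s`. -/
noncomputable def TS (s : ℤ) (l n : ℕ) [Fact l.Prime] : Finset (Ix n ⊕ Ix n → ZMod (l ^ 2)) :=
  univ.filter fun x => BadS s l (mA x) (mB x)

lemma mem_TS {s : ℤ} {x : Ix n ⊕ Ix n → ZMod (l ^ 2)} :
    x ∈ TS s l n ↔ BadS s l (mA x) (mB x) := by
  classical
  unfold TS
  rw [mem_filter]
  exact ⟨fun h => h.2, fun h => ⟨mem_univ _, h⟩⟩

open Classical in
lemma card_TS_neg (hn : 4 ≤ n) (he : Even n) (h5 : 5 ≤ l) :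
    (l : ℝ) ^ (2 * (n * (n + 1)) - 1) / 2 ^ (2 * n + 3) ≤ ((TS (-1) l n).card : ℝ) := by
  refine (BF.bad_count hn he l hl.out h5).trans (Nat.cast_le.2 ?_)
  refine Finset.card_le_card_of_injOn (fun v i => (((v i : Fin (l ^ 2)) : ℕ) : ZMod (l ^ 2))) ?_ ?_
  · intro v hv
    have hv' := (Finset.mem_filter.1 (Finset.mem_coe.1 hv)).2
    refine Finset.mem_coe.2 (mem_TS.2 ?_)
    rw [badS_iff, BG.BadCount.symM_map, BG.BadCount.symM_map] at hv'
    simp only [eq_intCast, Int.cast_natCast] at hv'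
    exact hv'
  · intro v _ v' _ h
    funext i
    have h1 := congrFun h i
    simp only at h1
    have h2 := (ZMod.natCast_eq_natCast_iff' _ _ _).1 h1
    rw [Nat.mod_eq_of_lt (v i).2, Nat.mod_eq_of_lt (v' i).2] at h2
    exact Fin.ext h2

lemma card_TS_pos (he : Even n) (hn : 1 ≤ n) (h2 : l ≠ 2) : (TS (-1) l n).card ≤ (TS 1 l n).card := by
  obtain ⟨a, ha⟩ := FiniteField.exists_nonsquare (F := ZMod l) (by rwa [ZMod.ringChar_zmod_n])
  have ha1 : quadraticChar (ZMod l) a = -1 := quadraticChar_neg_one_iff_not_isSquare.2 ha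
  have ha0 : a ≠ 0 := by
    rintro rfl
    simp at ha1
  obtain ⟨c, hc⟩ := Stoll308.BE.BadCount.red_surj (l := l) a
  have hc0 : red l c ≠ 0 := by rwa [hc]
  refine Finset.card_le_card_of_injOn (scal c) ?_ (scal_inj (isUnit_of_red hc0)).injOn
  intro x hx
  refine Finset.mem_coe.2 (mem_TS.2 ?_)
  have h3 := badS_scal hc0 (mem_TS.1 (Finset.mem_coe.1 hx))
  have h4 : quadraticChar (ZMod l) (red l c ^ (n - 1)) = -1 := by
    have ho : Odd (n - 1) := by
      obtain ⟨k, hk⟩ := he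
      exact ⟨k - 1, by omega⟩
    rw [hc, map_pow, ha1, ho.neg_one_pow]
  rwa [h4, neg_one_mul, neg_neg] at h3

/-- The determinant modulo `l ^ 2`. -/
noncomputable def fd (l : ℕ) (x : (Ix n ⊕ Ix n → ZMod (l ^ 2)) × (Ix m ⊕ Ix m → ZMod (l ^ 2))) :
    ZMod (l ^ 2) :=
  (mB x.1).det * ((mB x.2).adjugate * mA x.2).trace -
    (mB x.2).det * ((mB x.1).adjugate * mA x.1).trace

open Classical in
lemma half (hn : 1 ≤ n) (h5 : 5 ≤ l) : (TS (-1) l n ×ˢ TS 1 l m).card ≤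
    2 * ((TS (-1) l n ×ˢ TS 1 l m).filter fun x => fd l x ≠ 0).card := by
  have h4 : red l (4 : ZMod (l ^ 2)) ≠ 0 := by
    have e : (4 : ZMod (l ^ 2)) = ((4 : ℕ) : ZMod (l ^ 2)) := by norm_num
    rw [e, map_natCast, Ne, ZMod.natCast_eq_zero_iff]
    intro h
    exact absurd (Nat.le_of_dvd (by norm_num) h) (by omega)
  have h3 : IsUnit (3 : ZMod (l ^ 2)) := by
    apply isUnit_of_red
    have e : (3 : ZMod (l ^ 2)) = ((3 : ℕ) : ZMod (l ^ 2)) := by norm_num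
    rw [e, map_natCast, Ne, ZMod.natCast_eq_zero_iff]
    intro h
    exact absurd (Nat.le_of_dvd (by norm_num) h) (by omega)
  have hu4 : IsUnit (4 : ZMod (l ^ 2)) := isUnit_of_red h4
  have hq : quadraticChar (ZMod l) (red l (4 : ZMod (l ^ 2)) ^ (n - 1)) = 1 := by
    have h20 : (2 : ZMod l) ≠ 0 := by
      have e : (2 : ZMod l) = ((2 : ℕ) : ZMod l) := by norm_num
      rw [e, Ne, ZMod.natCast_eq_zero_iff]
      intro h
      exact absurd (Nat.le_of_dvd (by norm_num) h) (by omega)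
    have e : red l (4 : ZMod (l ^ 2)) = 2 ^ 2 := by
      rw [map_ofNat]; norm_num
    rw [e, map_pow, quadraticChar_sq_one' h20, one_pow]
  have h6 : ((TS (-1) l n ×ˢ TS 1 l m).filter fun x => ¬ fd l x ≠ 0).card ≤
      ((TS (-1) l n ×ˢ TS 1 l m).filter fun x => fd l x ≠ 0).card := by
    refine Finset.card_le_card_of_injOn (fun x => (scal 4 x.1, x.2)) ?_ ?_
    · rintro ⟨x, x'⟩ hx
      obtain ⟨hx1, hx2⟩ := Finset.mem_filter.1 (Finset.mem_coe.1 hx)
      obtain ⟨hx3, hx4⟩ := Finset.mem_product.1 hx1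
      rw [not_not] at hx2
      simp only at hx3 hx4
      refine Finset.mem_coe.2 (Finset.mem_filter.2 ⟨Finset.mem_product.2 ⟨?_, hx4⟩, ?_⟩)
      · have h7 := badS_scal h4 (mem_TS.1 hx3)
        rw [hq, one_mul] at h7
        exact mem_TS.2 h7
      · unfold fd at hx2 ⊢
        simp only at hx2 ⊢
        rw [mB_scal, mA_scal, det_smul', tr_smul']
        intro h8
        have e : (4 : ZMod (l ^ 2)) ^ n = 4 ^ (n - 1) * 4 := by
          rw [← pow_succ, Nat.sub_add_cancel hn]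
        rw [e] at h8
        have h9 : (4 : ZMod (l ^ 2)) ^ (n - 1) * (3 * ((mB x).det *
            ((mB x').adjugate * mA x').trace)) = 0 := by
          linear_combination h8 - 4 ^ (n - 1) * hx2
        have h10 := (hu4.pow (n - 1)).mul_right_eq_zero.1 h9
        have h11 := h3.mul_right_eq_zero.1 h10
        have h12 := mem_TS.1 hx4
        have h13 := (isUnit_of_red h12.2.2.1).mul_left_eq_zero.1 h11
        exact (mem_TS.1 hx3).2.1 h13
    · rintro ⟨x, x'⟩ _ ⟨y, y'⟩ _ h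
      simp only [Prod.mk.injEq] at h
      exact Prod.ext (scal_inj hu4 h.1) h.2
  have h7 := Finset.card_filter_add_card_filter_not (s := TS (-1) l n ×ˢ TS 1 l m)
    (fun x => fd l x ≠ 0)
  omega

end count

lemma arith (l n m : ℕ) (hn : 1 ≤ n) (hm : 1 ≤ m) {a b N : ℝ}
    (h1 : (l : ℝ) ^ (2 * (n * (n + 1)) - 1) / 2 ^ (2 * n + 3) ≤ a)
    (h2 : (l : ℝ) ^ (2 * (m * (m + 1)) - 1) / 2 ^ (2 * m + 3) ≤ b) (h3 : a * b ≤ 2 * N) :
    (l : ℝ) ^ (2 * (n * (n + 1) + m * (m + 1)) - 2) / 2 ^ (2 * n + 2 * m + 7) ≤ N := by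
  have h6 : (l : ℝ) ^ (2 * (n * (n + 1)) - 1) / 2 ^ (2 * n + 3) *
      ((l : ℝ) ^ (2 * (m * (m + 1)) - 1) / 2 ^ (2 * m + 3)) ≤ a * b := by
    have h0 : (0 : ℝ) ≤ (l : ℝ) ^ (2 * (n * (n + 1)) - 1) / 2 ^ (2 * n + 3) := by positivity
    exact mul_le_mul h1 h2 (by positivity) (h0.trans h1)
  have hexp : 2 * (n * (n + 1) + m * (m + 1)) - 2 =
      (2 * (n * (n + 1)) - 1) + (2 * (m * (m + 1)) - 1) := by
    have : 1 ≤ n * (n + 1) := Nat.mul_pos (by omega) (by omega)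
    have : 1 ≤ m * (m + 1) := Nat.mul_pos (by omega) (by omega)
    omega
  have h7 : (l : ℝ) ^ (2 * (n * (n + 1) + m * (m + 1)) - 2) / 2 ^ (2 * n + 2 * m + 7) * 2 =
      (l : ℝ) ^ (2 * (n * (n + 1)) - 1) / 2 ^ (2 * n + 3) *
      ((l : ℝ) ^ (2 * (m * (m + 1)) - 1) / 2 ^ (2 * m + 3)) := by
    have e2 : (2 : ℝ) ^ (2 * n + 2 * m + 7) = 2 ^ (2 * n + 3) * 2 ^ (2 * m + 3) * 2 := by
      rw [← pow_add, ← pow_succ]
      congr 1
      ring
    rw [hexp, pow_add, e2]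
    generalize (l : ℝ) ^ (2 * (n * (n + 1)) - 1) = x
    generalize (l : ℝ) ^ (2 * (m * (m + 1)) - 1) = y
    have hu : (2 : ℝ) ^ (2 * n + 3) ≠ 0 := by positivity
    have hv : (2 : ℝ) ^ (2 * m + 3) ≠ 0 := by positivity
    generalize (2 : ℝ) ^ (2 * n + 3) = u at hu ⊢
    generalize (2 : ℝ) ^ (2 * m + 3) = v at hv ⊢
    field_simp
  have h8 := (h7.le.trans h6).trans h3
  linarith

end BadA

open Classical in
theorem bad0_count {n m : ℕ} (hn : 4 ≤ n) (he : Even n) (hm : 4 ≤ m) (hem : Even m) (l : ℕ)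
    (hl : l.Prime) (h5 : 5 ≤ l) :
    (l : ℝ) ^ (2 * (n * (n + 1) + m * (m + 1)) - 2) / 2 ^ (2 * n + 2 * m + 7) ≤
      ((univ.filter fun v : (Ix n ⊕ Ix n) ⊕ (Ix m ⊕ Ix m) → Fin (l ^ 2) =>
        Bad0 l (symM fun p => ((v (Sum.inl (Sum.inl p)) : ℕ) : ℤ))
          (symM fun p => ((v (Sum.inl (Sum.inr p)) : ℕ) : ℤ))
          (symM fun p => ((v (Sum.inr (Sum.inl p)) : ℕ) : ℤ))
          (symM fun p => ((v (Sum.inr (Sum.inr p)) : ℕ) : ℤ))).card : ℝ) := by
  have : Fact l.Prime := ⟨hl⟩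
  have h1 := card_TS_neg (l := l) hn he h5
  have h2 := (card_TS_neg (l := l) hm hem h5).trans
    (Nat.cast_le.2 (card_TS_pos (l := l) hem (by omega) (by omega)))
  have h3 := half (l := l) (n := n) (m := m) (by omega) h5
  have h4 : ((TS (-1) l n ×ˢ TS 1 l m).filter fun x => fd l x ≠ 0).card ≤
      (univ.filter fun v : (Ix n ⊕ Ix n) ⊕ (Ix m ⊕ Ix m) → Fin (l ^ 2) =>
        Bad0 l (symM fun p => ((v (Sum.inl (Sum.inl p)) : ℕ) : ℤ))
          (symM fun p => ((v (Sum.inl (Sum.inr p)) : ℕ) : ℤ))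
          (symM fun p => ((v (Sum.inr (Sum.inl p)) : ℕ) : ℤ))
          (symM fun p => ((v (Sum.inr (Sum.inr p)) : ℕ) : ℤ))).card := by
    refine Finset.card_le_card_of_injOn (fun x i => ⟨((Sum.elim x.1 x.2 i : ZMod (l ^ 2))).val,
      ZMod.val_lt _⟩) ?_ ?_
    · rintro ⟨x, x'⟩ hx
      obtain ⟨hx1, hx2⟩ := Finset.mem_filter.1 (Finset.mem_coe.1 hx)
      obtain ⟨hx3, hx4⟩ := Finset.mem_product.1 hx1
      have hx3 := mem_TS.1 hx3
      have hx4 := mem_TS.1 hx4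
      refine Finset.mem_coe.2 (Finset.mem_filter.2 ⟨Finset.mem_univ _, ?_⟩)
      rw [bad0_iff, BG.BadCount.symM_map, BG.BadCount.symM_map, BG.BadCount.symM_map,
        BG.BadCount.symM_map]
      simp only [eq_intCast, Int.cast_natCast, ZMod.natCast_zmod_val, Sum.elim_inl, Sum.elim_inr]
      obtain ⟨a1, a2, a3, hF, i, hi⟩ := hx3
      obtain ⟨b1, b2, b3, _, j, hj⟩ := hx4
      refine ⟨a1, b1, a3, b3, hx2, hF, i, j, ?_⟩
      have e : ((-1 : ZMod l)) ^ ((n + m) / 2) * (red l ((mB x).adjugate i i) *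
          red l ((mB x').adjugate j j)) = ((-1) ^ (n / 2 + 1) * red l ((mB x).adjugate i i)) *
          ((-1) ^ (m / 2 + 1) * red l ((mB x').adjugate j j)) := by
        have e1 : (n + m) / 2 = n / 2 + m / 2 := by
          obtain ⟨k, hk⟩ := he
          obtain ⟨k', hk'⟩ := hem
          omega
        rw [e1, pow_add]
        ring
      have h6 : quadraticChar (ZMod l) ((-1 : ZMod l) ^ ((n + m) / 2) *
          (red l ((mB x).adjugate i i) * red l ((mB x').adjugate j j))) = -1 := by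
        rw [e, map_mul, hi, hj, mul_one]
      exact h6
    · rintro ⟨x, x'⟩ _ ⟨y, y'⟩ _ h
      have h6 : ∀ i, Sum.elim x x' i = Sum.elim y y' i := by
        intro i
        have h7 := congrFun h i
        simp only [Fin.mk.injEq] at h7
        exact ZMod.val_injective _ h7
      exact Prod.ext (funext fun p => h6 (Sum.inl p)) (funext fun p => h6 (Sum.inr p))
  generalize (univ.filter fun v : (Ix n ⊕ Ix n) ⊕ (Ix m ⊕ Ix m) → Fin (l ^ 2) =>
        Bad0 l (symM fun p => ((v (Sum.inl (Sum.inl p)) : ℕ) : ℤ))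
          (symM fun p => ((v (Sum.inl (Sum.inr p)) : ℕ) : ℤ))
          (symM fun p => ((v (Sum.inr (Sum.inl p)) : ℕ) : ℤ))
          (symM fun p => ((v (Sum.inr (Sum.inr p)) : ℕ) : ℤ))).card = N at h4 ⊢
  have h5' : ((TS (-1) l n).card : ℝ) * ((TS 1 l m).card : ℝ) ≤ 2 * (N : ℝ) := by
    rw [Finset.card_product] at h3
    exact_mod_cast h3.trans (Nat.mul_le_mul_left 2 h4)
  exact arith l n m (by omega) (by omega) h1 h2 h5'

end Stoll308.DQ
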