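import Pool.Agent.Work.MP_308fa9_nt.DQ.BadA
import Pool.Agent.Work.MP_308fa9_nt.BG.LCond1

set_option autoImplicit false

/-!
The number of bad residue classes modulo `l²`.
-/

namespace Stoll308.DQ

open Finset Matrix BG BF

namespace BadB

lemma sub_dvd {n : ℕ} (k t : ℤ) (x x' y y' : Ix n → ℤ) (hx : ∀ i, k ∣ x i - x' i)
    (hy : ∀ i, k ∣ y i - y' i) (i j : Fin n) :
    k ∣ (symM y - t • symM x) i j - (symM y' - t • symM x') i j := by
  simp only [Matrix.sub_apply, Matrix.smul_apply, smul_eq_mul, symM]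
  have e : ∀ p : Ix n, y p - t * x p - (y' p - t * x' p) = (y p - y' p) - t * (x p - x' p) := by
    intro p; ring
  rw [e]
  exact dvd_sub (hy _) ((hx _).mul_left t)

end BadB

open BadB

theorem bad_congr {n m : ℕ} (l : ℕ) (v v' : (Ix n ⊕ Ix n) ⊕ (Ix m ⊕ Ix m) → ℤ)
    (h : ∀ i, ((l ^ 2 : ℕ) : ℤ) ∣ v i - v' i) :
    Bad l (symM fun p => v (Sum.inl (Sum.inl p))) (symM fun p => v (Sum.inl (Sum.inr p)))
        (symM fun p => v (Sum.inr (Sum.inl p))) (symM fun p => v (Sum.inr (Sum.inr p))) ↔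
      Bad l (symM fun p => v' (Sum.inl (Sum.inl p))) (symM fun p => v' (Sum.inl (Sum.inr p)))
        (symM fun p => v' (Sum.inr (Sum.inl p))) (symM fun p => v' (Sum.inr (Sum.inr p))) := by
  unfold Bad
  refine exists_congr fun t => ?_
  exact bad0_congr l _ _ _ _ _ _ _ _ (fun i j => h _)
    (sub_dvd _ _ _ _ _ _ (fun i => h _) (fun i => h _)) (fun i j => h _)
    (sub_dvd _ _ _ _ _ _ (fun i => h _) (fun i => h _))

namespace BadB

open Polynomial in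
/-- The number of roots of the characteristic polynomial. -/
lemma roots_le {n : ℕ} (l : ℕ) (hl : l.Prime) (A B : Matrix (Fin n) (Fin n) ℤ) (S : Finset ℕ)
    (hS : ∀ t ∈ S, t < l ∧ (l : ℤ) ∣ (B - (t : ℤ) • A).det ∧
      ¬ (l : ℤ) ∣ ((B - (t : ℤ) • A).adjugate * A).trace) : S.card ≤ n := by
  have : Fact l.Prime := ⟨hl⟩
  rcases S.eq_empty_or_nonempty with rfl | ⟨t₀, ht₀⟩
  · simp
  set f := Int.castRingHom (ZMod l) with hf
  set P : (ZMod l)[X] := ((X : (ZMod l)[X]) • (-(A.map f)).map C + (B.map f).map C).det with hP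
  have hmap : ∀ t : ℕ, ((X : (ZMod l)[X]) • (-(A.map f)).map C + (B.map f).map C).map
      (evalRingHom (t : ZMod l)) = (B - (t : ℤ) • A).map f := by
    intro t
    ext i j
    simp only [Matrix.map_apply, Matrix.add_apply, Matrix.smul_apply, Matrix.neg_apply,
      Matrix.sub_apply, smul_eq_mul, map_mul, map_sub, coe_evalRingHom, eval_X, eval_C,
      map_neg, map_natCast, eval_add, eval_mul, eval_neg]
    ring
  have heval : ∀ t : ℕ, P.eval (t : ZMod l) = (((B - (t : ℤ) • A).det : ℤ) : ZMod l) := by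
    intro t
    have h1 := RingHom.map_det (evalRingHom (t : ZMod l))
      ((X : (ZMod l)[X]) • (-(A.map f)).map C + (B.map f).map C)
    rw [RingHom.mapMatrix_apply, hmap] at h1
    rw [BG.BadCount.cast_det, ← h1]
    rfl
  have hder : (derivative P).eval (t₀ : ZMod l) =
      -((((B - (t₀ : ℤ) • A).adjugate * A).trace : ℤ) : ZMod l) := by
    rw [hP, BG.LCond.derivative_det]
    have h6 : ((X : (ZMod l)[X]) • (-(A.map f)).map C + (B.map f).map C).map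
        (fun q => derivative q) = (-(A.map f)).map C := by
      ext a b
      simp [Matrix.map_apply, Matrix.add_apply, Matrix.smul_apply, derivative_mul]
    rw [h6, BG.BadCount.cast_trace, ← hf, ← hmap t₀, ← Matrix.trace_neg, ← Matrix.mul_neg]
    have h9 : ((-(A.map f)).map (C : ZMod l →+* (ZMod l)[X])).map
        (evalRingHom (t₀ : ZMod l)) = -(A.map f) := by
      ext a b
      simp
    have h11 := RingHom.map_adjugate (evalRingHom (t₀ : ZMod l))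
      ((X : (ZMod l)[X]) • (-(A.map f)).map C + (B.map f).map C)
    rw [RingHom.mapMatrix_apply, RingHom.mapMatrix_apply] at h11
    rw [← h11]
    have h12 : ((X : (ZMod l)[X]) • (-(A.map f)).map C + (B.map f).map C).adjugate.map
        (evalRingHom (t₀ : ZMod l)) * -(A.map f) =
        (((X : (ZMod l)[X]) • (-(A.map f)).map C + (B.map f).map C).adjugate *
          (-(A.map f)).map C).map (evalRingHom (t₀ : ZMod l)) := by
      rw [Matrix.map_mul, h9]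
    rw [h12]
    simp only [Matrix.trace, Matrix.diag_apply, eval_finsetSum, Matrix.map_apply,
      coe_evalRingHom]
  have hP0 : P ≠ 0 := by
    intro h0
    rw [h0] at hder
    simp only [derivative_zero, eval_zero] at hder
    have h1 := neg_eq_zero.1 hder.symm
    rw [ZMod.intCast_zmod_eq_zero_iff_dvd] at h1
    exact (hS t₀ ht₀).2.2 h1
  have hdeg : P.natDegree ≤ n := by
    have := natDegree_det_X_add_C_le (-(A.map f)) (B.map f)
    rwa [Fintype.card_fin] at this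
  calc S.card ≤ P.roots.toFinset.card := by
        refine Finset.card_le_card_of_injOn (fun t => (t : ZMod l)) ?_ ?_
        · intro t ht
          have ht' := Finset.mem_coe.1 ht
          rw [Finset.mem_coe, Multiset.mem_toFinset, mem_roots hP0, IsRoot, heval,
            ZMod.intCast_zmod_eq_zero_iff_dvd]
          exact (hS t ht').2.1
        · intro t ht t' ht' h
          have h2 := (ZMod.natCast_eq_natCast_iff' _ _ _).1 h
          rwa [Nat.mod_eq_of_lt (hS t (Finset.mem_coe.1 ht)).1,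
            Nat.mod_eq_of_lt (hS t' (Finset.mem_coe.1 ht')).1] at h2
    _ ≤ Multiset.card P.roots := Multiset.toFinset_card_le _
    _ ≤ P.natDegree := card_roots' P
    _ ≤ n := hdeg

section trans

variable {l n m : ℕ}

/-- The translation `B ↦ B + t A`. -/
def tr (hl : 0 < l) (t : ℕ) (x : Ix n ⊕ Ix n → Fin (l ^ 2)) : Ix n ⊕ Ix n → Fin (l ^ 2) :=
  Sum.elim (fun p => x (Sum.inl p)) fun p =>
    ⟨((x (Sum.inr p) : ℕ) + t * (x (Sum.inl p) : ℕ)) % l ^ 2, Nat.mod_lt _ (pow_pos hl 2)⟩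

lemma tr_inj (hl : 0 < l) (t : ℕ) :
    Function.Injective (tr hl t : (Ix n ⊕ Ix n → Fin (l ^ 2)) → (Ix n ⊕ Ix n → Fin (l ^ 2))) := by
  intro x y h
  have h1 : ∀ p, x (Sum.inl p) = y (Sum.inl p) := fun p => congrFun h (Sum.inl p)
  funext i
  rcases i with p | p
  · exact h1 p
  · have h2 := congrArg Fin.val (congrFun h (Sum.inr p))
    simp only [tr, Sum.elim_inr, h1 p] at h2
    have h3 : (x (Sum.inr p) : ℕ) ≡ (y (Sum.inr p) : ℕ) [MOD l ^ 2] := Nat.ModEq.add_right_cancel' _ h2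
    refine Fin.ext ?_
    unfold Nat.ModEq at h3
    rwa [Nat.mod_eq_of_lt (x (Sum.inr p)).2, Nat.mod_eq_of_lt (y (Sum.inr p)).2] at h3

lemma tr_dvd (hl : 0 < l) (t : ℕ) (x : Ix n ⊕ Ix n → Fin (l ^ 2)) (i j : Fin n) :
    ((l ^ 2 : ℕ) : ℤ) ∣ (symM fun p => ((x (Sum.inr p) : ℕ) : ℤ)) i j -
      ((symM fun p => ((tr hl t x (Sum.inr p) : ℕ) : ℤ)) -
        (t : ℤ) • (symM fun p => ((tr hl t x (Sum.inl p) : ℕ) : ℤ))) i j := by
  simp only [Matrix.sub_apply, Matrix.smul_apply, smul_eq_mul, symM, tr, Sum.elim_inl,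
    Sum.elim_inr]
  generalize x (Sum.inr ⟨(min i j, max i j), min_le_max⟩) = b
  generalize x (Sum.inl ⟨(min i j, max i j), min_le_max⟩) = a
  have h1 := Int.emod_add_mul_ediv (((b : ℕ) : ℤ) + t * ((a : ℕ) : ℤ)) ((l ^ 2 : ℕ) : ℤ)
  refine ⟨(((b : ℕ) : ℤ) + t * ((a : ℕ) : ℤ)) / ((l ^ 2 : ℕ) : ℤ), ?_⟩
  rw [Int.natCast_mod]
  push_cast at h1 ⊢
  linear_combination -h1

/-- The bad classes at `0`. -/
def Z (l : ℕ) (v : (Ix n ⊕ Ix n) ⊕ (Ix m ⊕ Ix m) → Fin (l ^ 2)) : Prop :=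
  Bad0 l (symM fun p => ((v (Sum.inl (Sum.inl p)) : ℕ) : ℤ))
    (symM fun p => ((v (Sum.inl (Sum.inr p)) : ℕ) : ℤ))
    (symM fun p => ((v (Sum.inr (Sum.inl p)) : ℕ) : ℤ))
    (symM fun p => ((v (Sum.inr (Sum.inr p)) : ℕ) : ℤ))

/-- The bad classes at `t`. -/
def R (l t : ℕ) (v : (Ix n ⊕ Ix n) ⊕ (Ix m ⊕ Ix m) → Fin (l ^ 2)) : Prop :=
  Bad0 l (symM fun p => ((v (Sum.inl (Sum.inl p)) : ℕ) : ℤ))
    ((symM fun p => ((v (Sum.inl (Sum.inr p)) : ℕ) : ℤ)) -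
      (t : ℤ) • symM fun p => ((v (Sum.inl (Sum.inl p)) : ℕ) : ℤ))
    (symM fun p => ((v (Sum.inr (Sum.inl p)) : ℕ) : ℤ))
    ((symM fun p => ((v (Sum.inr (Sum.inr p)) : ℕ) : ℤ)) -
      (t : ℤ) • symM fun p => ((v (Sum.inr (Sum.inl p)) : ℕ) : ℤ))

/-- The bad classes. -/
def W (l : ℕ) (v : (Ix n ⊕ Ix n) ⊕ (Ix m ⊕ Ix m) → Fin (l ^ 2)) : Prop :=
  Bad l (symM fun p => ((v (Sum.inl (Sum.inl p)) : ℕ) : ℤ))
    (symM fun p => ((v (Sum.inl (Sum.inr p)) : ℕ) : ℤ))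
    (symM fun p => ((v (Sum.inr (Sum.inl p)) : ℕ) : ℤ))
    (symM fun p => ((v (Sum.inr (Sum.inr p)) : ℕ) : ℤ))

/-- The translation of the two pairs. -/
def tr2 (hl : 0 < l) (t : ℕ) (v : (Ix n ⊕ Ix n) ⊕ (Ix m ⊕ Ix m) → Fin (l ^ 2)) :
    (Ix n ⊕ Ix n) ⊕ (Ix m ⊕ Ix m) → Fin (l ^ 2) :=
  Sum.elim (tr hl t fun i => v (Sum.inl i)) (tr hl t fun i => v (Sum.inr i))

lemma tr2_inj (hl : 0 < l) (t : ℕ) : Function.Injective (tr2 (n := n) (m := m) hl t) := by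
  intro v w h
  have h1 : tr hl t (fun i => v (Sum.inl i)) = tr hl t (fun i => w (Sum.inl i)) :=
    funext fun i => congrFun h (Sum.inl i)
  have h2 : tr hl t (fun i => v (Sum.inr i)) = tr hl t (fun i => w (Sum.inr i)) :=
    funext fun i => congrFun h (Sum.inr i)
  have h3 := tr_inj hl t h1
  have h4 := tr_inj hl t h2
  funext i
  rcases i with i | i
  · exact congrFun h3 i
  · exact congrFun h4 i

lemma R_tr2 (hl : 0 < l) (t : ℕ) (v : (Ix n ⊕ Ix n) ⊕ (Ix m ⊕ Ix m) → Fin (l ^ 2)) (h : Z l v) :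
    R l t (tr2 hl t v) := by
  unfold Z at h
  unfold R
  refine (bad0_congr l _ _ _ _ _ _ _ _ ?_ ?_ ?_ ?_).1 h
  · intro i j
    exact ⟨0, by rw [mul_zero, sub_eq_zero]; rfl⟩
  · intro i j
    exact tr_dvd hl t (fun i => v (Sum.inl i)) i j
  · intro i j
    exact ⟨0, by rw [mul_zero, sub_eq_zero]; rfl⟩
  · intro i j
    exact tr_dvd hl t (fun i => v (Sum.inr i)) i j

open Classical in
lemma card_R (hl : 0 < l) (t : ℕ) :
    (univ.filter fun v : (Ix n ⊕ Ix n) ⊕ (Ix m ⊕ Ix m) → Fin (l ^ 2) => Z l v).card ≤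
      (univ.filter fun v : (Ix n ⊕ Ix n) ⊕ (Ix m ⊕ Ix m) → Fin (l ^ 2) => R l t v).card := by
  refine Finset.card_le_card_of_injOn (tr2 hl t) ?_ (tr2_inj hl t).injOn
  intro v hv
  have hv' := (Finset.mem_filter.1 (Finset.mem_coe.1 hv)).2
  exact Finset.mem_coe.2 (Finset.mem_filter.2 ⟨Finset.mem_univ _, R_tr2 hl t v hv'⟩)

lemma R_W (t : ℕ) (v : (Ix n ⊕ Ix n) ⊕ (Ix m ⊕ Ix m) → Fin (l ^ 2)) (h : R l t v) : W l v :=
  ⟨(t : ℤ), h⟩

lemma card_ones {α : Type*} [Fintype α] (P Q : α → Prop) [DecidablePred P] [DecidablePred Q]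
    (h : ∀ x, P x → Q x) : (univ.filter P).card = ∑ x ∈ univ.filter Q, if P x then 1 else 0 := by
  rw [← Finset.card_filter, Finset.filter_filter]
  congr 1
  exact Finset.filter_congr fun v _ => ⟨fun h' => ⟨h v h', h'⟩, fun h' => h'.2⟩

open Classical in
lemma sum_R (hl : l.Prime) :
    ∑ t ∈ range l, (univ.filter fun v : (Ix n ⊕ Ix n) ⊕ (Ix m ⊕ Ix m) → Fin (l ^ 2) =>
      R l t v).card ≤
      (univ.filter fun v : (Ix n ⊕ Ix n) ⊕ (Ix m ⊕ Ix m) → Fin (l ^ 2) => W l v).card * n := by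
  have e : ∀ t : ℕ, (univ.filter fun v : (Ix n ⊕ Ix n) ⊕ (Ix m ⊕ Ix m) → Fin (l ^ 2) =>
      R l t v).card =
      ∑ v ∈ univ.filter (fun v : (Ix n ⊕ Ix n) ⊕ (Ix m ⊕ Ix m) → Fin (l ^ 2) => W l v),
        if R l t v then 1 else 0 := fun t => card_ones _ _ (R_W t)
  rw [Finset.sum_congr rfl fun t _ => e t, Finset.sum_comm]
  refine Finset.sum_le_card_nsmul _ _ _ fun v _ => ?_
  rw [← Finset.card_filter]
  refine roots_le l hl (symM fun p => ((v (Sum.inl (Sum.inl p)) : ℕ) : ℤ))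
    (symM fun p => ((v (Sum.inl (Sum.inr p)) : ℕ) : ℤ)) _ fun t ht => ?_
  obtain ⟨ht1, ht2⟩ := Finset.mem_filter.1 ht
  exact ⟨Finset.mem_range.1 ht1, ht2.1, ht2.2.2.1⟩

end trans

end BadB

open Classical in
theorem bad_count {n m : ℕ} (hn : 4 ≤ n) (he : Even n) (hm : 4 ≤ m) (hem : Even m) (l : ℕ)
    (hl : l.Prime) (h5 : 5 ≤ l) :
    (l : ℝ) ^ (2 * (n * (n + 1) + m * (m + 1)) - 1) / (n * 2 ^ (2 * n + 2 * m + 7)) ≤
      ((univ.filter fun v : (Ix n ⊕ Ix n) ⊕ (Ix m ⊕ Ix m) → Fin (l ^ 2) =>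
        Bad l (symM fun p => ((v (Sum.inl (Sum.inl p)) : ℕ) : ℤ))
          (symM fun p => ((v (Sum.inl (Sum.inr p)) : ℕ) : ℤ))
          (symM fun p => ((v (Sum.inr (Sum.inl p)) : ℕ) : ℤ))
          (symM fun p => ((v (Sum.inr (Sum.inr p)) : ℕ) : ℤ))).card : ℝ) := by
  have h1 := bad0_count hn he hm hem l hl h5
  have h2 : l * (univ.filter fun v : (Ix n ⊕ Ix n) ⊕ (Ix m ⊕ Ix m) → Fin (l ^ 2) => Z l v).card ≤
      (univ.filter fun v : (Ix n ⊕ Ix n) ⊕ (Ix m ⊕ Ix m) → Fin (l ^ 2) => W l v).card * n := by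
    refine le_trans ?_ (sum_R hl)
    have h3 := Finset.card_nsmul_le_sum (range l) (fun t => (univ.filter fun v :
      (Ix n ⊕ Ix n) ⊕ (Ix m ⊕ Ix m) → Fin (l ^ 2) => R l t v).card) _
      (fun t _ => card_R (n := n) (m := m) hl.pos t)
    rwa [Finset.card_range, smul_eq_mul] at h3
  change (l : ℝ) ^ (2 * (n * (n + 1) + m * (m + 1)) - 2) / 2 ^ (2 * n + 2 * m + 7) ≤
    ((univ.filter fun v : (Ix n ⊕ Ix n) ⊕ (Ix m ⊕ Ix m) → Fin (l ^ 2) => Z l v).card : ℝ) at h1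
  change _ ≤ ((univ.filter fun v : (Ix n ⊕ Ix n) ⊕ (Ix m ⊕ Ix m) → Fin (l ^ 2) =>
    W l v).card : ℝ)
  generalize (univ.filter fun v : (Ix n ⊕ Ix n) ⊕ (Ix m ⊕ Ix m) → Fin (l ^ 2) =>
    Z l v).card = a at h1 h2
  generalize (univ.filter fun v : (Ix n ⊕ Ix n) ⊕ (Ix m ⊕ Ix m) → Fin (l ^ 2) =>
    W l v).card = b at h2 ⊢
  have h3 : (l : ℝ) * a ≤ b * n := by exact_mod_cast h2
  have hexp : 2 * (n * (n + 1) + m * (m + 1)) - 1 =
      (2 * (n * (n + 1) + m * (m + 1)) - 2) + 1 := by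
    have : 1 ≤ n * (n + 1) := Nat.mul_pos (by omega) (by omega)
    omega
  have hn0 : (0 : ℝ) < n := by exact_mod_cast (by omega : 0 < n)
  rw [hexp, pow_succ, mul_comm (n : ℝ), ← div_div, div_le_iff₀ hn0, mul_comm _ (l : ℝ),
    mul_div_assoc]
  exact (mul_le_mul_of_nonneg_left h1 (Nat.cast_nonneg l)).trans h3

end Stoll308.DQ
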