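import Pool.Agent.Work.MP_308fa9_nt.DQ.Defs
import Pool.Agent.Work.MP_308fa9_nt.SC.Basic

set_option autoImplicit false

/-!
Working definitions.
-/

namespace Stoll308.DQ

open Polynomial Finset Matrix BG BF SC

/-- There is a point `(t, y, w)`, `y` and `w` invertible, of the curve with coordinates in a finite
commutative algebra `E` of odd dimension over the field `K ⊇ ℚ`, such that the norms of `t - θ` and
`t - ρ` are `c⁻¹ δ` and `c⁻¹ ε` modulo squares (the norm of `t - T` is `-χ(T)` for the characteristic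
polynomial `χ` of the multiplication by `t` on `E`). -/
def OddImage {n m : ℕ} (a : Fin (n + 1) → ℤ) (b : Fin (m + 1) → ℤ) (δ ε : ℚ[X]) (K : Type)
    [Field K] [Algebra ℚ K] : Prop :=
  ∃ (E : Type) (_ : CommRing E) (_ : Algebra K E) (_ : Module.Finite K E) (t y w : E) (c : K)
    (s s' : K[X]),
    Odd (Module.finrank K E) ∧ IsUnit y ∧ IsUnit w ∧ c ≠ 0 ∧
      y ^ 2 = aeval t (GZ K a) ∧ w ^ 2 = aeval t (GZ K b) ∧
      GZ K a ∣ C c * (LinearMap.mulLeft K t).charpoly - δ.map (algebraMap ℚ K) * s ^ 2 ∧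
      GZ K b ∣ C c * (LinearMap.mulLeft K t).charpoly - ε.map (algebraMap ℚ K) * s' ^ 2

/-- Some `(δ, ε)` is at every odd prime the class of a point over an algebra of odd dimension. -/
def OddSel {n m : ℕ} (a : Fin (n + 1) → ℤ) (b : Fin (m + 1) → ℤ) : Prop :=
  ∃ δ ε : ℚ[X], IsCoprime δ (GZ ℚ a) ∧ IsCoprime ε (GZ ℚ b) ∧
    ∀ (p : ℕ) [Fact p.Prime], p ≠ 2 → OddImage a b δ ε ℚ_[p]

/-- The polynomial `f` is a square modulo `h`, and `δ` and `h` are equal modulo `f` up to squares. -/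
def Cls {K : Type*} [Field K] (f δ h : K[X]) : Prop :=
  Odd h.natDegree ∧ IsCoprime h f ∧ (∃ r, h ∣ f - r ^ 2) ∧ ∃ s, IsCoprime s f ∧ f ∣ h - δ * s ^ 2

/-- The local condition in terms of polynomials. -/
def DLoc {K : Type*} [Field K] (f q δ ε : K[X]) : Prop :=
  ∃ (h : K[X]) (c : K), c ≠ 0 ∧ Cls f (C c * δ) h ∧ Cls q (C c * ε) h

/-- The largest norm of a coefficient is `1`. -/
def Prim (p : ℕ) [Fact p.Prime] (h : ℚ_[p][X]) : Prop :=
  (∀ i, ‖h.coeff i‖ ≤ 1) ∧ ∃ i, ‖h.coeff i‖ = 1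

/-- The local condition at `p` for the scaled classes. -/
def ULoc (p : ℕ) [Fact p.Prime] (f q δ ε : ℚ_[p][X]) : Prop :=
  ∃ h : ℚ_[p][X], Prim p h ∧ Cls f δ h ∧ Cls q ε h

/-- The local condition at `0`, a common root modulo `l`, fails. -/
def Bad0 {n m : ℕ} (l : ℕ) (A B : Matrix (Fin n) (Fin n) ℤ) (A' B' : Matrix (Fin m) (Fin m) ℤ) :
    Prop :=
  (l : ℤ) ∣ B.det ∧ (l : ℤ) ∣ B'.det ∧ ¬ (l : ℤ) ∣ (B.adjugate * A).trace ∧
    ¬ (l : ℤ) ∣ (B'.adjugate * A').trace ∧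
    ¬ (l : ℤ) ^ 2 ∣ B.det * (B'.adjugate * A').trace - B'.det * (B.adjugate * A).trace ∧
    ∃ _h : Fact l.Prime, ∃ i j,
      legendreSym l ((-1) ^ ((n + m) / 2) * (B.adjugate i i * B'.adjugate j j)) = -1

/-- The local condition at the prime `l` fails for the two pairs, at a common root `t` modulo `l` of
their characteristic polynomials. -/
def Bad {n m : ℕ} (l : ℕ) (A B : Matrix (Fin n) (Fin n) ℤ) (A' B' : Matrix (Fin m) (Fin m) ℤ) :
    Prop :=
  ∃ t : ℤ, Bad0 l A (B - t • A) A' (B' - t • A')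

end Stoll308.DQ
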