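import Pool.Agent.Work.MP_308fa9_nt.DQ.Basic
import Pool.Agent.Work.MP_308fa9_nt.SC.Scale

set_option autoImplicit false

/-!
Counting pairs.
-/

namespace Stoll308.DQ

open Polynomial Finset BF SC

lemma cnt_mono {n m : ℕ} {P Q : (Fin (n + 1) → ℤ) → (Fin (m + 1) → ℤ) → Prop} (H : ℕ)
    (h : ∀ (a : Fin (n + 1) → ℤ) (b : Fin (m + 1) → ℤ), (∀ i, |a i| ≤ (H : ℤ)) →
      (∀ i, |b i| ≤ (H : ℤ)) → P a b → Q a b) : cnt n m P H ≤ cnt n m Q H := by
  classical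
  unfold cnt
  apply card_le_card
  intro x hx
  simp only [mem_filter, mem_product, Fintype.mem_piFinset, mem_Icc] at hx ⊢
  exact ⟨hx.1, h x.1 x.2 (fun i => abs_le.2 (hx.1.1 i)) (fun i => abs_le.2 (hx.1.2 i)) hx.2⟩

lemma cnt_or {n m : ℕ} (P Q : (Fin (n + 1) → ℤ) → (Fin (m + 1) → ℤ) → Prop) (H : ℕ) :
    cnt n m (fun a b => P a b ∨ Q a b) H ≤ cnt n m P H + cnt n m Q H := by
  classical
  unfold cnt
  refine le_trans (card_le_card ?_) (card_union_le _ _)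
  intro t ht
  simp only [mem_filter, mem_union] at ht ⊢
  rcases ht.2 with h | h
  · exact Or.inl ⟨ht.1, h⟩
  · exact Or.inr ⟨ht.1, h⟩

/-- The number of vectors. -/
lemma card_box (n H : ℕ) :
    ((Fintype.piFinset fun _ : Fin (n + 1) => Icc (-(H : ℤ)) (H : ℤ)).card : ℝ) =
      (2 * (H : ℝ) + 1) ^ (n + 1) := by
  rw [Fintype.card_piFinset, prod_const, card_univ, Fintype.card_fin, Int.card_Icc]
  push_cast
  congr 1
  have h : (((H : ℤ) + 1 - -(H : ℤ)).toNat : ℤ) = 2 * H + 1 := by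
    rw [Int.toNat_of_nonneg (by omega)]
    ring
  exact_mod_cast congrArg (Int.cast : ℤ → ℝ) h

lemma cnt_fst {n m : ℕ} (P : (Fin (n + 1) → ℤ) → Prop) (H : ℕ) :
    (cnt n m (fun a _ => P a) H : ℝ) = (BF.cnt n P H : ℝ) * (2 * (H : ℝ) + 1) ^ (m + 1) := by
  classical
  rw [← card_box m H]
  unfold cnt BF.cnt
  rw [← Nat.cast_mul, ← card_product]
  congr 2
  ext x
  simp only [mem_filter, mem_product]
  tauto

lemma cnt_snd {n m : ℕ} (P : (Fin (m + 1) → ℤ) → Prop) (H : ℕ) :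
    (cnt n m (fun _ b => P b) H : ℝ) = (2 * (H : ℝ) + 1) ^ (n + 1) * (BF.cnt m P H : ℝ) := by
  classical
  rw [← card_box n H]
  unfold cnt BF.cnt
  rw [← Nat.cast_mul, ← card_product]
  congr 2
  ext x
  simp only [mem_filter, mem_product]
  tauto

/-- Pairs, scaled by `N²` and `N'²`. -/
lemma cnt_scale {n m : ℕ} (P P' : (Fin (n + 1) → ℤ) → (Fin (m + 1) → ℤ) → Prop) (N N' : ℕ)
    (hN : 0 < N) (hN' : 0 < N') (H : ℕ) (R : ℝ)
    (hP : ∀ a b, P a b → P' (sc N a) (sc N' b))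
    (h : ∀ T : Finset ((Fin (n + 1) → ℤ) × (Fin (m + 1) → ℤ)), (∀ x ∈ T, P' x.1 x.2) →
      (T.card : ℝ) ≤ R) :
    (cnt n m P H : ℝ) ≤ R := by
  classical
  unfold cnt
  have hinj : ∀ {k : ℕ} {N : ℕ}, 0 < N → Function.Injective (sc (n := k) N) := by
    intro k N hN a b hab
    funext i
    have h1 := congrFun hab i
    unfold sc at h1
    exact mul_left_cancel₀ (pow_ne_zero 2 (by exact_mod_cast hN.ne')) h1
  have hinj2 : Function.Injective (Prod.map (sc (n := n) N) (sc (n := m) N')) :=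
    (hinj hN).prodMap (hinj hN')
  rw [← card_image_of_injective _ hinj2]
  apply h
  intro x hx
  obtain ⟨y, hy, rfl⟩ := mem_image.1 hx
  exact hP y.1 y.2 (mem_filter.1 hy).2

lemma cnt_exists {n m : ℕ} (Q : ℕ → ℕ → (Fin (n + 1) → ℤ) → (Fin (m + 1) → ℤ) → Prop)
    (M M' H : ℕ) :
    cnt n m (fun a b => ∃ N N', 0 < N ∧ N ≤ M ∧ 0 < N' ∧ N' ≤ M' ∧ Q N N' a b) H ≤
      ∑ N ∈ Icc 1 M, ∑ N' ∈ Icc 1 M', cnt n m (Q N N') H := by
  classical
  unfold cnt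
  rw [← sum_product']
  refine le_trans (card_le_card ?_) (card_biUnion_le (s := Icc 1 M ×ˢ Icc 1 M'))
  intro a ha
  simp only [mem_filter, mem_biUnion, mem_Icc, mem_product] at ha ⊢
  obtain ⟨h1, N, N', h2, h3, h4, h5, h6⟩ := ha
  exact ⟨(N, N'), ⟨⟨h2, h3⟩, ⟨h4, h5⟩⟩, h1, h6⟩

end Stoll308.DQ
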