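import Pool.Agent.Work.MP_308fa9_nt.DQ.BadB
import Pool.Agent.Work.MP_308fa9_nt.BF.Cube

set_option autoImplicit false

/-!
Few quadruples of matrices of a large box satisfy the local conditions at all primes up to `z`.
-/

namespace Stoll308.DQ

open Finset Matrix BG BF

open Classical in
theorem cube_small {n m : ℕ} (hn : 4 ≤ n) (he : Even n) (hm : 4 ≤ m) (hem : Even m) (ε : ℝ)
    (hε : 0 < ε) :
    ∃ (z : ℕ) (D₀ : ℝ), ∀ D D' : ℝ, D₀ ≤ D → D₀ ≤ D' →
      (((Fintype.piFinset fun i : (Ix n ⊕ Ix n) ⊕ (Ix m ⊕ Ix m) =>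
          Icc (-⌊Sum.elim (fun _ => D) (fun _ => D') i⌋)
            ⌊Sum.elim (fun _ => D) (fun _ => D') i⌋).filter
        fun v => ∀ l ∈ Icc 5 z, l.Prime → ¬ Bad l (symM fun p => v (Sum.inl (Sum.inl p)))
          (symM fun p => v (Sum.inl (Sum.inr p))) (symM fun p => v (Sum.inr (Sum.inl p)))
          (symM fun p => v (Sum.inr (Sum.inr p)))).card : ℝ) ≤
        ε * (D ^ (n * (n + 1)) * D' ^ (m * (m + 1))) := by
  set N₁ : ℕ := n * (n + 1) with hN₁
  set N₂ : ℕ := m * (m + 1) with hN₂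
  have hcard₁ : Fintype.card (Ix n ⊕ Ix n) = N₁ := by
    rw [Fintype.card_sum, cube_ix n, ← two_mul, hN₁,
      Nat.mul_div_cancel' (Nat.even_mul_succ_self n).two_dvd]
  have hcard₂ : Fintype.card (Ix m ⊕ Ix m) = N₂ := by
    rw [Fintype.card_sum, cube_ix m, ← two_mul, hN₂,
      Nat.mul_div_cancel' (Nat.even_mul_succ_self m).two_dvd]
  have hcard : Fintype.card ((Ix n ⊕ Ix n) ⊕ (Ix m ⊕ Ix m)) = N₁ + N₂ := by
    rw [Fintype.card_sum, hcard₁, hcard₂]
  have hN1 : 1 ≤ N₁ + N₂ := by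
    have : 1 ≤ N₁ := by rw [hN₁]; nlinarith
    omega
  set B : ℝ := n * 2 ^ (2 * n + 2 * m + 7) with hB
  have hnR : (4 : ℝ) ≤ n := by exact_mod_cast hn
  have hB1 : 1 ≤ B := by
    have h1 : (1 : ℝ) ≤ 2 ^ (2 * n + 2 * m + 7) := one_le_pow₀ (by norm_num)
    rw [hB]
    nlinarith
  have hB0 : 0 < B := by linarith
  obtain ⟨z, hz⟩ := cube_sum 1 one_ne_zero (B * Real.log (3 ^ (N₁ + N₂) / ε))
  set S := cubeP 1 z with hS
  have hSmem : ∀ l ∈ S, 5 ≤ l ∧ l.Prime := by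
    intro l hl
    rw [hS, cubeP, mem_filter, mem_Icc] at hl
    exact ⟨hl.1.1, hl.2.1⟩
  set M : ℝ := ∏ l ∈ S, ((l ^ 2 : ℕ) : ℝ) with hM
  have hM0 : 0 ≤ M := Finset.prod_nonneg fun l _ => by positivity
  refine ⟨z, M + 1, fun D D' hD hD' => ?_⟩
  have key : ∀ x : ℝ, M + 1 ≤ x →
      (((2 * ⌊x⌋ + 1).toNat : ℕ) : ℤ) = 2 * ⌊x⌋ + 1 ∧
        (((2 * ⌊x⌋ + 1).toNat : ℕ) : ℝ) + M ≤ 3 * x := by
    intro x hx
    have hfl : 0 ≤ ⌊x⌋ := Int.floor_nonneg.2 (by linarith)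
    have hLz : (((2 * ⌊x⌋ + 1).toNat : ℕ) : ℤ) = 2 * ⌊x⌋ + 1 := Int.toNat_of_nonneg (by omega)
    refine ⟨hLz, ?_⟩
    have h1 : (((2 * ⌊x⌋ + 1).toNat : ℕ) : ℝ) = 2 * (⌊x⌋ : ℝ) + 1 := by exact_mod_cast hLz
    have h2 := Int.floor_le x
    linarith
  have hpow : ∀ l : ℕ, 5 ≤ l → 1 / (B * (l : ℝ)) ≤ 1 := by
    intro l h5
    have h6 : (5 : ℝ) ≤ l := by exact_mod_cast h5
    rw [div_le_one (by positivity)]
    nlinarith
  have hbox := cube_box (ι := (Ix n ⊕ Ix n) ⊕ (Ix m ⊕ Ix m)) S (fun l => l ^ 2)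
    (fun l hl => pow_pos (hSmem l hl).2.pos 2)
    (fun l hl l' hl' hne => Nat.Coprime.pow 2 2
      ((Nat.coprime_primes (hSmem l hl).2 (hSmem l' hl').2).2 hne))
    (fun l v => Bad l (symM fun p => v (Sum.inl (Sum.inl p)))
      (symM fun p => v (Sum.inl (Sum.inr p))) (symM fun p => v (Sum.inr (Sum.inl p)))
      (symM fun p => v (Sum.inr (Sum.inr p))))
    (fun l _ t t' h => bad_congr l t t' h)
    (fun l => 1 / (B * (l : ℝ)))
    (fun l hl => hpow l (hSmem l hl).1)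
    (fun l hl => by
      have h1 := bad_count hn he hm hem l (hSmem l hl).2 (hSmem l hl).1
      have hl0 : (l : ℝ) ≠ 0 := by exact_mod_cast (hSmem l hl).2.ne_zero
      have h2 : (1 / (B * (l : ℝ))) * (((l ^ 2 : ℕ) : ℝ)) ^
            Fintype.card ((Ix n ⊕ Ix n) ⊕ (Ix m ⊕ Ix m)) =
          (l : ℝ) ^ (2 * (n * (n + 1) + m * (m + 1)) - 1) / (n * 2 ^ (2 * n + 2 * m + 7)) := by
        rw [hcard, ← hN₁, ← hN₂]
        push_cast
        rw [← pow_mul]
        obtain ⟨q, hq⟩ : ∃ q, 2 * (N₁ + N₂) = q + 1 := ⟨2 * (N₁ + N₂) - 1, by omega⟩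
        rw [hq, Nat.add_sub_cancel, ← hB, pow_succ]
        field_simp
      rw [h2]
      refine h1.trans (Nat.cast_le.2 (Finset.card_le_card ?_))
      intro t ht
      exact (@Finset.mem_filter _ _ (_) _ _).2
        ⟨@Finset.mem_univ _ (_) _, ((@Finset.mem_filter _ _ (_) _ _).1 ht).2⟩)
    (fun i => -⌊Sum.elim (fun _ => D) (fun _ => D') i⌋)
    (fun i => (2 * ⌊Sum.elim (fun _ => D) (fun _ => D') i⌋ + 1).toNat)
  refine le_trans (Nat.cast_le.2 (Finset.card_le_card ?_)) (hbox.trans ?_)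
  · intro t ht
    have ht1 := (@Finset.mem_filter _ _ (_) _ _).1 ht
    refine (@Finset.mem_filter _ _ (_) _ _).2 ⟨Fintype.mem_piFinset.2 fun i => ?_, fun l hl => ?_⟩
    · have h1 := Fintype.mem_piFinset.1 ht1.1 i
      rw [mem_Icc] at h1
      have h2 : (((2 * ⌊Sum.elim (fun _ => D) (fun _ => D') i⌋ + 1).toNat : ℕ) : ℤ) =
          2 * ⌊Sum.elim (fun _ => D) (fun _ => D') i⌋ + 1 := by
        rcases i with i | i
        · exact (key D hD).1
        · exact (key D' hD').1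
      rw [mem_Ico, h2]
      constructor
      · exact h1.1
      · have h3 := h1.2
        omega
    · have h1 := hl
      rw [hS, cubeP, mem_filter] at h1
      exact ht1.2 l h1.1 h1.2.1
  have h1 : (∏ i : (Ix n ⊕ Ix n) ⊕ (Ix m ⊕ Ix m),
      ((((2 * ⌊Sum.elim (fun _ => D) (fun _ => D') i⌋ + 1).toNat : ℕ) : ℝ) + M)) ≤
      (3 * D) ^ N₁ * (3 * D') ^ N₂ := by
    rw [Fintype.prod_sum_type]
    refine mul_le_mul ?_ ?_ (Finset.prod_nonneg fun i _ => by positivity)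
      (pow_nonneg (by linarith) _)
    · simp only [Sum.elim_inl]
      rw [Finset.prod_const, Finset.card_univ, hcard₁]
      exact pow_le_pow_left₀ (by positivity) (key D hD).2 _
    · simp only [Sum.elim_inr]
      rw [Finset.prod_const, Finset.card_univ, hcard₂]
      exact pow_le_pow_left₀ (by positivity) (key D' hD').2 _
  have h2 : ∏ l ∈ S, (1 - 1 / (B * (l : ℝ))) ≤ ε / 3 ^ (N₁ + N₂) := by
    calc ∏ l ∈ S, (1 - 1 / (B * (l : ℝ))) ≤ ∏ l ∈ S, Real.exp (-(1 / (B * (l : ℝ)))) := by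
          refine Finset.prod_le_prod (fun l hl => ?_) (fun l _ => ?_)
          · have := hpow l (hSmem l hl).1
            linarith
          · have := Real.add_one_le_exp (-(1 / (B * (l : ℝ))))
            linarith
      _ = Real.exp (-((∑ l ∈ S, (1 : ℝ) / l) / B)) := by
          rw [← Real.exp_sum]
          congr 1
          rw [Finset.sum_neg_distrib, Finset.sum_div]
          congr 1
          refine Finset.sum_congr rfl fun l _ => ?_
          rw [div_div, mul_comm]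
      _ ≤ Real.exp (-(Real.log (3 ^ (N₁ + N₂) / ε))) := by
          apply Real.exp_le_exp.2
          rw [neg_le_neg_iff, le_div_iff₀ hB0, mul_comm]
          exact hz
      _ = ε / 3 ^ (N₁ + N₂) := by
          rw [Real.exp_neg, Real.exp_log (by positivity), inv_div]
  have h3 : 0 ≤ ∏ l ∈ S, (1 - 1 / (B * (l : ℝ))) :=
    Finset.prod_nonneg fun l hl => by
      have := hpow l (hSmem l hl).1
      linarith
  have hD0 : 0 ≤ D := by linarith
  have hD0' : 0 ≤ D' := by linarith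
  calc (∏ i : (Ix n ⊕ Ix n) ⊕ (Ix m ⊕ Ix m),
        ((((2 * ⌊Sum.elim (fun _ => D) (fun _ => D') i⌋ + 1).toNat : ℕ) : ℝ) + M)) *
          ∏ l ∈ S, (1 - 1 / (B * (l : ℝ)))
      ≤ ((3 * D) ^ N₁ * (3 * D') ^ N₂) * (ε / 3 ^ (N₁ + N₂)) :=
        mul_le_mul h1 h2 h3 (by positivity)
    _ = ε * (D ^ N₁ * D' ^ N₂) := by
        rw [mul_pow, mul_pow, pow_add]
        field_simp

end Stoll308.DQ
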