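import Pool.Agent.Work.MP_308fa9_nt.DQ.ElsB

set_option autoImplicit false

/-!
The primes `p > h` for which the first polynomial is not squarefree.
-/

namespace Stoll308.DQ

open Polynomial Finset BG BF

namespace ElsC

/-- The resultant of `f` and `f'` over `ℤ`. -/
noncomputable def res {n : ℕ} (a : Fin (n + 1) → ℤ) : ℤ :=
  resultant (GZ ℤ a) (derivative (GZ ℤ a)) n (n - 1)

lemma gz_map' {R : Type*} [CommRing R] {n : ℕ} (a : Fin (n + 1) → ℤ) :
    (GZ ℤ a).map (Int.castRingHom R) = GZ R a := by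
  simp [gpol, Polynomial.map_sum]

lemma gz_deg {K : Type*} [Field K] {n : ℕ} (a : Fin (n + 1) → ℤ) (h0 : ((a 0 : ℤ) : K) ≠ 0) :
    (GZ K a).natDegree = n := by
  apply natDegree_eq_of_le_of_coeff_ne_zero (BF.Els.gz_natDegree_le _)
  rw [BF.Els.gz_coeff _ le_rfl]
  have : (⟨n - n, by omega⟩ : Fin (n + 1)) = 0 := by
    apply Fin.ext
    simp
  rw [this]
  exact h0

lemma gz_deriv_deg {K : Type*} [Field K] {n : ℕ} (hn : 0 < n) (a : Fin (n + 1) → ℤ)
    (h0 : ((a 0 : ℤ) : K) ≠ 0) (hn0 : (n : K) ≠ 0) :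
    (derivative (GZ K a)).natDegree = n - 1 := by
  apply natDegree_eq_of_le_of_coeff_ne_zero
  · exact (natDegree_derivative_le _).trans (Nat.sub_le_sub_right (BF.Els.gz_natDegree_le _) 1)
  · rw [coeff_derivative, Nat.sub_add_cancel hn, BF.Els.gz_coeff _ le_rfl]
    have : (⟨n - n, by omega⟩ : Fin (n + 1)) = 0 := by
      apply Fin.ext
      simp
    rw [this]
    apply mul_ne_zero h0
    have h1 : ((n - 1 : ℕ) : K) + 1 = (n : K) := by
      have h2 : ((n - 1 + 1 : ℕ) : K) = (n : K) := by rw [Nat.sub_add_cancel hn]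
      rw [← h2]
      push_cast
      ring
    rw [h1]
    exact hn0

lemma res_cast {K : Type*} [Field K] {n : ℕ} (hn : 0 < n) (a : Fin (n + 1) → ℤ)
    (h0 : ((a 0 : ℤ) : K) ≠ 0) (hn0 : (n : K) ≠ 0) :
    ((res a : ℤ) : K) = resultant (GZ K a) (derivative (GZ K a)) := by
  rw [gz_deg a h0, gz_deriv_deg hn a h0 hn0, ← gz_map' (R := K), derivative_map,
    resultant_map_map]
  rfl

lemma res_ne {n : ℕ} (hn : 0 < n) (a : Fin (n + 1) → ℤ) (h0 : a 0 ≠ 0)
    (hirr : Irreducible (GZ ℚ a)) : res a ≠ 0 := by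
  have h1 := res_cast (K := ℚ) hn a (by exact_mod_cast h0) (by exact_mod_cast hn.ne')
  have h2 : IsCoprime (GZ ℚ a) (derivative (GZ ℚ a)) := hirr.separable
  have h3 := resultant_ne_zero _ _ h2
  rw [← h1] at h3
  exact_mod_cast h3

lemma res_dvd {p : ℕ} [hp : Fact p.Prime] {n : ℕ} (hn : 0 < n) (a : Fin (n + 1) → ℤ)
    (h0 : ¬ (p : ℤ) ∣ a 0) (hnp : ¬ p ∣ n)
    (hsq : ¬ Squarefree (GZ (AlgebraicClosure (ZMod p)) a)) : (p : ℤ) ∣ res a := by
  have hC : CharP (AlgebraicClosure (ZMod p)) p := charP_of_injective_algebraMap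
    (algebraMap (ZMod p) (AlgebraicClosure (ZMod p))).injective p
  rw [← CharP.intCast_eq_zero_iff (AlgebraicClosure (ZMod p)) p,
    res_cast hn a ((CharP.intCast_eq_zero_iff _ p _).not.mpr h0)
      ((CharP.cast_eq_zero_iff _ p _).not.mpr hnp), resultant_eq_zero_iff]
  refine ⟨Or.inl ?_, ?_⟩
  · intro h1
    have h2 := gz_deg (K := AlgebraicClosure (ZMod p)) a
      ((CharP.intCast_eq_zero_iff _ p _).not.mpr h0)
    rw [h1, natDegree_zero] at h2
    omega
  · intro h1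
    exact hsq (PerfectField.separable_iff_squarefree.mp h1)

lemma res_bound {n : ℕ} (hn : 0 < n) (a : Fin (n + 1) → ℤ) (B : ℤ) (hB : ∀ i, |a i| ≤ B) :
    |res a| ≤ ((n + (n - 1)).factorial : ℤ) * (n * B) ^ (n + (n - 1)) := by
  have hB0 : 0 ≤ B := (abs_nonneg _).trans (hB 0)
  have hn1 : (1 : ℤ) ≤ n := by exact_mod_cast hn
  have hnB : B ≤ n * B := by nlinarith
  have hc : ∀ j, |(GZ ℤ a).coeff j| ≤ B := by
    intro j
    by_cases hj : j ≤ n
    · rw [BF.Els.gz_coeff _ hj]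
      exact hB _
    · rw [BF.Els.gz_coeff_gt _ (by omega), abs_zero]
      exact hB0
  have hc' : ∀ j, |(derivative (GZ ℤ a)).coeff j| ≤ n * B := by
    intro j
    rw [coeff_derivative]
    by_cases hj : j + 1 ≤ n
    · rw [abs_mul]
      have h1 : |((j : ℤ) + 1)| ≤ n := by
        rw [abs_of_nonneg (by positivity)]
        exact_mod_cast hj
      calc _ ≤ B * n := mul_le_mul (hc _) h1 (abs_nonneg _) hB0
        _ = n * B := mul_comm _ _
    · rw [BF.Els.gz_coeff_gt _ (by omega), zero_mul, abs_zero]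
      positivity
  have h1 : AbsoluteValue.abs (sylvester (GZ ℤ a) (derivative (GZ ℤ a)) n (n - 1)).det ≤
      (Fintype.card (Fin (n + (n - 1)))).factorial •
        ((n : ℤ) * B) ^ (Fintype.card (Fin (n + (n - 1)))) := by
    apply Matrix.det_le
    intro i j
    rw [AbsoluteValue.abs_apply, sylvester, Matrix.of_apply]
    induction j using Fin.addCases with
    | left j =>
      rw [Fin.addCases_left]
      split_ifs
      · exact hc' _
      · rw [abs_zero]
        positivity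
    | right j =>
      rw [Fin.addCases_right]
      split_ifs
      · exact (hc _).trans hnB
      · rw [abs_zero]
        positivity
  rw [Fintype.card_fin, nsmul_eq_mul, AbsoluteValue.abs_apply] at h1
  exact h1

lemma co_abs {n h : ℕ} {M : ℕ} (hM : 0 < M) {t : Fin (n + 1) → ℤ} (ht : t ∈ BF.Els.box (n + 1) h)
    (i : Fin (n + 1)) : |BF.Els.co (M : ℤ) t i| ≤ M * (h + 1) := by
  have hMz : (1 : ℤ) ≤ (M : ℤ) := by exact_mod_cast hM
  have h1 := BF.Els.pos_of_box ht i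
  have h3 : (M : ℤ) * t i ≤ M * h := mul_le_mul_of_nonneg_left h1.2 (by linarith)
  have h4 : (0 : ℤ) ≤ M * t i := mul_nonneg (by linarith) (by linarith)
  unfold BF.Els.co
  rw [abs_le]
  constructor
  · split_ifs <;> nlinarith
  · split_ifs <;> nlinarith

lemma not_dvd_co {n h p M : ℕ} (hp : p.Prime) (hpM : ¬ p ∣ M) (hh : h < p)
    {t : Fin (n + 1) → ℤ} (ht : t ∈ BF.Els.box (n + 1) h) (hn : 0 < n) :
    ¬ (p : ℤ) ∣ BF.Els.co (M : ℤ) t 0 := by
  rw [BF.Els.co_lt _ _ (by rw [Fin.val_zero]; exact hn)]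
  intro h1
  rcases (Nat.prime_iff_prime_int.1 hp).dvd_or_dvd h1 with h2 | h2
  · exact hpM (by exact_mod_cast h2)
  · have h3 := BF.Els.pos_of_box ht 0
    have h4 := Int.le_of_dvd (by linarith [h3.1]) h2
    have h5 : (h : ℤ) < p := by exact_mod_cast hh
    linarith [h3.2]

end ElsC

open ElsC in
/-- The number of primes `> h` modulo which an irreducible polynomial is not squarefree is
bounded. -/
theorem disc_primes (n : ℕ) (hn : 4 ≤ n) (M : ℕ) (hM : 0 < M) :
    ∃ h₀ : ℕ, ∀ h : ℕ, h₀ ≤ h → ∀ t ∈ BF.Els.box (n + 1) h,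
      Irreducible (GZ ℚ (BF.Els.co (M : ℤ) t)) →
      ∃ S : Finset ℕ, S.card ≤ 2 * n ∧ ∀ (p : ℕ) [Fact p.Prime], h < p → ¬ p ∣ M →
        ¬ Squarefree (GZ (AlgebraicClosure (ZMod p)) (BF.Els.co (M : ℤ) t)) → p ∈ S := by
  refine ⟨(n + (n - 1)).factorial * (2 * n * M) ^ (n + (n - 1)) + n + 1, ?_⟩
  intro h hh t ht hirr
  have hh1 : 1 ≤ h := by omega
  set a := BF.Els.co (M : ℤ) t with ha
  have ha0 : a 0 ≠ 0 := by
    rw [ha, BF.Els.co_lt _ _ (by rw [Fin.val_zero]; omega)]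
    apply mul_ne_zero (by exact_mod_cast hM.ne')
    have := (BF.Els.pos_of_box ht 0).1
    omega
  have hne := res_ne (by omega) a ha0 hirr
  refine ⟨(res a).natAbs.primeFactors.filter fun p => h < p, ?_, ?_⟩
  · apply BF.Els.card_large (Int.natAbs_pos.mpr hne)
    have h1 := res_bound (by omega) a (M * (h + 1)) (co_abs hM ht)
    have h2 : ((res a).natAbs : ℤ) < ((h ^ (2 * n) : ℕ) : ℤ) := by
      rw [Int.natCast_natAbs]
      refine lt_of_le_of_lt h1 ?_
      have h3 : (n : ℤ) * (M * (h + 1)) ≤ (2 * n * M) * h := by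
        have : (1 : ℤ) ≤ h := by exact_mod_cast hh1
        have h4 : (0 : ℤ) ≤ (n : ℤ) * M := by positivity
        nlinarith
      have h5 : ((n + (n - 1)).factorial : ℤ) * (n * (M * (h + 1))) ^ (n + (n - 1)) ≤
          ((n + (n - 1)).factorial : ℤ) * ((2 * n * M) * h) ^ (n + (n - 1)) :=
        mul_le_mul_of_nonneg_left (pow_le_pow_left₀ (by positivity) h3 _) (by positivity)
      refine lt_of_le_of_lt h5 ?_
      rw [mul_pow, ← mul_assoc]
      have h6 : (h ^ (2 * n) : ℕ) = h * h ^ (n + (n - 1)) := by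
        rw [← pow_succ']
        congr 1
        omega
      rw [h6]
      push_cast
      have h7 : (0 : ℤ) < (h : ℤ) ^ (n + (n - 1)) := by positivity
      apply mul_lt_mul_of_pos_right _ h7
      have h8 : (n + (n - 1)).factorial * (2 * n * M) ^ (n + (n - 1)) < h := by omega
      exact_mod_cast h8
    exact_mod_cast h2
  · intro p hp hhp hpM hsq
    rw [mem_filter, Nat.mem_primeFactors]
    have hpn : ¬ p ∣ n := by
      intro h1
      have := Nat.le_of_dvd (by omega) h1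
      omega
    have h1 := res_dvd (by omega) a (by
      rw [ha]
      exact not_dvd_co hp.out hpM hhp ht (by omega)) hpn hsq
    refine ⟨⟨hp.out, ?_, Int.natAbs_ne_zero.2 hne⟩, hhp⟩
    have := Int.natAbs_dvd_natAbs.2 h1
    rwa [Int.natAbs_natCast] at this

open Classical ElsC in
theorem card_E4 (n m : ℕ) (hn : 4 ≤ n) (hm : 4 ≤ m) (M : ℕ) (hM : 0 < M) :
    ∃ h₀ : ℕ, ∀ h : ℕ, h₀ ≤ h →
      (((BF.Els.box (n + 1) h ×ˢ BF.Els.box (m + 1) h).filter fun x =>
        Irreducible (GZ ℚ (BF.Els.co (M : ℤ) x.1)) ∧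
        ∃ (p : ℕ) (_ : Fact p.Prime), h < p ∧ p ≠ 2 ∧ ¬ p ∣ M ∧
          ¬ Squarefree (GZ (AlgebraicClosure (ZMod p)) (BF.Els.co (M : ℤ) x.1)) ∧
          Sq2 (AlgebraicClosure (ZMod p)) (BF.Els.co (M : ℤ) x.1)
            (BF.Els.co (M : ℤ) x.2)).card : ℝ) ≤
        8 * n * (h : ℝ) ^ (n + m) := by
  obtain ⟨h₀, hh₀⟩ := disc_primes n hn M hM
  refine ⟨h₀, fun h hh => ?_⟩
  have hfib := BG.Els.card_le_fiber ((BF.Els.box (n + 1) h ×ˢ BF.Els.box (m + 1) h).filter fun x =>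
        Irreducible (GZ ℚ (BF.Els.co (M : ℤ) x.1)) ∧
        ∃ (p : ℕ) (_ : Fact p.Prime), h < p ∧ p ≠ 2 ∧ ¬ p ∣ M ∧
          ¬ Squarefree (GZ (AlgebraicClosure (ZMod p)) (BF.Els.co (M : ℤ) x.1)) ∧
          Sq2 (AlgebraicClosure (ZMod p)) (BF.Els.co (M : ℤ) x.1)
            (BF.Els.co (M : ℤ) x.2)) (BF.Els.box (n + 1) h) Prod.fst (by
    intro x hx
    rw [mem_filter, mem_product] at hx
    exact hx.1.1) (8 * n * (h : ℝ) ^ (m - 1)) (by
    intro t ht
    by_cases hirr : Irreducible (GZ ℚ (BF.Els.co (M : ℤ) t))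
    swap
    · rw [filter_filter, filter_false_of_mem]
      · simp only [card_empty, Nat.cast_zero]
        positivity
      · rintro x - ⟨⟨h1, -⟩, rfl⟩
        exact hirr h1
    obtain ⟨S, hS, hSp⟩ := hh₀ h hh t ht hirr
    set S' := S.filter fun p => p.Prime ∧ h < p ∧ p ≠ 2 ∧ ¬ p ∣ M with hS'
    have hsub : (((BF.Els.box (n + 1) h ×ˢ BF.Els.box (m + 1) h).filter fun x =>
        Irreducible (GZ ℚ (BF.Els.co (M : ℤ) x.1)) ∧
        ∃ (p : ℕ) (_ : Fact p.Prime), h < p ∧ p ≠ 2 ∧ ¬ p ∣ M ∧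
          ¬ Squarefree (GZ (AlgebraicClosure (ZMod p)) (BF.Els.co (M : ℤ) x.1)) ∧
          Sq2 (AlgebraicClosure (ZMod p)) (BF.Els.co (M : ℤ) x.1)
            (BF.Els.co (M : ℤ) x.2)).filter fun x => x.1 = t) ⊆
        S'.biUnion fun p => (S3 n m (M : ℤ) h p).filter fun x => x.1 = t := by
      intro x hx
      rw [mem_filter, mem_filter] at hx
      obtain ⟨⟨hb, hirr', p, hp, hhp, hp2, hpM, hsq, hSq⟩, hxt⟩ := hx
      have hb' := mem_product.1 hb
      have hnd := not_dvd_co hp.out hpM hhp hb'.1 (by omega)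
      have hnd' := not_dvd_co hp.out hpM hhp hb'.2 (by omega)
      rw [mem_biUnion]
      refine ⟨p, ?_, ?_⟩
      · rw [hS', mem_filter]
        refine ⟨?_, hp.out, hhp, hp2, hpM⟩
        apply hSp p hhp hpM
        rw [← hxt]
        exact hsq
      · rw [mem_filter, S3, mem_filter]
        refine ⟨⟨hb, fun h1 => hnd' h1.1, hp, ?_, hSq⟩, hxt⟩
        intro h1
        have hC : CharP (AlgebraicClosure (ZMod p)) p := charP_of_injective_algebraMap
          (algebraMap (ZMod p) (AlgebraicClosure (ZMod p))).injective p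
        have h2 := gz_deg (K := AlgebraicClosure (ZMod p)) (BF.Els.co (M : ℤ) x.1)
          ((CharP.intCast_eq_zero_iff _ p _).not.mpr hnd)
        rw [h1, natDegree_zero] at h2
        omega
    have h1 : (((BF.Els.box (n + 1) h ×ˢ BF.Els.box (m + 1) h).filter fun x =>
        Irreducible (GZ ℚ (BF.Els.co (M : ℤ) x.1)) ∧
        ∃ (p : ℕ) (_ : Fact p.Prime), h < p ∧ p ≠ 2 ∧ ¬ p ∣ M ∧
          ¬ Squarefree (GZ (AlgebraicClosure (ZMod p)) (BF.Els.co (M : ℤ) x.1)) ∧
          Sq2 (AlgebraicClosure (ZMod p)) (BF.Els.co (M : ℤ) x.1)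
            (BF.Els.co (M : ℤ) x.2)).filter fun x => x.1 = t).card ≤
        ∑ p ∈ S', ((S3 n m (M : ℤ) h p).filter fun x => x.1 = t).card :=
      (card_le_card hsub).trans card_biUnion_le
    have h2 : ∀ p ∈ S', (((S3 n m (M : ℤ) h p).filter fun x => x.1 = t).card : ℝ) ≤
        4 * (h : ℝ) ^ (m - 1) := by
      intro p hp
      rw [hS', mem_filter] at hp
      obtain ⟨-, hpp, hhp, hp2, hpM⟩ := hp
      have h3 := card_fibre hm (M := (M : ℤ)) (h := h) hpp hp2
        (by exact_mod_cast hpM) t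
      refine h3.trans ?_
      have h4 : (h : ℝ) / p ≤ 1 := by
        rw [div_le_one (by exact_mod_cast hpp.pos)]
        exact_mod_cast hhp.le
      have h5 : (0 : ℝ) ≤ (h : ℝ) / p := by positivity
      have h6 : ((h : ℝ) / p + 1) ^ 2 ≤ 4 := by nlinarith
      have h7 : (0 : ℝ) ≤ (h : ℝ) ^ (m - 1) := by positivity
      nlinarith
    calc _ ≤ ((∑ p ∈ S', ((S3 n m (M : ℤ) h p).filter fun x => x.1 = t).card : ℕ) : ℝ) := by
          exact_mod_cast h1
      _ = ∑ p ∈ S', (((S3 n m (M : ℤ) h p).filter fun x => x.1 = t).card : ℝ) := by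
          push_cast
          rfl
      _ ≤ ∑ p ∈ S', 4 * (h : ℝ) ^ (m - 1) := sum_le_sum h2
      _ = S'.card * (4 * (h : ℝ) ^ (m - 1)) := by rw [sum_const, nsmul_eq_mul]
      _ ≤ (2 * n : ℕ) * (4 * (h : ℝ) ^ (m - 1)) := by
          apply mul_le_mul_of_nonneg_right _ (by positivity)
          exact_mod_cast (card_le_card (filter_subset _ _)).trans hS
      _ = 8 * n * (h : ℝ) ^ (m - 1) := by
          push_cast
          ring)
  refine hfib.trans (le_of_eq ?_)
  rw [BF.Els.card_box]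
  push_cast
  have h1 : (h : ℝ) ^ (n + m) = (h : ℝ) ^ (n + 1) * (h : ℝ) ^ (m - 1) := by
    rw [← pow_add]
    congr 1
    omega
  rw [h1]
  ring

end Stoll308.DQ
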