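import Pool.Agent.Work.MP_308fa9_nt.DQ.ElsB

set_option autoImplicit false

/-!
The primes `p > h` for which the first polynomial is squarefree: then it divides the second one.
-/

namespace Stoll308.DQ

open Polynomial Finset BG BF

/-- The determinant of the shifts of `a` and of the vector `b`: the columns `0, ..., m - n`
and `c`. -/
def RD {n m : ℕ} (a : Fin (n + 1) → ℤ) (b : Fin (m + 1) → ℤ) (c : ℕ) : ℤ :=
  (Matrix.of fun (i j : Fin (m - n + 2)) =>
    if (i : ℕ) < m - n + 1 then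
      (if (j : ℕ) < m - n + 1 then
        (if (i : ℕ) ≤ j then BG.Els.bet a ((j : ℕ) - i + 1) else 0) else
        BG.Els.bet a (c - i + 1)) else
      (if (j : ℕ) < m - n + 1 then BG.Els.bet b ((j : ℕ) + 1) else BG.Els.bet b (c + 1))).det

lemma cast_bet {K : Type*} [Field K] {n : ℕ} (a : Fin (n + 1) → ℤ) (s : ℕ) :
    ((BG.Els.bet a (s + 1) : ℤ) : K) = if s ≤ n then (GZ K a).coeff (n - s) else 0 := by
  unfold BG.Els.bet
  by_cases h : s ≤ n
  · rw [dif_pos (by omega), if_pos h, BF.Els.gz_coeff _ (Nat.sub_le _ _)]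
    congr 2
    apply Fin.ext
    simp only
    omega
  · rw [dif_neg (by omega), if_neg h, Int.cast_zero]

/-- The coefficients of a product. -/
lemma coeff_shift {K : Type*} [Field K] {n m : ℕ} (hnm : n ≤ m) (a : Fin (n + 1) → ℤ) (k : K[X])
    (hk : k.natDegree ≤ m - n) (s : ℕ) (hs : s ≤ m) :
    (GZ K a * k).coeff (m - s) = ∑ i ∈ range (m - n + 1), k.coeff (m - n - i) *
      (if i ≤ s then ((BG.Els.bet a (s - i + 1) : ℤ) : K) else 0) := by
  have h1 : (GZ K a * k).coeff (m - s) = ∑ i ∈ range (m - n + 1), k.coeff i *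
      (if i ≤ m - s then (GZ K a).coeff (m - s - i) else 0) := by
    conv_lhs => rw [as_sum_range_C_mul_X_pow' k (Nat.lt_succ_of_le hk)]
    rw [mul_sum, finsetSum_coeff]
    apply sum_congr rfl
    intro i _
    rw [mul_left_comm, coeff_C_mul, coeff_mul_X_pow']
  rw [h1, ← sum_range_reflect]
  apply sum_congr rfl
  intro i hi
  rw [mem_range] at hi
  rw [show m - n + 1 - 1 - i = m - n - i by omega]
  congr 1
  by_cases his : i ≤ s
  · rw [if_pos his, cast_bet]
    by_cases h2 : s - i ≤ n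
    · rw [if_pos h2, if_pos (by omega)]
      congr 1
      omega
    · rw [if_neg h2, if_neg (by omega)]
  · rw [if_neg his]
    split_ifs
    · exact BF.Els.gz_coeff_gt _ (by omega)
    · rfl

/-- If `f` divides `q` modulo `p` then `p` divides the determinants. -/
theorem RD_dvd {n m : ℕ} (hn : 4 ≤ n) (hnm : n ≤ m) (p : ℕ) [Fact p.Prime]
    (a : Fin (n + 1) → ℤ) (b : Fin (m + 1) → ℤ)
    (h : GZ (AlgebraicClosure (ZMod p)) a ∣ GZ (AlgebraicClosure (ZMod p)) b) (c : ℕ)
    (hc : m - n + 1 ≤ c) (hcm : c ≤ m) (ha : ¬ (p : ℤ) ∣ a 0) : (p : ℤ) ∣ RD a b c := by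
  obtain ⟨k, hk⟩ := h
  have ha' : ((a 0 : ℤ) : AlgebraicClosure (ZMod p)) ≠ 0 := by
    rw [Ne, BG.PEls.cast_eq_zero (p := p)]
    exact ha
  have hfn : (GZ (AlgebraicClosure (ZMod p)) a).natDegree = n := by
    apply natDegree_eq_of_le_of_coeff_ne_zero (BF.Els.gz_natDegree_le _)
    rw [BF.Els.gz_coeff _ le_rfl]
    convert ha' using 3
    apply Fin.ext
    simp
  have hf0 : GZ (AlgebraicClosure (ZMod p)) a ≠ 0 := by
    intro h0
    rw [h0, natDegree_zero] at hfn
    omega
  have hkd : k.natDegree ≤ m - n := by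
    by_cases hk0 : k = 0
    · rw [hk0, natDegree_zero]
      omega
    · have h1 := congrArg natDegree hk
      rw [natDegree_mul hf0 hk0, hfn] at h1
      have h2 : (GZ (AlgebraicClosure (ZMod p)) b).natDegree ≤ m := BF.Els.gz_natDegree_le _
      omega
  have key : ∀ s ≤ m, ((BG.Els.bet b (s + 1) : ℤ) : AlgebraicClosure (ZMod p)) =
      ∑ i ∈ range (m - n + 1), k.coeff (m - n - i) *
        (if i ≤ s then ((BG.Els.bet a (s - i + 1) : ℤ) : AlgebraicClosure (ZMod p)) else 0) := by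
    intro s hs
    rw [← coeff_shift hnm a k hkd s hs, ← hk, cast_bet, if_pos hs]
  rw [← BG.PEls.cast_eq_zero (K := AlgebraicClosure (ZMod p)), RD]
  have e1 := RingHom.map_det (Int.castRingHom (AlgebraicClosure (ZMod p)))
    (Matrix.of fun (i j : Fin (m - n + 2)) =>
      if (i : ℕ) < m - n + 1 then
        (if (j : ℕ) < m - n + 1 then
          (if (i : ℕ) ≤ j then BG.Els.bet a ((j : ℕ) - i + 1) else 0) else
          BG.Els.bet a (c - i + 1)) else
        (if (j : ℕ) < m - n + 1 then BG.Els.bet b ((j : ℕ) + 1) else BG.Els.bet b (c + 1)))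
  rw [eq_intCast] at e1
  rw [e1, ← Matrix.exists_vecMul_eq_zero_iff]
  refine ⟨fun i => if (i : ℕ) < m - n + 1 then k.coeff (m - n - i) else -1, ?_, ?_⟩
  · intro h0
    have h1 := congrFun h0 (Fin.last _)
    simp at h1
  · funext j
    rw [Matrix.vecMul, dotProduct, Fin.sum_univ_castSucc]
    simp only [RingHom.mapMatrix_apply, Matrix.map_apply, Matrix.of_apply, Fin.val_castSucc,
      Fin.val_last, lt_irrefl, if_false, Pi.zero_apply]
    have h2 : ∀ i : Fin (m - n + 1), (i : ℕ) < m - n + 1 := fun i => i.2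
    simp only [h2, if_true]
    by_cases hj : (j : ℕ) < m - n + 1
    · simp only [hj, if_true, eq_intCast]
      rw [key j (by omega), Fin.sum_univ_eq_sum_range (fun i => k.coeff (m - n - i) *
        (((if i ≤ (j : ℕ) then BG.Els.bet a ((j : ℕ) - i + 1) else 0 : ℤ)) :
          AlgebraicClosure (ZMod p))) (m - n + 1), neg_one_mul, ← sub_eq_add_neg, sub_eq_zero]
      apply sum_congr rfl
      intro i _
      split_ifs
      · rfl
      · rw [Int.cast_zero]
    · simp only [hj, if_false, eq_intCast]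
      rw [key c hcm, Fin.sum_univ_eq_sum_range (fun i => k.coeff (m - n - i) *
        ((BG.Els.bet a (c - i + 1) : ℤ) : AlgebraicClosure (ZMod p))) (m - n + 1), neg_one_mul,
        ← sub_eq_add_neg, sub_eq_zero]
      apply sum_congr rfl
      intro i hi
      rw [mem_range] at hi
      rw [if_pos (by omega)]

/-- Two matrices which differ only in the last entry. -/
lemma det_sub_of_last {N : ℕ} (M M' : Matrix (Fin (N + 1)) (Fin (N + 1)) ℤ)
    (h : ∀ i j, i ≠ Fin.last N ∨ j ≠ Fin.last N → M i j = M' i j) :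
    M.det - M'.det = (M (Fin.last N) (Fin.last N) - M' (Fin.last N) (Fin.last N)) *
      (M.submatrix Fin.castSucc Fin.castSucc).det := by
  have e : ∀ M : Matrix (Fin (N + 1)) (Fin (N + 1)) ℤ, M.det =
      (∑ j : Fin N, (-1) ^ (N + (j : ℕ)) * M (Fin.last N) j.castSucc *
        (M.submatrix (Fin.last N).succAbove j.castSucc.succAbove).det) +
      M (Fin.last N) (Fin.last N) * (M.submatrix Fin.castSucc Fin.castSucc).det := by
    intro M
    rw [Matrix.det_succ_row _ (Fin.last _), Fin.sum_univ_castSucc]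
    simp only [Fin.val_castSucc, Fin.val_last, Fin.succAbove_last]
    rw [← two_mul, pow_mul, neg_one_sq, one_pow, one_mul]
  rw [e M, e M']
  have h1 : (M.submatrix Fin.castSucc Fin.castSucc) = (M'.submatrix Fin.castSucc Fin.castSucc) := by
    ext i j
    simp only [Matrix.submatrix_apply]
    exact h _ _ (Or.inl (Fin.castSucc_lt_last i).ne)
  have h2 : ∀ j : Fin N, (-1) ^ (N + (j : ℕ)) * M (Fin.last N) j.castSucc *
        (M.submatrix (Fin.last N).succAbove j.castSucc.succAbove).det =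
      (-1) ^ (N + (j : ℕ)) * M' (Fin.last N) j.castSucc *
        (M'.submatrix (Fin.last N).succAbove j.castSucc.succAbove).det := by
    intro j
    rw [h _ _ (Or.inr (Fin.castSucc_lt_last j).ne)]
    congr 2
    ext i j'
    simp only [Matrix.submatrix_apply, Fin.succAbove_last]
    exact h _ _ (Or.inl (Fin.castSucc_lt_last i).ne)
  rw [sum_congr rfl fun j _ => h2 j, h1]
  ring

/-- The coefficient `b_c` in the determinant. -/
theorem RD_sub {n m : ℕ} (hnm : n ≤ m) (a : Fin (n + 1) → ℤ) (b b' : Fin (m + 1) → ℤ) (c : ℕ)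
    (hc : m - n + 1 ≤ c) (hcm : c ≤ m)
    (h : ∀ i : Fin (m + 1), (i : ℕ) ≤ m - n → b i = b' i) :
    RD a b c - RD a b' c = a 0 ^ (m - n + 1) * (b ⟨c, by omega⟩ - b' ⟨c, by omega⟩) := by
  have hbet : ∀ (b : Fin (m + 1) → ℤ) (s : ℕ) (hs : s ≤ m), BG.Els.bet b (s + 1) =
      b ⟨s, by omega⟩ := fun b s hs => BF.Els.bet_eq b hs
  unfold RD
  rw [det_sub_of_last]
  · simp only [Matrix.of_apply, Fin.val_last, lt_irrefl, if_false]
    rw [hbet b c hcm, hbet b' c hcm, mul_comm]
    congr 1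
    rw [Matrix.det_of_isUpperTriangular]
    · refine (prod_congr rfl fun i _ => ?_).trans
        (show ∏ _i : Fin (m - n + 1), a 0 = a 0 ^ (m - n + 1) by
          rw [prod_const, card_univ, Fintype.card_fin])
      simp only [Matrix.submatrix_apply, Matrix.of_apply, Fin.val_castSucc, i.2,
        if_true, le_refl, Nat.sub_self]
      exact BG.Els.bet_eq a 0
    · intro i j hij
      simp only [Matrix.submatrix_apply, Matrix.of_apply, Fin.val_castSucc, i.2, j.2,
        if_true]
      rw [if_neg]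
      have : (j : ℕ) < i := hij
      omega
  · intro i j hij
    simp only [Matrix.of_apply]
    by_cases hi : (i : ℕ) < m - n + 1
    · rw [if_pos hi, if_pos hi]
    · rw [if_neg hi, if_neg hi]
      have hi' : i = Fin.last _ := by
        apply Fin.ext
        rw [Fin.val_last]
        have := i.2
        omega
      have hj : (j : ℕ) < m - n + 1 := by
        by_contra h0
        rcases hij with h1 | h1
        · exact h1 hi'
        · apply h1
          apply Fin.ext
          rw [Fin.val_last]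
          have := j.2
          omega
      rw [if_pos hj, if_pos hj, hbet b j (by omega), hbet b' j (by omega)]
      exact h _ (by simp only; omega)

lemma RD_eq_of {n m : ℕ} (hnm : n ≤ m) (a : Fin (n + 1) → ℤ) (b b' : Fin (m + 1) → ℤ) (c : ℕ)
    (hc : m - n + 1 ≤ c) (hcm : c ≤ m)
    (h : ∀ i : Fin (m + 1), (i : ℕ) ≤ c → b i = b' i) : RD a b c = RD a b' c := by
  rw [← sub_eq_zero, RD_sub hnm a b b' c hc hcm (fun i hi => h i (by omega)), h _ le_rfl, sub_self,
    mul_zero]

/-- The size of the determinant. -/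
lemma RD_bound {n m : ℕ} (a : Fin (n + 1) → ℤ) (b : Fin (m + 1) → ℤ) (c : ℕ) {B : ℤ}
    (hB : 0 ≤ B) (ha : ∀ i, |a i| ≤ B) (hb : ∀ i, |b i| ≤ B) :
    |RD a b c| ≤ (m - n + 2).factorial * B ^ (m - n + 2) := by
  have hbeta : ∀ s, |BG.Els.bet a s| ≤ B := by
    intro s
    unfold BG.Els.bet
    split_ifs
    · exact ha _
    · rwa [abs_zero]
  have hbetb : ∀ s, |BG.Els.bet b s| ≤ B := by
    intro s
    unfold BG.Els.bet
    split_ifs
    · exact hb _
    · rwa [abs_zero]
  have h1 := Matrix.det_le (A := Matrix.of fun (i j : Fin (m - n + 2)) =>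
      if (i : ℕ) < m - n + 1 then
        (if (j : ℕ) < m - n + 1 then
          (if (i : ℕ) ≤ j then BG.Els.bet a ((j : ℕ) - i + 1) else 0) else
          BG.Els.bet a (c - i + 1)) else
        (if (j : ℕ) < m - n + 1 then BG.Els.bet b ((j : ℕ) + 1) else BG.Els.bet b (c + 1)))
    (abv := AbsoluteValue.abs) (x := B) (by
      intro i j
      rw [Matrix.of_apply, AbsoluteValue.abs_apply]
      split_ifs
      · exact hbeta _
      · rwa [abs_zero]
      · exact hbeta _
      · exact hbetb _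
      · exact hbetb _)
  rw [Fintype.card_fin, nsmul_eq_mul, AbsoluteValue.abs_apply] at h1
  unfold RD
  exact h1

/-- Fibres over the first vector and the coordinates of the second one outside `J`. -/
lemma card_pairs {n m h : ℕ} (J : Finset (Fin (m + 1)))
    (S : Finset ((Fin (n + 1) → ℤ) × (Fin (m + 1) → ℤ)))
    (hS : S ⊆ BF.Els.box (n + 1) h ×ˢ BF.Els.box (m + 1) h) {F : ℝ} (hF0 : 0 ≤ F)
    (hF : ∀ x ∈ S, ((S.filter fun y => y.1 = x.1 ∧ ∀ i, i ∉ J → y.2 i = x.2 i).card : ℝ) ≤ F) :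
    (S.card : ℝ) ≤ (h : ℝ) ^ (n + 1) * ((h : ℝ) ^ (m + 1 - J.card) * F) := by
  classical
  have h1 := BG.Els.card_le_fiber S (BF.Els.box (n + 1) h) Prod.fst (by
    intro x hx
    exact (mem_product.1 (hS hx)).1) ((h : ℝ) ^ (m + 1 - J.card) * F) (by
    intro c _
    set T : Finset (Fin (m + 1) → ℤ) := (S.filter fun x => x.1 = c).image Prod.snd with hT
    have hcard : (S.filter fun x => x.1 = c).card = T.card := by
      rw [hT, card_image_of_injOn]
      intro x hx y hy hxy
      rw [mem_coe, mem_filter] at hx hy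
      exact Prod.ext (hx.2.trans hy.2.symm) hxy
    have hTm : ∀ b ∈ T, (c, b) ∈ S := by
      intro b hb
      rw [hT, mem_image] at hb
      obtain ⟨x, hx, rfl⟩ := hb
      rw [mem_filter] at hx
      rw [← hx.2]
      exact hx.1
    rw [hcard]
    apply BF.Els.card_le_free J T (fun b hb => (mem_product.1 (hS (hTm b hb))).2) hF0
    intro b hb
    refine le_trans ?_ (hF (c, b) (hTm b hb))
    rw [Nat.cast_le]
    apply card_le_card_of_injOn (fun b' => (c, b'))
    · intro b' hb'
      rw [mem_coe, mem_filter] at hb' ⊢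
      exact ⟨hTm b' hb'.1, rfl, hb'.2⟩
    · intro x _ y _ hxy
      exact (Prod.ext_iff.1 hxy).2)
  rw [BF.Els.card_box] at h1
  push_cast at h1
  exact h1

open Classical in
theorem card_E5 (n m : ℕ) (hn : 4 ≤ n) (hm : 4 ≤ m) (M : ℕ) (hM : 0 < M) :
    ∃ h₀ : ℕ, ∀ h : ℕ, h₀ ≤ h →
      (((BF.Els.box (n + 1) h ×ˢ BF.Els.box (m + 1) h).filter fun x =>
        ∃ (p : ℕ) (_ : Fact p.Prime), h < p ∧ p ≠ 2 ∧ ¬ p ∣ M ∧
          Squarefree (GZ (AlgebraicClosure (ZMod p)) (BF.Els.co (M : ℤ) x.1)) ∧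
          Sq2 (AlgebraicClosure (ZMod p)) (BF.Els.co (M : ℤ) x.1)
            (BF.Els.co (M : ℤ) x.2)).card : ℝ) ≤
        (m + 5) * (h : ℝ) ^ (n + m + 1) := by
  have hMz : (0 : ℤ) < M := by exact_mod_cast hM
  refine ⟨(m - n + 2).factorial * (2 * M) ^ (m - n + 2) + 1, fun h hh => ?_⟩
  set S := (BF.Els.box (n + 1) h ×ˢ BF.Els.box (m + 1) h).filter fun x =>
        ∃ (p : ℕ) (_ : Fact p.Prime), h < p ∧ p ≠ 2 ∧ ¬ p ∣ M ∧
          Squarefree (GZ (AlgebraicClosure (ZMod p)) (BF.Els.co (M : ℤ) x.1)) ∧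
          Sq2 (AlgebraicClosure (ZMod p)) (BF.Els.co (M : ℤ) x.1)
            (BF.Els.co (M : ℤ) x.2) with hS
  have hh1 : 1 ≤ h := by omega
  -- sizes
  have hco : ∀ {N : ℕ} (t : Fin (N + 1) → ℤ), t ∈ BF.Els.box (N + 1) h → ∀ i,
      |BF.Els.co (M : ℤ) t i| ≤ 2 * M * h := by
    intro N t ht i
    have h1 := BF.Els.pos_of_box ht i
    have h2 : (M : ℤ) * 1 ≤ M * t i := mul_le_mul_of_nonneg_left h1.1 hMz.le
    have h3 : (M : ℤ) * t i ≤ M * h := mul_le_mul_of_nonneg_left h1.2 hMz.le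
    have h5 : (1 : ℤ) ≤ h := by exact_mod_cast hh1
    have h6 : (M : ℤ) * 1 ≤ M * h := mul_le_mul_of_nonneg_left h5 hMz.le
    unfold BF.Els.co
    rw [abs_le]
    constructor
    · split_ifs <;> linarith
    · split_ifs <;> linarith
  -- the first coefficients
  have hz : ∀ {N : ℕ} (hN : 1 ≤ N) (t : Fin (N + 1) → ℤ), t ∈ BF.Els.box (N + 1) h →
      ∀ p : ℕ, p.Prime → h < p → ¬ p ∣ M → ¬ (p : ℤ) ∣ BF.Els.co (M : ℤ) t 0 := by
    intro N hN t ht p hp hhp hpM hd
    rw [BF.Els.co_lt _ t (by rw [Fin.val_zero]; omega)] at hd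
    rcases (Nat.prime_iff_prime_int.1 hp).dvd_or_dvd hd with h1 | h1
    · exact hpM (by exact_mod_cast h1)
    · have h2 := BF.Els.pos_of_box ht 0
      have h3 := Int.le_of_dvd (by linarith [h2.1]) h1
      have h4 : ((p : ℕ) : ℤ) > h := by exact_mod_cast hhp
      linarith [h2.2]
  -- the polynomials
  have hdeg : ∀ {N : ℕ} (t : Fin (N + 1) → ℤ) (p : ℕ) [Fact p.Prime],
      ¬ (p : ℤ) ∣ BF.Els.co (M : ℤ) t 0 →
      (GZ (AlgebraicClosure (ZMod p)) (BF.Els.co (M : ℤ) t)).natDegree = N := by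
    intro N t p _ ht
    apply natDegree_eq_of_le_of_coeff_ne_zero (BF.Els.gz_natDegree_le _)
    rw [BF.Els.gz_coeff _ le_rfl]
    have h1 : ((BF.Els.co (M : ℤ) t 0 : ℤ) : AlgebraicClosure (ZMod p)) ≠ 0 := by
      rw [Ne, BG.PEls.cast_eq_zero (p := p)]
      exact ht
    convert h1 using 3
    apply Fin.ext
    simp
  have hdvd : ∀ x ∈ S, ∃ (p : ℕ) (_ : Fact p.Prime), h < p ∧ ¬ p ∣ M ∧
      GZ (AlgebraicClosure (ZMod p)) (BF.Els.co (M : ℤ) x.1) ∣
        GZ (AlgebraicClosure (ZMod p)) (BF.Els.co (M : ℤ) x.2) := by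
    intro x hx
    rw [hS, mem_filter, mem_product] at hx
    obtain ⟨⟨hx1, hx2⟩, p, hp, hhp, hp2, hpM, hsf, hsq⟩ := hx
    refine ⟨p, hp, hhp, hpM, ?_⟩
    apply dvd_of_sq2 _ _ hsf hsf.ne_zero _ hsq
    intro h0
    have h1 := hdeg x.2 p (hz (by omega) x.2 hx2 p hp.out hhp hpM)
    rw [h0, natDegree_zero] at h1
    omega
  rcases lt_or_ge m n with hnm | hnm
  · have hemp : S = ∅ := by
      rw [eq_empty_iff_forall_notMem]
      intro x hx
      obtain ⟨p, hp, hhp, hpM, hd⟩ := hdvd x hx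
      rw [hS, mem_filter, mem_product] at hx
      have h1 := hdeg x.1 p (hz (by omega) x.1 hx.1.1 p hp.out hhp hpM)
      have h2 := hdeg x.2 p (hz (by omega) x.2 hx.1.2 p hp.out hhp hpM)
      have h3 := natDegree_le_of_dvd hd (by
        intro h0
        rw [h0, natDegree_zero] at h2
        omega)
      omega
    rw [hemp, card_empty, Nat.cast_zero]
    positivity
  -- the two parts
  set A := (BF.Els.box (n + 1) h ×ˢ BF.Els.box (m + 1) h).filter fun x =>
    RD (BF.Els.co (M : ℤ) x.1) (BF.Els.co (M : ℤ) x.2) (m - 1) = 0 with hA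
  set B := (BF.Els.box (n + 1) h ×ˢ BF.Els.box (m + 1) h).filter fun x =>
    RD (BF.Els.co (M : ℤ) x.1) (BF.Els.co (M : ℤ) x.2) (m - 1) ≠ 0 ∧
      ∃ p : ℕ, p.Prime ∧ h < p ∧ ¬ p ∣ M ∧
        (p : ℤ) ∣ RD (BF.Els.co (M : ℤ) x.1) (BF.Els.co (M : ℤ) x.2) (m - 1) ∧
        (p : ℤ) ∣ RD (BF.Els.co (M : ℤ) x.1) (BF.Els.co (M : ℤ) x.2) m with hB
  have hsub : S ⊆ A ∪ B := by
    intro x hx
    obtain ⟨p, hp, hhp, hpM, hd⟩ := hdvd x hx
    rw [hS, mem_filter, mem_product] at hx
    have h1 := hz (by omega) x.1 hx.1.1 p hp.out hhp hpM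
    rw [mem_union]
    by_cases h0 : RD (BF.Els.co (M : ℤ) x.1) (BF.Els.co (M : ℤ) x.2) (m - 1) = 0
    · left
      rw [hA, mem_filter, mem_product]
      exact ⟨hx.1, h0⟩
    · right
      rw [hB, mem_filter, mem_product]
      exact ⟨hx.1, h0, p, hp.out, hhp, hpM,
        RD_dvd hn hnm p _ _ hd (m - 1) (by omega) (by omega) h1,
        RD_dvd hn hnm p _ _ hd m (by omega) le_rfl h1⟩
  have hAb : A ⊆ BF.Els.box (n + 1) h ×ˢ BF.Els.box (m + 1) h := by
    rw [hA]; exact filter_subset _ _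
  have hBb : B ⊆ BF.Els.box (n + 1) h ×ˢ BF.Els.box (m + 1) h := by
    rw [hB]; exact filter_subset _ _
  set u : Fin (m + 1) := ⟨m - 1, by omega⟩ with hu
  have hcA : (A.card : ℝ) ≤ (h : ℝ) ^ (n + 1) * ((h : ℝ) ^ m * 1) := by
    have h1 := card_pairs {u} A hAb zero_le_one (by
      intro x hx
      have h2 : (A.filter fun y => y.1 = x.1 ∧
          ∀ i, i ∉ ({u} : Finset (Fin (m + 1))) → y.2 i = x.2 i).card ≤ 1 := by
        rw [card_le_one]
        have key : ∀ y ∈ A.filter fun y => y.1 = x.1 ∧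
            ∀ i, i ∉ ({u} : Finset (Fin (m + 1))) → y.2 i = x.2 i, y = x := by
          intro y hy
          rw [mem_filter] at hy
          obtain ⟨hyA, hy1, hy2⟩ := hy
          rw [hA, mem_filter, mem_product] at hyA hx
          have hoff : ∀ i, i ≠ u → y.2 i = x.2 i := fun i hi => hy2 i (by rwa [mem_singleton])
          have hsub := RD_sub hnm (BF.Els.co (M : ℤ) x.1) (BF.Els.co (M : ℤ) y.2)
            (BF.Els.co (M : ℤ) x.2) (m - 1) (by omega) (by omega) (by
            intro i hi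
            unfold BF.Els.co
            rw [hoff i (by
              intro h0
              have := congrArg Fin.val h0
              simp only [hu] at this
              omega)])
          have hyR := hyA.2
          rw [hy1] at hyR
          rw [hyR, hx.2, sub_self] at hsub
          have ha0 : BF.Els.co (M : ℤ) x.1 0 ≠ 0 := by
            rw [BF.Els.co_lt _ _ (by rw [Fin.val_zero]; omega)]
            have := (BF.Els.pos_of_box hx.1.1 0).1
            positivity
          have h3 := (mul_eq_zero.1 hsub.symm).resolve_left (pow_ne_zero _ ha0)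
          have h4 : y.2 u = x.2 u := BF.Els.co_inj hMz.ne' (sub_eq_zero.1 h3)
          refine Prod.ext hy1 (funext fun i => ?_)
          by_cases hi : i = u
          · rw [hi]
            exact h4
          · exact hoff i hi
        intro y hy y' hy'
        rw [key y hy, key y' hy']
      exact_mod_cast h2)
    rw [card_singleton, Nat.add_sub_cancel] at h1
    exact h1
  have hR : ∀ x ∈ B, (RD (BF.Els.co (M : ℤ) x.1) (BF.Els.co (M : ℤ) x.2) (m - 1)).natAbs <
      h ^ (m - n + 3) := by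
    intro x hx
    have hx' := mem_product.1 (hBb hx)
    have h1 := RD_bound (BF.Els.co (M : ℤ) x.1) (BF.Els.co (M : ℤ) x.2) (m - 1)
      (by positivity : (0 : ℤ) ≤ 2 * M * h) (hco _ hx'.1) (hco _ hx'.2)
    have h2 : ((RD (BF.Els.co (M : ℤ) x.1) (BF.Els.co (M : ℤ) x.2) (m - 1)).natAbs : ℤ) ≤
        (((m - n + 2).factorial * (2 * M * h) ^ (m - n + 2) : ℕ) : ℤ) := by
      rw [Int.natCast_natAbs]
      push_cast
      exact h1
    have h3 := Int.ofNat_le.1 h2
    refine lt_of_le_of_lt h3 ?_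
    rw [mul_pow, ← mul_assoc, pow_succ h (m - n + 2), mul_comm (h ^ (m - n + 2)) h]
    exact Nat.mul_lt_mul_of_pos_right (by omega) (pow_pos (by omega) _)
  have hcB : (B.card : ℝ) ≤ (h : ℝ) ^ (n + 1) * ((h : ℝ) ^ m * ((m - n + 3 : ℕ) : ℝ)) := by
    have h1 := card_pairs {Fin.last m} B hBb (Nat.cast_nonneg (m - n + 3)) (by
      intro x hx
      have hxB := hx
      rw [hB, mem_filter, mem_product] at hx
      obtain ⟨⟨hb₀, hb₀'⟩, hR₀, -⟩ := hx
      set P : (Fin (n + 1) → ℤ) × (Fin (m + 1) → ℤ) → ℕ := fun x =>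
        if hp : ∃ p : ℕ, p.Prime ∧ h < p ∧ ¬ p ∣ M ∧
          (p : ℤ) ∣ RD (BF.Els.co (M : ℤ) x.1) (BF.Els.co (M : ℤ) x.2) (m - 1) ∧
          (p : ℤ) ∣ RD (BF.Els.co (M : ℤ) x.1) (BF.Els.co (M : ℤ) x.2) m then hp.choose
        else 0 with hP
      have hPspec : ∀ x ∈ B, (P x).Prime ∧ h < P x ∧ ¬ P x ∣ M ∧
          ((P x : ℕ) : ℤ) ∣ RD (BF.Els.co (M : ℤ) x.1) (BF.Els.co (M : ℤ) x.2) (m - 1) ∧
          ((P x : ℕ) : ℤ) ∣ RD (BF.Els.co (M : ℤ) x.1) (BF.Els.co (M : ℤ) x.2) m := by
        intro x hx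
        rw [hB, mem_filter] at hx
        simp only [hP]
        rw [dif_pos hx.2.2]
        exact hx.2.2.choose_spec
      have hsame : ∀ y z : (Fin (n + 1) → ℤ) × (Fin (m + 1) → ℤ),
          (∀ i, i ∉ ({Fin.last m} : Finset (Fin (m + 1))) → y.2 i = z.2 i) →
          ∀ i : Fin (m + 1), (i : ℕ) ≤ m - 1 →
            BF.Els.co (M : ℤ) y.2 i = BF.Els.co (M : ℤ) z.2 i := by
        intro y z hyz i hi
        unfold BF.Els.co
        rw [hyz i (by
          rw [mem_singleton]
          intro h0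
          rw [h0, Fin.val_last] at hi
          omega)]
      have h2 : (B.filter fun y => y.1 = x.1 ∧
          ∀ i, i ∉ ({Fin.last m} : Finset (Fin (m + 1))) → y.2 i = x.2 i).card ≤
          ((RD (BF.Els.co (M : ℤ) x.1) (BF.Els.co (M : ℤ) x.2)
            (m - 1)).natAbs.primeFactors.filter fun p => h < p).card := by
        apply card_le_card_of_injOn P
        · intro y hy
          rw [mem_coe, mem_filter] at hy
          obtain ⟨q1, q2, -, q5, -⟩ := hPspec y hy.1
          rw [hy.2.1, RD_eq_of hnm _ _ (BF.Els.co (M : ℤ) x.2) (m - 1) (by omega) (by omega)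
            (hsame y x hy.2.2)] at q5
          rw [mem_coe, mem_filter, Nat.mem_primeFactors]
          refine ⟨⟨q1, ?_, Int.natAbs_ne_zero.2 hR₀⟩, q2⟩
          have := Int.natAbs_dvd_natAbs.2 q5
          rwa [Int.natAbs_natCast] at this
        · intro y hy y' hy' hPP
          rw [mem_coe, mem_filter] at hy hy'
          obtain ⟨q1, q2, q4, -, q6⟩ := hPspec y hy.1
          obtain ⟨-, -, -, -, q6'⟩ := hPspec y' hy'.1
          rw [← hPP] at q6'
          have hb := (mem_product.1 (hBb hy.1)).2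
          have hb' := (mem_product.1 (hBb hy'.1)).2
          have hyy : ∀ i, i ∉ ({Fin.last m} : Finset (Fin (m + 1))) → y.2 i = y'.2 i :=
            fun i hi => (hy.2.2 i hi).trans (hy'.2.2 i hi).symm
          rw [hy.2.1] at q6
          rw [hy'.2.1] at q6'
          have h3 := RD_sub hnm (BF.Els.co (M : ℤ) x.1) (BF.Els.co (M : ℤ) y.2)
            (BF.Els.co (M : ℤ) y'.2) m (by omega) le_rfl
            (fun i hi => hsame y y' hyy i (by omega))
          have h4 := dvd_sub q6 q6'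
          rw [h3] at h4
          have hpr := Nat.prime_iff_prime_int.1 q1
          have h5 : ¬ ((P y : ℕ) : ℤ) ∣ (BF.Els.co (M : ℤ) x.1 0) ^ (m - n + 1) := fun h6 =>
            hz (by omega) x.1 hb₀ (P y) q1 q2 q4 (hpr.dvd_of_dvd_pow h6)
          have h6 := BF.Els.dvd_of_co q1 (by exact_mod_cast q4)
            ((hpr.dvd_or_dvd h4).resolve_left h5)
          have h7 : y.2 (Fin.last m) = y'.2 (Fin.last m) := by
            have h8 := BF.Els.pos_of_box hb (Fin.last m)
            have h9 := BF.Els.pos_of_box hb' (Fin.last m)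
            have h10 : ((P y : ℕ) : ℤ) > h := by exact_mod_cast q2
            have h11 := Int.eq_zero_of_abs_lt_dvd h6 (by
              have e : (⟨m, by omega⟩ : Fin (m + 1)) = Fin.last m := rfl
              rw [e, abs_lt]
              constructor <;> linarith [h8.1, h8.2, h9.1, h9.2])
            have e : (⟨m, by omega⟩ : Fin (m + 1)) = Fin.last m := rfl
            rw [e] at h11
            linarith
          refine Prod.ext (hy.2.1.trans hy'.2.1.symm) (funext fun i => ?_)
          by_cases hi : i = Fin.last m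
          · rw [hi]
            exact h7
          · exact hyy i (by rwa [mem_singleton])
      have h3 := h2.trans (BF.Els.card_large (Int.natAbs_pos.2 hR₀) (hR x hxB))
      exact_mod_cast h3)
    rw [card_singleton, Nat.add_sub_cancel] at h1
    exact h1
  have h1 : (S.card : ℝ) ≤ A.card + B.card := by
    exact_mod_cast (card_le_card hsub).trans (card_union_le _ _)
  have h2 : ((m - n + 3 : ℕ) : ℝ) ≤ m + 4 := by
    have : m - n + 3 ≤ m + 4 := by omega
    exact_mod_cast this
  have h3 : (h : ℝ) ^ (n + m + 1) = (h : ℝ) ^ (n + 1) * (h : ℝ) ^ m := by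
    rw [← pow_add]
    congr 1
    omega
  have h4 : (0 : ℝ) ≤ (h : ℝ) ^ (n + 1) * (h : ℝ) ^ m := by positivity
  rw [h3]
  nlinarith

end Stoll308.DQ
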