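import Pool.Agent.Work.MP_308fa9_nt.DQ.ElsA
import Pool.Agent.Work.MP_308fa9_nt.DQ.ElsC
import Pool.Agent.Work.MP_308fa9_nt.DQ.ElsD
import Pool.Agent.Work.MP_308fa9_nt.DQ.Cnt

set_option autoImplicit false

/-!
A positive proportion of the curves is everywhere locally soluble.
-/

namespace Stoll308.DQ

open Polynomial Finset BG BF

lemma co_last {n : ℕ} (M : ℤ) (t : Fin (n + 1) → ℤ) :
    BF.Els.co M t (Fin.last n) = M * t (Fin.last n) + 1 := by
  unfold BF.Els.co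
  rw [if_pos (Fin.val_last n)]

lemma gz_ne_of_not_sqK {n : ℕ} {K : Type*} [Field K] {a : Fin (n + 1) → ℤ}
    (h : ¬ BF.Els.SqK K a) : GZ K a ≠ 0 := by
  intro h0
  apply h
  refine ⟨0, 0, ?_⟩
  rw [h0, map_zero, map_zero, zero_mul]

open Classical in
/-- The pairs outside of the exceptional sets give everywhere locally soluble curves. -/
lemma els_of_good {n m : ℕ} {Q h M : ℕ} (hMdef : M = 8 * Q.factorial)
    (hQ : (2 * (n + m) + 4) ^ 2 + 128 ≤ Q) {x : (Fin (n + 1) → ℤ) × (Fin (m + 1) → ℤ)}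
    (hx1 : x.1 ∈ GB n Q h) (hx2 : x.2 ∈ GB m Q h)
    (h3 : ∀ p : ℕ, p.Prime → Q < p → p ≤ h → x ∉ S3 n m (M : ℤ) h p)
    (h4 : ¬ ∃ (p : ℕ) (_ : Fact p.Prime), h < p ∧ p ≠ 2 ∧ ¬ p ∣ M ∧
          ¬ Squarefree (GZ (AlgebraicClosure (ZMod p)) (BF.Els.co (M : ℤ) x.1)) ∧
          Sq2 (AlgebraicClosure (ZMod p)) (BF.Els.co (M : ℤ) x.1) (BF.Els.co (M : ℤ) x.2))
    (h5 : ¬ ∃ (p : ℕ) (_ : Fact p.Prime), h < p ∧ p ≠ 2 ∧ ¬ p ∣ M ∧
          Squarefree (GZ (AlgebraicClosure (ZMod p)) (BF.Els.co (M : ℤ) x.1)) ∧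
          Sq2 (AlgebraicClosure (ZMod p)) (BF.Els.co (M : ℤ) x.1) (BF.Els.co (M : ℤ) x.2)) :
    ELS (BF.Els.co (M : ℤ) x.1) (BF.Els.co (M : ℤ) x.2) := by
  unfold GB at hx1 hx2
  rw [mem_filter, ← hMdef] at hx1 hx2
  obtain ⟨hb1, hg1⟩ := hx1
  obtain ⟨hb2, hg2⟩ := hx2
  have hM : 0 < M := by
    rw [hMdef]
    exact Nat.mul_pos (by norm_num) (Nat.factorial_pos _)
  refine ⟨?_, point_real (co_size hM hb1 _).1 (co_size hM hb2 _).1⟩
  intro p hp
  have hpp : p.Prime := hp.out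
  by_cases hpQ : p ≤ Q
  · have hd : ((8 * p : ℕ) : ℤ) ∣ (M : ℤ) := by
      rw [Int.natCast_dvd_natCast, hMdef]
      exact Nat.mul_dvd_mul_left 8 (Nat.dvd_factorial hpp.pos hpQ)
    apply point_small
    · rw [co_last, add_sub_cancel_right]
      exact Dvd.dvd.mul_right hd _
    · rw [co_last, add_sub_cancel_right]
      exact Dvd.dvd.mul_right hd _
  · push Not at hpQ
    have hp2 : p ≠ 2 := by omega
    have hpM : ¬ p ∣ M := by
      intro h
      rw [hMdef] at h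
      rcases (hpp.dvd_mul).1 h with h | h
      · have h2 : p ∣ 2 ^ 3 := by norm_num; exact h
        have := Nat.le_of_dvd (by norm_num) (hpp.dvd_of_dvd_pow h2)
        omega
      · have := (hpp.dvd_factorial).1 h
        omega
    obtain ⟨g1, g2⟩ := hg1 p hpQ
    obtain ⟨g3, g4⟩ := hg2 p hpQ
    apply point_good hp2 (by omega) g2 g4
    intro hsq
    by_cases hph : p ≤ h
    · apply h3 p hpp hpQ hph
      unfold S3
      rw [mem_filter, mem_product]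
      exact ⟨⟨hb1, hb2⟩, g3, hp, gz_ne_of_not_sqK g2, hsq⟩
    · push Not at hph
      by_cases hs : Squarefree (GZ (AlgebraicClosure (ZMod p)) (BF.Els.co (M : ℤ) x.1))
      · exact h5 ⟨p, hp, hph, hp2, hpM, hs, hsq⟩
      · exact h4 ⟨p, hp, hph, hp2, hpM, hs, hsq⟩

/-- The sum over the primes `Q < p ≤ h`. -/
lemma card_S3_sum {n m : ℕ} (hm : 4 ≤ m) {Q h M : ℕ} (hMdef : M = 8 * Q.factorial)
    (hQ : 128 ≤ Q) (hhQ : Q < h) :
    ((((Ioc Q h).filter Nat.Prime).biUnion fun p => S3 n m (M : ℤ) h p).card : ℝ) ≤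
      (h : ℝ) ^ (n + m + 2) / 32 := by
  classical
  have h2 := card_biUnion_le (s := (Ioc Q h).filter Nat.Prime)
    (t := fun p => S3 n m (M : ℤ) h p)
  have h3 : ((((Ioc Q h).filter Nat.Prime).biUnion fun p => S3 n m (M : ℤ) h p).card : ℝ) ≤
      ∑ p ∈ (Ioc Q h).filter Nat.Prime, ((S3 n m (M : ℤ) h p).card : ℝ) := by exact_mod_cast h2
  have h4 : ∑ p ∈ (Ioc Q h).filter Nat.Prime, ((S3 n m (M : ℤ) h p).card : ℝ) ≤
      ∑ p ∈ Ioc Q h, 4 * (h : ℝ) ^ (n + m + 2) * ((p : ℝ) ^ 2)⁻¹ := by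
    refine (sum_le_sum fun p hp => ?_).trans
      (sum_le_sum_of_subset_of_nonneg (filter_subset _ _) fun p _ _ => by positivity)
    rw [mem_filter, mem_Ioc] at hp
    obtain ⟨⟨hp1, hp2⟩, hpp⟩ := hp
    have hp0 : (0 : ℝ) < p := by exact_mod_cast hpp.pos
    have hpM : ¬ (p : ℤ) ∣ (M : ℤ) := by
      intro h
      rw [Int.natCast_dvd_natCast, hMdef] at h
      rcases (hpp.dvd_mul).1 h with h | h
      · have h2 : p ∣ 2 ^ 3 := by norm_num; exact h
        have := Nat.le_of_dvd (by norm_num) (hpp.dvd_of_dvd_pow h2)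
        omega
      · have := (hpp.dvd_factorial).1 h
        omega
    have h5 := card_S3 (n := n) hm (M := (M : ℤ)) (h := h) hpp (by omega) hpM
    have h6 : (1 : ℝ) ≤ (h : ℝ) / p := by
      rw [le_div_iff₀ hp0, one_mul]
      exact_mod_cast hp2
    have h7 : ((h : ℝ) / p + 1) ^ 2 ≤ 4 * ((h : ℝ) ^ 2 * ((p : ℝ) ^ 2)⁻¹) := by
      have h8 : ((h : ℝ) / p + 1) ^ 2 ≤ (2 * ((h : ℝ) / p)) ^ 2 :=
        pow_le_pow_left₀ (by positivity) (by linarith) 2
      calc _ ≤ _ := h8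
        _ = 4 * ((h : ℝ) ^ 2 * ((p : ℝ) ^ 2)⁻¹) := by
            rw [mul_pow, div_pow, div_eq_mul_inv]
            ring
    have h9 : (h : ℝ) ^ (n + m + 2) = (h : ℝ) ^ (n + 1) * ((h : ℝ) ^ (m - 1) * (h : ℝ) ^ 2) := by
      rw [← pow_add, ← pow_add]
      congr 1
      omega
    calc ((S3 n m (M : ℤ) h p).card : ℝ)
        ≤ (h : ℝ) ^ (n + 1) * ((h : ℝ) ^ (m - 1) * ((h : ℝ) / p + 1) ^ 2) := h5
      _ ≤ (h : ℝ) ^ (n + 1) * ((h : ℝ) ^ (m - 1) * (4 * ((h : ℝ) ^ 2 * ((p : ℝ) ^ 2)⁻¹))) := by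
          gcongr
      _ = 4 * (h : ℝ) ^ (n + m + 2) * ((p : ℝ) ^ 2)⁻¹ := by
          rw [h9]
          ring
  have h5 : ∑ p ∈ Ioc Q h, (((p : ℕ) : ℝ) ^ 2)⁻¹ ≤ 1 / 128 := by
    have hsum := sum_Ioc_inv_sq_le_sub (α := ℝ) (k := Q) (n := h) (by omega) hhQ.le
    have h4 : (0 : ℝ) ≤ (((h : ℕ) : ℕ) : ℝ)⁻¹ := by positivity
    have hQ16 : (128 : ℝ) ≤ Q := by exact_mod_cast hQ
    have h5 : (Q : ℝ)⁻¹ ≤ 1 / 128 := by
      rw [one_div]
      exact inv_anti₀ (by norm_num) hQ16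
    linarith
  refine h3.trans (h4.trans ?_)
  rw [← mul_sum]
  calc 4 * (h : ℝ) ^ (n + m + 2) * ∑ p ∈ Ioc Q h, (((p : ℕ) : ℝ) ^ 2)⁻¹
      ≤ 4 * (h : ℝ) ^ (n + m + 2) * (1 / 128) := mul_le_mul_of_nonneg_left h5 (by positivity)
    _ = (h : ℝ) ^ (n + m + 2) / 32 := by ring

theorem els_many (n m : ℕ) (hn : 4 ≤ n) (he : Even n) (hm : 4 ≤ m) (hem : Even m) :
    ∃ c₀ : ℝ, 0 < c₀ ∧ ∃ H₀ : ℕ, ∀ H : ℕ, H₀ ≤ H →
      c₀ * H ^ (n + m + 2) ≤ (cnt n m (fun a b => ELS a b) H : ℝ) := by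
  classical
  obtain ⟨Q, hQ⟩ : ∃ Q : ℕ, Q = (2 * (n + m) + 4) ^ 2 + 128 := ⟨_, rfl⟩
  obtain ⟨M, hMdef⟩ : ∃ M : ℕ, M = 8 * Q.factorial := ⟨_, rfl⟩
  have hM : 0 < M := by
    rw [hMdef]
    exact Nat.mul_pos (by norm_num) (Nat.factorial_pos _)
  have hMz : (0 : ℤ) < (M : ℤ) := by exact_mod_cast hM
  have hM0 : (0 : ℝ) < M := by exact_mod_cast hM
  obtain ⟨k₁, hk1⟩ := good_box n hn he Q (by omega)
  obtain ⟨k₂, hk2⟩ := good_box m hm hem Q (by omega)
  obtain ⟨k₃, hk3⟩ := irr_box n hn M hM (1 / 32) (by norm_num)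
  obtain ⟨k₄, hk4⟩ := card_E4 n m hn hm M hM
  obtain ⟨k₅, hk5⟩ := card_E5 n m hn hm M hM
  obtain ⟨K, hK⟩ : ∃ K : ℕ, K = k₁ + k₂ + k₃ + k₄ + k₅ + Q + 256 * (n + 1) + 32 * (m + 5) + 2 :=
    ⟨_, rfl⟩
  refine ⟨1 / (8 * (4 * M) ^ (n + m + 2)), by positivity, 4 * M * K, ?_⟩
  intro H hH
  obtain ⟨h, hh⟩ : ∃ h : ℕ, h = H / M - 1 := ⟨_, rfl⟩
  have hHM : 4 * K ≤ H / M := by
    rw [Nat.le_div_iff_mul_le hM]
    calc _ = 4 * M * K := by ring
      _ ≤ H := hH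
  have hKh : K ≤ h := by omega
  have hh1 : 1 ≤ h := by omega
  have hh1' : (1 : ℝ) ≤ h := by exact_mod_cast hh1
  have hMh : M * (h + 1) ≤ H := by
    have : h + 1 = H / M := by omega
    rw [this]
    exact Nat.mul_div_le H M
  have hhH : (H : ℝ) / (4 * M) ≤ h := by
    have h1 : H < M * (H / M + 1) := Nat.lt_mul_div_succ H hM
    have h2 : H / M + 1 ≤ 4 * h := by omega
    have h3 : H ≤ M * (4 * h) := h1.le.trans (Nat.mul_le_mul_left _ h2)
    rw [div_le_iff₀ (by positivity)]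
    have h4 : (H : ℝ) ≤ M * (4 * h) := by exact_mod_cast h3
    linarith
  -- the exceptional sets
  set G := GB n Q h ×ˢ GB m Q h with hG
  set B := BF.Els.box (n + 1) h ×ˢ BF.Els.box (m + 1) h with hB
  set T3 := ((Ioc Q h).filter Nat.Prime).biUnion fun p => S3 n m (M : ℤ) h p with hT3
  set T4 := B.filter fun x =>
        Irreducible (GZ ℚ (BF.Els.co (M : ℤ) x.1)) ∧
        ∃ (p : ℕ) (_ : Fact p.Prime), h < p ∧ p ≠ 2 ∧ ¬ p ∣ M ∧
          ¬ Squarefree (GZ (AlgebraicClosure (ZMod p)) (BF.Els.co (M : ℤ) x.1)) ∧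
          Sq2 (AlgebraicClosure (ZMod p)) (BF.Els.co (M : ℤ) x.1)
            (BF.Els.co (M : ℤ) x.2) with hT4
  set T5 := B.filter fun x =>
        ∃ (p : ℕ) (_ : Fact p.Prime), h < p ∧ p ≠ 2 ∧ ¬ p ∣ M ∧
          Squarefree (GZ (AlgebraicClosure (ZMod p)) (BF.Els.co (M : ℤ) x.1)) ∧
          Sq2 (AlgebraicClosure (ZMod p)) (BF.Els.co (M : ℤ) x.1)
            (BF.Els.co (M : ℤ) x.2) with hT5
  set T6 := ((BF.Els.box (n + 1) h).filter fun t =>
      ¬ Irreducible (GZ ℚ (BF.Els.co (M : ℤ) t))) ×ˢ BF.Els.box (m + 1) h with hT6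
  set bad := T3 ∪ (T4 ∪ (T5 ∪ T6)) with hbad
  have hgood : ∀ x ∈ G \ bad, ELS (BF.Els.co (M : ℤ) x.1) (BF.Els.co (M : ℤ) x.2) := by
    intro x hx
    rw [mem_sdiff, hbad, mem_union, mem_union, mem_union, not_or, not_or, not_or, hG,
      mem_product] at hx
    obtain ⟨⟨hx1, hx2⟩, q3, q4, q5, q6⟩ := hx
    have hb1 : x.1 ∈ BF.Els.box (n + 1) h := by
      have := hx1
      unfold GB at this
      exact (mem_filter.1 this).1
    have hb2 : x.2 ∈ BF.Els.box (m + 1) h := by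
      have := hx2
      unfold GB at this
      exact (mem_filter.1 this).1
    have hirr : Irreducible (GZ ℚ (BF.Els.co (M : ℤ) x.1)) := by
      by_contra hno
      apply q6
      rw [hT6, mem_product, mem_filter]
      exact ⟨⟨hb1, hno⟩, hb2⟩
    have hxB : x ∈ B := by
      rw [hB, mem_product]
      exact ⟨hb1, hb2⟩
    refine els_of_good hMdef hQ.ge hx1 hx2 ?_ ?_ ?_
    · intro p hp h1 h2 h3
      apply q3
      rw [hT3, mem_biUnion]
      exact ⟨p, mem_filter.2 ⟨mem_Ioc.2 ⟨h1, h2⟩, hp⟩, h3⟩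
    · intro h1
      apply q4
      rw [hT4, mem_filter]
      exact ⟨hxB, hirr, h1⟩
    · intro h1
      apply q5
      rw [hT5, mem_filter]
      exact ⟨hxB, h1⟩
  -- the injection
  have hinj : ((G \ bad).card : ℝ) ≤ (cnt n m (fun a b => ELS a b) H : ℝ) := by
    unfold cnt
    have h1 : (G \ bad).card ≤
        (((Fintype.piFinset fun _ : Fin (n + 1) => Icc (-(H : ℤ)) (H : ℤ)) ×ˢ
          (Fintype.piFinset fun _ : Fin (m + 1) => Icc (-(H : ℤ)) (H : ℤ))).filter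
            fun x => ELS x.1 x.2).card := by
      apply card_le_card_of_injOn (fun x => (BF.Els.co (M : ℤ) x.1, BF.Els.co (M : ℤ) x.2))
      · intro x hx
        rw [mem_coe] at hx
        have hxG := (mem_sdiff.1 hx).1
        rw [hG, mem_product] at hxG
        have hb1 : x.1 ∈ BF.Els.box (n + 1) h := by
          have := hxG.1
          unfold GB at this
          exact (mem_filter.1 this).1
        have hb2 : x.2 ∈ BF.Els.box (m + 1) h := by
          have := hxG.2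
          unfold GB at this
          exact (mem_filter.1 this).1
        have h3 : (M : ℤ) * (h + 1) ≤ H := by exact_mod_cast hMh
        rw [mem_coe, mem_filter, mem_product, Fintype.mem_piFinset, Fintype.mem_piFinset]
        refine ⟨⟨fun i => ?_, fun i => ?_⟩, hgood x hx⟩
        · have h2 := co_size hM hb1 i
          rw [mem_Icc]
          constructor <;> linarith [h2.1, h2.2]
        · have h2 := co_size hM hb2 i
          rw [mem_Icc]
          constructor <;> linarith [h2.1, h2.2]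
      · intro x _ x' _ hxx
        have e1 := congrArg Prod.fst hxx
        have e2 := congrArg Prod.snd hxx
        refine Prod.ext ?_ ?_
        · funext i
          exact BF.Els.co_inj hMz.ne' (congrFun e1 i)
        · funext i
          exact BF.Els.co_inj hMz.ne' (congrFun e2 i)
    exact_mod_cast h1
  -- the count
  have hcard : (G.card : ℝ) ≤ ((G \ bad).card : ℝ) + ((T3.card : ℝ) + ((T4.card : ℝ) +
      ((T5.card : ℝ) + (T6.card : ℝ)))) := by
    have h1 : G ⊆ (G \ bad) ∪ bad := by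
      intro t ht
      rw [mem_union, mem_sdiff]
      by_cases h : t ∈ bad
      · exact Or.inr h
      · exact Or.inl ⟨ht, h⟩
    have h2 := (card_le_card h1).trans ((card_union_le _ _).trans
      (Nat.add_le_add_left ((card_union_le _ _).trans
        (Nat.add_le_add_left ((card_union_le _ _).trans
          (Nat.add_le_add_left (card_union_le _ _) _)) _)) _))
    exact_mod_cast h2
  have hpow : (h : ℝ) ^ (n + m + 2) = (h : ℝ) ^ (n + 1) * (h : ℝ) ^ (m + 1) := by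
    rw [← pow_add]
    congr 1
    omega
  have hGc : (h : ℝ) ^ (n + m + 2) / 4 ≤ (G.card : ℝ) := by
    rw [hG, card_product, hpow]
    push_cast
    have h1 := hk1 h (by omega)
    have h2 := hk2 h (by omega)
    calc (h : ℝ) ^ (n + 1) * (h : ℝ) ^ (m + 1) / 4
        = ((h : ℝ) ^ (n + 1) / 2) * ((h : ℝ) ^ (m + 1) / 2) := by ring
      _ ≤ ((GB n Q h).card : ℝ) * ((GB m Q h).card : ℝ) :=
          mul_le_mul h1 h2 (by positivity) (Nat.cast_nonneg _)
  have hc3 : (T3.card : ℝ) ≤ (h : ℝ) ^ (n + m + 2) / 32 :=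
    card_S3_sum hm hMdef (by omega) (by omega)
  have hc4 : (T4.card : ℝ) ≤ (h : ℝ) ^ (n + m + 2) / 32 := by
    refine (hk4 h (by omega)).trans ?_
    have h1 : (256 * (n : ℝ)) ≤ h := by
      have : 256 * n ≤ h := by omega
      exact_mod_cast this
    have h2 : (h : ℝ) ^ (n + m + 2) = h * h * (h : ℝ) ^ (n + m) := by ring
    rw [h2]
    have h3 : (0 : ℝ) < (h : ℝ) ^ (n + m) := by positivity
    have h4 : 8 * (n : ℝ) ≤ h * h / 32 := by nlinarith
    calc 8 * (n : ℝ) * (h : ℝ) ^ (n + m) ≤ h * h / 32 * (h : ℝ) ^ (n + m) := by gcongr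
      _ = h * h * (h : ℝ) ^ (n + m) / 32 := by ring
  have hc5 : (T5.card : ℝ) ≤ (h : ℝ) ^ (n + m + 2) / 32 := by
    refine (hk5 h (by omega)).trans ?_
    have h1 : (32 * ((m : ℝ) + 5)) ≤ h := by
      have : 32 * (m + 5) ≤ h := by omega
      exact_mod_cast this
    have h2 : (h : ℝ) ^ (n + m + 2) = h * (h : ℝ) ^ (n + m + 1) := by ring
    rw [h2]
    have h3 : (0 : ℝ) < (h : ℝ) ^ (n + m + 1) := by positivity
    calc ((m : ℝ) + 5) * (h : ℝ) ^ (n + m + 1) ≤ h / 32 * (h : ℝ) ^ (n + m + 1) := by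
          gcongr
          linarith
      _ = h * (h : ℝ) ^ (n + m + 1) / 32 := by ring
  have hc6 : (T6.card : ℝ) ≤ (h : ℝ) ^ (n + m + 2) / 32 := by
    rw [hT6, card_product, BF.Els.card_box, hpow]
    push_cast
    have h1 := hk3 h (by omega)
    calc (((BF.Els.box (n + 1) h).filter fun t =>
          ¬ Irreducible (GZ ℚ (BF.Els.co (M : ℤ) t))).card : ℝ) * (h : ℝ) ^ (m + 1)
        ≤ 1 / 32 * (h : ℝ) ^ (n + 1) * (h : ℝ) ^ (m + 1) := by gcongr
      _ = (h : ℝ) ^ (n + 1) * (h : ℝ) ^ (m + 1) / 32 := by ring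
  have hmain : (h : ℝ) ^ (n + m + 2) / 8 ≤ ((G \ bad).card : ℝ) := by linarith
  refine le_trans ?_ (hmain.trans hinj)
  have h1 : ((H : ℝ) / (4 * M)) ^ (n + m + 2) ≤ (h : ℝ) ^ (n + m + 2) :=
    pow_le_pow_left₀ (by positivity) hhH _
  rw [div_pow] at h1
  calc 1 / (8 * (4 * (M : ℝ)) ^ (n + m + 2)) * (H : ℝ) ^ (n + m + 2)
      = (H : ℝ) ^ (n + m + 2) / (4 * M) ^ (n + m + 2) / 8 := by
        field_simp
    _ ≤ (h : ℝ) ^ (n + m + 2) / 8 := by linarith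

end Stoll308.DQ
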