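import Pool.Agent.Work.MP_308fa9_nt.BF.Els
import Pool.Agent.Work.MP_308fa9_nt.BF.Redu

set_option autoImplicit false

/-!
The polynomials which are not a constant times a square modulo the large primes.
-/

namespace Stoll308.DQ

open Polynomial Finset BG BF

open Classical in
/-- The good parameters: `f(T²)` is not a constant times a square modulo any prime `p > Q`. -/
noncomputable def GB (n : ℕ) (Q h : ℕ) : Finset (Fin (n + 1) → ℤ) :=
  (BF.Els.box (n + 1) h).filter fun t => ∀ (p : ℕ) [Fact p.Prime], Q < p →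
    ¬ ((p : ℤ) ∣ BF.Els.co ((8 * Q.factorial : ℕ) : ℤ) t 0 ∧
      (p : ℤ) ∣ BF.Els.co ((8 * Q.factorial : ℕ) : ℤ) t 1) ∧
    ¬ BF.Els.SqK (AlgebraicClosure (ZMod p)) (BF.Els.co ((8 * Q.factorial : ℕ) : ℤ) t)

/-- the coefficients have the size of the parameters -/
theorem co_size {n h M : ℕ} (hM : 0 < M) {t : Fin (n + 1) → ℤ} (ht : t ∈ BF.Els.box (n + 1) h)
    (i : Fin (n + 1)) : 0 < BF.Els.co (M : ℤ) t i ∧ BF.Els.co (M : ℤ) t i ≤ M * (h + 1) := by
  have hMz : (0 : ℤ) < (M : ℤ) := by exact_mod_cast hM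
  have h1 := BF.Els.pos_of_box ht i
  have h2 : (M : ℤ) * 1 ≤ M * t i := mul_le_mul_of_nonneg_left h1.1 hMz.le
  have h3 : (M : ℤ) * t i ≤ M * h := mul_le_mul_of_nonneg_left h1.2 hMz.le
  have h4 : (1 : ℤ) ≤ M := hMz
  unfold BF.Els.co
  constructor
  · split_ifs <;> linarith
  · split_ifs <;> linarith

theorem good_box (n : ℕ) (hn : 4 ≤ n) (he : Even n) (Q : ℕ) (hQ : 16 ≤ Q) :
    ∃ h₀ : ℕ, ∀ h : ℕ, h₀ ≤ h → (h : ℝ) ^ (n + 1) / 2 ≤ ((GB n Q h).card : ℝ) := by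
  classical
  obtain ⟨C, hC0, hC⟩ := BF.Els.RR_bound n hn he
  obtain ⟨M, hMdef⟩ : ∃ M : ℕ, M = 8 * Q.factorial := ⟨_, rfl⟩
  have hM : 0 < M := by
    rw [hMdef]
    exact Nat.mul_pos (by norm_num) (Nat.factorial_pos _)
  have hMz : (0 : ℤ) < (M : ℤ) := by exact_mod_cast hM
  have hM0 : (0 : ℝ) < M := by exact_mod_cast hM
  have hQM : ∀ p : ℕ, p.Prime → Q < p → ¬ (p : ℤ) ∣ (M : ℤ) := by
    intro p hp hQp h
    rw [Int.natCast_dvd_natCast, hMdef] at h
    rcases (hp.dvd_mul).1 h with h | h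
    · have h2 : p ∣ 2 ^ 3 := by norm_num; exact h
      have := Nat.le_of_dvd (by norm_num) (hp.dvd_of_dvd_pow h2)
      omega
    · have := (hp.dvd_factorial).1 h
      omega
  obtain ⟨C', hC'⟩ : ∃ C' : ℕ, C' = ⌈C * (2 * M) ^ (n - 1)⌉₊ := ⟨_, rfl⟩
  refine ⟨Q + C' + 4 * (n + 5) + 2, ?_⟩
  intro h hH
  have hhQ : Q < h := by omega
  have hhC : C' < h := by omega
  have hhn : 4 * (n + 5) ≤ h := by omega
  have hh1 : 1 ≤ h := by omega
  have hh1' : (1 : ℝ) ≤ h := by exact_mod_cast hh1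
  have hco : ∀ t ∈ BF.Els.box (n + 1) h, ∀ i, 0 < BF.Els.co (M : ℤ) t i ∧
      BF.Els.co (M : ℤ) t i ≤ M * (h + 1) := fun t ht i => co_size hM ht i
  have hRR : ∀ t ∈ BF.Els.box (n + 1) h,
      (BF.Els.RR (BF.Els.co (M : ℤ) t)).natAbs < h ^ n := by
    intro t ht
    have h1 := hC (M * (h + 1)) (by positivity) (BF.Els.co (M : ℤ) t) (by
      intro i
      have h2 := hco t ht i
      rw [abs_of_pos (by exact_mod_cast h2.1)]
      exact_mod_cast h2.2)
    have h2 : C * ((M : ℝ) * (h + 1)) ^ (n - 1) < (h : ℝ) ^ n := by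
      have h3 : (M : ℝ) * (h + 1) ≤ (2 * M) * h := by nlinarith
      have h4 : ((M : ℝ) * (h + 1)) ^ (n - 1) ≤ ((2 * M) * h) ^ (n - 1) :=
        pow_le_pow_left₀ (by positivity) h3 _
      have h5 : C * (2 * M) ^ (n - 1) ≤ C' := by
        rw [hC']
        exact Nat.le_ceil _
      have h6 : (C' : ℝ) < h := by exact_mod_cast hhC
      have h7 : (0 : ℝ) < (h : ℝ) ^ (n - 1) := by positivity
      have h8 : (h : ℝ) ^ n = h * (h : ℝ) ^ (n - 1) := by
        rw [← pow_succ']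
        congr 1
        omega
      calc C * ((M : ℝ) * (h + 1)) ^ (n - 1) ≤ C * ((2 * M) * h) ^ (n - 1) :=
            mul_le_mul_of_nonneg_left h4 hC0
        _ = (C * (2 * M) ^ (n - 1)) * (h : ℝ) ^ (n - 1) := by
            rw [mul_pow]
            ring
        _ < h * (h : ℝ) ^ (n - 1) := mul_lt_mul_of_pos_right (by linarith) h7
        _ = (h : ℝ) ^ n := h8.symm
    have h3 : (((BF.Els.RR (BF.Els.co (M : ℤ) t)).natAbs : ℕ) : ℝ) < (h : ℝ) ^ n := by
      rw [Nat.cast_natAbs]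
      push_cast
      exact lt_of_le_of_lt h1 h2
    exact_mod_cast h3
  set bad := ((Ioc Q h).filter Nat.Prime).biUnion fun p => BF.Els.S1 n M h p ∪ BF.Els.S2 n M h p
    with hbad
  set bad' := bad ∪ (BF.Els.E1 n M h ∪ BF.Els.E2 n M h) with hbad'
  have hgood : BF.Els.box (n + 1) h \ bad' ⊆ GB n Q h := by
    intro t ht
    rw [mem_sdiff, hbad', mem_union, mem_union, not_or, not_or] at ht
    obtain ⟨hb, hb1, hb2, hb3⟩ := ht
    rw [GB, mem_filter, ← hMdef]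
    refine ⟨hb, ?_⟩
    intro p hp hpQ
    have hpp : p.Prime := hp.out
    have hp2 : p ≠ 2 := by omega
    have hS1 : ¬ ((p : ℤ) ∣ BF.Els.co (M : ℤ) t 0 ∧ (p : ℤ) ∣ BF.Els.co (M : ℤ) t 1) := by
      intro h01
      by_cases hph : p ≤ h
      · apply hb1
        rw [hbad, mem_biUnion]
        refine ⟨p, mem_filter.2 ⟨mem_Ioc.2 ⟨hpQ, hph⟩, hpp⟩, ?_⟩
        rw [mem_union]
        left
        rw [BF.Els.S1, mem_filter]
        exact ⟨hb, h01⟩
      · push Not at hph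
        have h0 := h01.1
        rw [BF.Els.co_lt _ t (by rw [Fin.val_zero]; omega)] at h0
        rcases (Nat.prime_iff_prime_int.1 hpp).dvd_or_dvd h0 with h4 | h4
        · exact hQM p hpp hpQ h4
        · have h5 := BF.Els.pos_of_box hb 0
          have h6 := Int.le_of_dvd (by linarith [h5.1]) h4
          have h7 : (h : ℤ) < p := by exact_mod_cast hph
          linarith [h5.2]
    refine ⟨hS1, ?_⟩
    intro hcon
    by_cases hph : p ≤ h
    · apply hb1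
      rw [hbad, mem_biUnion]
      refine ⟨p, mem_filter.2 ⟨mem_Ioc.2 ⟨hpQ, hph⟩, hpp⟩, ?_⟩
      rw [mem_union]
      right
      rw [BF.Els.S2, mem_filter]
      exact ⟨hb, hS1, hp, hcon⟩
    · push Not at hph
      have h2K : (2 : AlgebraicClosure (ZMod p)) ≠ 0 := by
        intro h0
        apply BG.Els.two_ne (p := p) hp2
        apply (algebraMap (ZMod p) (AlgebraicClosure (ZMod p))).injective
        rw [map_ofNat, map_zero]
        exact h0
      have ha0 : (BF.Els.co (M : ℤ) t 0 : AlgebraicClosure (ZMod p)) ≠ 0 := by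
        intro h0
        rw [BG.PEls.cast_eq_zero (p := p), BF.Els.co_lt _ t (by rw [Fin.val_zero]; omega)] at h0
        rcases (Nat.prime_iff_prime_int.1 hpp).dvd_or_dvd h0 with h4 | h4
        · exact hQM p hpp hpQ h4
        · have h5 := BF.Els.pos_of_box hb 0
          have h6 := Int.le_of_dvd (by linarith [h5.1]) h4
          have h7 : (h : ℤ) < p := by exact_mod_cast hph
          linarith [h5.2]
      have hrel : (p : ℤ) ∣ BF.Els.RR (BF.Els.co (M : ℤ) t) ∧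
          (p : ℤ) ∣ BF.Els.NN (BF.Els.co (M : ℤ) t) := by
        obtain ⟨m, hm⟩ := he
        have hm2 : n = 2 * m := by omega
        subst hm2
        exact BF.Els.rel (K := AlgebraicClosure (ZMod p)) (by omega) h2K ha0 hcon
      have hR0 : BF.Els.RR (BF.Els.co (M : ℤ) t) ≠ 0 := by
        intro h0
        apply hb2
        rw [BF.Els.E1, mem_filter]
        exact ⟨hb, h0⟩
      apply hb3
      rw [BF.Els.E2, mem_filter]
      exact ⟨hb, hR0, p, hpp, hph, hp2, hQM p hpp hpQ, hrel.1, hrel.2⟩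
  have hb3 : ((BF.Els.box (n + 1) h).card : ℝ) ≤
      ((BF.Els.box (n + 1) h \ bad').card : ℝ) + ((bad.card : ℝ) +
        (((BF.Els.E1 n M h).card : ℝ) + ((BF.Els.E2 n M h).card : ℝ))) := by
    have h1 : BF.Els.box (n + 1) h ⊆ (BF.Els.box (n + 1) h \ bad') ∪ bad' := by
      intro t ht
      rw [mem_union, mem_sdiff]
      by_cases h : t ∈ bad'
      · exact Or.inr h
      · exact Or.inl ⟨ht, h⟩
    have h2 := (card_le_card h1).trans ((card_union_le _ _).trans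
      (Nat.add_le_add_left ((card_union_le _ _).trans
        (Nat.add_le_add_left (card_union_le _ _) _)) _))
    exact_mod_cast h2
  rw [BF.Els.card_box] at hb3
  push_cast at hb3
  have hE1 := BF.Els.card_E1 hn hMz h
  have hE2 := BF.Els.card_E2 hn (M := (M : ℤ)) hRR
  have hb2 : (bad.card : ℝ) ≤ (h : ℝ) ^ (n + 1) / 4 + 4 * (h : ℝ) ^ n := by
    have h1 : (bad.card : ℝ) ≤ ∑ p ∈ (Ioc Q h).filter Nat.Prime,
        (((BF.Els.S1 n M h p).card : ℝ) + ((BF.Els.S2 n M h p).card : ℝ)) := by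
      have h2 := card_biUnion_le (s := (Ioc Q h).filter Nat.Prime)
        (t := fun p => BF.Els.S1 n M h p ∪ BF.Els.S2 n M h p)
      have h3 : (bad.card : ℝ) ≤ ∑ p ∈ (Ioc Q h).filter Nat.Prime,
        (((BF.Els.S1 n M h p ∪ BF.Els.S2 n M h p).card : ℕ) : ℝ) := by exact_mod_cast h2
      refine h3.trans (sum_le_sum fun p _ => ?_)
      exact_mod_cast card_union_le _ _
    have h2 : ∑ p ∈ (Ioc Q h).filter Nat.Prime,
        (((BF.Els.S1 n M h p).card : ℝ) + ((BF.Els.S2 n M h p).card : ℝ)) ≤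
        ∑ p ∈ Ioc Q h, (h : ℝ) ^ (n - 1) * (4 * (h : ℝ) ^ 2 * ((p : ℝ) ^ 2)⁻¹ + 4) := by
      refine (sum_le_sum fun p hp => ?_).trans
        (sum_le_sum_of_subset_of_nonneg (filter_subset _ _) fun p _ _ => by positivity)
      rw [mem_filter, mem_Ioc] at hp
      have hp0 : (0 : ℝ) < p := by exact_mod_cast hp.2.pos
      have h3 := BF.Els.card_S1 hn (M := (M : ℤ)) (h := h) hp.2 (hQM p hp.2 hp.1.1)
      have h4 := BF.Els.card_S2 hn (M := (M : ℤ)) (h := h) hp.2 (by omega) (hQM p hp.2 hp.1.1)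
      have h5 : ((h : ℝ) / p + 1) ^ 2 ≤ 2 * ((h : ℝ) / p) ^ 2 + 2 := by
        nlinarith [sq_nonneg ((h : ℝ) / p - 1)]
      have h6 : ((h : ℝ) / p) ^ 2 = (h : ℝ) ^ 2 * ((p : ℝ) ^ 2)⁻¹ := by
        rw [div_pow, div_eq_mul_inv]
      rw [h6] at h5
      have h7 := mul_le_mul_of_nonneg_left h5 (by positivity : (0 : ℝ) ≤ (h : ℝ) ^ (n - 1))
      linarith
    have h3 : ∑ p ∈ Ioc Q h, (((p : ℕ) : ℝ) ^ 2)⁻¹ ≤ 1 / 16 := by
      have hsum := sum_Ioc_inv_sq_le_sub (α := ℝ) (k := Q) (n := h) (by omega) hhQ.le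
      have h4 : (0 : ℝ) ≤ (((h : ℕ) : ℕ) : ℝ)⁻¹ := by positivity
      have hQ16 : (16 : ℝ) ≤ Q := by exact_mod_cast hQ
      have h5 : (Q : ℝ)⁻¹ ≤ 1 / 16 := by
        rw [one_div]
        exact inv_anti₀ (by norm_num) hQ16
      linarith
    have h4 : (((Ioc Q h).card : ℕ) : ℝ) ≤ h := by
      rw [Nat.card_Ioc]
      exact_mod_cast Nat.sub_le _ _
    have h5 : (h : ℝ) ^ (n + 1) = (h : ℝ) ^ (n - 1) * (h : ℝ) ^ 2 := by
      rw [← pow_add]
      congr 1
      omega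
    have h6 : (h : ℝ) ^ n = (h : ℝ) ^ (n - 1) * h := by
      rw [← pow_succ]
      congr 1
      omega
    refine h1.trans (h2.trans ?_)
    rw [← mul_sum, sum_add_distrib, ← mul_sum, sum_const, nsmul_eq_mul, h5, h6]
    have h7 : 4 * (h : ℝ) ^ 2 * ∑ p ∈ Ioc Q h, (((p : ℕ) : ℝ) ^ 2)⁻¹ ≤ 4 * (h : ℝ) ^ 2 * (1 / 16) :=
      mul_le_mul_of_nonneg_left h3 (by positivity)
    calc (h : ℝ) ^ (n - 1) * (4 * (h : ℝ) ^ 2 * ∑ p ∈ Ioc Q h, (((p : ℕ) : ℝ) ^ 2)⁻¹ +
          (((Ioc Q h).card : ℕ) : ℝ) * 4)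
        ≤ (h : ℝ) ^ (n - 1) * (4 * (h : ℝ) ^ 2 * (1 / 16) + h * 4) := by gcongr
      _ = (h : ℝ) ^ (n - 1) * (h : ℝ) ^ 2 / 4 + 4 * ((h : ℝ) ^ (n - 1) * h) := by ring
  have hmain : (h : ℝ) ^ (n + 1) / 2 ≤ ((BF.Els.box (n + 1) h \ bad').card : ℝ) := by
    have h1 : ((n : ℝ) + 5) * (h : ℝ) ^ n ≤ (h : ℝ) ^ (n + 1) / 4 := by
      have h2 : 4 * ((n : ℝ) + 5) ≤ h := by exact_mod_cast hhn
      have h3 : (h : ℝ) ^ (n + 1) = h * (h : ℝ) ^ n := pow_succ' _ _
      rw [h3]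
      have h4 := mul_le_mul_of_nonneg_right h2 (by positivity : (0 : ℝ) ≤ (h : ℝ) ^ n)
      linarith
    have h2 : ((n : ℝ) + 5) * (h : ℝ) ^ n = 4 * (h : ℝ) ^ n + (h : ℝ) ^ n + (h : ℝ) ^ n * n := by
      ring
    linarith
  refine hmain.trans ?_
  exact_mod_cast card_le_card hgood

open Classical in
/-- Most parameters give irreducible polynomials. -/
theorem irr_box (n : ℕ) (hn : 4 ≤ n) (M : ℕ) (hM : 0 < M) (ε : ℝ) (hε : 0 < ε) :
    ∃ h₀ : ℕ, ∀ h : ℕ, h₀ ≤ h → (((BF.Els.box (n + 1) h).filter fun t =>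
      ¬ Irreducible (GZ ℚ (BF.Els.co (M : ℤ) t))).card : ℝ) ≤ ε * (h : ℝ) ^ (n + 1) := by
  have hMz : (0 : ℤ) < (M : ℤ) := by exact_mod_cast hM
  have hM0 : (0 : ℝ) < M := by exact_mod_cast hM
  obtain ⟨H₀, hH⟩ := BF.reducible_small n (by omega) (ε / (2 * M) ^ (n + 1)) (by positivity)
  refine ⟨H₀ + 1, fun h hh => ?_⟩
  have h1 := hH (M * (h + 1)) (by nlinarith)
  have hh1 : (1 : ℝ) ≤ h := by exact_mod_cast (by omega : 1 ≤ h)
  have hinj : ((BF.Els.box (n + 1) h).filter fun t =>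
      ¬ Irreducible (GZ ℚ (BF.Els.co (M : ℤ) t))).card ≤
      BF.cnt n (fun a => a 0 = 0 ∨ IsSquare (a 0) ∨ ¬ Irreducible (GZ ℚ a)) (M * (h + 1)) := by
    unfold BF.cnt
    apply card_le_card_of_injOn (BF.Els.co (M : ℤ))
    · intro t ht
      rw [mem_coe, mem_filter] at ht
      refine mem_coe.2 ((@mem_filter _ _ (fun a => Classical.propDecidable _) _ _).2
        ⟨Fintype.mem_piFinset.2 fun i => ?_, Or.inr (Or.inr ht.2)⟩)
      have h2 := co_size hM ht.1 i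
      rw [mem_Icc]
      push_cast
      constructor
      · have : (0 : ℤ) ≤ (M : ℤ) * (h + 1) := by positivity
        linarith [h2.1]
      · exact h2.2
    · intro t _ t' _ htt
      funext i
      exact BF.Els.co_inj hMz.ne' (congrFun htt i)
  have h3 : (((BF.Els.box (n + 1) h).filter fun t =>
      ¬ Irreducible (GZ ℚ (BF.Els.co (M : ℤ) t))).card : ℝ) ≤
      ε / (2 * M) ^ (n + 1) * ((M * (h + 1) : ℕ) : ℝ) ^ (n + 1) :=
    le_trans (by exact_mod_cast hinj) h1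
  refine h3.trans ?_
  have h4 : ((M * (h + 1) : ℕ) : ℝ) ≤ 2 * M * h := by
    push_cast
    nlinarith
  have h5 : ((M * (h + 1) : ℕ) : ℝ) ^ (n + 1) ≤ (2 * M * h) ^ (n + 1) :=
    pow_le_pow_left₀ (by positivity) h4 _
  calc ε / (2 * M) ^ (n + 1) * ((M * (h + 1) : ℕ) : ℝ) ^ (n + 1)
      ≤ ε / (2 * M) ^ (n + 1) * (2 * M * h) ^ (n + 1) :=
        mul_le_mul_of_nonneg_left h5 (by positivity)
    _ = ε * (h : ℝ) ^ (n + 1) := by
        rw [mul_pow (2 * (M : ℝ)) h]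
        field_simp

end Stoll308.DQ
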