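import Pool.Agent.Work.MP_308fa9_nt.DQ.ElsPt
import Pool.Agent.Work.MP_308fa9_nt.DQ.ElsU
import Pool.Agent.Work.MP_308fa9_nt.BF.ElsB

set_option autoImplicit false

/-!
The pairs of polynomials whose product is a constant times a square modulo a prime.
-/

namespace Stoll308.DQ

open Polynomial Finset BG BF

open Classical in
/-- The pairs of parameters with `f q` a constant times a square modulo `p`. -/
noncomputable def S3 (n m : ℕ) (M : ℤ) (h p : ℕ) :
    Finset ((Fin (n + 1) → ℤ) × (Fin (m + 1) → ℤ)) :=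
  (BF.Els.box (n + 1) h ×ˢ BF.Els.box (m + 1) h).filter fun x =>
    ¬ ((p : ℤ) ∣ BF.Els.co M x.2 0 ∧ (p : ℤ) ∣ BF.Els.co M x.2 1) ∧
    ∃ _ : Fact p.Prime, GZ (AlgebraicClosure (ZMod p)) (BF.Els.co M x.1) ≠ 0 ∧
      Sq2 (AlgebraicClosure (ZMod p)) (BF.Els.co M x.1) (BF.Els.co M x.2)

/-- The degree modulo `p`. -/
lemma three_le_deg {m : ℕ} (hm : 4 ≤ m) {K : Type*} [Field K] {b : Fin (m + 1) → ℤ}
    (h : ¬ ((b 0 : K) = 0 ∧ (b 1 : K) = 0)) : 3 ≤ (GZ K b).natDegree := by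
  have h1 : ∃ i : Fin (m + 1), (i : ℕ) ≤ 1 ∧ (b i : K) ≠ 0 := by
    by_cases h0 : (b 0 : K) = 0
    · refine ⟨1, ?_, fun h1 => h ⟨h0, h1⟩⟩
      rw [Fin.val_one', Nat.mod_eq_of_lt (by omega)]
    · exact ⟨0, by rw [Fin.val_zero]; omega, h0⟩
  obtain ⟨i, hi, hb⟩ := h1
  have h2 : (GZ K b).coeff (m - i) = b i := by
    rw [BF.Els.gz_coeff _ (Nat.sub_le _ _)]
    congr 2
    apply Fin.ext
    simp only
    omega
  have h3 : m - (i : ℕ) ≤ (GZ K b).natDegree := le_natDegree_of_ne_zero (by rwa [h2])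
  omega

/-- Two members of a fibre. -/
lemma fibre_unique {n m : ℕ} (hm : 4 ≤ m) {p : ℕ} [Fact p.Prime] (hp2 : p ≠ 2)
    {a : Fin (n + 1) → ℤ} {b b' : Fin (m + 1) → ℤ} (ha : GZ (AlgebraicClosure (ZMod p)) a ≠ 0)
    (hb : Sq2 (AlgebraicClosure (ZMod p)) a b) (hb' : Sq2 (AlgebraicClosure (ZMod p)) a b')
    (hbb : ∀ i : Fin (m + 1), (i : ℕ) + 1 < m → b i = b' i)
    (h01 : ¬ ((p : ℤ) ∣ b 0 ∧ (p : ℤ) ∣ b 1)) (i : Fin (m + 1)) : (p : ℤ) ∣ b i - b' i := by
  have h2K : (2 : AlgebraicClosure (ZMod p)) ≠ 0 := by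
    intro h0
    apply BG.Els.two_ne (p := p) hp2
    apply (algebraMap (ZMod p) (AlgebraicClosure (ZMod p))).injective
    rw [map_ofNat, map_zero]
    exact h0
  have hdiff : (GZ (AlgebraicClosure (ZMod p)) b - GZ (AlgebraicClosure (ZMod p)) b').natDegree ≤
      1 := by
    rw [natDegree_le_iff_coeff_eq_zero]
    intro N hN
    rw [coeff_sub, sub_eq_zero]
    by_cases hNn : N ≤ m
    · rw [BF.Els.gz_coeff _ hNn, BF.Els.gz_coeff _ hNn, hbb _ (by simp only; omega)]
    · rw [BF.Els.gz_coeff_gt _ (by omega), BF.Els.gz_coeff_gt _ (by omega)]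
  have hdeg := three_le_deg (K := AlgebraicClosure (ZMod p)) hm (b := b) (by
    rw [BG.PEls.cast_eq_zero (p := p), BG.PEls.cast_eq_zero (p := p)]
    exact h01)
  have key := uniq h2K (GZ (AlgebraicClosure (ZMod p)) a) _ _ ha hdeg hdiff hb hb'
  have hi := i.2
  have h3 := congrArg (fun g : (AlgebraicClosure (ZMod p))[X] => g.coeff (m - i)) key
  rw [BF.Els.gz_coeff _ (Nat.sub_le _ _), BF.Els.gz_coeff _ (Nat.sub_le _ _)] at h3
  have h4 : (⟨m - (m - (i : ℕ)), by omega⟩ : Fin (m + 1)) = i := by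
    apply Fin.ext
    simp only
    omega
  rw [h4] at h3
  rw [← BG.PEls.cast_eq_zero (K := AlgebraicClosure (ZMod p))]
  push_cast
  rw [h3, sub_self]

/-- For a fixed first polynomial. -/
theorem card_fibre {n m : ℕ} (hm : 4 ≤ m) {M : ℤ} {h p : ℕ} (hp : p.Prime) (hp2 : p ≠ 2)
    (hpM : ¬ (p : ℤ) ∣ M) (t : Fin (n + 1) → ℤ) :
    (((S3 n m M h p).filter fun x => x.1 = t).card : ℝ) ≤
      (h : ℝ) ^ (m - 1) * ((h : ℝ) / p + 1) ^ 2 := by
  classical
  have := Fact.mk hp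
  set T : Finset (Fin (m + 1) → ℤ) := ((S3 n m M h p).filter fun x => x.1 = t).image Prod.snd
    with hT
  have hcard : ((S3 n m M h p).filter fun x => x.1 = t).card = T.card := by
    rw [hT, card_image_of_injOn]
    intro x hx y hy hxy
    rw [mem_coe, mem_filter] at hx hy
    exact Prod.ext (hx.2.trans hy.2.symm) hxy
  rw [hcard]
  have hTm : ∀ b ∈ T, (t, b) ∈ S3 n m M h p := by
    intro b hb
    rw [hT, mem_image] at hb
    obtain ⟨x, hx, rfl⟩ := hb
    rw [mem_filter] at hx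
    rw [← hx.2]
    exact hx.1
  set u : Fin (m + 1) := ⟨m - 1, by omega⟩ with hu
  set w : Fin (m + 1) := ⟨m, by omega⟩ with hw
  have huw : u ≠ w := by
    intro h0
    have := congrArg Fin.val h0
    simp only [hu, hw] at this
    omega
  have hc : ({u, w} : Finset (Fin (m + 1))).card = 2 := card_pair huw
  have h1 := BF.Els.card_le_mod hp.pos {u, w} T (by
    intro b hb
    have h2 := hTm b hb
    rw [S3, mem_filter, mem_product] at h2
    exact h2.1.2) (by
    intro b hb b' hb' hbb i _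
    have h2 := hTm b hb
    have h3 := hTm b' hb'
    rw [S3, mem_filter] at h2 h3
    obtain ⟨-, h01, _, ha, hs⟩ := h2
    obtain ⟨-, -, _, -, hs'⟩ := h3
    apply BF.Els.dvd_of_co hp hpM
    apply fibre_unique hm hp2 ha hs hs' _ h01
    intro j hj
    have h4 : b j = b' j := by
      apply hbb
      rw [mem_insert, mem_singleton, not_or]
      constructor
      · intro h0
        have := congrArg Fin.val h0
        simp only [hu] at this
        omega
      · intro h0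
        have := congrArg Fin.val h0
        simp only [hw] at this
        omega
    simp only [BF.Els.co, h4])
  rw [hc] at h1
  exact h1

theorem card_S3 {n m : ℕ} (hm : 4 ≤ m) {M : ℤ} {h p : ℕ} (hp : p.Prime) (hp2 : p ≠ 2)
    (hpM : ¬ (p : ℤ) ∣ M) :
    ((S3 n m M h p).card : ℝ) ≤ (h : ℝ) ^ (n + 1) * ((h : ℝ) ^ (m - 1) * ((h : ℝ) / p + 1) ^ 2) := by
  classical
  have h1 := BG.Els.card_le_fiber (S3 n m M h p) (BF.Els.box (n + 1) h) Prod.fst (by
    intro x hx
    rw [S3, mem_filter, mem_product] at hx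
    exact hx.1.1) ((h : ℝ) ^ (m - 1) * ((h : ℝ) / p + 1) ^ 2) (by
    intro c _
    exact card_fibre hm hp hp2 hpM c)
  rw [BF.Els.card_box] at h1
  push_cast at h1
  exact h1

end Stoll308.DQ
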