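import Pool.Agent.Work.MP_308fa9_nt.DQ.Weil
import Pool.Agent.Work.MP_308fa9_nt.DQ.Defs
import Pool.Agent.Work.MP_308fa9_nt.BF.ElsA

set_option autoImplicit false

/-!
Local points.
-/

namespace Stoll308.DQ

open Polynomial Finset PadicInt BG BF

/-- The product `f q` is a constant times a square over `K`. -/
def Sq2 {n m : ℕ} (K : Type*) [Field K] (a : Fin (n + 1) → ℤ) (b : Fin (m + 1) → ℤ) : Prop :=
  ∃ (c : K) (s : K[X]), GZ K a * GZ K b = C c * s ^ 2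

namespace ElsPtAux

lemma gz_cast {R S : Type*} [CommRing R] [CommRing S] {n : ℕ} (a : Fin (n + 1) → ℤ) (f : R →+* S) :
    (GZ R a).map f = GZ S a := by
  unfold GZ gpol
  rw [Polynomial.map_sum]
  refine Finset.sum_congr rfl fun i _ => ?_
  rw [Polynomial.map_mul, Polynomial.map_pow, map_X, map_C, map_intCast]

/-- A nonzero square value modulo `p` lifts. -/
lemma lift {n : ℕ} {p : ℕ} [hp : Fact p.Prime] (hp2 : p ≠ 2) (a : Fin (n + 1) → ℤ) {x y : ZMod p}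
    (u : ℤ_[p]) (hu : toZMod u = x) (hy : y ≠ 0) (hxy : y ^ 2 = (GZ (ZMod p) a).eval x) :
    ∃ w : ℚ_[p], w ^ 2 = (GZ ℚ_[p] a).eval (u : ℚ_[p]) := by
  rw [BF.Els.gz_eval] at hxy
  set V : ℤ_[p] := ∑ i : Fin (n + 1), (a i : ℤ_[p]) * u ^ (n - (i : ℕ)) with hV
  have hVm : toZMod V = y ^ 2 := by
    rw [hV, hxy]
    simp only [map_mul, map_pow, map_intCast, hu, map_sum]
  have hVu : ‖V‖ = 1 := norm_eq_one_iff_toZMod.2 (by rw [hVm]; exact pow_ne_zero _ hy)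
  obtain ⟨w, -, hw⟩ := sq_of_residue hp2 hVu (by rw [hVm]; exact ⟨y, sq y⟩)
  refine ⟨w, ?_⟩
  have h1 : ((w ^ 2 : ℤ_[p]) : ℚ_[p]) = (V : ℚ_[p]) := by rw [hw]
  rw [hV] at h1
  push_cast [PadicInt.coe_sum] at h1
  rw [BF.Els.gz_eval]
  exact h1

lemma gz_zero {n : ℕ} {K : Type*} [Field K] (a : Fin (n + 1) → ℤ) :
    (GZ K a).eval 0 = ((a (Fin.last n) : ℤ) : K) := by
  rw [BF.Els.gz_eval, Finset.sum_eq_single (Fin.last n)]
  · simp
  · intro i _ hi
    have h1 : (i : ℕ) < n := by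
      have := i.2
      rcases Nat.lt_or_ge (i : ℕ) n with h | h
      · exact h
      · exfalso
        apply hi
        apply Fin.ext
        rw [Fin.val_last]
        omega
    rw [zero_pow (by omega), mul_zero]
  · intro h
    exact absurd (mem_univ _) h

end ElsPtAux

open ElsPtAux

theorem point_good {n m : ℕ} {p : ℕ} [hp : Fact p.Prime] (hp2 : p ≠ 2)
    (hbig : (2 * (n + m) + 4) ^ 2 ≤ p) {a : Fin (n + 1) → ℤ} {b : Fin (m + 1) → ℤ}
    (h1 : ¬ BF.Els.SqK (AlgebraicClosure (ZMod p)) a)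
    (h2 : ¬ BF.Els.SqK (AlgebraicClosure (ZMod p)) b)
    (h3 : ¬ Sq2 (AlgebraicClosure (ZMod p)) a b) : HasPoint a b ℚ_[p] := by
  have hsq : ∀ {k : ℕ} {c : Fin (k + 1) → ℤ}, ¬ BF.Els.SqK (AlgebraicClosure (ZMod p)) c →
      ∀ e s, GZ (ZMod p) c ≠ C e * s ^ 2 := by
    intro k c hc e s he
    apply hc
    have h4 := congrArg (fun g => expand (AlgebraicClosure (ZMod p)) (2 * 1)
      (Polynomial.map (algebraMap (ZMod p) (AlgebraicClosure (ZMod p))) g)) he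
    simp only [gz_cast, Polynomial.map_mul, map_C, Polynomial.map_pow, map_mul, map_pow,
      expand_C] at h4
    exact ⟨_, _, h4⟩
  obtain ⟨x, y, z, hy, hz, hxy, hxz⟩ := exists_two_sq hp2 (GZ (ZMod p) a) (GZ (ZMod p) b) (by
      refine le_trans ?_ hbig
      have d1 : (GZ (ZMod p) a).natDegree ≤ n := BF.Els.gz_natDegree_le _
      have d2 : (GZ (ZMod p) b).natDegree ≤ m := BF.Els.gz_natDegree_le _
      exact Nat.pow_le_pow_left (by omega) 2) (hsq h1) (hsq h2) (by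
      intro e s he
      apply h3
      have h4 := congrArg
        (Polynomial.map (algebraMap (ZMod p) (AlgebraicClosure (ZMod p)))) he
      rw [Polynomial.map_mul, gz_cast, gz_cast, Polynomial.map_mul, map_C,
        Polynomial.map_pow] at h4
      exact ⟨_, _, h4⟩)
  obtain ⟨u, hu⟩ := ZMod.ringHom_surjective (toZMod : ℤ_[p] →+* ZMod p) x
  obtain ⟨w, hw⟩ := lift hp2 a u hu hy hxy
  obtain ⟨w', hw'⟩ := lift hp2 b u hu hz hxz
  exact Or.inl ⟨u, w, w', hw, hw'⟩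

theorem point_small {n m : ℕ} {p : ℕ} [hp : Fact p.Prime] {a : Fin (n + 1) → ℤ}
    {b : Fin (m + 1) → ℤ} (h1 : ((8 * p : ℕ) : ℤ) ∣ a (Fin.last n) - 1)
    (h2 : ((8 * p : ℕ) : ℤ) ∣ b (Fin.last m) - 1) : HasPoint a b ℚ_[p] := by
  obtain ⟨w, hw⟩ := BG.Els.isSquare_padic (p := p) h1
  obtain ⟨w', hw'⟩ := BG.Els.isSquare_padic (p := p) h2
  exact Or.inl ⟨0, w, w', by rw [hw, gz_zero], by rw [hw', gz_zero]⟩

theorem point_real {n m : ℕ} {a : Fin (n + 1) → ℤ} {b : Fin (m + 1) → ℤ}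
    (h1 : 0 < a (Fin.last n)) (h2 : 0 < b (Fin.last m)) : HasPoint a b ℝ := by
  refine Or.inl ⟨0, Real.sqrt (a (Fin.last n) : ℤ), Real.sqrt (b (Fin.last m) : ℤ), ?_, ?_⟩
  · rw [Real.sq_sqrt (by exact_mod_cast h1.le), gz_zero]
  · rw [Real.sq_sqrt (by exact_mod_cast h2.le), gz_zero]

end Stoll308.DQ
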