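import Pool.Agent.Work.MP_308fa9_nt.DQ.Cnt
import Pool.Agent.Work.MP_308fa9_nt.SC.LatCond
import Pool.Agent.Work.MP_308fa9_nt.SC.Excl
import Pool.Agent.Work.MP_308fa9_nt.OF.Main

set_option autoImplicit false

/-!
The exceptional polynomials of one degree.
-/

namespace Stoll308.DQ

open Polynomial Finset Matrix BG BF SC

/-- The conditions on one polynomial. -/
def Nice {n : ℕ} (P : ℕ) (a : Fin (n + 1) → ℤ) : Prop :=
  a 0 ≠ 0 ∧ ¬ IsSquare (a 0) ∧ Irreducible (GZ ℚ a) ∧ a (Fin.last n) ≠ 0 ∧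
    (∀ (p : ℕ) [Fact p.Prime], p ≤ P → ‖((P.factorial : ℚ_[p]) ^ 2)‖ ≤ ‖(a 0 : ℚ_[p])‖) ∧
    ∀ p : ℕ, p.Prime → P < p → (p : ℤ) ∣ a 0 → ¬ (p : ℤ) ∣ a (Fin.last n)

/-- The polynomial comes from a reduced pair with lengths of different sizes. -/
def Cusp {n : ℕ} (K R : ℝ) (H M : ℕ) (a : Fin (n + 1) → ℤ) : Prop :=
  ∃ N : ℕ, 0 < N ∧ N ≤ M ∧ ∃ (A B : Matrix (Fin n) (Fin n) ℤ) (t : Fin n → ℝ),
    BF.RPair K ((N : ℝ) ^ 2 * H) (sc N a) A B t ∧ ∃ i j, R * t i < t j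

theorem exc_small (n : ℕ) (hn : 4 ≤ n) (he : Even n) (K : ℝ) (hK : 1 ≤ K) (ε : ℝ) (hε : 0 < ε) :
    ∃ (P : ℕ) (R₀ : ℝ) (H₀ : ℕ), 2 ≤ P ∧ 1 ≤ R₀ ∧ ∀ R : ℝ, R₀ ≤ R → ∀ H : ℕ, H₀ ≤ H →
      (BF.cnt n (fun a => ¬ Nice P a ∨ Cusp K R H (P.factorial ^ (2 * n)) a) H : ℝ) ≤
        ε * H ^ (n + 1) := by
  have hl0 : (Fin.last n : Fin (n + 1)) ≠ 0 := by
    intro h
    have h1 := congrArg Fin.val h
    rw [Fin.val_last, Fin.val_zero] at h1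
    omega
  obtain ⟨S, hS, h1⟩ := OF.sqf_cnt n (ε / 6) (by positivity)
  obtain ⟨η, hη, H₁, h2⟩ := BF.height_small n (ε / 6) (by positivity)
  obtain ⟨P₂, h7⟩ := excl_small n (Fin.last n) hl0 (ε / 6) (by positivity)
  obtain ⟨P, hP⟩ : ∃ P : ℕ, P = P₂ + ⌈S⌉₊ + 2 := ⟨_, rfl⟩
  have hP2 : 2 ≤ P := by omega
  have hSP : S ≤ P := by
    refine (Nat.le_ceil S).trans ?_
    have : ⌈S⌉₊ ≤ P := by omega
    exact_mod_cast this
  obtain ⟨M, hM⟩ : ∃ M : ℕ, M = P.factorial ^ (2 * n) := ⟨_, rfl⟩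
  have hM1 : 1 ≤ M := by
    rw [hM]
    exact Nat.one_le_pow _ _ P.factorial_pos
  have hMr : (1 : ℝ) ≤ M := by exact_mod_cast hM1
  obtain ⟨ε', hε'⟩ : ∃ ε' : ℝ, ε' = ε / 6 / (M * ((M : ℝ) ^ 2) ^ (n + 1)) := ⟨_, rfl⟩
  have hε'0 : 0 < ε' := by rw [hε']; positivity
  obtain ⟨R₀, H₂, hR, h3⟩ := BF.cusp n hn he K hK η hη ε' hε'0
  obtain ⟨H₄, h5⟩ := BF.reducible_small n (by omega) (ε / 6) (by positivity)
  refine ⟨P, R₀, H₁ + ⌈|H₂|⌉₊ + H₄ + 1, hP2, hR, ?_⟩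
  intro R hRR H hH
  have hH1 : 1 ≤ H := by omega
  have hHr : (1 : ℝ) ≤ H := by exact_mod_cast hH1
  have g1 := h1 H hH1
  have g2 := h2 H (by omega)
  have g5 := h5 H (by omega)
  have g7 := h7 P (by omega) H
  have hbig : ∀ (x : ℝ), ⌈|x|⌉₊ ≤ H → ∀ N : ℕ, 0 < N → x ≤ (N : ℝ) ^ 2 * H := by
    intro x hx N hN
    have e1 : |x| ≤ ⌈|x|⌉₊ := Nat.le_ceil _
    have e2 : ((⌈|x|⌉₊ : ℕ) : ℝ) ≤ H := by exact_mod_cast hx
    have e3 : (1 : ℝ) ≤ (N : ℝ) ^ 2 := one_le_pow₀ (by exact_mod_cast hN)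
    have e4 : (H : ℝ) ≤ (N : ℝ) ^ 2 * H := by
      calc (H : ℝ) = 1 * H := by ring
        _ ≤ (N : ℝ) ^ 2 * H := mul_le_mul_of_nonneg_right e3 (by linarith)
    linarith [le_abs_self x]
  set P1 : (Fin (n + 1) → ℤ) → Prop := fun a => a 0 ≠ 0 ∧ S * OF.sfp (a 0) < |(a 0 : ℝ)|
    with hP1
  set P2 : (Fin (n + 1) → ℤ) → Prop := fun a => ∀ i, |(a i : ℝ)| < η * H with hP2'
  set P5 : (Fin (n + 1) → ℤ) → Prop := fun a => a 0 = 0 ∨ IsSquare (a 0) ∨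
    ¬ Irreducible (BF.GZ ℚ a) with hP5
  set P7 : (Fin (n + 1) → ℤ) → Prop := fun a => a 0 ≠ 0 ∧ ∃ p : ℕ, p.Prime ∧ P < p ∧
    (p : ℤ) ∣ a 0 ∧ (p : ℤ) ∣ a (Fin.last n) with hP7
  set Q3 : ℕ → (Fin (n + 1) → ℤ) → Prop := fun N a => a 0 ≠ 0 ∧ Irreducible (GZ ℚ a) ∧
    (∃ i, η * ((N : ℝ) ^ 2 * H) ≤ |(a i : ℝ)|) ∧
      ∃ (A B : Matrix (Fin n) (Fin n) ℤ) (t : Fin n → ℝ),
        BF.RPair K ((N : ℝ) ^ 2 * H) a A B t ∧ ∃ i j, R₀ * t i < t j with hQ3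
  set P3 : (Fin (n + 1) → ℤ) → Prop := fun a => ∃ N, 0 < N ∧ N ≤ M ∧ Q3 N (sc N a) with hP3
  have hsum : ∀ Q : ℕ → (Fin (n + 1) → ℤ) → Prop,
      (∀ N : ℕ, 0 < N → ∀ T : Finset (Fin (n + 1) → ℤ), (∀ a ∈ T, Q N a) →
        (T.card : ℝ) ≤ ε' * ((N : ℝ) ^ 2 * H) ^ (n + 1)) →
      (BF.cnt n (fun a => ∃ N, 0 < N ∧ N ≤ M ∧ Q N (sc N a)) H : ℝ) ≤
        ε / 6 * H ^ (n + 1) := by
    intro Q hQ
    have e1 := SC.cnt_exists (fun N a => Q N (sc (n := n) N a)) M H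
    have e2 : ∀ N ∈ Icc 1 M, (BF.cnt n (fun a => Q N (sc (n := n) N a)) H : ℝ) ≤
        ε' * (((M : ℝ) ^ 2) * H) ^ (n + 1) := by
      intro N hN
      rw [mem_Icc] at hN
      have hN0 : 0 < N := by omega
      refine (SC.cnt_scale _ (Q N) N hN0 H _ (fun a ha => ha) (hQ N hN0)).trans ?_
      have e3 : (N : ℝ) ≤ M := by exact_mod_cast hN.2
      gcongr
    calc (BF.cnt n (fun a => ∃ N, 0 < N ∧ N ≤ M ∧ Q N (sc N a)) H : ℝ)
        ≤ ((∑ N ∈ Icc 1 M, BF.cnt n (fun a => Q N (sc (n := n) N a)) H : ℕ) : ℝ) := by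
          exact_mod_cast e1
      _ = ∑ N ∈ Icc 1 M, (BF.cnt n (fun a => Q N (sc (n := n) N a)) H : ℝ) := by push_cast; rfl
      _ ≤ ∑ _N ∈ Icc 1 M, ε' * (((M : ℝ) ^ 2) * H) ^ (n + 1) := sum_le_sum e2
      _ = ε / 6 * H ^ (n + 1) := by
          rw [sum_const, Nat.card_Icc, Nat.add_sub_cancel, nsmul_eq_mul, hε', mul_pow]
          field_simp
  have g3 : (BF.cnt n P3 H : ℝ) ≤ ε / 6 * H ^ (n + 1) :=
    hsum Q3 fun N hN T hT => h3 _ (hbig H₂ (by omega) N hN) T hT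
  have hle : BF.cnt n (fun a => ¬ Nice P a ∨ Cusp K R H (P.factorial ^ (2 * n)) a) H ≤
      BF.cnt n P1 H + (BF.cnt n P2 H + (BF.cnt n P3 H + (BF.cnt n P5 H + BF.cnt n P7 H))) := by
    refine le_trans (BF.cnt_mono (Q := fun b => P1 b ∨ P2 b ∨ P3 b ∨ P5 b ∨ P7 b)
      H ?_) ?_
    · intro a ha h
      by_cases q5 : P5 a
      · exact Or.inr (Or.inr (Or.inr (Or.inl q5)))
      by_cases q7 : P7 a
      · exact Or.inr (Or.inr (Or.inr (Or.inr q7)))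
      by_cases q1 : P1 a
      · exact Or.inl q1
      by_cases q2 : P2 a
      · exact Or.inr (Or.inl q2)
      right; right; left
      rw [hP5] at q5
      simp only [not_or, not_not] at q5
      obtain ⟨h0, hsq, hF⟩ := q5
      have q1' : |(a 0 : ℝ)| ≤ S * OF.sfp (a 0) := by
        rw [hP1] at q1
        simp only [not_and, not_lt] at q1
        exact q1 h0
      have hl := BF.last_ne_zero (by omega) a h0 hF
      have hnice : Nice P a := by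
        refine ⟨h0, hsq, hF, hl, ?_, ?_⟩
        · intro p hp hpP
          exact fac_le (a 0) h0 S P hSP q1' p hpP
        · intro p hp hpP hd hd1
          exact q7 ⟨h0, p, hp, hpP, hd, hd1⟩
      obtain ⟨N, hN, hNM, A, B, t, hRP, i, j, hij⟩ := h.resolve_left (not_not.2 hnice)
      rw [hP2'] at q2
      push Not at q2
      obtain ⟨i₀, hi₀⟩ := q2
      have hN2 : (0 : ℝ) < (N : ℝ) ^ 2 := by positivity
      have hN1 : (0 : ℤ) < (N : ℤ) ^ 2 := by positivity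
      refine ⟨N, hN, by rw [hM]; exact hNM, ?_, ?_, ⟨i₀, ?_⟩, A, B, t, hRP, i, j, ?_⟩
      · unfold sc
        exact mul_ne_zero hN1.ne' h0
      · rw [GZ_sc]
        exact (irreducible_isUnit_mul (isUnit_sc hN)).2 hF
      · unfold sc
        push_cast
        rw [abs_mul, abs_of_pos hN2]
        calc η * ((N : ℝ) ^ 2 * H) = (N : ℝ) ^ 2 * (η * H) := by ring
          _ ≤ (N : ℝ) ^ 2 * |(a i₀ : ℝ)| := mul_le_mul_of_nonneg_left hi₀ hN2.le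
      · refine lt_of_le_of_lt ?_ hij
        exact mul_le_mul_of_nonneg_right hRR (hRP.pos i).le
    · refine (BF.cnt_or _ _ H).trans ?_
      gcongr
      refine (BF.cnt_or _ _ H).trans ?_
      gcongr
      refine (BF.cnt_or _ _ H).trans ?_
      gcongr
      exact BF.cnt_or _ _ H
  calc ((BF.cnt n (fun a => ¬ Nice P a ∨ Cusp K R H (P.factorial ^ (2 * n)) a) H : ℕ) : ℝ)
      ≤ ((BF.cnt n P1 H + (BF.cnt n P2 H + (BF.cnt n P3 H + (BF.cnt n P5 H +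
        BF.cnt n P7 H))) : ℕ) : ℝ) := by exact_mod_cast hle
    _ ≤ ε * H ^ (n + 1) := by
        push_cast
        have : (0 : ℝ) ≤ ε * H ^ (n + 1) := by positivity
        linarith

end Stoll308.DQ
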