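import Pool.Agent.Work.MP_308fa9_nt.DQ.Basic
import Pool.Agent.Work.MP_308fa9_nt.SC.Slope

set_option autoImplicit false

/-!
The Gauss norm.
-/

namespace Stoll308.DQ

open Polynomial Finset SC

theorem gauss_split (p : ℕ) [Fact p.Prime] (h : ℚ_[p][X]) (v : ℚ_[p]) (H G : ℤ_[p][X])
    (hH : H.Monic) (e : h = C v * toQ H * toQ (1 + C (p : ℤ_[p]) * G)) :
    (∀ i, ‖h.coeff i‖ ≤ ‖v‖) ∧ ∃ i, ‖h.coeff i‖ = ‖v‖ := by
  have e1 : h = C v * toQ (H * (1 + C (p : ℤ_[p]) * G)) := by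
    rw [e, slope_toQ_mul, mul_assoc]
  have hc : ∀ i, h.coeff i = v * (((H * (1 + C (p : ℤ_[p]) * G)).coeff i : ℤ_[p]) : ℚ_[p]) := by
    intro i
    rw [e1, coeff_C_mul, toQ, coeff_map]
    rfl
  constructor
  · intro i
    rw [hc, norm_mul]
    calc ‖v‖ * ‖(((H * (1 + C (p : ℤ_[p]) * G)).coeff i : ℤ_[p]) : ℚ_[p])‖ ≤ ‖v‖ * 1 :=
          mul_le_mul_of_nonneg_left (PadicInt.norm_le_one _) (norm_nonneg _)
      _ = ‖v‖ := mul_one _
  · refine ⟨H.natDegree, ?_⟩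
    have h1 : (H * (1 + C (p : ℤ_[p]) * G)).coeff H.natDegree =
        1 + (p : ℤ_[p]) * (H * G).coeff H.natDegree := by
      rw [show H * (1 + C (p : ℤ_[p]) * G) = H + C (p : ℤ_[p]) * (H * G) by ring, coeff_add,
        coeff_C_mul, hH.coeff_natDegree]
    have h2 : ‖(p : ℤ_[p]) * (H * G).coeff H.natDegree‖ < 1 := by
      rw [PadicInt.norm_lt_one_iff_dvd]
      exact Dvd.intro _ rfl
    have h3 : ‖(1 : ℤ_[p]) + (p : ℤ_[p]) * (H * G).coeff H.natDegree‖ = 1 := by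
      rw [PadicInt.norm_add_eq_max_of_ne (by rw [norm_one]; exact h2.ne'), norm_one]
      exact max_eq_left h2.le
    rw [hc, h1, norm_mul]
    have h4 : ‖(((1 : ℤ_[p]) + (p : ℤ_[p]) * (H * G).coeff H.natDegree : ℤ_[p]) : ℚ_[p])‖ = 1 := h3
    rw [h4, mul_one]

theorem Prim.ne_zero {p : ℕ} [Fact p.Prime] {h : ℚ_[p][X]} (hh : Prim p h) : h ≠ 0 := by
  rintro rfl
  obtain ⟨i, hi⟩ := hh.2
  rw [coeff_zero, norm_zero] at hi
  exact zero_ne_one hi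

theorem Prim.split {p : ℕ} [Fact p.Prime] {h : ℚ_[p][X]} (hh : Prim p h) :
    ∃ (v : ℚ_[p]) (H G : ℤ_[p][X]), ‖v‖ = 1 ∧ H.Monic ∧
      h = C v * toQ H * toQ (1 + C (p : ℤ_[p]) * G) := by
  obtain ⟨v, H, G, -, hH, e⟩ := split_poly p h hh.ne_zero
  obtain ⟨h1, j, h2⟩ := gauss_split p h v H G hH e
  obtain ⟨i, hi⟩ := hh.2
  refine ⟨v, H, G, le_antisymm ?_ ?_, hH, e⟩
  · rw [← h2]
    exact hh.1 j
  · rw [← hi]
    exact h1 i

theorem Prim.reflect {p : ℕ} [Fact p.Prime] {h : ℚ_[p][X]} (hh : Prim p h) (N : ℕ)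
    (hN : h.natDegree ≤ N) : Prim p (h.reflect N) := by
  constructor
  · intro i
    rw [coeff_reflect]
    exact hh.1 _
  · obtain ⟨i, hi⟩ := hh.2
    refine ⟨revAt N i, ?_⟩
    rw [coeff_reflect, revAt_invol]
    exact hi

theorem Prim.unit_mul {p : ℕ} [Fact p.Prime] {h : ℚ_[p][X]} (hh : Prim p h) (u : ℚ_[p])
    (hu : ‖u‖ = 1) : Prim p (C u * h) := by
  constructor
  · intro i
    rw [coeff_C_mul, norm_mul, hu, one_mul]
    exact hh.1 i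
  · obtain ⟨i, hi⟩ := hh.2
    exact ⟨i, by rw [coeff_C_mul, norm_mul, hu, one_mul, hi]⟩

theorem exists_prim (p : ℕ) [Fact p.Prime] (h : ℚ_[p][X]) (h0 : h ≠ 0) :
    ∃ k : ℤ, Prim p (C ((p : ℚ_[p]) ^ k) * h) := by
  obtain ⟨v, H, G, hv, hH, e⟩ := split_poly p h h0
  obtain ⟨h1, j, h2⟩ := gauss_split p h v H G hH e
  have hp : (0 : ℝ) < p := by exact_mod_cast (Fact.out : p.Prime).pos
  have hn : ‖(p : ℚ_[p]) ^ (-v.valuation)‖ * ‖v‖ = 1 := by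
    rw [norm_zpow, Padic.norm_p, Padic.norm_eq_zpow_neg_valuation hv, inv_zpow', neg_neg,
      ← zpow_add₀ hp.ne', add_neg_cancel, zpow_zero]
  refine ⟨-v.valuation, fun i => ?_, j, ?_⟩
  · rw [coeff_C_mul, norm_mul, ← hn]
    exact mul_le_mul_of_nonneg_left (h1 i) (norm_nonneg _)
  · rw [coeff_C_mul, norm_mul, h2, hn]

end Stoll308.DQ
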