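import Pool.Agent.Work.MP_308fa9_nt.DQ.Basic
import Pool.Agent.Work.MP_308fa9_nt.BF.LCond

set_option autoImplicit false

/-!
The class at a simple root modulo `l`.
-/

namespace Stoll308.DQ

open Polynomial Finset Matrix BG BF SC

/-- The value and the derivative of the characteristic polynomial at `t`. -/
theorem char_at {n : ℕ} (he : Even n) {a : Fin (n + 1) → ℤ} {A B : Matrix (Fin n) (Fin n) ℤ}
    (h : HasChar a A B) (t : ℤ) :
    (B - t • A).det = (-1) ^ (n / 2) * (GZ ℤ a).eval t ∧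
      ((B - t • A).adjugate * A).trace = -((-1) ^ (n / 2) * (derivative (GZ ℤ a)).eval t) := by
  have h1 : ((X : ℤ[X]) • A.map C - (B - t • A).map C).det =
      (C ((-1) ^ (n / 2)) * GZ ℤ a).comp (X + C t) := by
    unfold BF.HasChar at h
    rw [← h]
    have h2 := RingHom.map_det (compRingHom (X + C t : ℤ[X])) ((X : ℤ[X]) • A.map C - B.map C)
    rw [coe_compRingHom_apply] at h2
    rw [h2]
    congr 1
    ext1 i j
    simp only [RingHom.mapMatrix_apply, Matrix.map_apply, Matrix.sub_apply, Matrix.smul_apply,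
      smul_eq_mul, coe_compRingHom_apply, sub_comp, mul_comp, X_comp, C_comp]
    rw [C_sub, C_mul]
    ring
  obtain ⟨h3, h4⟩ := LCond.lc_char_coeffs _ A (B - t • A) h1
  rw [he.neg_one_pow, one_mul, eval_comp, eval_add, eval_X, eval_C, zero_add, eval_mul,
    eval_C] at h3
  have h5 : (derivative ((C ((-1) ^ (n / 2)) * GZ ℤ a).comp (X + C t))).eval 0 =
      (-1) ^ (n / 2) * (derivative (GZ ℤ a)).eval t := by
    rw [derivative_comp, eval_mul, eval_comp, derivative_C_mul]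
    simp
  rw [h5] at h4
  refine ⟨h3, ?_⟩
  rcases Nat.eq_zero_or_pos n with hn | hn
  · subst hn
    have h6 : ((B - t • A).adjugate * A).trace = 0 := by
      rw [Matrix.trace]
      exact Finset.sum_eq_zero fun i _ => i.elim0
    rw [h6, mul_zero] at h4
    rw [h6, ← h4, neg_zero]
  · have h9 : (-1 : ℤ) ^ (n - 1) = -1 := by
      apply Odd.neg_one_pow
      obtain ⟨k, hk⟩ := he
      exact ⟨k - 1, by omega⟩
    rw [h9] at h4
    rw [← h4]
    ring

/-- The value of `δ` at a root of `f` in terms of the pair. -/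
theorem adj_class {n : ℕ} (hn : 4 ≤ n) (he : Even n) (a : Fin (n + 1) → ℤ) (h0 : a 0 ≠ 0)
    (δ : ℚ[X]) (hδ : IsCoprime δ (GZ ℚ a)) (l : ℕ) [hl : Fact l.Prime] (h2 : l ≠ 2)
    (A B : Matrix (Fin n) (Fin n) ℤ) (h : BF.IsPair a δ A B) (hdet : A.det = (-1) ^ (n / 2) * a 0)
    (t : ℤ) (h1 : (l : ℤ) ∣ (B - t • A).det)
    (h3 : ¬ (l : ℤ) ∣ ((B - t • A).adjugate * A).trace) :
    ∃ θ : ℤ_[l], PadicInt.toZMod θ = (t : ZMod l) ∧ (GZ ℤ_[l] a).eval θ = 0 ∧
      IsUnit ((derivative (GZ ℤ_[l] a)).eval θ) ∧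
      ∀ i, ¬ (l : ℤ) ∣ (B - t • A).adjugate i i → ∃ (u : ℤ_[l]) (c : ℚ_[l]),
        PadicInt.toZMod u =
          (((-1) ^ (n / 2 + 1) * (B - t • A).adjugate i i : ℤ) : ZMod l) ∧ c ≠ 0 ∧
        (δ.map (algebraMap ℚ ℚ_[l])).eval (θ : ℚ_[l]) * u = c ^ 2 := by
  obtain ⟨hc1, hc2⟩ := char_at he (h.hasChar h0 hdet) t
  have hsg : ∀ (k : ℕ) (b d : ℤ), d ∣ (-1) ^ k * b ↔ d ∣ b := by
    intro k b d
    rcases neg_one_pow_eq_or ℤ k with h | h <;> simp [h]
  rw [hc1, hsg] at h1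
  rw [hc2, dvd_neg, hsg] at h3
  set F := GZ ℤ_[l] a with hF
  have hFm : F = (GZ ℤ a).map (Int.castRingHom ℤ_[l]) := (LCond.lc_GZ_map _ a).symm
  have hFq : GZ ℚ_[l] a = F.map (PadicInt.Coe.ringHom (p := l)) := (LCond.lc_GZ_map _ a).symm
  have hF0 : F.eval (t : ℤ_[l]) = (((GZ ℤ a).eval t : ℤ) : ℤ_[l]) := by
    rw [hFm, eval_map, ← eq_intCast (Int.castRingHom ℤ_[l]) t, eval₂_at_apply]
    simp
  have hF1 : (derivative F).eval (t : ℤ_[l]) = (((derivative (GZ ℤ a)).eval t : ℤ) : ℤ_[l]) := by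
    rw [hFm, derivative_map, eval_map, ← eq_intCast (Int.castRingHom ℤ_[l]) t, eval₂_at_apply]
    simp
  have hn0 : ‖F.eval (t : ℤ_[l])‖ < 1 := by
    rw [hF0]
    exact (PadicInt.norm_int_lt_one_iff_dvd _).mpr h1
  have hn1 : ‖(derivative F).eval (t : ℤ_[l])‖ = 1 := by
    rw [hF1]
    have h5 : ¬ ‖(((derivative (GZ ℤ a)).eval t : ℤ) : ℤ_[l])‖ < 1 := fun h =>
      h3 ((PadicInt.norm_int_lt_one_iff_dvd _).mp h)
    have h7 := (((derivative (GZ ℤ a)).eval t : ℤ) : ℤ_[l]).norm_le_one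
    linarith [not_lt.mp h5]
  obtain ⟨θ, hθ, hθn, hθd, -⟩ := hensels_lemma (F := F) (a := (t : ℤ_[l])) (by
    simp only [coe_aeval_eq_eval]
    rw [hn1]
    simpa using hn0)
  simp only [coe_aeval_eq_eval] at hθ hθn hθd
  rw [hn1] at hθn
  rw [hn1] at hθd
  have hcoe : ∀ (P : ℤ_[l][X]) (a : ℤ_[l]), (P.map (PadicInt.Coe.ringHom (p := l))).eval
      (a : ℚ_[l]) = ((P.eval a : ℤ_[l]) : ℚ_[l]) := by
    intro P a
    have h5 : (a : ℚ_[l]) = PadicInt.Coe.ringHom (p := l) a := rfl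
    rw [h5, eval_map, eval₂_at_apply]
    rfl
  have hroot : (GZ ℚ_[l] a).eval (θ : ℚ_[l]) = 0 := by
    rw [hFq, hcoe, hθ]
    rfl
  have hθd0 : (derivative (GZ ℚ_[l] a)).eval (θ : ℚ_[l]) ≠ 0 := by
    rw [hFq, derivative_map, hcoe]
    intro h0
    have h5 : (derivative F).eval θ = 0 := by
      apply Subtype.ext
      exact h0
    rw [h5, norm_zero] at hθd
    exact zero_ne_one hθd
  have hzm : ∀ x : ℤ_[l], PadicInt.toZMod x = 0 ↔ ‖x‖ < 1 := by
    intro x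
    rw [← RingHom.mem_ker, PadicInt.ker_toZMod, IsLocalRing.mem_maximalIdeal, mem_nonunits_iff,
      PadicInt.isUnit_iff]
    exact ⟨fun h => lt_of_le_of_ne x.norm_le_one h, fun h => ne_of_lt h⟩
  have hθt : PadicInt.toZMod θ = (t : ZMod l) := by
    have h5 := (hzm (θ - t)).2 hθn
    rw [map_sub, map_intCast, sub_eq_zero] at h5
    exact h5
  refine ⟨θ, hθt, hθ, PadicInt.isUnit_iff.2 hθd, ?_⟩
  intro i hi
  obtain ⟨G, hG, hA, hB⟩ := h
  -- over `ℚ_l`
  set φ : ℚ →+* ℚ_[l] := algebraMap ℚ ℚ_[l] with hφ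
  have ha0 : ((a 0 : ℤ) : ℚ_[l]) ≠ 0 := by exact_mod_cast h0
  obtain ⟨hm1, hm2⟩ := LCond.lc_mon_monic (K := ℚ_[l]) a ha0
  have ha0q : ((a 0 : ℤ) : ℚ) ≠ 0 := by exact_mod_cast h0
  obtain ⟨hq1, hq2⟩ := LCond.lc_mon_monic (K := ℚ) a ha0q
  have hmapF : (mon ℚ a).map φ = mon ℚ_[l] a := by
    unfold mon
    rw [Polynomial.map_mul, LCond.lc_GZ_map, Polynomial.map_C, map_inv₀, map_intCast]
  set δ' : ℚ_[l][X] := C ((a 0 : ℚ_[l])⁻¹) * δ.map φ with hδ'
  have hA' : A.map (Int.cast : ℤ → ℚ_[l]) =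
      G.map φ * Hank n (mon ℚ_[l] a) δ' * (G.map φ)ᵀ := by
    have h5 : A.map (Int.cast : ℤ → ℚ_[l]) = (A.map (Int.cast : ℤ → ℚ)).map φ := by
      ext a b
      simp
    have h6 : ∀ (r : ℚ) (M : Matrix (Fin n) (Fin n) ℚ), (r • M).map φ = φ r • M.map φ := by
      intro r M
      ext a b
      simp
    rw [h5, hA, h6, Matrix.map_mul, Matrix.map_mul, hδ', LCond.lc_hank_C_mul, ← hmapF,
      hank_map φ _ _ hq1, Matrix.transpose_map, Matrix.mul_smul, Matrix.smul_mul, map_inv₀,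
      map_intCast]
  have hB' : B.map (Int.cast : ℤ → ℚ_[l]) =
      G.map φ * Hank n (mon ℚ_[l] a) (X * δ') * (G.map φ)ᵀ := by
    have h5 : B.map (Int.cast : ℤ → ℚ_[l]) = (B.map (Int.cast : ℤ → ℚ)).map φ := by
      ext a b
      simp
    have h6 : ∀ (r : ℚ) (M : Matrix (Fin n) (Fin n) ℚ), (r • M).map φ = φ r • M.map φ := by
      intro r M
      ext a b
      simp
    have h7 : X * δ' = C ((a 0 : ℚ_[l])⁻¹) * (X * δ).map φ := by
      rw [hδ', Polynomial.map_mul, Polynomial.map_X]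
      ring
    rw [h5, hB, h6, Matrix.map_mul, Matrix.map_mul, h7, LCond.lc_hank_C_mul, ← hmapF,
      hank_map φ _ _ hq1, Matrix.transpose_map, Matrix.mul_smul, Matrix.smul_mul, map_inv₀,
      map_intCast]
  have hGd : (G.map φ).det ≠ 0 := by
    rw [← RingHom.mapMatrix_apply, ← RingHom.map_det]
    exact (map_ne_zero φ).mpr hG
  have hθm : (mon ℚ_[l] a).eval (θ : ℚ_[l]) = 0 := by
    unfold mon
    rw [eval_mul, hroot, mul_zero]
  have hθdm : (derivative (mon ℚ_[l] a)).eval (θ : ℚ_[l]) ≠ 0 := by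
    unfold mon
    rw [derivative_C_mul, eval_mul, eval_C]
    exact mul_ne_zero (inv_ne_zero ha0) hθd0
  obtain ⟨r, hr⟩ := BG.LCond.adj_square (mon ℚ_[l] a) δ' hm1 hm2 (θ : ℚ_[l])
    hθm hθdm (G.map φ) hGd _ _ hA' hB' i
  -- the integral element
  set N : Matrix (Fin n) (Fin n) ℤ_[l] := θ • A.map (Int.cast : ℤ → ℤ_[l]) -
    B.map (Int.cast : ℤ → ℤ_[l]) with hN'
  have h6 : (A.map (Int.cast : ℤ → ℚ_[l])).det = (-1) ^ (n / 2) * (a 0 : ℚ_[l]) := by
    have h7 := RingHom.map_det (Int.castRingHom ℚ_[l]) A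
    rw [RingHom.mapMatrix_apply, hdet] at h7
    simpa using h7.symm
  have hNc : (((-1) ^ (n / 2) * N.adjugate i i : ℤ_[l]) : ℚ_[l]) =
      (-1) ^ (n / 2) * ((θ : ℚ_[l]) • A.map (Int.cast : ℤ → ℚ_[l]) -
        B.map (Int.cast : ℤ → ℚ_[l])).adjugate i i := by
    have h5 : N.map (PadicInt.Coe.ringHom (p := l)) =
        (θ : ℚ_[l]) • A.map (Int.cast : ℤ → ℚ_[l]) - B.map (Int.cast : ℤ → ℚ_[l]) := by
      ext a b
      rw [hN']
      simp only [Matrix.map_apply, Matrix.sub_apply, Matrix.smul_apply, smul_eq_mul, map_sub,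
        map_mul, map_intCast]
      rfl
    rw [← h5, ← RingHom.mapMatrix_apply, ← RingHom.map_adjugate, RingHom.mapMatrix_apply,
      Matrix.map_apply, PadicInt.coe_mul]
    congr 1
  have h5 : N.map (PadicInt.toZMod (p := l)) =
      ((-1 : ℤ) • (B - t • A)).map (Int.castRingHom (ZMod l)) := by
    ext a b
    rw [hN']
    simp only [Matrix.map_apply, Matrix.sub_apply, Matrix.smul_apply, smul_eq_mul, map_sub,
      map_mul, map_intCast, hθt]
    simp
  have h7 : PadicInt.toZMod (N.adjugate i i) =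
      (((-1 : ℤ) • (B - t • A)).adjugate i i : ℤ) := by
    have h8 : PadicInt.toZMod (N.adjugate i i) = (N.map (PadicInt.toZMod (p := l))).adjugate i i := by
      rw [← RingHom.mapMatrix_apply, ← RingHom.map_adjugate, RingHom.mapMatrix_apply,
        Matrix.map_apply]
    rw [h8, h5, ← RingHom.mapMatrix_apply, ← RingHom.map_adjugate, RingHom.mapMatrix_apply,
      Matrix.map_apply]
    rfl
  have hred : PadicInt.toZMod ((-1) ^ (n / 2) * N.adjugate i i) =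
      (((-1) ^ (n / 2 + 1) * (B - t • A).adjugate i i : ℤ) : ZMod l) := by
    rw [map_mul, h7, Matrix.adjugate_smul, Fintype.card_fin, map_pow, map_neg, map_one]
    have h9 : (-1 : ℤ) ^ (n - 1) = -1 := by
      apply Odd.neg_one_pow
      obtain ⟨k, hk⟩ := he
      exact ⟨k - 1, by omega⟩
    rw [h9]
    simp only [Matrix.smul_apply, smul_eq_mul]
    push_cast
    ring
  -- the square class
  set e : ℤ_[l] := (-1) ^ (n / 2) * N.adjugate i i with he'
  have he0 : (e : ℚ_[l]) ≠ 0 := by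
    intro h9
    have h10 : e = 0 := by
      apply Subtype.ext
      exact h9
    rw [h10, map_zero] at hred
    rw [eq_comm, ZMod.intCast_zmod_eq_zero_iff_dvd, hsg] at hred
    exact hi hred
  have hr' : (δ.map φ).eval (θ : ℚ_[l]) * (e : ℚ_[l]) = r ^ 2 := by
    rw [he', hNc, sq, ← hr, h6, hδ', eval_mul, eval_C]
    field_simp
  have hδθ : (δ.map φ).eval (θ : ℚ_[l]) ≠ 0 := by
    obtain ⟨b, c, hbc⟩ := hδ
    have h9 := congrArg (fun P : ℚ[X] => (P.map φ).eval (θ : ℚ_[l])) hbc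
    simp only [Polynomial.map_add, Polynomial.map_mul, eval_add, eval_mul, Polynomial.map_one,
      eval_one] at h9
    rw [LCond.lc_GZ_map, hroot, mul_zero, add_zero] at h9
    intro h10
    rw [h10, mul_zero] at h9
    exact zero_ne_one h9
  refine ⟨e, r, hred, ?_, hr'⟩
  rintro rfl
  rw [zero_pow two_ne_zero] at hr'
  exact mul_ne_zero hδθ he0 hr'

/-- The distance of the roots. -/
theorem root_dist {n m : ℕ} (he : Even n) (hem : Even m) (a : Fin (n + 1) → ℤ)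
    (b : Fin (m + 1) → ℤ) (l : ℕ) [hl : Fact l.Prime]
    (A B : Matrix (Fin n) (Fin n) ℤ) (A' B' : Matrix (Fin m) (Fin m) ℤ)
    (h : HasChar a A B) (h' : HasChar b A' B') (t : ℤ)
    (h5 : ¬ (l : ℤ) ^ 2 ∣ (B - t • A).det * ((B' - t • A').adjugate * A').trace -
      (B' - t • A').det * ((B - t • A).adjugate * A).trace) (θ ρ : ℤ_[l])
    (hθ : PadicInt.toZMod θ = (t : ZMod l)) (hρ : PadicInt.toZMod ρ = (t : ZMod l))
    (hf : (GZ ℤ_[l] a).eval θ = 0) (hq : (GZ ℤ_[l] b).eval ρ = 0) :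
    ‖θ - ρ‖ = (l : ℝ)⁻¹ := by
  obtain ⟨ha1, ha2⟩ := char_at he h t
  obtain ⟨hb1, hb2⟩ := char_at hem h' t
  have hev : ∀ {k : ℕ} (c : Fin (k + 1) → ℤ), (GZ ℤ_[l] c).eval (t : ℤ_[l]) =
      (((GZ ℤ c).eval t : ℤ) : ℤ_[l]) := by
    intro k c
    rw [← LCond.lc_GZ_map (Int.castRingHom ℤ_[l]) c, eval_map,
      ← eq_intCast (Int.castRingHom ℤ_[l]) t, eval₂_at_apply]
    simp
  have hev' : ∀ {k : ℕ} (c : Fin (k + 1) → ℤ), (derivative (GZ ℤ_[l] c)).eval (t : ℤ_[l]) =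
      (((derivative (GZ ℤ c)).eval t : ℤ) : ℤ_[l]) := by
    intro k c
    rw [← LCond.lc_GZ_map (Int.castRingHom ℤ_[l]) c, derivative_map, eval_map,
      ← eq_intCast (Int.castRingHom ℤ_[l]) t, eval₂_at_apply]
    simp
  have hzm : ∀ x : ℤ_[l], PadicInt.toZMod x = 0 → (l : ℤ_[l]) ∣ x := by
    intro x hx
    rw [← RingHom.mem_ker, PadicInt.ker_toZMod, IsLocalRing.mem_maximalIdeal, mem_nonunits_iff,
      PadicInt.isUnit_iff] at hx
    exact (PadicInt.norm_lt_one_iff_dvd _).1 (lt_of_le_of_ne x.norm_le_one hx)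
  obtain ⟨y, hy⟩ := hzm ((t : ℤ_[l]) - θ) (by rw [map_sub, map_intCast, hθ, sub_self])
  obtain ⟨z, hz⟩ := hzm ((t : ℤ_[l]) - ρ) (by rw [map_sub, map_intCast, hρ, sub_self])
  obtain ⟨w, hw⟩ := hzm (θ - ρ) (by rw [map_sub, hθ, hρ, sub_self])
  have hwn : ‖w‖ = 1 := by
    by_contra hw1
    obtain ⟨w', hw'⟩ := (PadicInt.norm_lt_one_iff_dvd w).1 (lt_of_le_of_ne w.norm_le_one hw1)
    apply h5
    have key : ((l : ℕ) : ℤ_[l]) ^ 2 ∣
        (((GZ ℤ a).eval t * (derivative (GZ ℤ b)).eval t -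
          (GZ ℤ b).eval t * (derivative (GZ ℤ a)).eval t : ℤ) : ℤ_[l]) := by
      push_cast
      rw [← hev, ← hev, ← hev', ← hev']
      obtain ⟨k1, hk1⟩ := (GZ ℤ_[l] a).binomExpansion θ ((t : ℤ_[l]) - θ)
      obtain ⟨k2, hk2⟩ := (GZ ℤ_[l] b).binomExpansion ρ ((t : ℤ_[l]) - ρ)
      obtain ⟨k3, hk3⟩ := sub_dvd_eval_sub (t : ℤ_[l]) θ (derivative (GZ ℤ_[l] a))
      obtain ⟨k4, hk4⟩ := sub_dvd_eval_sub (t : ℤ_[l]) ρ (derivative (GZ ℤ_[l] b))
      rw [add_sub_cancel, hf, zero_add, hy] at hk1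
      rw [add_sub_cancel, hq, zero_add, hz] at hk2
      rw [hy] at hk3
      rw [hz] at hk4
      have e3 : (derivative (GZ ℤ_[l] a)).eval (t : ℤ_[l]) =
          (derivative (GZ ℤ_[l] a)).eval θ + (l : ℤ_[l]) * y * k3 := by
        linear_combination hk3
      have e4 : (derivative (GZ ℤ_[l] b)).eval (t : ℤ_[l]) =
          (derivative (GZ ℤ_[l] b)).eval ρ + (l : ℤ_[l]) * z * k4 := by
        linear_combination hk4
      have e5 : (l : ℤ_[l]) * z = (l : ℤ_[l]) * y + (l : ℤ_[l]) * ((l : ℤ_[l]) * w') := by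
        rw [← hw', ← hw, ← hy, ← hz]
        ring
      rw [hk1, hk2, e3, e4]
      set P := (derivative (GZ ℤ_[l] a)).eval θ with hP
      set R := (derivative (GZ ℤ_[l] b)).eval ρ with hR
      refine ⟨-(P * R * w') + P * y * z * k4 + k1 * y ^ 2 * (R + (l : ℤ_[l]) * z * k4) -
        R * z * y * k3 - k2 * z ^ 2 * (P + (l : ℤ_[l]) * y * k3), ?_⟩
      linear_combination (-(P * R)) * e5
    rw [PadicInt.pow_p_dvd_int_iff] at key
    have e6 : (B - t • A).det * ((B' - t • A').adjugate * A').trace -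
        (B' - t • A').det * ((B - t • A).adjugate * A).trace =
        ((GZ ℤ a).eval t * (derivative (GZ ℤ b)).eval t -
          (GZ ℤ b).eval t * (derivative (GZ ℤ a)).eval t) *
          (-((-1) ^ (n / 2) * (-1) ^ (m / 2))) := by
      rw [ha1, ha2, hb1, hb2]
      ring
    rw [e6]
    exact Dvd.dvd.mul_right (by exact_mod_cast key) _
  rw [hw, norm_mul, hwn, mul_one, PadicInt.norm_p]

end Stoll308.DQ
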