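import Pool.Agent.Work.MP_308fa9_nt.DQ.Link
import Pool.Agent.Work.MP_308fa9_nt.DQ.LCondA

set_option autoImplicit false

/-!
The local condition for the two pairs.
-/

namespace Stoll308.DQ

open Polynomial Finset Matrix BG BF SC

namespace LC

lemma coprime_eval {K : Type*} [Field K] {s f : K[X]} {x : K} (h : IsCoprime s f)
    (hf : f.eval x = 0) : s.eval x ≠ 0 := by
  obtain ⟨b, c, hbc⟩ := h
  have h9 := congrArg (fun P : K[X] => P.eval x) hbc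
  simp only [eval_add, eval_mul, eval_one] at h9
  rw [hf, mul_zero, add_zero] at h9
  intro h10
  rw [h10, mul_zero] at h9
  exact zero_ne_one h9

/-- The value of `h` at a root of `f`. -/
lemma cls_eval {K : Type*} [Field K] {f δ h : K[X]} {c x : K} (hc : Cls f (C c * δ) h)
    (hf : f.eval x = 0) : h.eval x ≠ 0 ∧ ∃ s : K, s ≠ 0 ∧ h.eval x = c * δ.eval x * s ^ 2 := by
  obtain ⟨-, hco, -, s, hs, q, hq⟩ := hc
  refine ⟨coprime_eval hco hf, s.eval x, coprime_eval hs hf, ?_⟩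
  have h9 := congrArg (Polynomial.eval x) hq
  simp only [eval_sub, eval_mul, eval_pow, eval_C, hf, zero_mul] at h9
  linear_combination h9

/-- A unit which is a square in `ℚ_l` is a square modulo `l`. -/
lemma unit_sq_mod {l : ℕ} [hl : Fact l.Prime] {e : ℤ_[l]} (he : PadicInt.toZMod e ≠ 0)
    (hs : IsSquare (e : ℚ_[l])) : IsSquare (PadicInt.toZMod e) := by
  obtain ⟨z, hz⟩ := hs
  have hunit : ‖e‖ = 1 := by
    rw [← PadicInt.isUnit_iff]
    by_contra h9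
    apply he
    rw [← RingHom.mem_ker, PadicInt.ker_toZMod, IsLocalRing.mem_maximalIdeal, mem_nonunits_iff]
    exact h9
  have h1 : ‖z‖ = 1 := by
    have h2 : ‖z‖ * ‖z‖ = 1 := by
      rw [← norm_mul, ← hz, ← PadicInt.norm_def, hunit]
    nlinarith [norm_nonneg z]
  refine ⟨PadicInt.toZMod (⟨z, h1.le⟩ : ℤ_[l]), ?_⟩
  rw [← map_mul]
  congr 1
  apply Subtype.ext
  rw [PadicInt.coe_mul]
  exact hz

end LC

open LC in
theorem lcond {n m : ℕ} (hn : 4 ≤ n) (he : Even n) (hm : 4 ≤ m) (hem : Even m)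
    (a : Fin (n + 1) → ℤ) (b : Fin (m + 1) → ℤ) (h0 : a 0 ≠ 0) (h0' : b 0 ≠ 0)
    (δ ε : ℚ[X]) (hδ : IsCoprime δ (GZ ℚ a)) (hε : IsCoprime ε (GZ ℚ b))
    (l : ℕ) [hl : Fact l.Prime] (h2 : l ≠ 2)
    (hloc : DLoc (GZ ℚ_[l] a) (GZ ℚ_[l] b) (δ.map (algebraMap ℚ ℚ_[l]))
      (ε.map (algebraMap ℚ ℚ_[l])))
    (A B : Matrix (Fin n) (Fin n) ℤ) (A' B' : Matrix (Fin m) (Fin m) ℤ)
    (h : BF.IsPair a δ A B) (hdet : A.det = (-1) ^ (n / 2) * a 0)
    (h' : BF.IsPair b ε A' B') (hdet' : A'.det = (-1) ^ (m / 2) * b 0) :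
    ¬ Bad l A B A' B' := by
  rintro ⟨t, h1, h1', h3, h3', h5, hl', i, j, hleg⟩
  have hne : (((-1) ^ ((n + m) / 2) * ((B - t • A).adjugate i i *
      (B' - t • A').adjugate j j) : ℤ) : ZMod l) ≠ 0 := by
    intro h9
    rw [(legendreSym.eq_zero_iff l _).mpr h9] at hleg
    omega
  have hi : ¬ (l : ℤ) ∣ (B - t • A).adjugate i i := by
    intro h9
    apply hne
    rw [ZMod.intCast_zmod_eq_zero_iff_dvd]
    exact Dvd.dvd.mul_left (Dvd.dvd.mul_right h9 _) _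
  have hj : ¬ (l : ℤ) ∣ (B' - t • A').adjugate j j := by
    intro h9
    apply hne
    rw [ZMod.intCast_zmod_eq_zero_iff_dvd]
    exact Dvd.dvd.mul_left (Dvd.dvd.mul_left h9 _) _
  obtain ⟨θ, hθt, hθ, hθd, hθi⟩ := adj_class hn he a h0 δ hδ l h2 A B h hdet t h1 h3
  obtain ⟨ρ, hρt, hρ, hρd, hρi⟩ := adj_class hm hem b h0' ε hε l h2 A' B' h' hdet' t h1' h3'
  obtain ⟨u, c₁, hu, hc₁, huc⟩ := hθi i hi
  obtain ⟨u', c₂, hu', hc₂, huc'⟩ := hρi j hj
  have hdist := root_dist he hem a b l A B A' B' (BF.IsPair.hasChar h0 h hdet)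
    (BF.IsPair.hasChar h0' h' hdet') t h5 θ ρ hθt hρt hθ hρ
  obtain ⟨g, c, hc, hcl, hcl'⟩ := hloc
  have hq1 : toQ (GZ ℤ_[l] a) = GZ ℚ_[l] a := BF.LCond.lc_GZ_map _ a
  have hq2 : toQ (GZ ℤ_[l] b) = GZ ℚ_[l] b := BF.LCond.lc_GZ_map _ b
  have hcoe : ∀ (P : ℤ_[l][X]) (x : ℤ_[l]), (toQ P).eval (x : ℚ_[l]) =
      ((P.eval x : ℤ_[l]) : ℚ_[l]) := by
    intro P x
    have h5 : (x : ℚ_[l]) = algebraMap ℤ_[l] ℚ_[l] x := rfl
    rw [h5, eval_map, eval₂_at_apply]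
    rfl
  have hr1 : (GZ ℚ_[l] a).eval (θ : ℚ_[l]) = 0 := by
    rw [← hq1, hcoe, hθ]
    rfl
  have hr2 : (GZ ℚ_[l] b).eval (ρ : ℚ_[l]) = 0 := by
    rw [← hq2, hcoe, hρ]
    rfl
  have hlink := link l h2 (GZ ℤ_[l] a) (GZ ℤ_[l] b) θ ρ hθ hρ hθd hρd hdist g
    (by rw [hq1]; exact hcl.2.2.1) (by rw [hq2]; exact hcl'.2.2.1)
  obtain ⟨hg1, s, hs, hgs⟩ := cls_eval hcl hr1
  obtain ⟨hg2, s', hs', hgs'⟩ := cls_eval hcl' hr2
  obtain ⟨z, hz⟩ := hlink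
  have hsq : IsSquare (((u * u' : ℤ_[l]) : ℚ_[l])) := by
    have hz0 : z ≠ 0 := by
      rintro rfl
      rw [mul_zero] at hz
      exact mul_ne_zero hg1 hg2 hz
    refine ⟨c * s * s' * c₁ * c₂ / z, ?_⟩
    rw [PadicInt.coe_mul]
    set D := (δ.map (algebraMap ℚ ℚ_[l])).eval (θ : ℚ_[l]) with hD
    set E := (ε.map (algebraMap ℚ ℚ_[l])).eval (ρ : ℚ_[l]) with hE
    have e1 : (c * s * s' * c₁ * c₂ / z) * (c * s * s' * c₁ * c₂ / z) =
        (c * s * s') ^ 2 * c₁ ^ 2 * c₂ ^ 2 / (z * z) := by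
      field_simp
    rw [e1, ← huc, ← huc', ← hz, hgs, hgs']
    have hD0 : D ≠ 0 := by
      intro h9
      rw [hgs, h9, mul_zero, zero_mul] at hg1
      exact hg1 rfl
    have hE0 : E ≠ 0 := by
      intro h9
      rw [hgs', h9, mul_zero, zero_mul] at hg2
      exact hg2 rfl
    field_simp
  have hmod : PadicInt.toZMod (u * u') = (((-1) ^ ((n + m) / 2) * ((B - t • A).adjugate i i *
      (B' - t • A').adjugate j j) : ℤ) : ZMod l) := by
    rw [map_mul, hu, hu', ← Int.cast_mul]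
    congr 1
    obtain ⟨k, hk⟩ := he
    obtain ⟨k', hk'⟩ := hem
    have e1 : n / 2 = k := by omega
    have e2 : m / 2 = k' := by omega
    have e3 : (n + m) / 2 = k + k' := by omega
    rw [e1, e2, e3]
    ring
  have hfin := unit_sq_mod (by rw [hmod]; exact hne) hsq
  rw [hmod] at hfin
  have h9 := (legendreSym.eq_one_iff l hne).mpr hfin
  have h10 : legendreSym l ((-1) ^ ((n + m) / 2) * ((B - t • A).adjugate i i *
      (B' - t • A').adjugate j j)) = -1 := hleg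
  rw [h10] at h9
  omega

end Stoll308.DQ
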