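import Pool.Agent.Work.MP_308fa9_nt.DQ.Cube
import Pool.Agent.Work.MP_308fa9_nt.BF.LargeT

set_option autoImplicit false

/-!
Few pairs of polynomials come from reduced pairs with lengths of the same size which satisfy all
local conditions.
-/

namespace Stoll308.DQ

open Polynomial Finset Matrix BG BF

/-- The products of two lengths. -/
lemma len_le {n : ℕ} (hn0 : n ≠ 0) {K R H D : ℝ} (hR : 1 ≤ R) (hD0 : 0 ≤ D)
    (hDn : D ^ n = R ^ (2 * n) * K * H) {a : Fin (n + 1) → ℤ} {A B : Matrix (Fin n) (Fin n) ℤ}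
    {t : Fin n → ℝ} (h : BF.RPair K H a A B t) (ht : ∀ i j, t j ≤ R * t i) (i j : Fin n) :
    t i * t j ≤ D := by
  have hpos := h.pos
  have e1 : ∀ j, t j ^ n ≤ R ^ n * ∏ i, t i := by
    intro j
    calc t j ^ n = ∏ _i : Fin n, t j := by
          rw [Finset.prod_const, Finset.card_univ, Fintype.card_fin]
      _ ≤ ∏ i : Fin n, (R * t i) :=
          Finset.prod_le_prod (fun _ _ => (hpos j).le) (fun i _ => ht i j)
      _ = R ^ n * ∏ i, t i := by
          rw [Finset.prod_mul_distrib, Finset.prod_const, Finset.card_univ, Fintype.card_fin]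
  apply le_of_pow_le_pow_left₀ hn0 hD0
  rw [hDn, mul_pow]
  have hp : 0 < ∏ i, t i := Finset.prod_pos fun i _ => hpos i
  calc t i ^ n * t j ^ n ≤ (R ^ n * ∏ i, t i) * (R ^ n * ∏ i, t i) :=
        mul_le_mul (e1 i) (e1 j) (pow_pos (hpos j) n).le (by positivity)
    _ = R ^ (2 * n) * (∏ i, t i) ^ 2 := by ring
    _ ≤ R ^ (2 * n) * (K * H) := by
        gcongr
        exact h.prod
    _ = R ^ (2 * n) * K * H := by ring

/-- The entries. -/
lemma mem_box {x : ℤ} {D : ℝ} (h : |(x : ℝ)| ≤ D) : x ∈ Icc (-⌊D⌋) ⌊D⌋ := by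
  have h2 := abs_le.1 h
  rw [mem_Icc]
  constructor
  · have : -x ≤ ⌊D⌋ := by
      rw [Int.le_floor]; push_cast; linarith
    linarith
  · rw [Int.le_floor]; exact h2.2

open Classical in
theorem large_t {n m : ℕ} (hn : 4 ≤ n) (he : Even n) (hm : 4 ≤ m) (hem : Even m) (K R : ℝ)
    (hK : 1 ≤ K) (hR : 1 ≤ R) (ε : ℝ) (hε : 0 < ε) :
    ∃ H₀ : ℝ, ∀ H H' : ℝ, H₀ ≤ H → H₀ ≤ H' →
      ∀ T : Finset ((Fin (n + 1) → ℤ) × (Fin (m + 1) → ℤ)),
      (∀ x ∈ T, ∃ (A B : Matrix (Fin n) (Fin n) ℤ) (t : Fin n → ℝ)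
          (A' B' : Matrix (Fin m) (Fin m) ℤ) (t' : Fin m → ℝ),
        BF.RPair K H x.1 A B t ∧ BF.RPair K H' x.2 A' B' t' ∧ (∀ i j, t j ≤ R * t i) ∧
        (∀ i j, t' j ≤ R * t' i) ∧ ∀ l : ℕ, l ≠ 2 → ¬ Bad l A B A' B') →
      (T.card : ℝ) ≤ ε * (H ^ (n + 1) * H' ^ (m + 1)) := by
  obtain ⟨Q, hQ⟩ : ∃ Q : ℝ, Q = R ^ (2 * n) * K := ⟨_, rfl⟩
  obtain ⟨Q', hQ'⟩ : ∃ Q' : ℝ, Q' = R ^ (2 * m) * K := ⟨_, rfl⟩
  have hQ1 : 1 ≤ Q := by
    rw [hQ]
    exact one_le_mul_of_one_le_of_one_le (one_le_pow₀ hR) hK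
  have hQ1' : 1 ≤ Q' := by
    rw [hQ']
    exact one_le_mul_of_one_le_of_one_le (one_le_pow₀ hR) hK
  have hQ0 : 0 < Q := by linarith
  have hQ0' : 0 < Q' := by linarith
  obtain ⟨z, D₀, hz⟩ := cube_small hn he hm hem (ε / (Q ^ (n + 1) * Q' ^ (m + 1))) (by positivity)
  refine ⟨max 1 (max (|D₀| ^ n) (|D₀| ^ m)), ?_⟩
  intro H H' hH hH' T hT
  have hH1 : 1 ≤ H := (le_max_left _ _).trans hH
  have hH1' : 1 ≤ H' := (le_max_left _ _).trans hH'
  have hHD : |D₀| ^ n ≤ H := ((le_max_left _ _).trans (le_max_right _ _)).trans hH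
  have hHD' : |D₀| ^ m ≤ H' := ((le_max_right _ _).trans (le_max_right _ _)).trans hH'
  have hn0 : n ≠ 0 := by omega
  have hm0 : m ≠ 0 := by omega
  obtain ⟨D, hD⟩ : ∃ D : ℝ, D = (Q * H) ^ ((n : ℝ)⁻¹) := ⟨_, rfl⟩
  obtain ⟨D', hD'⟩ : ∃ D' : ℝ, D' = (Q' * H') ^ ((m : ℝ)⁻¹) := ⟨_, rfl⟩
  have hD0 : 0 ≤ D := by rw [hD]; positivity
  have hD0' : 0 ≤ D' := by rw [hD']; positivity
  have hDn : D ^ n = Q * H := by
    rw [hD]
    exact Real.rpow_inv_natCast_pow (by positivity) hn0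
  have hDn' : D' ^ m = Q' * H' := by
    rw [hD']
    exact Real.rpow_inv_natCast_pow (by positivity) hm0
  have hD₀ : D₀ ≤ D := by
    refine (le_abs_self _).trans ?_
    apply le_of_pow_le_pow_left₀ hn0 hD0
    rw [hDn]
    calc |D₀| ^ n ≤ H := hHD
      _ ≤ Q * H := le_mul_of_one_le_left (by linarith) hQ1
  have hD₀' : D₀ ≤ D' := by
    refine (le_abs_self _).trans ?_
    apply le_of_pow_le_pow_left₀ hm0 hD0'
    rw [hDn']
    calc |D₀| ^ m ≤ H' := hHD'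
      _ ≤ Q' * H' := le_mul_of_one_le_left (by linarith) hQ1'
  have h1 := hz D D' hD₀ hD₀'
  set S := ((Fintype.piFinset fun i : (Ix n ⊕ Ix n) ⊕ (Ix m ⊕ Ix m) =>
          Icc (-⌊Sum.elim (fun _ => D) (fun _ => D') i⌋)
            ⌊Sum.elim (fun _ => D) (fun _ => D') i⌋).filter
        fun v => ∀ l ∈ Icc 5 z, l.Prime → ¬ Bad l (symM fun p => v (Sum.inl (Sum.inl p)))
          (symM fun p => v (Sum.inl (Sum.inr p))) (symM fun p => v (Sum.inr (Sum.inl p)))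
          (symM fun p => v (Sum.inr (Sum.inr p)))) with hS
  have hch : ∀ x : (Fin (n + 1) → ℤ) × (Fin (m + 1) → ℤ),
      ∃ v : (Ix n ⊕ Ix n) ⊕ (Ix m ⊕ Ix m) → ℤ, x ∈ T →
      v ∈ S ∧ HasChar x.1 (symM fun p => v (Sum.inl (Sum.inl p)))
        (symM fun p => v (Sum.inl (Sum.inr p))) ∧
      HasChar x.2 (symM fun p => v (Sum.inr (Sum.inl p)))
        (symM fun p => v (Sum.inr (Sum.inr p))) := by
    intro x
    by_cases hx : x ∈ T
    swap
    · exact ⟨0, fun h => absurd h hx⟩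
    obtain ⟨A, B, t, A', B', t', hP, hP', ht, ht', hl⟩ := hT x hx
    have hA : (symM fun p : Ix n => A p.1.1 p.1.2) = A := symM_of_isSymm A hP.symA
    have hB : (symM fun p : Ix n => B p.1.1 p.1.2) = B := symM_of_isSymm B hP.symB
    have hA' : (symM fun p : Ix m => A' p.1.1 p.1.2) = A' := symM_of_isSymm A' hP'.symA
    have hB' : (symM fun p : Ix m => B' p.1.1 p.1.2) = B' := symM_of_isSymm B' hP'.symB
    have hlen := len_le hn0 hR hD0 (by rw [hDn, hQ]) hP ht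
    have hlen' := len_le hm0 hR hD0' (by rw [hDn', hQ']) hP' ht'
    refine ⟨Sum.elim (Sum.elim (fun p => A p.1.1 p.1.2) (fun p => B p.1.1 p.1.2))
      (Sum.elim (fun p => A' p.1.1 p.1.2) (fun p => B' p.1.1 p.1.2)), fun _ => ⟨?_, ?_, ?_⟩⟩
    · rw [hS]
      simp only [mem_filter, Fintype.mem_piFinset, Sum.elim_inl, Sum.elim_inr]
      constructor
      · rintro ((p | p) | (p | p))
        · simp only [Sum.elim_inl]
          exact mem_box ((hP.hA p.1.1 p.1.2).trans (hlen _ _))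
        · simp only [Sum.elim_inl, Sum.elim_inr]
          exact mem_box ((hP.hB p.1.1 p.1.2).trans (hlen _ _))
        · simp only [Sum.elim_inl, Sum.elim_inr]
          exact mem_box ((hP'.hA p.1.1 p.1.2).trans (hlen' _ _))
        · simp only [Sum.elim_inr]
          exact mem_box ((hP'.hB p.1.1 p.1.2).trans (hlen' _ _))
      · intro l hl5 _
        rw [hA, hB, hA', hB']
        rw [mem_Icc] at hl5
        exact hl l (by omega)
    · simp only [Sum.elim_inl, Sum.elim_inr]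
      rw [hA, hB]
      exact hP.char
    · simp only [Sum.elim_inl, Sum.elim_inr]
      rw [hA', hB']
      exact hP'.char
  choose v hv using hch
  have hinj : Set.InjOn v T := by
    intro x hx x' hx' h
    obtain ⟨-, h1, h2⟩ := hv x hx
    obtain ⟨-, h1', h2'⟩ := hv x' hx'
    rw [h] at h1 h2
    exact Prod.ext (h1.inj h1') (h2.inj h2')
  have hcard : T.card ≤ S.card :=
    Finset.card_le_card_of_injOn v (fun a ha => (hv a ha).1) hinj
  calc (T.card : ℝ) ≤ (S.card : ℝ) := by exact_mod_cast hcard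
    _ ≤ ε / (Q ^ (n + 1) * Q' ^ (m + 1)) * (D ^ (n * (n + 1)) * D' ^ (m * (m + 1))) := h1
    _ = ε * (H ^ (n + 1) * H' ^ (m + 1)) := by
        rw [pow_mul, hDn, mul_pow, pow_mul, hDn', mul_pow]
        have hQn : Q ^ (n + 1) ≠ 0 := (pow_pos hQ0 _).ne'
        have hQm : Q' ^ (m + 1) ≠ 0 := (pow_pos hQ0' _).ne'
        field_simp

end Stoll308.DQ
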