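import Pool.Agent.Work.MP_308fa9_nt.DQ.Basic
import Pool.Agent.Work.MP_308fa9_nt.SC.Slope
import Pool.Agent.Work.MP_308fa9_nt.SC.SqRoot

set_option autoImplicit false

/-!
Square roots modulo an irreducible polynomial all whose roots are near `θ`.
-/

namespace Stoll308.DQ

open Polynomial Finset SC

/-- all lower coefficients of the shifted polynomial are divisible by `p` -/
theorem taylor_small (p : ℕ) [Fact p.Prime] (π : ℚ_[p][X]) (hm : π.Monic)
    (hirr : Irreducible π) (θ : ℚ_[p]) (hθ : ‖π.eval θ‖ < 1) (i : ℕ) (hi : i < π.natDegree) :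
    ‖(taylor θ π).coeff i‖ < 1 := by
  have hm' : (taylor θ π).Monic := by
    rw [Monic, leadingCoeff_taylor]
    exact hm
  have hirr' : Irreducible (taylor θ π) := by
    have := (MulEquiv.irreducible_iff (taylorEquiv θ).toMulEquiv (x := π)).2 hirr
    exact this
  have hsv := spectralValue_irr p _ hm' hirr'
  have hdeg : 0 < π.natDegree := hirr.natDegree_pos
  rw [natDegree_taylor, taylor_coeff_zero] at hsv
  have hlt : spectralValue (taylor θ π) < 1 := by
    rw [hsv]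
    exact Real.rpow_lt_one (norm_nonneg _) hθ (by positivity)
  have h1 : spectralValueTerms (taylor θ π) i ≤ spectralValue (taylor θ π) :=
    le_ciSup (spectralValueTerms_bddAbove (taylor θ π)) i
  rw [spectralValueTerms_of_lt_natDegree _ (by rwa [natDegree_taylor]), natDegree_taylor] at h1
  by_contra hcon
  push Not at hcon
  have hpos : (0 : ℝ) < (π.natDegree : ℝ) - i := by
    rw [sub_pos]; exact_mod_cast hi
  have h2 : (1 : ℝ) ≤ ‖(taylor θ π).coeff i‖ ^ (1 / (π.natDegree - i : ℝ)) :=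
    Real.one_le_rpow hcon (by positivity)
  linarith

/-- `π` is integral and congruent to `(X - θ)^k` -/
theorem exists_lift (p : ℕ) [Fact p.Prime] (π : ℚ_[p][X]) (hm : π.Monic)
    (hirr : Irreducible π) (θ : ℤ_[p]) (hθ : ‖π.eval (θ : ℚ_[p])‖ < 1) :
    ∃ g R : ℤ_[p][X], toQ g = π ∧ g.Monic ∧
      (X - C θ) ^ π.natDegree = g + C (p : ℤ_[p]) * R := by
  have hinj : Function.Injective (algebraMap ℤ_[p] ℚ_[p]) := FaithfulSMul.algebraMap_injective _ _
  have hm' : (taylor (θ : ℚ_[p]) π).Monic := by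
    rw [Monic, leadingCoeff_taylor]
    exact hm
  have hsm := taylor_small p π hm hirr (θ : ℚ_[p]) hθ
  obtain ⟨g', hg', hgd, hgm⟩ := exists_toQ (taylor (θ : ℚ_[p]) π) (by
    intro i
    rcases lt_trichotomy i π.natDegree with h | h | h
    · exact (hsm i h).le
    · have h1 : (taylor (θ : ℚ_[p]) π).coeff i = 1 := by
        rw [h, ← natDegree_taylor π (θ : ℚ_[p])]
        exact hm'
      rw [h1, norm_one]
    · rw [coeff_eq_zero_of_natDegree_lt (by rwa [natDegree_taylor]), norm_zero]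
      norm_num)
  rw [natDegree_taylor] at hgd
  have hgm' := hgm hm'
  -- `g' = X^k - p R'`
  have hR' : ∃ R' : ℤ_[p][X], X ^ π.natDegree = g' + C (p : ℤ_[p]) * R' := by
    have h1 : C (p : ℤ_[p]) ∣ X ^ π.natDegree - g' := by
      rw [C_dvd_iff_dvd_coeff]
      intro i
      rw [coeff_sub, coeff_X_pow]
      rcases lt_trichotomy i π.natDegree with h | h | h
      · rw [if_neg h.ne, zero_sub, dvd_neg, ← PadicInt.norm_lt_one_iff_dvd]
        have h2 : ((g'.coeff i : ℤ_[p]) : ℚ_[p]) = (taylor (θ : ℚ_[p]) π).coeff i := by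
          rw [← hg', coeff_map]
          rfl
        rw [PadicInt.norm_def, h2]
        exact hsm i h
      · rw [if_pos h, h, ← hgd]
        have h3 : g'.coeff g'.natDegree = 1 := hgm'
        rw [h3, sub_self]
        exact dvd_zero _
      · rw [if_neg h.ne', coeff_eq_zero_of_natDegree_lt (by rwa [hgd]), sub_zero]
        exact dvd_zero _
    obtain ⟨R', hR'⟩ := h1
    exact ⟨R', by rw [← hR']; ring⟩
  obtain ⟨R', hR'⟩ := hR'
  refine ⟨taylor (-θ) g', taylor (-θ) R', ?_, ?_, ?_⟩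
  · rw [toQ, map_taylor]
    change taylor _ (toQ g') = π
    rw [hg', taylor_taylor]
    have h1 : (algebraMap ℤ_[p] ℚ_[p]) (-θ) + (θ : ℚ_[p]) = 0 := by
      rw [map_neg]
      exact neg_add_cancel _
    rw [h1, taylor_zero]
  · rw [Monic, leadingCoeff_taylor]
    exact hgm'
  · have h1 := congrArg (taylor (-θ)) hR'
    rw [taylor_X_pow, map_add, taylor_mul, taylor_C, C_neg, ← sub_eq_add_neg] at h1
    exact h1

theorem unit_sq (p : ℕ) [Fact p.Prime] (hp : p ≠ 2) (π : ℚ_[p][X]) (hm : π.Monic)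
    (hirr : Irreducible π) (θ : ℤ_[p]) (hθ : ‖π.eval (θ : ℚ_[p])‖ < 1) (F : ℤ_[p][X])
    (hF : IsUnit (F.eval θ)) :
    ∃ β : ℚ_[p][X], ¬ π ∣ β ∧ π ∣ toQ F - C ((F.eval θ : ℤ_[p]) : ℚ_[p]) * β ^ 2 := by
  have hpp : p.Prime := Fact.out
  obtain ⟨g, R, hgπ, hgm, hR⟩ := exists_lift p π hm hirr θ hθ
  set k := π.natDegree with hk
  have hk0 : 0 < k := hirr.natDegree_pos
  -- `F = u (1 + (X - θ) E)`
  obtain ⟨u, hu⟩ := hF
  obtain ⟨E₁, hE₁⟩ : (X - C θ) ∣ F - C (F.eval θ) := X_sub_C_dvd_sub_C_eval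
  set E : ℤ_[p][X] := C ((u⁻¹ : ℤ_[p]ˣ) : ℤ_[p]) * E₁ with hE
  have hFE : F = C (F.eval θ) * (1 + (X - C θ) * E) := by
    have h1 : C (F.eval θ) * C ((u⁻¹ : ℤ_[p]ˣ) : ℤ_[p]) = 1 := by
      rw [← C_mul, ← hu, Units.mul_inv, C_1]
    calc F = C (F.eval θ) + (X - C θ) * E₁ := by rw [← hE₁]; ring
      _ = C (F.eval θ) + (C (F.eval θ) * C ((u⁻¹ : ℤ_[p]ˣ) : ℤ_[p])) * ((X - C θ) * E₁) := by
          rw [h1, one_mul]
      _ = _ := by rw [hE]; ring
  set A : ℤ_[p][X] := 1 + (X - C θ) * E with hA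
  -- a large power of `A` is `1 + p G` modulo `g`
  obtain ⟨r, hr⟩ := exists_add_pow_prime_pow_eq hpp (1 : ℤ_[p][X]) ((X - C θ) * E) k
  have hkp : k ≤ p ^ k := (Nat.lt_pow_self hpp.one_lt).le
  obtain ⟨j, hj⟩ := Nat.exists_eq_add_of_le hkp
  obtain ⟨s, t, hs, hst⟩ := sq_root p hp g
    ((X - C θ) * E * r + (R * (X - C θ) ^ j * E ^ (p ^ k))) hgm
  have hAg : AdjoinRoot.mk g (A ^ p ^ k) = AdjoinRoot.mk g s ^ 2 := by
    rw [← map_pow, AdjoinRoot.mk_eq_mk]
    have h1 : A ^ p ^ k - s ^ 2 = ((1 + C (p : ℤ_[p]) *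
        ((X - C θ) * E * r + (R * (X - C θ) ^ j * E ^ (p ^ k)))) - s ^ 2) +
        g * ((X - C θ) ^ j * E ^ (p ^ k)) := by
      have h2 : (X - C θ) ^ p ^ k = (g + C (p : ℤ_[p]) * R) * (X - C θ) ^ j := by
        rw [← hR, ← pow_add, ← hj]
      have h3 : ((p : ℕ) : ℤ_[p][X]) = C (p : ℤ_[p]) := by simp
      rw [hA, hr, one_pow, mul_pow, h2, h3]
      ring
    rw [h1]
    exact dvd_add hs (dvd_mul_right _ _)
  have hst' : AdjoinRoot.mk g s * AdjoinRoot.mk g t = 1 := by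
    rw [← map_mul, ← map_one (AdjoinRoot.mk g), AdjoinRoot.mk_eq_mk]
    exact hst
  -- `p^k` is odd
  have hodd : Odd (p ^ k) := (hpp.odd_of_ne_two hp).pow
  obtain ⟨m, hm2⟩ := hodd
  set a := AdjoinRoot.mk g A with ha
  set σ := AdjoinRoot.mk g s with hσ
  set τ := AdjoinRoot.mk g t with hτ
  have haσ : a ^ (2 * m + 1) = σ ^ 2 := by
    rw [ha, ← map_pow, ← hm2, hAg]
  set A' : ℤ_[p][X] := A ^ (2 * m) * t ^ 2 with hA'
  set a' := AdjoinRoot.mk g A' with ha'
  have haa' : a * a' = 1 := by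
    have h1 : a' = a ^ (2 * m) * τ ^ 2 := by rw [ha', hA', map_mul, map_pow, map_pow]
    rw [h1]
    calc a * (a ^ (2 * m) * τ ^ 2) = a ^ (2 * m + 1) * τ ^ 2 := by ring
      _ = (σ * τ) ^ 2 := by rw [haσ]; ring
      _ = 1 := by rw [hst', one_pow]
  set B : ℤ_[p][X] := s * A' ^ m with hB
  have hBsq : AdjoinRoot.mk g (B ^ 2) = AdjoinRoot.mk g A := by
    rw [map_pow, hB, map_mul, map_pow]
    change (σ * a' ^ m) ^ 2 = a
    calc (σ * a' ^ m) ^ 2 = σ ^ 2 * a' ^ (2 * m) := by ring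
      _ = a * (a * a') ^ (2 * m) := by rw [← haσ]; ring
      _ = a := by rw [haa', one_pow, mul_one]
  rw [AdjoinRoot.mk_eq_mk] at hBsq
  have haa2 : g ∣ A * A' - 1 := by
    rw [← AdjoinRoot.mk_eq_mk, map_mul, map_one]
    exact haa'
  have hdv : ∀ x : ℤ_[p][X], g ∣ x → π ∣ toQ x := by
    intro x hx
    rw [← hgπ]
    exact Polynomial.map_dvd _ hx
  have e1 : π ∣ toQ B ^ 2 - toQ A := by
    have := hdv _ hBsq
    rwa [toQ, Polynomial.map_sub, Polynomial.map_pow] at this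
  have e2 : π ∣ toQ A * toQ A' - 1 := by
    have := hdv _ haa2
    rwa [toQ, Polynomial.map_sub, Polynomial.map_mul, Polynomial.map_one] at this
  refine ⟨toQ B, ?_, ?_⟩
  · intro hπ
    have h1 : π ∣ toQ A := by
      have h2 : π ∣ toQ B ^ 2 := dvd_pow hπ two_ne_zero
      have h3 := dvd_sub h2 e1
      rwa [sub_sub_cancel] at h3
    have h4 : π ∣ 1 := by
      have h5 := dvd_sub (h1.mul_right (toQ A')) e2
      rwa [sub_sub_cancel] at h5
    exact hirr.not_isUnit (isUnit_of_dvd_one h4)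
  · have h1 : toQ F = C ((F.eval θ : ℤ_[p]) : ℚ_[p]) * toQ A := by
      conv_lhs => rw [hFE]
      rw [toQ, Polynomial.map_mul, map_C]
      rfl
    rw [h1, ← mul_sub]
    refine Dvd.dvd.mul_left ?_ _
    rw [← neg_sub, dvd_neg]
    exact e1

end Stoll308.DQ
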