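import Pool.Agent.Work.MP_308fa9_nt.DQ.Basic
import Pool.Agent.Work.MP_308fa9_nt.BG.HankL
import Pool.Agent.Work.MP_308fa9_nt.BG.LCond2
import Pool.Agent.Work.MP_308fa9_nt.SC.OddSq

set_option autoImplicit false

/-!
The norm of a value of a binary form.
-/

namespace Stoll308.DQ

open Polynomial Finset Matrix BG

/-- The determinant of `M² - d N²` for commuting matrices. -/
theorem det_sq_form {K : Type*} [Field K] {k : ℕ} (M N : Matrix (Fin k) (Fin k) K)
    (hc : M * N = N * M) (d : K) : ∃ U V : K, (M * M - d • (N * N)).det = U ^ 2 - d * V ^ 2 := by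
  set CM : Matrix (Fin k) (Fin k) K[X] := (C : K →+* K[X]).mapMatrix M with hCM
  set CN : Matrix (Fin k) (Fin k) K[X] := (C : K →+* K[X]).mapMatrix N with hCN
  have hc' : CM * CN = CN * CM := by rw [hCM, hCN, ← map_mul, ← map_mul, hc]
  set P : K[X] := (CM + (X : K[X]) • CN).det with hP
  set R : K[X] := (CM * CM - (X : K[X]) • (CN * CN)).det with hR
  have hmapc : ∀ (φ : K[X] →+* K[X]), (∀ c, φ (C c) = C c) → ∀ L : Matrix (Fin k) (Fin k) K,
      φ.mapMatrix ((C : K →+* K[X]).mapMatrix L) = (C : K →+* K[X]).mapMatrix L := by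
    intro φ hφ L
    ext1 i j
    simp [hφ]
  have hsm : ∀ (φ : K[X] →+* K[X]) (L : Matrix (Fin k) (Fin k) K[X]),
      φ.mapMatrix ((X : K[X]) • L) = φ X • φ.mapMatrix L := by
    intro φ L
    ext1 i j
    simp
  have h1 : expand K 2 R = P * P.comp (-X) := by
    have e1 : (expand K 2).toRingHom (X : K[X]) = X * X := by
      change expand K 2 X = _
      rw [expand_X, sq]
    have e2 : expand K 2 R = (CM * CM - (X * X : K[X]) • (CN * CN)).det := by
      change (expand K 2).toRingHom _ = _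
      rw [hR, RingHom.map_det, map_sub, hsm, map_mul, map_mul,
        hmapc _ (fun c => expand_C 2 c) M, hmapc _ (fun c => expand_C 2 c) N, e1]
    have e3 : P.comp (-X) = (CM - (X : K[X]) • CN).det := by
      change (compRingHom (-X)) _ = _
      rw [hP, RingHom.map_det, map_add, hsm, hmapc _ (fun c => by simp) M,
        hmapc _ (fun c => by simp) N]
      have e4 : compRingHom (-X) (X : K[X]) = -X := by simp
      rw [e4, neg_smul, ← sub_eq_add_neg]
    rw [e2, e3, hP, ← Matrix.det_mul]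
    congr 1
    rw [add_mul, mul_sub, mul_sub, Matrix.mul_smul, Matrix.smul_mul, Matrix.smul_mul,
      Matrix.mul_smul, smul_smul, hc']
    abel
  obtain ⟨u, v, huv⟩ := SC.OddSq.even_odd_parts P
  have h3 : P.comp (-X) = expand K 2 u - X * expand K 2 v := by
    have e : ∀ w : K[X], (expand K 2 w).comp (-X) = expand K 2 w := by
      intro w
      rw [expand_eq_comp_X_pow, comp_assoc]
      congr 1
      simp
    rw [huv, add_comp, mul_comp, X_comp, e, e]
    ring
  have h4 : R = u ^ 2 - X * v ^ 2 := by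
    apply expand_injective (R := K) (n := 2) (by norm_num)
    rw [h1, h3, huv, map_sub, map_mul, map_pow, map_pow, expand_X]
    ring
  have h5 : R.eval d = (M * M - d • (N * N)).det := by
    have h6 := RingHom.map_det (evalRingHom d) (CM * CM - (X : K[X]) • (CN * CN))
    rw [coe_evalRingHom] at h6
    rw [hR, h6]
    congr 1
    rw [hCM, hCN, ← map_mul, ← map_mul]
    ext1 i j
    simp only [RingHom.mapMatrix_apply, Matrix.map_apply, Matrix.sub_apply, Matrix.smul_apply,
      smul_eq_mul, coe_evalRingHom, eval_sub, eval_mul, eval_X, eval_C]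
  refine ⟨u.eval d, v.eval d, ?_⟩
  rw [← h5, h4]
  simp

/-- The norm of `β² - d γ²` is of the form `U² - d V²`. -/
theorem norm_form {K : Type*} [Field K] {k : ℕ} (π : K[X]) (hπ : π.Monic) (hk : π.natDegree = k)
    (β γ : K[X]) (d : K) :
    ∃ U V : K, (mulMat k π (β ^ 2 - C d * γ ^ 2)).det = U ^ 2 - d * V ^ 2 := by
  have h1 : mulMat k π (β ^ 2 - C d * γ ^ 2) = mulMat k π β * mulMat k π β -
      d • (mulMat k π γ * mulMat k π γ) := by
    rw [← HankL.mulMat_mul π β β hπ hk, ← HankL.mulMat_mul π γ γ hπ hk, ← sq, ← sq]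
    ext i j
    have h2 : mulMat k π (β ^ 2 - C d * γ ^ 2) i j =
        (((β ^ 2 - C d * γ ^ 2) * X ^ (i : ℕ)) %ₘ π).coeff j := rfl
    rw [h2, sub_mul, mul_assoc, ← smul_eq_C_mul, sub_modByMonic, smul_modByMonic, coeff_sub,
      coeff_smul]
    rfl
  rw [h1]
  apply det_sq_form
  rw [← HankL.mulMat_mul π β γ hπ hk, ← HankL.mulMat_mul π γ β hπ hk, mul_comm]

/-- `U² - d V²` has even valuation if `d` is a nonsquare unit. -/
theorem norm_even (p : ℕ) [Fact p.Prime] (hp : p ≠ 2) (d U V : ℚ_[p]) (hd : ‖d‖ = 1)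
    (hns : ¬ IsSquare d) (h0 : U ^ 2 - d * V ^ 2 ≠ 0) : Even (U ^ 2 - d * V ^ 2).valuation := by
  have hp1 : (1 : ℝ) < p := by exact_mod_cast (Fact.out : p.Prime).one_lt
  have hval : ∀ x y : ℚ_[p], x ≠ 0 → y ≠ 0 → ‖x‖ = ‖y‖ → x.valuation = y.valuation := by
    intro x y hx hy h
    rw [Padic.norm_eq_zpow_neg_valuation hx, Padic.norm_eq_zpow_neg_valuation hy] at h
    have := zpow_right_injective₀ (by linarith) (by linarith) h
    omega
  have hsq : ∀ x : ℚ_[p], Even (x ^ 2).valuation := by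
    intro x
    rw [Padic.valuation_pow]
    exact ⟨x.valuation, by push_cast; ring⟩
  by_cases hV : V = 0
  · rw [hV]
    simpa using hsq U
  have hd0 : d ≠ 0 := by
    rintro rfl
    rw [norm_zero] at hd
    exact zero_ne_one hd
  set w := U / V with hw
  have hUV : U ^ 2 - d * V ^ 2 = V ^ 2 * (w ^ 2 - d) := by
    rw [hw]
    field_simp
  have hwd : w ^ 2 - d ≠ 0 := by
    intro h
    rw [hUV, h, mul_zero] at h0
    exact h0 rfl
  rw [hUV, Padic.valuation_mul (pow_ne_zero 2 hV) hwd]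
  refine (hsq V).add ?_
  have hadd : ∀ x y : ℚ_[p], ‖x‖ ≠ ‖y‖ → ‖x - y‖ = max ‖x‖ ‖y‖ := by
    intro x y h
    rw [sub_eq_add_neg, Padic.add_eq_max_of_ne (by rwa [norm_neg]), norm_neg]
  rcases lt_trichotomy ‖w‖ 1 with h | h | h
  · have h1 : ‖w ^ 2‖ < 1 := by
      rw [norm_pow]
      exact pow_lt_one₀ (norm_nonneg _) h two_ne_zero
    have h2 : ‖w ^ 2 - d‖ = ‖(1 : ℚ_[p])‖ := by
      rw [hadd _ _ (by rw [hd]; exact h1.ne), hd, max_eq_right h1.le, norm_one]
    rw [hval _ _ hwd one_ne_zero h2, Padic.valuation_one]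
    exact ⟨0, by norm_num⟩
  · -- the unit case
    have hw0 : w ≠ 0 := by
      intro h1
      rw [h1, norm_zero] at h
      exact zero_ne_one h
    have h1 : ‖w ^ 2‖ = 1 := by rw [norm_pow, h, one_pow]
    have h2 : ‖w ^ 2 - d‖ ≤ 1 := by
      rw [sub_eq_add_neg]
      refine (Padic.nonarchimedean _ _).trans ?_
      rw [norm_neg, h1, hd, max_self]
    rcases h2.lt_or_eq with h3 | h3
    · exfalso
      apply hns
      have h4 : ‖d / w ^ 2‖ ≤ 1 := by rw [norm_div, hd, h1, div_one]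
      have h5 : ‖d / w ^ 2 - 1‖ < 1 := by
        have h6 : d / w ^ 2 - 1 = -((w ^ 2 - d) / w ^ 2) := by
          field_simp
          ring
        rw [h6, norm_neg, norm_div, h1, div_one]
        exact h3
      obtain ⟨z, hz⟩ := BG.LCond.one_unit_sq p hp ⟨d / w ^ 2, h4⟩ h5
      have hz' : (z : ℚ_[p]) ^ 2 = d / w ^ 2 := by
        have h7 := congrArg (fun q : ℤ_[p] => (q : ℚ_[p])) hz
        simpa using h7
      refine ⟨w * z, ?_⟩
      rw [← sq, mul_pow, hz']
      field_simp
    · rw [hval _ _ hwd one_ne_zero (by rw [h3, norm_one]), Padic.valuation_one]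
      exact ⟨0, by norm_num⟩
  · have h1 : 1 < ‖w ^ 2‖ := by
      rw [norm_pow]
      exact one_lt_pow₀ h two_ne_zero
    have h2 : ‖w ^ 2 - d‖ = ‖w ^ 2‖ := by
      rw [hadd _ _ (by rw [hd]; exact h1.ne'), hd, max_eq_left h1.le]
    have hw2 : w ^ 2 ≠ 0 := by
      intro h3
      rw [h3, norm_zero] at h1
      linarith
    rw [hval _ _ hwd hw2 h2]
    exact hsq w

end Stoll308.DQ
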