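import Pool.Agent.Work.MP_308fa9_nt.DQ.Gauss
import Pool.Agent.Work.MP_308fa9_nt.SC.LocUnit

set_option autoImplicit false

/-!
The self-dual lattice at a prime which does not divide `2 a₀`.
-/

namespace Stoll308.DQ

open Polynomial Finset Matrix BG BF SC

/-- The class of a primitive polynomial `h` modulo which `c g` is a square. -/
theorem good_of_prim {n : ℕ} (hn : 1 ≤ n) (p : ℕ) [Fact p.Prime] (hp : p ≠ 2) (g : ℤ_[p][X])
    (c : ℤ_[p]) (hc : IsUnit c) (hg : g.Monic) (hgn : g.natDegree = n) (h r : ℚ_[p][X])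
    (hh : Prim p h) (hco : IsCoprime h (toQ g)) (h1 : h ∣ toQ (C c * g) - r ^ 2)
    (δ s₁ s₂ : ℚ_[p][X]) (hs₁ : IsCoprime s₁ (toQ g)) (hs₂ : IsCoprime s₂ (toQ g))
    (e : toQ g ∣ h * s₁ ^ 2 - δ * s₂ ^ 2) : Good p n (toQ g) δ := by
  obtain ⟨v, H, G, hv, hH, eh⟩ := hh.split
  have hHh : toQ H ∣ h := ⟨C v * toQ (1 + C (p : ℤ_[p]) * G), by rw [eh]; ring⟩
  have hGood : Good p n (toQ g) (toQ H) :=
    core_int hn p hp g c hc hg hgn H r hH (hco.of_isCoprime_of_dvd_left hHh) (hHh.trans h1)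
  obtain ⟨S, T, ⟨q, hq⟩, ⟨q', hq'⟩⟩ := sq_root p hp g G hg
  have hS : toQ (1 + C (p : ℤ_[p]) * G) - toQ S ^ 2 = toQ g * toQ q := by
    have h3 := congrArg toQ hq
    rwa [toQ, Polynomial.map_sub, Polynomial.map_pow, toQ, Polynomial.map_mul] at h3
  have hSco : IsCoprime (toQ S) (toQ g) := by
    refine ⟨toQ T, -toQ q', ?_⟩
    have h3 := congrArg toQ hq'
    rw [toQ, Polynomial.map_sub, Polynomial.map_mul, Polynomial.map_one, toQ,
      Polynomial.map_mul] at h3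
    linear_combination h3
  refine hGood.congr (hg.map _) (by rw [hg.natDegree_map, hgn]) v hv (toQ S * s₁) s₂
    (hSco.mul_left hs₁) hs₂ ?_
  obtain ⟨d, hd⟩ := e
  refine ⟨d - C v * toQ H * s₁ ^ 2 * toQ q, ?_⟩
  linear_combination hd - s₁ ^ 2 * (C v * toQ H * hS) - s₁ ^ 2 * eh

theorem good_unit {n : ℕ} (hn : 2 ≤ n) (p : ℕ) [Fact p.Prime] (hp : p ≠ 2) (a : Fin (n + 1) → ℤ)
    (h0 : ¬ (p : ℤ) ∣ a 0) (δ h : ℚ_[p][X]) (hh : Prim p h) (hc : Cls (GZ ℚ_[p] a) δ h) :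
    Good p n (mon ℚ_[p] a) δ := by
  obtain ⟨-, hco, ⟨r, hr⟩, s, hs, e⟩ := hc
  obtain ⟨g, c, hc, hg, hgn, hgm, hgf⟩ := exists_mon p a h0
  have hz : ((a 0 : ℤ) : ℚ_[p]) ≠ 0 := by
    intro h
    have h1 := norm_int_eq_one h0
    rw [h, norm_zero] at h1
    exact zero_ne_one h1
  have hdvd : mon ℚ_[p] a ∣ GZ ℚ_[p] a := Dvd.intro_left _ (BF.LocLat.GZ_eq a hz).symm
  have hco' := hco.of_isCoprime_of_dvd_right hdvd
  have hs' := hs.of_isCoprime_of_dvd_right hdvd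
  have e' := hdvd.trans e
  rw [← hgf] at hr
  rw [← hgm] at hco' hs' e' ⊢
  refine good_of_prim (by omega) p hp g c hc hg hgn h r hh hco' hr δ 1 s isCoprime_one_left hs' ?_
  rwa [one_pow, mul_one]

end Stoll308.DQ
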