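import Pool.Agent.Work.MP_308fa9_nt.DQ.Gauss
import Pool.Agent.Work.MP_308fa9_nt.DQ.LocUnit
import Pool.Agent.Work.MP_308fa9_nt.SC.RevLoc
import Pool.Agent.Work.MP_308fa9_nt.SC.LocUnit

set_option autoImplicit false

/-!
The class at the primes which divide the leading coefficient.
-/

namespace Stoll308.DQ

open Polynomial Finset Matrix BG BF SC

/-- The square root of `f` modulo `h`, reversed; `n` is even. -/
theorem sqE_rev {K : Type*} [Field K] {h f r : K[X]} {n : ℕ} (he : Even n) (h0 : h ≠ 0)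
    (hf : f.natDegree ≤ n) (hr : h ∣ f - r ^ 2) :
    ∃ r₁ : K[X], h.reflect h.natDegree ∣ f.reflect n - r₁ ^ 2 := by
  set g := h.reflect h.natDegree with hg
  set R := r.natDegree + n with hR
  have h2 : g ∣ f.reflect n * X ^ (2 * R - n) - (r.reflect R) ^ 2 := by
    have h3 := reflect_dvd (N := 2 * R) h0 hr ?_
    · rw [reflect_sub, reflect_sq (by omega), show 2 * R = n + (2 * R - n) by omega,
        reflect_up hf] at h3
      exact h3
    · exact (natDegree_sub_le _ _).trans (max_le (by omega) (natDegree_sq_le (by omega)))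
  have hg0 : g.coeff 0 ≠ 0 := by
    rw [hg, coeff_reflect, revAt_le (Nat.zero_le _), Nat.sub_zero]
    exact leadingCoeff_ne_zero.2 h0
  have hX : IsCoprime (X : K[X]) g := by
    have hdx := divX_mul_X_add g
    refine ⟨-(C (g.coeff 0)⁻¹ * divX g), C (g.coeff 0)⁻¹, ?_⟩
    have h3 : C (g.coeff 0)⁻¹ * C (g.coeff 0) = (1 : K[X]) := by
      rw [← C_mul, inv_mul_cancel₀ hg0, C_1]
    linear_combination h3 - C (g.coeff 0)⁻¹ * hdx
  obtain ⟨j, hj⟩ : ∃ j, 2 * R - n = j * 2 := by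
    obtain ⟨k, hk⟩ := he
    exact ⟨R - k, by omega⟩
  rw [hj, pow_mul] at h2
  obtain ⟨u, w, huw⟩ := hX.pow_left (m := j)
  obtain ⟨c, hc⟩ := h2
  refine ⟨r.reflect R * u, u ^ 2 * c + f.reflect n * w * (2 * (u * X ^ j) + w * g), ?_⟩
  have e1 : (u * X ^ j + w * g) ^ 2 = 1 := by rw [huw, one_pow]
  linear_combination u ^ 2 * hc - f.reflect n * e1

/-- The class `θ*^(-ν) δ(θ)`, `ν` odd, has a self-dual lattice if `p` does not divide the constant
coefficient. -/
theorem good_rev {n : ℕ} (hn : 2 ≤ n) (he : Even n) (p : ℕ) [Fact p.Prime] (hp : p ≠ 2)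
    (a : Fin (n + 1) → ℤ) (h0 : a 0 ≠ 0) (hl : ¬ (p : ℤ) ∣ a (Fin.last n)) (δ h : ℚ_[p][X])
    (hh : Prim p h) (hc : Cls (GZ ℚ_[p] a) δ h) (ν D : ℕ) (hν : Odd ν) (hD : δ.natDegree ≤ D)
    (D₁ : ℚ_[p][X]) (e : GZ ℚ_[p] (a ∘ Fin.rev) ∣ D₁ * X ^ (ν + D) - δ.reflect D) :
    Good p n (mon ℚ_[p] (a ∘ Fin.rev)) D₁ := by
  obtain ⟨hodd, hcop, ⟨r, hr⟩, s, hscop, hf⟩ := hc
  have h0' : (a 0 : ℚ_[p]) ≠ 0 := by exact_mod_cast h0
  have hrl : (a ∘ Fin.rev) 0 = a (Fin.last n) := by rw [Function.comp_apply, Fin.rev_zero]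
  obtain ⟨g₀, c, hc, hg₀, hgn, hgm, hgf⟩ := exists_mon p (a ∘ Fin.rev) (by rw [hrl]; exact hl)
  have hz : (((a ∘ Fin.rev) 0 : ℤ) : ℚ_[p]) ≠ 0 := by
    intro h
    have h1 := norm_int_eq_one (p := p) (z := (a ∘ Fin.rev) 0) (by rw [hrl]; exact hl)
    rw [h, norm_zero] at h1
    exact zero_ne_one h1
  have hdvd : mon ℚ_[p] (a ∘ Fin.rev) ∣ GZ ℚ_[p] (a ∘ Fin.rev) :=
    Dvd.intro_left _ (BF.LocLat.GZ_eq (a ∘ Fin.rev) hz).symm
  set f := GZ ℚ_[p] a with hfdef
  set g := GZ ℚ_[p] (a ∘ Fin.rev) with hg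
  have hfn : f.natDegree ≤ n := BF.LocLat.GZ_natDegree_le a
  have hfg : f.reflect n = g := gz_reflect a
  have hX : IsCoprime (X : ℚ_[p][X]) g := rev_coprime a h0'
  have hh0 : h ≠ 0 := by
    rintro rfl
    simp at hodd
  have hfnn : f.natDegree = n := by
    refine le_antisymm hfn (le_natDegree_of_ne_zero ?_)
    rw [hfdef, BF.LocLat.GZ_coeff_top]
    exact h0'
  have hf0 : f ≠ 0 := by
    intro h1
    rw [h1, natDegree_zero] at hfnn
    omega
  -- the reversed identities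
  obtain ⟨r₁, hr₁⟩ := sqE_rev he hh0 hfn hr
  rw [hfg] at hr₁
  set m := h.natDegree with hm
  set H := h.reflect m with hH
  have hHp : Prim p H := hh.reflect m le_rfl
  have hHg : IsCoprime H g := by
    have := reflect_coprime hcop (E := m) (n := n) le_rfl hfn (by rw [hfg]; exact hX)
    rwa [hfg] at this
  set E := s.natDegree + m with hE
  set sr := s.reflect E with hsr
  have hsrg : IsCoprime sr g := by
    have := reflect_coprime hscop (E := E) (n := n) (by omega) hfn (by rw [hfg]; exact hX)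
    rwa [hfg] at this
  have hmain : g ∣ H * X ^ (D + 2 * E - m) - D₁ * X ^ (ν + D) * sr ^ 2 := by
    have h3 := reflect_dvd (N := D + 2 * E) hf0 hf ?_
    · rw [hfnn, hfg, reflect_sub, reflect_mul _ _ hD (natDegree_sq_le (by omega)),
        reflect_sq (by omega)] at h3
      have h4 : h.reflect (D + 2 * E) = H * X ^ (D + 2 * E - m) := by
        conv_lhs => rw [show D + 2 * E = m + (D + 2 * E - m) by omega]
        exact reflect_up le_rfl _
      rw [h4] at h3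
      obtain ⟨c, hc⟩ := h3
      obtain ⟨d, hd⟩ := e
      exact ⟨c - d * sr ^ 2, by linear_combination hc - sr ^ 2 * hd⟩
    · refine (natDegree_sub_le _ _).trans (max_le (by omega) ?_)
      exact natDegree_mul_le.trans (Nat.add_le_add hD (natDegree_sq_le (by omega)))
  obtain ⟨i, j, hij⟩ : ∃ i j : ℕ, g ∣ H * (X ^ i) ^ 2 - D₁ * (X ^ j * sr) ^ 2 := by
    obtain ⟨k, hk⟩ := hν
    obtain ⟨k', hk'⟩ := hodd
    rcases Nat.even_or_odd' (D + 2 * E - m) with ⟨i, hi | hi⟩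
    · refine ⟨i, (ν + D) / 2, ?_⟩
      have h5 : ν + D = 2 * ((ν + D) / 2) := by omega
      have h6 : H * (X ^ i) ^ 2 - D₁ * (X ^ ((ν + D) / 2) * sr) ^ 2 =
          H * X ^ (D + 2 * E - m) - D₁ * X ^ (ν + D) * sr ^ 2 := by
        rw [hi]
        conv_rhs => rw [h5]
        ring
      rw [h6]
      exact hmain
    · refine ⟨i + 1, (ν + D + 1) / 2, ?_⟩
      have h6 : H * (X ^ (i + 1)) ^ 2 - D₁ * (X ^ ((ν + D + 1) / 2) * sr) ^ 2 =
          X * (H * X ^ (D + 2 * E - m) - D₁ * X ^ (ν + D) * sr ^ 2) := by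
        have h7 : (X : ℚ_[p][X]) * X ^ (ν + D) = (X ^ ((ν + D + 1) / 2)) ^ 2 := by
          rw [← pow_succ', ← pow_mul]
          congr 1
          omega
        rw [hi]
        linear_combination (D₁ * sr ^ 2) * h7
      rw [h6]
      exact Dvd.dvd.mul_left hmain _
  have hr₂ : H ∣ toQ (C c * g₀) - r₁ ^ 2 := by rw [hgf]; exact hr₁
  have hHg' := hHg.of_isCoprime_of_dvd_right hdvd
  have hX' := hX.of_isCoprime_of_dvd_right hdvd
  have hsrg' := hsrg.of_isCoprime_of_dvd_right hdvd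
  have hij' := hdvd.trans hij
  rw [← hgm] at hHg' hX' hsrg' hij' ⊢
  exact good_of_prim (by omega) p hp g₀ c hc hg₀ hgn H r₁ hHp hHg' hr₂ D₁ (X ^ i) (X ^ j * sr)
    hX'.pow_left (hX'.pow_left.mul_left hsrg') hij'

end Stoll308.DQ
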