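import Pool.Agent.Work.MP_308fa9_nt.DQ.LocUnit
import Pool.Agent.Work.MP_308fa9_nt.DQ.LocRev
import Pool.Agent.Work.MP_308fa9_nt.SC.LocE

set_option autoImplicit false

/-!
The local lattice.
-/

namespace Stoll308.DQ

open Polynomial Finset Matrix BG BF SC SC.LocE

theorem loc_even {n : ℕ} (hn : 4 ≤ n) (he : Even n) (p : ℕ) [Fact p.Prime] (hp : p ≠ 2)
    (a : Fin (n + 1) → ℤ) (h0 : a 0 ≠ 0) (hl : a (Fin.last n) ≠ 0)
    (hcase : ¬ (p : ℤ) ∣ a 0 ∨ ¬ (p : ℤ) ∣ a (Fin.last n))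
    (δ h : ℚ_[p][X]) (hh : Prim p h) (hc : Cls (GZ ℚ_[p] a) δ h) :
    ∃ G : Matrix (Fin n) (Fin n) ℚ_[p], G.det ≠ 0 ∧
      (∀ i j, ‖(G * ((a 0 : ℚ_[p])⁻¹ • Hank n (mon ℚ_[p] a) δ) * Gᵀ) i j‖ ≤ 1) ∧
      (∀ i j, ‖(G * ((a 0 : ℚ_[p])⁻¹ • Hank n (mon ℚ_[p] a) (X * δ)) * Gᵀ) i j‖ ≤ 1) ∧
      ‖(G * ((a 0 : ℚ_[p])⁻¹ • Hank n (mon ℚ_[p] a) δ) * Gᵀ).det‖ = ‖(a 0 : ℚ_[p])‖ := by
  have h0' : ((a 0 : ℤ) : ℚ_[p]) ≠ 0 := by exact_mod_cast h0
  have hl' : ((a (Fin.last n) : ℤ) : ℚ_[p]) ≠ 0 := by exact_mod_cast hl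
  rcases hcase with hcs | hcs
  · obtain ⟨G, hG, h1, h2⟩ := good_unit (by omega) p hp a hcs δ h hh hc
    have hn1 := norm_int_eq_one hcs
    have key : ∀ M : Matrix (Fin n) (Fin n) ℚ_[p],
        G * ((a 0 : ℚ_[p])⁻¹ • M) * Gᵀ = (a 0 : ℚ_[p])⁻¹ • (G * M * Gᵀ) := by
      intro M
      rw [Matrix.mul_smul, Matrix.smul_mul]
    refine ⟨G, hG, ?_, ?_, ?_⟩
    · intro i j
      rw [key, Matrix.smul_apply, norm_smul, norm_inv, hn1, inv_one, one_mul]
      have := h1 0 i j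
      rwa [pow_zero, one_mul] at this
    · intro i j
      rw [key, Matrix.smul_apply, norm_smul, norm_inv, hn1, inv_one, one_mul]
      have := h1 1 i j
      rwa [pow_one] at this
    · rw [key, Matrix.det_smul, norm_mul, norm_pow, norm_inv, hn1, inv_one, one_pow, one_mul, h2]
  · obtain ⟨D, hD⟩ : ∃ D, D = δ.natDegree := ⟨_, rfl⟩
    obtain ⟨D₁, hD₁⟩ := exists_rev a h0' δ (n + 1) D
    have hν : Odd (n + 1) := he.add_one
    obtain ⟨G, hG, h1, h2⟩ := good_rev (by omega) he p hp a h0 hcs δ h hh hc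
      (n + 1) D hν hD.ge D₁ hD₁
    have hn1 := norm_int_eq_one hcs
    obtain ⟨F, hF⟩ : ∃ F, F = mon ℚ_[p] (a ∘ Fin.rev) := ⟨_, rfl⟩
    rw [← hF] at h1 h2
    have hm0 : (((a ∘ Fin.rev) 0 : ℤ) : ℚ_[p]) ≠ 0 := by
      rw [Function.comp_apply, Fin.rev_zero]
      exact hl'
    have hFm : F.Monic := by rw [hF]; exact BF.LocLat.mon_monic _ hm0
    have hFn : F.natDegree = n := by rw [hF]; exact BF.LocLat.mon_natDegree _ hm0
    -- the two Hankel matrices
    have r1 : ∀ i j, (a 0 : ℚ_[p])⁻¹ * Hank n (mon ℚ_[p] a) (X * δ) i j =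
        -((a (Fin.last n) : ℚ_[p])⁻¹ * Hank n F D₁ i.rev j.rev) := by
      intro i j
      rw [hF]
      refine rev_hank (by omega) a h0' hl' (X * δ) D₁ (D + 1) ?_ ?_ i j
      · refine natDegree_mul_le.trans ?_
        rw [natDegree_X]
        omega
      · have e1 : (X * δ).reflect (D + 1) = δ.reflect D := by
          rw [add_comm D 1, reflect_mul _ _ (by rw [natDegree_X]) hD.ge]
          have : (X : ℚ_[p][X]).reflect 1 = 1 := by
            have := reflect_monomial 1 1 (R := ℚ_[p])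
            rw [pow_one] at this
            rw [this, revAt_le le_rfl, Nat.sub_self, pow_zero]
          rw [this, one_mul]
        rw [e1, show n + (D + 1) = n + 1 + D by ring]
        exact hD₁
    have r0 : ∀ i j, (a 0 : ℚ_[p])⁻¹ * Hank n (mon ℚ_[p] a) δ i j =
        -((a (Fin.last n) : ℚ_[p])⁻¹ * Hank n F (X * D₁) i.rev j.rev) := by
      intro i j
      rw [hF]
      refine rev_hank (by omega) a h0' hl' δ (X * D₁) D hD.ge ?_ i j
      have e1 : X * D₁ * X ^ (n + D) = D₁ * X ^ (n + 1 + D) := by ring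
      rw [e1]
      exact hD₁
    have k1 := rev_conj G ((a 0 : ℚ_[p])⁻¹ • Hank n (mon ℚ_[p] a) (X * δ))
      (-((a (Fin.last n) : ℚ_[p])⁻¹ • Hank n F D₁)) (fun i j => by
        rw [Matrix.smul_apply, smul_eq_mul, r1, Matrix.neg_apply, Matrix.smul_apply, smul_eq_mul])
    have k0 := rev_conj G ((a 0 : ℚ_[p])⁻¹ • Hank n (mon ℚ_[p] a) δ)
      (-((a (Fin.last n) : ℚ_[p])⁻¹ • Hank n F (X * D₁))) (fun i j => by
        rw [Matrix.smul_apply, smul_eq_mul, r0, Matrix.neg_apply, Matrix.smul_apply, smul_eq_mul])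
    have key : ∀ M : Matrix (Fin n) (Fin n) ℚ_[p],
        G * (-((a (Fin.last n) : ℚ_[p])⁻¹ • M)) * Gᵀ =
          (-(a (Fin.last n) : ℚ_[p])⁻¹) • (G * M * Gᵀ) := by
      intro M
      rw [← neg_smul, Matrix.mul_smul, Matrix.smul_mul]
    have hnn : ‖(-(a (Fin.last n) : ℚ_[p])⁻¹)‖ = 1 := by
      rw [norm_neg, norm_inv, hn1, inv_one]
    refine ⟨G.submatrix id Fin.rev, ?_, ?_, ?_, ?_⟩
    · have : G.submatrix id Fin.rev = G.submatrix id Fin.revPerm := rfl
      rw [this, Matrix.det_permute']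
      refine mul_ne_zero ?_ hG
      exact_mod_cast (Units.ne_zero _)
    · intro i j
      rw [k0, key, Matrix.smul_apply, norm_smul, hnn, one_mul]
      have := h1 1 i j
      rwa [pow_one] at this
    · intro i j
      rw [k1, key, Matrix.smul_apply, norm_smul, hnn, one_mul]
      have := h1 0 i j
      rwa [pow_zero, one_mul] at this
    · rw [k0, key, Matrix.det_smul, norm_mul, norm_pow, hnn, one_pow, one_mul]
      have e1 : Hank n F (X * D₁) = mulMat n F X * Hank n F D₁ := by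
        rw [mul_comm X D₁]
        exact HankL.hank_mul F D₁ X hFm hFn
      have e2 : (G * Hank n F (X * D₁) * Gᵀ).det =
          (mulMat n F X).det * (G * Hank n F D₁ * Gᵀ).det := by
        rw [e1]
        simp only [det_mul]
        ring
      rw [e2, norm_mul, h2, mul_one, mulMat_X_det F hFm hFn, norm_mul, norm_pow, norm_neg,
        norm_one, one_pow, one_mul, hF]
      unfold mon
      rw [coeff_C_mul, gz_coeff_zero, norm_mul, norm_inv, Function.comp_apply, Fin.rev_zero, hn1,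
        inv_one, one_mul]

end Stoll308.DQ
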