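import Pool.Agent.Work.MP_308fa9_nt.DQ.Basic
import Pool.Agent.Work.MP_308fa9_nt.SC.OddNorm

set_option autoImplicit false

/-!
The norm of the Selmer class.
-/

namespace Stoll308.DQ

open Polynomial Finset Matrix BG BF SC

namespace NormAux

open OddNorm TensorProduct

lemma GZ_map {R S : Type} [CommRing R] [CommRing S] {n : ℕ} (a : Fin (n + 1) → ℤ) (f : R →+* S) :
    (GZ R a).map f = GZ S a := by
  unfold GZ gpol
  rw [Polynomial.map_sum]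
  refine Finset.sum_congr rfl fun i _ => ?_
  rw [Polynomial.map_mul, Polynomial.map_pow, map_X, map_C, map_intCast]

/-- The norm of a unit constant is a nonzero constant. -/
lemma nm_unit {K : Type*} [Field K] {E : Type*} [CommRing E] [Algebra K E] {ι : Type*} [Fintype ι]
    [DecidableEq ι] (b : Module.Basis ι K E) {c : E} (hc : IsUnit c) :
    ∃ c' : K, c' ≠ 0 ∧ nm b (C c) = C c' := by
  obtain ⟨c₂, hc₂⟩ := hc.exists_right_inv
  have h1 : nm b (C c) * nm b (C c₂) = 1 := by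
    rw [← nm_mul, ← C_mul, hc₂, C_1, nm_one]
  obtain ⟨r, hr, hr'⟩ := Polynomial.isUnit_iff.1 (IsUnit.of_mul_eq_one _ h1)
  exact ⟨r, hr.ne_zero, hr'.symm⟩

/-- The norm of an element coprime to `f`. -/
lemma nm_coprime {n : ℕ} (a : Fin (n + 1) → ℤ) {k : Type} [Field k] [Algebra ℚ k] {ι : Type*}
    [Fintype ι] [DecidableEq ι] (b : Module.Basis ι ℚ k) {δ : k[X]} (hδ : IsCoprime δ (GZ k a)) :
    IsCoprime (nm b δ) (GZ ℚ a) := by
  obtain ⟨u, v, huv⟩ := hδ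
  have h1 : u * δ = 1 + (GZ ℚ a).map (algebraMap ℚ k) * (-v) := by
    rw [GZ_map]
    linear_combination huv
  obtain ⟨q, hq⟩ := nm_congr b (GZ ℚ a) 1 (-v)
  rw [← h1, nm_mul, nm_one] at hq
  exact ⟨nm b u, -q, by linear_combination hq⟩

/-- The norm of the congruence for a point. -/
lemma nm_point {n : ℕ} (a : Fin (n + 1) → ℤ) {k : Type} [Field k] [Algebra ℚ k]
    [Module.Finite ℚ k] {N : ℕ} (hN : Odd N) (b : Module.Basis (Fin N) ℚ k) (p : ℕ) [Fact p.Prime]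
    (δ : k[X]) (t c : ℚ_[p] ⊗[ℚ] k) (s : (ℚ_[p] ⊗[ℚ] k)[X]) (c' : ℚ_[p]) (hc' : c' ≠ 0)
    (hn : nm (b.baseChange ℚ_[p]) (C c) = C c')
    (h : GZ (ℚ_[p] ⊗[ℚ] k) a ∣ (C t - X) -
      C c * δ.map (Algebra.TensorProduct.includeRight : k →ₐ[ℚ] ℚ_[p] ⊗[ℚ] k).toRingHom * s ^ 2) :
    GZ ℚ_[p] a ∣ C (-c'⁻¹) * (LinearMap.mulLeft ℚ_[p] t).charpoly -
      (nm b δ).map (algebraMap ℚ ℚ_[p]) * (nm (b.baseChange ℚ_[p]) s) ^ 2 := by
  have hfe : GZ (ℚ_[p] ⊗[ℚ] k) a = (GZ ℚ_[p] a).map (algebraMap ℚ_[p] (ℚ_[p] ⊗[ℚ] k)) :=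
    (GZ_map a _).symm
  obtain ⟨q, hq⟩ := h
  rw [sub_eq_iff_eq_add, hfe] at hq
  obtain ⟨r, hr⟩ := nm_congr (b.baseChange ℚ_[p]) (GZ ℚ_[p] a)
    (C c * δ.map (Algebra.TensorProduct.includeRight : k →ₐ[ℚ] ℚ_[p] ⊗[ℚ] k).toRingHom * s ^ 2) q
  rw [add_comm, ← hq, nm_lin, nm_mul, nm_mul, nm_baseChange, nm_sq, Fintype.card_fin,
    hN.neg_one_pow, neg_one_mul, hn] at hr
  refine ⟨C (c'⁻¹) * r, ?_⟩
  have h1 : C (c'⁻¹) * C c' = (1 : ℚ_[p][X]) := by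
    rw [← C_mul, inv_mul_cancel₀ hc', C_1]
  rw [C_neg]
  linear_combination C (c'⁻¹) * hr + (nm b δ).map (algebraMap ℚ ℚ_[p]) *
    (nm (b.baseChange ℚ_[p]) s) ^ 2 * h1

end NormAux

open NormAux OddNorm TensorProduct in
/-- The norm of an element of the Selmer set over a number field of odd degree. -/
theorem oddSel_of_selOver {n m : ℕ} (a : Fin (n + 1) → ℤ) (b : Fin (m + 1) → ℤ) (k : Type)
    [Field k] [Algebra ℚ k] (ho : Odd (Module.finrank ℚ k)) (h : SelOver a b k) :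
    OddSel a b := by
  have hfin : Module.Finite ℚ k := Module.finite_of_finrank_pos ho.pos
  obtain ⟨δ, ε, hδ, hε, hloc⟩ := h
  set bb := Module.finBasis ℚ k with hbb
  refine ⟨nm bb δ, nm bb ε, nm_coprime a bb hδ, nm_coprime b bb hε, ?_⟩
  intro p _ hp
  obtain ⟨t, y, w, c, s, s', hy, hw, hc, e1, e2, h1, h2⟩ := hloc p hp
  obtain ⟨c', hc', hn⟩ := nm_unit (bb.baseChange ℚ_[p]) hc
  have hfe : ∀ {n : ℕ} (a : Fin (n + 1) → ℤ),
      GZ (ℚ_[p] ⊗[ℚ] k) a = (GZ ℚ_[p] a).map (algebraMap ℚ_[p] (ℚ_[p] ⊗[ℚ] k)) :=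
    fun a => (GZ_map a _).symm
  have hrank : Module.finrank ℚ_[p] (ℚ_[p] ⊗[ℚ] k) = Module.finrank ℚ k :=
    Module.finrank_baseChange
  refine ⟨ℚ_[p] ⊗[ℚ] k, inferInstance, inferInstance, inferInstance, t, y, w, -c'⁻¹,
    nm (bb.baseChange ℚ_[p]) s, nm (bb.baseChange ℚ_[p]) s', ?_, hy, hw, ?_, ?_, ?_, ?_, ?_⟩
  · rw [hrank]; exact ho
  · exact neg_ne_zero.2 (inv_ne_zero hc')
  · rw [e1, hfe, eval_map_algebraMap]
  · rw [e2, hfe, eval_map_algebraMap]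
  · exact nm_point a ho bb p δ t c s c' hc' hn h1
  · exact nm_point b ho bb p ε t c s' c' hc' hn h2

end Stoll308.DQ
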