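import Pool.Agent.Work.MP_308fa9_nt.DQ.Cnt
import Pool.Agent.Work.MP_308fa9_nt.BF.Redu
import Pool.Agent.Work.MP_308fa9_nt.SC.LocInf

set_option autoImplicit false

/-!
Most curves are smooth.
-/

namespace Stoll308.DQ

open Polynomial Finset BF SC

namespace Smth

/-- The coefficients determine the vector. -/
lemma gz_inj {m : ℕ} {b b' : Fin (m + 1) → ℤ} (h : GZ ℚ b = GZ ℚ b') : b = b' := by
  funext i
  have h1 : (GZ ℚ b).coeff (m - (i : ℕ)) = (GZ ℚ b').coeff (m - (i : ℕ)) := by rw [h]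
  rw [LocInf.coeff_GZ b (Nat.sub_le _ _), LocInf.coeff_GZ b' (Nat.sub_le _ _)] at h1
  have e : (⟨m - (m - (i : ℕ)), by omega⟩ : Fin (m + 1)) = i := by
    apply Fin.ext
    have := i.isLt
    show m - (m - (i : ℕ)) = i
    omega
  rw [e] at h1
  exact_mod_cast h1

/-- Pairs of proportional polynomials. -/
def Prop2 {n m : ℕ} (a : Fin (n + 1) → ℤ) (b : Fin (m + 1) → ℤ) : Prop :=
  b 0 ≠ 0 ∧ ∃ c : ℚ, GZ ℚ b = C c * GZ ℚ a

lemma cnt_prop2 (n m H : ℕ) : cnt n m Prop2 H ≤ (2 * H + 1) ^ (n + 1) * (2 * H + 1) := by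
  classical
  have hc : (2 * H + 1) ^ (n + 1) * (2 * H + 1) =
      ((Fintype.piFinset fun _ : Fin (n + 1) => Icc (-(H : ℤ)) (H : ℤ)) ×ˢ
        Icc (-(H : ℤ)) (H : ℤ)).card := by
    rw [card_product, Fintype.card_piFinset, prod_const, card_univ, Fintype.card_fin, Int.card_Icc]
    have h : ((H : ℤ) + 1 - -(H : ℤ)).toNat = 2 * H + 1 := by omega
    rw [h]
  rw [hc]
  unfold cnt
  refine card_le_card_of_injOn (fun x => (x.1, x.2 0)) ?_ ?_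
  · intro x hx
    simp only [coe_filter, mem_product, Fintype.mem_piFinset, Set.mem_ofPred_eq] at hx
    simp only [coe_product, Set.mem_prod, mem_coe, Fintype.mem_piFinset]
    exact ⟨hx.1.1, hx.1.2 0⟩
  · rintro ⟨a, b⟩ hx ⟨a', b'⟩ hx' hxx
    simp only [coe_filter, Set.mem_ofPred_eq] at hx hx'
    simp only [Prod.mk.injEq] at hxx
    obtain ⟨rfl, hb⟩ := hxx
    obtain ⟨-, h0, c, h1⟩ := hx
    obtain ⟨-, h0', c', h1'⟩ := hx'
    have e1 := congrArg (fun F : ℚ[X] => F.coeff m) h1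
    have e2 := congrArg (fun F : ℚ[X] => F.coeff m) h1'
    simp only [coeff_C_mul] at e1 e2
    rw [BF.LocLat.GZ_coeff_top] at e1 e2
    have h3 : ((b 0 : ℤ) : ℚ) ≠ 0 := by exact_mod_cast h0
    have h4 : (GZ ℚ a).coeff m ≠ 0 := by
      intro h
      rw [h, mul_zero] at e1
      exact h3 e1
    have h5 : c = c' := by
      have e3 : ((b 0 : ℤ) : ℚ) = ((b' 0 : ℤ) : ℚ) := by exact_mod_cast hb
      rw [e1, e2] at e3
      exact mul_right_cancel₀ h4 e3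
    rw [← h5, ← h1] at h1'
    rw [gz_inj h1']

/-- The three ways not to be smooth. -/
lemma cases_smooth {n m : ℕ} (a : Fin (n + 1) → ℤ) (b : Fin (m + 1) → ℤ) (h : ¬ Smooth a b) :
    (a 0 = 0 ∨ IsSquare (a 0) ∨ ¬ Irreducible (GZ ℚ a)) ∨
      (b 0 = 0 ∨ IsSquare (b 0) ∨ ¬ Irreducible (GZ ℚ b)) ∨ Prop2 a b := by
  by_cases ha0 : a 0 = 0
  · exact Or.inl (Or.inl ha0)
  by_cases hb0 : b 0 = 0
  · exact Or.inr (Or.inl (Or.inl hb0))
  by_cases ha : Irreducible (GZ ℚ a)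
  swap
  · exact Or.inl (Or.inr (Or.inr ha))
  by_cases hb : Irreducible (GZ ℚ b)
  swap
  · exact Or.inr (Or.inl (Or.inr (Or.inr hb)))
  right; right
  refine ⟨hb0, ?_⟩
  by_contra hc
  apply h
  refine ⟨ha0, hb0, ?_⟩
  have hrel : IsRelPrime (GZ ℚ a) (GZ ℚ b) := by
    rw [ha.isRelPrime_iff_not_dvd]
    intro hd
    have has := ha.associated_of_dvd hb hd
    obtain ⟨u, hu⟩ := has
    obtain ⟨c, -, hc'⟩ := Polynomial.isUnit_iff.1 u.isUnit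
    exact hc ⟨c, by rw [← hu, ← hc', mul_comm]⟩
  exact (squarefree_mul_iff).2 ⟨hrel, ha.squarefree, hb.squarefree⟩

end Smth

theorem smooth_small (n m : ℕ) (hn : 4 ≤ n) (hm : 4 ≤ m) (ε : ℝ) (hε : 0 < ε) :
    ∃ H₀ : ℕ, ∀ H : ℕ, H₀ ≤ H →
      (cnt n m (fun a b => ¬ Smooth a b) H : ℝ) ≤ ε * H ^ (n + m + 2) := by
  obtain ⟨H₁, h₁⟩ := BF.reducible_small n (by omega) (ε / 3 / 3 ^ (m + 1)) (by positivity)
  obtain ⟨H₂, h₂⟩ := BF.reducible_small m (by omega) (ε / 3 / 3 ^ (n + 1)) (by positivity)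
  obtain ⟨H₃, h₃⟩ := exists_nat_ge (3 * 3 ^ (n + 2) / ε)
  refine ⟨H₁ + H₂ + H₃ + 1, fun H hH => ?_⟩
  have g1 := h₁ H (by omega)
  have g2 := h₂ H (by omega)
  have hH1 : (1 : ℝ) ≤ H := by exact_mod_cast (by omega : 1 ≤ H)
  have g3 : 3 * 3 ^ (n + 2) / ε ≤ (H : ℝ) := h₃.trans (by exact_mod_cast (by omega : H₃ ≤ H))
  have h3H : 2 * (H : ℝ) + 1 ≤ 3 * H := by linarith
  have hle : cnt n m (fun a b => ¬ Smooth a b) H ≤
      cnt n m (fun a _ => a 0 = 0 ∨ IsSquare (a 0) ∨ ¬ Irreducible (GZ ℚ a)) H +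
        (cnt n m (fun _ b => b 0 = 0 ∨ IsSquare (b 0) ∨ ¬ Irreducible (GZ ℚ b)) H +
          cnt n m Smth.Prop2 H) := by
    refine (cnt_mono H (fun a b _ _ h => Smth.cases_smooth a b h)).trans ?_
    refine (cnt_or _ _ H).trans ?_
    gcongr
    exact cnt_or _ _ H
  have k1 : (cnt n m (fun a _ => a 0 = 0 ∨ IsSquare (a 0) ∨ ¬ Irreducible (GZ ℚ a)) H : ℝ) ≤
      ε / 3 * H ^ (n + m + 2) := by
    rw [cnt_fst]
    calc _ ≤ (ε / 3 / 3 ^ (m + 1) * (H : ℝ) ^ (n + 1)) * (3 * (H : ℝ)) ^ (m + 1) := by gcongr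
      _ = ε / 3 * H ^ (n + m + 2) := by
          rw [mul_pow, show n + m + 2 = (n + 1) + (m + 1) by ring, pow_add (H : ℝ) (n + 1) (m + 1)]
          field_simp
  have k2 : (cnt n m (fun _ b => b 0 = 0 ∨ IsSquare (b 0) ∨ ¬ Irreducible (GZ ℚ b)) H : ℝ) ≤
      ε / 3 * H ^ (n + m + 2) := by
    rw [cnt_snd]
    calc _ ≤ (3 * (H : ℝ)) ^ (n + 1) * (ε / 3 / 3 ^ (n + 1) * (H : ℝ) ^ (m + 1)) := by gcongr
      _ = ε / 3 * H ^ (n + m + 2) := by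
          rw [mul_pow, show n + m + 2 = (n + 1) + (m + 1) by ring, pow_add (H : ℝ) (n + 1) (m + 1)]
          field_simp
  have k3 : (cnt n m Smth.Prop2 H : ℝ) ≤ ε / 3 * H ^ (n + m + 2) := by
    have e1 : (cnt n m Smth.Prop2 H : ℝ) ≤ (2 * (H : ℝ) + 1) ^ (n + 1) * (2 * (H : ℝ) + 1) := by
      exact_mod_cast Smth.cnt_prop2 n m H
    have e2 : 3 * 3 ^ (n + 2) ≤ ε * H := by
      rw [div_le_iff₀ hε] at g3
      linarith
    calc (cnt n m Smth.Prop2 H : ℝ) ≤ (2 * (H : ℝ) + 1) ^ (n + 1) * (2 * (H : ℝ) + 1) := e1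
      _ = (2 * (H : ℝ) + 1) ^ (n + 2) := by ring
      _ ≤ (3 * (H : ℝ)) ^ (n + 2) := by gcongr
      _ = (3 * 3 ^ (n + 2)) / 3 * (H : ℝ) ^ (n + 2) := by rw [mul_pow]; ring
      _ ≤ (ε * H) / 3 * (H : ℝ) ^ (n + 2) := by gcongr
      _ = ε / 3 * (H : ℝ) ^ (n + 3) := by ring
      _ ≤ ε / 3 * (H : ℝ) ^ (n + m + 2) := by
          refine mul_le_mul_of_nonneg_left ?_ (by positivity)
          exact pow_le_pow_right₀ hH1 (by omega)
  have k : (cnt n m (fun a b => ¬ Smooth a b) H : ℝ) ≤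
      (cnt n m (fun a _ => a 0 = 0 ∨ IsSquare (a 0) ∨ ¬ Irreducible (GZ ℚ a)) H : ℝ) +
        ((cnt n m (fun _ b => b 0 = 0 ∨ IsSquare (b 0) ∨ ¬ Irreducible (GZ ℚ b)) H : ℝ) +
          (cnt n m Smth.Prop2 H : ℝ)) := by exact_mod_cast hle
  linarith

end Stoll308.DQ
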