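import Pool.Agent.Work.MP_308fa9_nt.DQ.Basic
import Pool.Agent.Work.MP_308fa9_nt.SC.NormSq

set_option autoImplicit false

/-!
The norm of the class.
-/

namespace Stoll308.DQ

open Polynomial Finset Matrix BG BF SC

private lemma nsq_natDegree_le {R : Type*} [CommRing R] {n : ℕ} (a : Fin (n + 1) → ℤ) :
    (GZ R a).natDegree ≤ n := by
  refine natDegree_sum_le_of_forall_le _ _ fun i _ => ?_
  exact (natDegree_C_mul_X_pow_le _ _).trans (Nat.sub_le _ _)

private lemma nsq_coeff_top {R : Type*} [CommRing R] {n : ℕ} (a : Fin (n + 1) → ℤ) :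
    (GZ R a).coeff n = a 0 := by
  unfold GZ gpol
  rw [finsetSum_coeff, Finset.sum_eq_single 0]
  · simp
  · intro b _ hb
    have h1 : (b : ℕ) ≠ 0 := fun h => hb (Fin.ext h)
    have h2 := b.isLt
    rw [coeff_C_mul_X_pow, if_neg (by omega)]
  · intro h
    exact absurd (Finset.mem_univ _) h

private lemma nsq_mon_monic {K : Type*} [Field K] {n : ℕ} (a : Fin (n + 1) → ℤ)
    (h : (a 0 : K) ≠ 0) : (mon K a).Monic := by
  refine monic_of_natDegree_le_of_coeff_eq_one n ?_ ?_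
  · exact (natDegree_C_mul_le _ _).trans (nsq_natDegree_le a)
  · unfold mon
    rw [coeff_C_mul, nsq_coeff_top, inv_mul_cancel₀ h]

private lemma nsq_mon_natDegree {K : Type*} [Field K] {n : ℕ} (a : Fin (n + 1) → ℤ)
    (h : (a 0 : K) ≠ 0) : (mon K a).natDegree = n := by
  refine le_antisymm ((natDegree_C_mul_le _ _).trans (nsq_natDegree_le a)) ?_
  apply le_natDegree_of_ne_zero
  unfold mon
  rw [coeff_C_mul, nsq_coeff_top, inv_mul_cancel₀ h]
  exact one_ne_zero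

private lemma nsq_smul {K : Type*} [Field K] {n : ℕ} (F s : K[X]) (c : K) :
    mulMat n F (C c * s) = c • mulMat n F s := by
  ext i j
  have h5 : mulMat n F (C c * s) i j = ((C c * s * X ^ (i : ℕ)) %ₘ F).coeff (j : ℕ) := rfl
  have h6 : mulMat n F s i j = ((s * X ^ (i : ℕ)) %ₘ F).coeff (j : ℕ) := rfl
  rw [h5, Matrix.smul_apply, h6, mul_assoc, ← smul_eq_C_mul, smul_modByMonic, coeff_smul]

/-- `a₀ N(δ)` is a square. -/
theorem norm_sq {K : Type*} [Field K] {n : ℕ} (he : Even n) (a : Fin (n + 1) → ℤ)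
    (h0 : (a 0 : K) ≠ 0) (δ h : K[X]) (hc : Cls (GZ K a) δ h) :
    IsSquare ((a 0 : K) * (mulMat n (mon K a) δ).det) := by
  obtain ⟨hodd, hcop, ⟨r, hr⟩, s, hs, hdvd⟩ := hc
  set F : K[X] := mon K a with hF
  have hFm : F.Monic := nsq_mon_monic a h0
  have hFn : F.natDegree = n := nsq_mon_natDegree a h0
  have hFdef : F = C ((a 0 : K)⁻¹) * GZ K a := rfl
  have hC : IsUnit (C ((a 0 : K)⁻¹) : K[X]) := by
    rw [isUnit_C]
    exact (isUnit_iff_ne_zero).2 (inv_ne_zero h0)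
  have hFdvd : F ∣ GZ K a := by
    refine ⟨C (a 0 : K), ?_⟩
    rw [hFdef, mul_right_comm, ← C_mul, inv_mul_cancel₀ h0, C_1, one_mul]
  -- the monic multiple of `h`
  have hh0 : h ≠ 0 := by
    rintro rfl
    simp at hodd
  set l : K := h.leadingCoeff with hl
  have hl0 : l ≠ 0 := leadingCoeff_ne_zero.2 hh0
  set g : K[X] := C l⁻¹ * h with hg
  have hgm : g.Monic := by
    rw [Monic, hg, leadingCoeff_mul, leadingCoeff_C, ← hl, inv_mul_cancel₀ hl0]
  have hgh : h = C l * g := by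
    rw [hg, ← mul_assoc, ← C_mul, mul_inv_cancel₀ hl0, C_1, one_mul]
  have hgr : g ∣ GZ K a - r ^ 2 := by
    refine Dvd.dvd.trans ⟨C l, ?_⟩ hr
    rw [mul_comm]
    exact hgh
  have hgd : g.natDegree = h.natDegree := natDegree_C_mul (inv_ne_zero hl0)
  obtain ⟨m, hm⟩ : ∃ m, g.natDegree = m := ⟨_, rfl⟩
  rw [← hgd, hm] at hodd
  obtain ⟨j, hj⟩ := he
  -- the determinant of `δ s ^ 2`
  have e1 : mulMat n F (δ * s ^ 2) = mulMat n F (C l * g) := by
    apply HankL.mulMat_congr F _ _ hFm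
    rw [← hgh, ← neg_sub h, dvd_neg]
    exact hFdvd.trans hdvd
  have e2 : (mulMat n F δ).det * (mulMat n F s).det ^ 2 = l ^ n * (mulMat n F g).det := by
    have h1 := congrArg Matrix.det e1
    rw [HankL.mulMat_mul F _ _ hFm hFn, pow_two, HankL.mulMat_mul F _ _ hFm hFn, Matrix.det_mul,
      Matrix.det_mul, nsq_smul, Matrix.det_smul, Fintype.card_fin] at h1
    rw [pow_two]
    exact h1
  have e3 : (mulMat n F g).det = (mulMat m g F).det := by
    rw [det_mulMat_swap F g hFm hgm hFn hm, Even.neg_one_pow (Even.mul_right ⟨j, hj⟩ m), one_mul]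
  have e4 : (mulMat m g F).det = ((a 0 : K)⁻¹) ^ m * (mulMat m g r).det ^ 2 := by
    rw [hFdef, nsq_smul, Matrix.det_smul, Fintype.card_fin,
      HankL.mulMat_congr g (GZ K a) (r ^ 2) hgm hgr, pow_two r,
      HankL.mulMat_mul g _ _ hgm hm, Matrix.det_mul, pow_two]
  have hscop : IsCoprime s F := by
    rw [hFdef]
    exact (isCoprime_mul_unit_left_right hC _ _).2 hs
  have hsne : (mulMat n F s).det ≠ 0 := mulMat_det_ne_zero F s hFm hFn hscop
  obtain ⟨k, hk⟩ := hodd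
  refine ⟨l ^ j * (((a 0 : K)⁻¹) ^ k * (mulMat m g r).det) / (mulMat n F s).det, ?_⟩
  have e5 : (mulMat n F δ).det = l ^ n * (((a 0 : K)⁻¹) ^ m * (mulMat m g r).det ^ 2) /
      (mulMat n F s).det ^ 2 := by
    rw [eq_div_iff (pow_ne_zero 2 hsne), e2, e3, e4]
  have hu : (a 0 : K) * (a 0 : K)⁻¹ = 1 := mul_inv_cancel₀ h0
  have e6 : ((a 0 : K)⁻¹) ^ m = (((a 0 : K)⁻¹) ^ k) ^ 2 * (a 0 : K)⁻¹ := by
    rw [hk, pow_succ, pow_mul']
  have e8 : l ^ n = (l ^ j) ^ 2 := by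
    rw [hj, pow_two, pow_add]
  rw [e5, e6, e8]
  have e7 : (a 0 : K) * ((l ^ j) ^ 2 * ((((a 0 : K)⁻¹) ^ k) ^ 2 * (a 0 : K)⁻¹ *
      (mulMat m g r).det ^ 2) / (mulMat n F s).det ^ 2) =
      ((a 0 : K) * (a 0 : K)⁻¹) * ((l ^ j) ^ 2 * ((((a 0 : K)⁻¹) ^ k) ^ 2 *
        (mulMat m g r).det ^ 2) / (mulMat n F s).det ^ 2) := by ring
  rw [e7, hu]
  ring

end Stoll308.DQ
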