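import Pool.Agent.Work.MP_308fa9_nt.DQ.Basic
import Pool.Agent.Work.MP_308fa9_nt.SC.HPoly

set_option autoImplicit false

/-!
The local condition in terms of polynomials.
-/

namespace Stoll308.DQ

open Polynomial Finset Matrix BG BF SC

namespace PolyAux

lemma cls_of {K : Type*} [Field K] {f D h V s : K[X]} {c : K} (hc : c ≠ 0) (ho : Odd h.natDegree)
    (hcop : IsCoprime (h * V ^ 2) f) (hr : ∃ r, h ∣ f - r ^ 2)
    (hs : f ∣ C c * (h * V ^ 2) - D * s ^ 2) : Cls f (C c⁻¹ * D) h := by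
  have hC : C c⁻¹ * C c = (1 : K[X]) := by rw [← C_mul, inv_mul_cancel₀ hc, C_1]
  have hh : IsCoprime h f := hcop.of_mul_left_left
  have hV : IsCoprime V f := by
    rw [sq, ← mul_assoc] at hcop
    exact hcop.of_mul_left_right
  have hsf : IsCoprime s f := by
    obtain ⟨q, hq⟩ := hs
    have hcu : IsUnit (C c : K[X]) := isUnit_C.2 hc.isUnit
    have h1 : IsCoprime (C c * (h * V ^ 2)) f := (isCoprime_mul_unit_left_left hcu _ _).2 hcop
    have h2 : C c * (h * V ^ 2) = D * s ^ 2 + f * q := by rw [← hq]; ring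
    rw [h2] at h1
    have h3 := (IsCoprime.of_add_mul_left_left h1).of_mul_left_right
    rw [sq] at h3
    exact h3.of_mul_left_left
  obtain ⟨V', b, hb⟩ := hV
  refine ⟨ho, hh, hr, s * V', ?_, ?_⟩
  · exact hsf.mul_left ⟨V, b, by rw [mul_comm]; exact hb⟩
  · have h1 : h - C c⁻¹ * D * (s * V') ^ 2 =
        C c⁻¹ * V' ^ 2 * (C c * (h * V ^ 2) - D * s ^ 2) + h * (1 - V' * V) * (1 + V' * V) := by
      linear_combination (-(V' ^ 2 * (h * V ^ 2))) * hC
    have h2 : 1 - V' * V = b * f := by linear_combination (-1 : K[X]) * hb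
    rw [h1, h2]
    refine dvd_add (Dvd.dvd.mul_left hs _) ?_
    exact ⟨h * b * (1 + V' * V), by ring⟩

end PolyAux

open PolyAux in
theorem dloc_of_image {n m : ℕ} (a : Fin (n + 1) → ℤ) (b : Fin (m + 1) → ℤ) (δ ε : ℚ[X])
    (K : Type) [Field K] [Algebra ℚ K] (h : OddImage a b δ ε K) :
    DLoc (GZ K a) (GZ K b) (δ.map (algebraMap ℚ K)) (ε.map (algebraMap ℚ K)) := by
  have hc : CharZero K := algebraRat.charZero K
  obtain ⟨E, _, _, _, t, y, w, c, s, s', ho, hy, hw, hc0, he, he', hs, hs'⟩ := h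
  obtain ⟨f, hf⟩ : ∃ f : K[X], f = GZ K a := ⟨_, rfl⟩
  obtain ⟨q, hq⟩ : ∃ q : K[X], q = GZ K b := ⟨_, rfl⟩
  obtain ⟨χ, hχ⟩ : ∃ χ : K[X], χ = (LinearMap.mulLeft K t).charpoly := ⟨_, rfl⟩
  rw [← hf] at he hs
  rw [← hq] at he' hs'
  rw [← hχ] at hs hs'
  rw [← hf, ← hq]
  have hχm : χ.Monic := by rw [hχ]; exact LinearMap.charpoly_monic _
  have hcop : IsCoprime χ f := by
    rw [hχ]
    apply charpoly_coprime
    rw [← he]
    exact hy.pow 2
  have hcop' : IsCoprime χ q := by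
    rw [hχ]
    apply charpoly_coprime
    rw [← he']
    exact hw.pow 2
  obtain ⟨h', V, r, r', e1, e2, e3, e4, e5⟩ := exists_sqfree χ hχm f q (by
    intro π hπ hodd
    rw [hχ] at hodd
    exact ⟨sq_mod_odd t y f he π hπ hodd, sq_mod_odd t w q he' π hπ hodd⟩)
  have hodd : Odd h'.natDegree := by
    have h1 : χ.natDegree = Module.finrank K E := by
      rw [hχ, LinearMap.charpoly_natDegree]
    have h2 : χ.natDegree = h'.natDegree + 2 * V.natDegree := by
      rw [e3, e1.natDegree_mul (e2.pow 2), e2.natDegree_pow]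
    rw [← h1, h2] at ho
    obtain ⟨k, hk⟩ := ho
    rw [Nat.odd_iff]
    omega
  rw [e3] at hcop hcop' hs hs'
  exact ⟨h', c⁻¹, inv_ne_zero hc0, cls_of hc0 hodd hcop ⟨r, e4⟩ hs,
    cls_of hc0 hodd hcop' ⟨r', e5⟩ hs'⟩

end Stoll308.DQ
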