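import Pool.Agent.Work.MP_308fa9_nt.DQ.Basic
import Pool.Agent.Work.MP_308fa9_nt.BF.Rep

set_option autoImplicit false

/-!
The reduced pair.
-/

namespace Stoll308.DQ

open Polynomial Finset Matrix BG BF SC

theorem red_of_pair {n : ℕ} (hn : 4 ≤ n) (he : Even n) : ∃ K : ℝ, 1 ≤ K ∧
    ∀ a : Fin (n + 1) → ℤ, a 0 ≠ 0 → Irreducible (GZ ℚ a) → ∀ H : ℝ, (∀ i, |(a i : ℝ)| ≤ H) →
      ∀ δ : ℚ[X], IsCoprime δ (GZ ℚ a) →
      ∀ A₀ B₀ : Matrix (Fin n) (Fin n) ℤ, BF.IsPair a δ A₀ B₀ →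
      A₀.det = (-1) ^ (n / 2) * a 0 →
      ∃ (A B : Matrix (Fin n) (Fin n) ℤ) (t : Fin n → ℝ), BF.RPair K H a A B t ∧
        BF.IsPair a δ A B ∧ A.det = (-1) ^ (n / 2) * a 0 := by
  obtain ⟨K₀, hK₀, hred⟩ := red_basis n
  have hf1 : (1 : ℝ) ≤ n.factorial := by exact_mod_cast n.factorial_pos
  refine ⟨K₀ * (n + 1) * (2 ^ n * n.factorial), ?_, ?_⟩
  · have h1 : (1 : ℝ) ≤ n + 1 := by
      have : (0 : ℝ) ≤ n := Nat.cast_nonneg n
      linarith
    have h2 : (1 : ℝ) ≤ 2 ^ n := one_le_pow₀ (by norm_num)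
    exact one_le_mul_of_one_le_of_one_le (one_le_mul_of_one_le_of_one_le hK₀ h1)
      (one_le_mul_of_one_le_of_one_le h2 hf1)
  intro a h0 hF H hH δ hδ A₀ B₀ hpair hdet
  obtain ⟨P, hP, hPH, hPa, hPA, hPB⟩ := BF.majorant (by omega) a h0 hF δ hδ A₀ B₀ hpair hdet H hH
  obtain ⟨U, hU, hsort, hprod⟩ := hred P hP
  have hpair' := hpair.conj hU
  have hQact : U.map (Int.cast : ℤ → ℝ) * P * (U.map (Int.cast : ℤ → ℝ))ᵀ = act U P := rfl
  rw [hQact] at hsort hprod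
  have hQpd := act_posDef U P hU hP
  have hQdet := act_det U P hU
  set Q := act U P with hQ
  have hQii : ∀ i, Q i i = (fun j => ((U i j : ℤ) : ℝ)) ⬝ᵥ P *ᵥ (fun j => ((U i j : ℤ) : ℝ)) := by
    intro i
    exact act_diag U P i
  have hQpos : ∀ i, 0 < Q i i := fun i => hQpd.diag_pos
  have hdetA : (U * A₀ * Uᵀ).det = A₀.det := by
    rw [det_mul, det_mul, det_transpose]
    have h1 : U.det * U.det = 1 := by
      rcases Int.isUnit_iff.1 hU with h | h <;> rw [h] <;> norm_num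
    calc U.det * A₀.det * U.det = U.det * U.det * A₀.det := by ring
      _ = A₀.det := by rw [h1, one_mul]
  have hcastA : ∀ (A' : Matrix (Fin n) (Fin n) ℤ) (i j : Fin n),
      (((U * A' * Uᵀ) i j : ℤ) : ℝ) = (fun j => ((U i j : ℤ) : ℝ)) ⬝ᵥ
        (A'.map (Int.cast : ℤ → ℝ)) *ᵥ (fun k => ((U j k : ℤ) : ℝ)) := by
    intro A' i j
    rw [rep_conj_apply]
    simp only [dotProduct, mulVec, Matrix.map_apply]
    push_cast
    rfl
  have hsqP : (∏ i, √(Q i i)) ^ 2 = ∏ i, Q i i := by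
    rw [← Finset.prod_pow]
    exact Finset.prod_congr rfl fun i _ => Real.sq_sqrt (hQpos i).le
  have hPpos : 0 < P.det := hP.det_pos
  have hH0 : 0 ≤ H := (abs_nonneg _).trans (hH 0)
  have hn0 : (0 : ℝ) ≤ n := Nat.cast_nonneg n
  have h2f : (1 : ℝ) ≤ 2 ^ n * n.factorial :=
    one_le_mul_of_one_le_of_one_le (one_le_pow₀ (by norm_num)) hf1
  refine ⟨U * A₀ * Uᵀ, U * B₀ * Uᵀ, fun i => √(Q i i), ?_, hpair', by rw [hdetA, hdet]⟩
  · refine ⟨hpair'.symmA, hpair'.symmB, hpair'.hasChar h0 (by rw [hdetA, hdet]),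
      fun i => Real.sqrt_pos.2 (hQpos i), ?_, ?_, ?_, ?_, ?_⟩
    · intro i j
      rw [hcastA, ← Real.sqrt_mul (hQpos i).le]
      apply Real.abs_le_sqrt
      rw [hQii i, hQii j]
      exact hPA _ _
    · intro i j
      rw [hcastA, ← Real.sqrt_mul (hQpos i).le]
      apply Real.abs_le_sqrt
      rw [hQii i, hQii j]
      exact hPB _ _
    · intro i j hij
      exact Real.sqrt_le_sqrt (hsort i j hij)
    · rw [hsqP]
      calc ∏ i, Q i i ≤ K₀ * P.det := hprod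
        _ ≤ K₀ * ((n + 1) * H) := by gcongr
        _ = K₀ * (n + 1) * 1 * H := by ring
        _ ≤ K₀ * (n + 1) * (2 ^ n * n.factorial) * H := by gcongr
    · intro i
      rw [hsqP]
      have h3 : P.det ≤ (n.factorial : ℝ) * ∏ i, Q i i := by
        rw [← hQdet]
        exact det_le_prod Q hQpd
      have h4 : 0 < ∏ i, Q i i := Finset.prod_pos fun i _ => hQpos i
      calc |(a i : ℝ)| ≤ 2 ^ n * P.det := hPa i
        _ ≤ 2 ^ n * ((n.factorial : ℝ) * ∏ i, Q i i) := by gcongr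
        _ = 1 * (2 ^ n * n.factorial) * ∏ i, Q i i := by ring
        _ ≤ K₀ * (n + 1) * (2 ^ n * n.factorial) * ∏ i, Q i i := by
            gcongr
            exact one_le_mul_of_one_le_of_one_le hK₀ (by linarith)

end Stoll308.DQ
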