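import Pool.Agent.Work.MP_308fa9_nt.DQ.Basic
import Pool.Agent.Work.MP_308fa9_nt.SC.MaxLat

set_option autoImplicit false

/-!
The class of a prime is not good at a good prime.
-/

namespace Stoll308.DQ

open Polynomial Finset Matrix BG BF SC

namespace NotGood

open SelfDual

variable {p : ℕ} [hp : Fact p.Prime] {n : ℕ}

/-- scaling of a vector which is not integral -/
lemma exists_scale (v : Fin n → ℚ_[p]) (h : ¬ ∀ i, ‖v i‖ ≤ 1) :
    ∃ k : ℕ, 1 ≤ k ∧ (∀ i, ‖(p : ℚ_[p]) ^ k * v i‖ ≤ 1) ∧ ∃ i, ‖(p : ℚ_[p]) ^ k * v i‖ = 1 := by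
  push Not at h
  obtain ⟨i₁, hi₁⟩ := h
  haveI : Nonempty (Fin n) := ⟨i₁⟩
  obtain ⟨i₀, hi₀⟩ := Finite.exists_max (fun i => ‖v i‖)
  have h1 : 1 < ‖v i₀‖ := hi₁.trans_le (hi₀ i₁)
  have hne : v i₀ ≠ 0 := by
    intro h0
    rw [h0, norm_zero] at h1
    linarith
  have hp1 : (1 : ℝ) < p := by exact_mod_cast hp.out.one_lt
  have hp0 : (0 : ℝ) < p := by linarith
  have h2 := Padic.norm_eq_zpow_neg_valuation hne
  have h3 : (v i₀).valuation < 0 := by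
    by_contra hcon
    push Not at hcon
    have h4 : ((p : ℝ)) ^ (-(v i₀).valuation) ≤ 1 := by
      apply zpow_le_one_of_nonpos₀ hp1.le
      omega
    rw [← h2] at h4
    linarith
  obtain ⟨k, hk⟩ := Int.eq_ofNat_of_zero_le (show 0 ≤ -(v i₀).valuation by omega)
  have hk1 : 1 ≤ k := by omega
  have h5 : ‖(p : ℚ_[p]) ^ k‖ * ‖v i₀‖ = 1 := by
    rw [h2, hk, Padic.norm_p_pow, _root_.zpow_neg, inv_mul_cancel₀]
    exact zpow_ne_zero _ hp0.ne'
  refine ⟨k, hk1, ?_, i₀, ?_⟩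
  · intro i
    rw [norm_mul, ← h5]
    exact mul_le_mul_of_nonneg_left (hi₀ i) (norm_nonneg _)
  · rw [norm_mul, h5]

lemma row_int (g δ : ℤ_[p][X]) (hg : g.Monic) (hgn : g.natDegree = n)
    (hsq : Squarefree (g.map (PadicInt.toZMod : ℤ_[p] →+* ZMod p))) (hδ : IsCoprime δ g)
    (v : Fin n → ℚ_[p])
    (h : ∀ k : ℕ, ‖HankL.tau n (toQ g) (X ^ k * (C (p : ℚ_[p]) * toQ δ) * P v * P v)‖ ≤ 1) :
    ∀ i, ‖v i‖ ≤ 1 := by
  have hG : (toQ g).Monic := hg.map _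
  have hGn : (toQ g).natDegree = n := by rw [hg.natDegree_map, hgn]
  -- the class of `p δ λ²` is integral
  obtain ⟨w, hw⟩ := exists_vec (n := n) (toQ g) hG hGn (C (p : ℚ_[p]) * toQ δ * P v * P v)
  have hwint : ∀ i, ‖w i‖ ≤ 1 := by
    apply int_of_tau g hg hgn w
    intro i
    have h1 : HankL.tau n (toQ g) (P w * X ^ (i : ℕ)) =
        HankL.tau n (toQ g) (X ^ (i : ℕ) * (C (p : ℚ_[p]) * toQ δ) * P v * P v) := by
      apply tau_congr _ _ _ hG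
      have h2 := Dvd.dvd.mul_left hw (X ^ (i : ℕ))
      convert h2 using 1
      ring
    rw [h1]
    exact h i
  obtain ⟨z, hz⟩ := MaxLat.exists_int w hwint
  obtain ⟨A, B, hAB⟩ := hδ
  have hABQ : toQ A * toQ δ + toQ B * toQ g = 1 := by
    have := congrArg toQ hAB
    simpa only [toQ, Polynomial.map_mul, Polynomial.map_add, Polynomial.map_one] using this
  have h1 : toQ g ∣ toQ (A * P z) - C (p : ℚ_[p]) * P v ^ 2 := by
    rw [hz] at hw
    obtain ⟨s, hs⟩ := hw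
    have e1 : toQ (A * P z) = toQ A * toQ (P z) := by
      simp only [toQ, Polynomial.map_mul]
    refine ⟨toQ A * s - C (p : ℚ_[p]) * P v ^ 2 * toQ B, ?_⟩
    rw [e1]
    linear_combination (toQ A) * hs + (C (p : ℚ_[p]) * P v ^ 2) * hABQ
  by_contra hcon
  obtain ⟨k, hk1, hk2, i₀, hi₀⟩ := exists_scale v hcon
  have hp0 : (p : ℚ_[p]) ≠ 0 := by exact_mod_cast hp.out.ne_zero
  obtain ⟨l, hl⟩ := MaxLat.exists_int (p := p) ((p : ℚ_[p]) ^ k • v) (fun i => hk2 i)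
  rw [MaxLat.P_smul] at hl
  -- `λ'² = p^(2k-1) μ` modulo `g`
  have h2 : toQ g ∣ toQ (P l ^ 2 - C (p : ℤ_[p]) ^ (2 * k - 1) * (A * P z)) := by
    have e1 : toQ (P l ^ 2 - C (p : ℤ_[p]) ^ (2 * k - 1) * (A * P z)) =
        (C ((p : ℚ_[p]) ^ k) * P v) ^ 2 - C ((p : ℚ_[p]) ^ (2 * k - 1)) * toQ (A * P z) := by
      rw [hl]
      simp only [toQ, Polynomial.map_mul, Polynomial.map_sub, Polynomial.map_pow,
        Polynomial.map_natCast, map_natCast, C_pow]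
    have e2 : (C ((p : ℚ_[p]) ^ k) * P v) ^ 2 - C ((p : ℚ_[p]) ^ (2 * k - 1)) * toQ (A * P z) =
        -(C ((p : ℚ_[p]) ^ (2 * k - 1)) * (toQ (A * P z) - C (p : ℚ_[p]) * P v ^ 2)) := by
      have e3 : (p : ℚ_[p]) ^ (2 * k - 1) * p = (p ^ k) ^ 2 := by
        rw [← pow_succ, ← pow_mul]
        congr 1
        omega
      have e4 : C ((p : ℚ_[p]) ^ (2 * k - 1)) * C (p : ℚ_[p]) = C ((p : ℚ_[p]) ^ k) ^ 2 := by
        rw [← C_mul, e3, C_pow]
      linear_combination (-(P v ^ 2)) * e4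
    rw [e1, e2]
    exact (Dvd.dvd.mul_left h1 _).neg_right
  have h3 : g ∣ P l ^ 2 - C (p : ℤ_[p]) ^ (2 * k - 1) * (A * P z) :=
    (map_dvd_map (algebraMap ℤ_[p] ℚ_[p]) (IsFractionRing.injective ℤ_[p] ℚ_[p]) hg).1 h2
  set φ : ℤ_[p] →+* ZMod p := PadicInt.toZMod with hφ
  have h4 : g.map φ ∣ (P l).map φ ^ 2 := by
    have h5 := Polynomial.map_dvd φ h3
    rw [Polynomial.map_sub, Polynomial.map_pow, Polynomial.map_mul, Polynomial.map_pow, map_C,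
      map_natCast, CharP.cast_eq_zero, C_0, zero_pow (by omega), zero_mul, sub_zero] at h5
    exact h5
  have h5 : g.map φ ∣ (P l).map φ := (hsq.dvd_pow_iff_dvd two_ne_zero).1 h4
  have h6 : (P l).map φ = 0 := by
    apply Polynomial.eq_zero_of_dvd_of_degree_lt h5
    have h7 : (g.map φ).degree = n := by
      rw [hg.degree_map, degree_eq_natDegree hg.ne_zero, hgn]
    rw [h7]
    exact (degree_map_le).trans_lt (P_degree l)
  have h7 : φ (l i₀) = 0 := by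
    have := congrArg (fun q : (ZMod p)[X] => q.coeff (i₀ : ℕ)) h6
    simp only [coeff_map, coeff_zero] at this
    rwa [P_coeff] at this
  have h8 : ‖l i₀‖ = 1 := by
    have h9 := congrArg (fun q : ℚ_[p][X] => q.coeff (i₀ : ℕ)) hl
    simp only [coeff_C_mul, toQ, coeff_map] at h9
    rw [P_coeff, P_coeff] at h9
    have h10 : ‖(algebraMap ℤ_[p] ℚ_[p] (l i₀))‖ = 1 := by
      rw [← h9]
      exact hi₀
    exact h10
  have h9 : IsUnit (l i₀) := PadicInt.isUnit_iff.2 h8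
  exact (h9.map φ).ne_zero h7

end NotGood

open NotGood SelfDual in
/-- At an unramified prime, `p` times a unit has no self-dual lattice. -/
theorem not_good {n : ℕ} (hn : 1 ≤ n) (p : ℕ) [Fact p.Prime] (g : ℤ_[p][X]) (hg : g.Monic)
    (hgn : g.natDegree = n) (hsq : Squarefree (g.map (PadicInt.toZMod : ℤ_[p] →+* ZMod p)))
    (δ : ℤ_[p][X]) (hδ : IsCoprime δ g) : ¬ Good p n (toQ g) (C (p : ℚ_[p]) * toQ δ) := by
  rintro ⟨G, hG0, hG1, hG2⟩
  have hint : ∀ i j, ‖G i j‖ ≤ 1 := by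
    intro i
    apply row_int g δ hg hgn hsq hδ (G i)
    intro k
    have h1 := hG1 k i i
    rw [conj_apply, dot] at h1
    exact h1
  have hex : ∀ i j, ∃ z : ℤ_[p], G i j = algebraMap ℤ_[p] ℚ_[p] z :=
    fun i j => ⟨⟨G i j, hint i j⟩, rfl⟩
  choose Z hZ using hex
  have hGZ : G = (Matrix.of Z).map (algebraMap ℤ_[p] ℚ_[p]) := by
    ext i j
    rw [Matrix.map_apply, Matrix.of_apply, ← hZ]
  have hGd : ‖G.det‖ ≤ 1 := by
    have h1 : G.det = algebraMap ℤ_[p] ℚ_[p] (Matrix.of Z).det := by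
      rw [hGZ, RingHom.map_det, RingHom.mapMatrix_apply]
    rw [h1]
    exact PadicInt.norm_le_one _
  have hS : Hank n (toQ g) (C (p : ℚ_[p]) * toQ δ) =
      (p : ℚ_[p]) • (Hank n g δ).map (algebraMap ℤ_[p] ℚ_[p]) := by
    rw [← hank_map (n := n) (algebraMap ℤ_[p] ℚ_[p]) g δ hg]
    exact hank_smul _ _ _ _
  have hSd : ‖(Hank n (toQ g) (C (p : ℚ_[p]) * toQ δ)).det‖ ≤ ‖(p : ℚ_[p])‖ := by
    rw [hS, Matrix.det_smul, Fintype.card_fin, norm_mul, norm_pow]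
    have h1 : ((Hank n g δ).map (algebraMap ℤ_[p] ℚ_[p])).det =
        algebraMap ℤ_[p] ℚ_[p] (Hank n g δ).det := by
      rw [RingHom.map_det, RingHom.mapMatrix_apply]
    rw [h1]
    have h2 : ‖algebraMap ℤ_[p] ℚ_[p] (Hank n g δ).det‖ ≤ 1 := PadicInt.norm_le_one _
    have h3 : ‖(p : ℚ_[p])‖ ^ n ≤ ‖(p : ℚ_[p])‖ :=
      pow_le_of_le_one (norm_nonneg _) Padic.norm_p_lt_one.le (by omega)
    calc ‖(p : ℚ_[p])‖ ^ n * ‖algebraMap ℤ_[p] ℚ_[p] (Hank n g δ).det‖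
        ≤ ‖(p : ℚ_[p])‖ * 1 := mul_le_mul h3 h2 (norm_nonneg _) (norm_nonneg _)
      _ = ‖(p : ℚ_[p])‖ := mul_one _
  rw [det_mul, det_mul, det_transpose, norm_mul, norm_mul] at hG2
  have h4 : ‖G.det‖ * ‖(Hank n (toQ g) (C (p : ℚ_[p]) * toQ δ)).det‖ * ‖G.det‖ ≤
      1 * ‖(p : ℚ_[p])‖ * 1 := by
    gcongr
  have h5 : ‖(p : ℚ_[p])‖ < 1 := Padic.norm_p_lt_one
  rw [hG2] at h4
  linarith

end Stoll308.DQ
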