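import Pool.Agent.Work.MP_308fa9_nt.DQ.LocUnit
import Pool.Agent.Work.MP_308fa9_nt.DQ.NotGood

set_option autoImplicit false

/-!
The global scalar.
-/

namespace Stoll308.DQ

open Polynomial Finset Matrix BG BF SC

section cls

variable {K : Type*} [Field K] {f δ h : K[X]}

lemma sc_isUnit_C {u : K} (hu : u ≠ 0) : IsUnit (C u) := isUnit_C.2 (isUnit_iff_ne_zero.2 hu)

lemma Cls.const_mul (hc : Cls f δ h) {u : K} (hu : u ≠ 0) : Cls f (C u * δ) (C u * h) := by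
  obtain ⟨h1, h2, ⟨r, h3⟩, s, h4, h5⟩ := hc
  refine ⟨?_, ?_, ⟨r, ?_⟩, s, h4, ?_⟩
  · rwa [natDegree_C_mul hu]
  · exact (isCoprime_mul_unit_left_left (sc_isUnit_C hu) h f).2 h2
  · exact (IsUnit.mul_left_dvd (sc_isUnit_C hu)).2 h3
  · have e : C u * h - C u * δ * s ^ 2 = C u * (h - δ * s ^ 2) := by ring
    rw [e]
    exact h5.mul_left _

lemma Cls.sq_mul (hc : Cls f δ h) {u : K} (hu : u ≠ 0) : Cls f (C (u ^ 2) * δ) h := by
  obtain ⟨h1, h2, h3, s, h4, h5⟩ := hc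
  refine ⟨h1, h2, h3, C u⁻¹ * s, ?_, ?_⟩
  · exact (isCoprime_mul_unit_left_left (sc_isUnit_C (inv_ne_zero hu)) s f).2 h4
  · have e0 : C u * C u⁻¹ = (1 : K[X]) := by rw [← C_mul, mul_inv_cancel₀ hu, C_1]
    have e : C (u ^ 2) * δ * (C u⁻¹ * s) ^ 2 = δ * s ^ 2 := by
      rw [C_pow]
      linear_combination (C u * C u⁻¹ + 1) * δ * s ^ 2 * e0
    rw [e]
    exact h5

/-- Remove the factor `v² u`. -/
lemma Cls.red {c v u w : K} (hc : Cls f (C c * δ) h) (hv : v ≠ 0) (hu : u ≠ 0)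
    (e : c = v ^ 2 * (u * w)) : Cls f (C w * δ) (C u⁻¹ * h) := by
  have h1 := (hc.sq_mul (inv_ne_zero hv)).const_mul (inv_ne_zero hu)
  have e1 : C u⁻¹ * (C (v⁻¹ ^ 2) * (C c * δ)) = C w * δ := by
    rw [← mul_assoc, ← mul_assoc, ← C_mul, ← C_mul]
    congr 2
    rw [e]
    field_simp
  rwa [e1] at h1

end cls

theorem ULoc.unit_mul {p : ℕ} [Fact p.Prime] {f q δ ε : ℚ_[p][X]} (h : ULoc p f q δ ε)
    (u : ℚ_[p]) (hu : ‖u‖ = 1) : ULoc p f q (C u * δ) (C u * ε) := by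
  have hu0 : u ≠ 0 := by
    rintro rfl
    rw [norm_zero] at hu
    exact zero_ne_one hu
  obtain ⟨h, h1, h2, h3⟩ := h
  exact ⟨C u * h, h1.unit_mul u hu, h2.const_mul hu0, h3.const_mul hu0⟩

theorem ULoc.sq_mul {p : ℕ} [Fact p.Prime] {f q δ ε : ℚ_[p][X]} (h : ULoc p f q δ ε)
    (u : ℚ_[p]) (hu : u ≠ 0) : ULoc p f q (C (u ^ 2) * δ) (C (u ^ 2) * ε) := by
  obtain ⟨h, h1, h2, h3⟩ := h
  exact ⟨h, h1, h2.sq_mul hu, h3.sq_mul hu⟩

/-- A `p`-adic number is a unit times a power of `p`. -/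
lemma sc_exists_unit {p : ℕ} [hp : Fact p.Prime] {c : ℚ_[p]} (hc : c ≠ 0) :
    ∃ (j : ℤ) (u : ℚ_[p]), ‖u‖ = 1 ∧ c = (p : ℚ_[p]) ^ j * u := by
  have hp0 : (p : ℚ_[p]) ≠ 0 := by
    exact_mod_cast hp.out.ne_zero
  have hpR : (p : ℝ) ≠ 0 := by
    exact_mod_cast hp.out.ne_zero
  have hj := Padic.norm_eq_zpow_neg_valuation hc
  set j : ℤ := c.valuation
  refine ⟨j, (p : ℚ_[p]) ^ (-j) * c, ?_, ?_⟩
  · rw [norm_mul, hj, norm_zpow, Padic.norm_p, _root_.inv_zpow, _root_.zpow_neg, inv_inv]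
    exact mul_inv_cancel₀ (zpow_ne_zero _ hpR)
  · rw [← mul_assoc, ← zpow_add₀ hp0, add_neg_cancel, zpow_zero, one_mul]

theorem uloc_or (p : ℕ) [Fact p.Prime] (f q δ ε : ℚ_[p][X]) (hf : 0 < f.natDegree)
    (h : DLoc f q δ ε) :
    ULoc p f q δ ε ∨ ULoc p f q (C (p : ℚ_[p]) * δ) (C (p : ℚ_[p]) * ε) := by
  have _ := hf
  obtain ⟨h, c, hc, h1, h2⟩ := h
  have hh0 : h ≠ 0 := by
    rintro rfl
    have := h1.1
    rw [natDegree_zero] at this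
    exact absurd this (by decide)
  have hp0 : (p : ℚ_[p]) ≠ 0 := by
    have hp : p.Prime := Fact.out
    exact_mod_cast hp.ne_zero
  obtain ⟨k, hk⟩ := exists_prim p h hh0
  have hk0 : (p : ℚ_[p]) ^ k ≠ 0 := zpow_ne_zero _ hp0
  have h1' := h1.const_mul hk0
  have h2' := h2.const_mul hk0
  rw [← mul_assoc, ← C_mul] at h1' h2'
  obtain ⟨j, u, hu, hj⟩ := sc_exists_unit (mul_ne_zero hk0 hc)
  have hu0 : u ≠ 0 := by
    rintro rfl
    rw [norm_zero] at hu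
    exact zero_ne_one hu
  have hui : ‖u⁻¹‖ = 1 := by rw [norm_inv, hu, inv_one]
  rcases Int.even_or_odd' j with ⟨i, hi | hi⟩
  · left
    have e : (p : ℚ_[p]) ^ k * c = ((p : ℚ_[p]) ^ i) ^ 2 * (u * 1) := by
      rw [hj, hi, mul_one, ← zpow_natCast, ← _root_.zpow_mul, mul_comm i]
      rfl
    have hi0 : (p : ℚ_[p]) ^ i ≠ 0 := zpow_ne_zero _ hp0
    have h3 := h1'.red hi0 hu0 e
    have h4 := h2'.red hi0 hu0 e
    rw [C_1, one_mul] at h3 h4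
    exact ⟨_, hk.unit_mul _ hui, h3, h4⟩
  · right
    have e : (p : ℚ_[p]) ^ k * c = ((p : ℚ_[p]) ^ i) ^ 2 * (u * p) := by
      rw [hj, hi, zpow_add₀ hp0, zpow_one, ← zpow_natCast, ← _root_.zpow_mul, mul_comm i]
      push_cast
      ring
    have hi0 : (p : ℚ_[p]) ^ i ≠ 0 := zpow_ne_zero _ hp0
    exact ⟨_, hk.unit_mul _ hui, h1'.red hi0 hu0 e, h2'.red hi0 hu0 e⟩

/-- An integral multiple of a polynomial with rational coefficients. -/
lemma sc_exists_int (P : ℚ[X]) :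
    ∃ (N : ℤ) (P' : ℤ[X]), N ≠ 0 ∧ P'.map (Int.castRingHom ℚ) = C (N : ℚ) * P := by
  obtain ⟨b, hb1, hb⟩ := IsLocalization.integerNormalization_spec (nonZeroDivisors ℤ) P
  refine ⟨b, IsLocalization.integerNormalization (nonZeroDivisors ℤ) P,
    nonZeroDivisors.ne_zero hb1, ?_⟩
  rw [show Int.castRingHom ℚ = algebraMap ℤ ℚ from rfl, hb]
  rw [← Polynomial.smul_eq_C_mul]
  ext i
  simp

/-- Clear the denominators of a Bezout identity. -/
lemma sc_bezout (A B : ℤ[X]) (h : IsCoprime (A.map (Int.castRingHom ℚ)) (B.map (Int.castRingHom ℚ))) :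
    ∃ (N : ℤ) (U V : ℤ[X]), N ≠ 0 ∧ U * A + V * B = C N := by
  obtain ⟨u, v, huv⟩ := h
  obtain ⟨N1, U, h1, hU⟩ := sc_exists_int u
  obtain ⟨N2, V, h2, hV⟩ := sc_exists_int v
  refine ⟨N1 * N2, C N2 * U, C N1 * V, mul_ne_zero h1 h2, ?_⟩
  apply map_injective (Int.castRingHom ℚ) (Int.castRingHom ℚ).injective_int
  have e1 : (Int.castRingHom ℚ) (N1 * N2) = (N1 : ℚ) * N2 := by simp
  rw [Polynomial.map_add, Polynomial.map_mul, Polynomial.map_mul, Polynomial.map_mul,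
    Polynomial.map_mul, map_C, map_C, map_C, hU, hV, e1, C_mul, eq_intCast, eq_intCast]
  linear_combination C (N1 : ℚ) * C (N2 : ℚ) * huv

/-- For almost all `p` the class of `p δ` is impossible. -/
theorem exists_bad_primes {n : ℕ} (hn : 2 ≤ n) (a : Fin (n + 1) → ℤ) (h0 : a 0 ≠ 0)
    (hF : Irreducible (GZ ℚ a)) (δ : ℚ[X]) (hδ : IsCoprime δ (GZ ℚ a)) :
    ∃ S : Finset ℕ, ∀ (p : ℕ) [Fact p.Prime], p ∉ S →
      ∀ h : ℚ_[p][X], Prim p h →
        ¬ Cls (GZ ℚ_[p] a) (C (p : ℚ_[p]) * δ.map (algebraMap ℚ ℚ_[p])) h := by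
  have hsep : (GZ ℚ a).Separable := hF.separable
  have hmapQ : (GZ ℤ a).map (Int.castRingHom ℚ) = GZ ℚ a := BF.LocLat.GZ_map _ a
  -- the identity for the discriminant
  obtain ⟨N1, U, V, hN1, hUV⟩ := sc_bezout (GZ ℤ a) (derivative (GZ ℤ a)) (by
    rw [← derivative_map, hmapQ]
    exact hsep)
  obtain ⟨N2, D, hN2, hD⟩ := sc_exists_int δ
  have hN2Q : (N2 : ℚ) ≠ 0 := by exact_mod_cast hN2
  obtain ⟨N3, U', V', hN3, hUV'⟩ := sc_bezout D (GZ ℤ a) (by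
    rw [hD, hmapQ]
    exact (isCoprime_mul_unit_left_left (sc_isUnit_C hN2Q) _ _).2 hδ)
  set M : ℤ := 2 * a 0 * N1 * N2 * N3 with hM
  have hM0 : M ≠ 0 := by
    rw [hM]
    exact mul_ne_zero (mul_ne_zero (mul_ne_zero (mul_ne_zero two_ne_zero h0) hN1) hN2) hN3
  refine ⟨M.natAbs.primeFactors, fun p hp hpS h hprim hcls => ?_⟩
  have hpp : p.Prime := hp.out
  have hpM : ¬ (p : ℤ) ∣ M := by
    intro hd
    apply hpS
    rw [Nat.mem_primeFactors]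
    exact ⟨hpp, Int.natCast_dvd.1 hd, Int.natAbs_ne_zero.2 hM0⟩
  have hp2 : p ≠ 2 := by
    rintro rfl
    apply hpM
    rw [hM]
    exact Dvd.dvd.mul_right (Dvd.dvd.mul_right (Dvd.dvd.mul_right (Dvd.dvd.mul_right
      (by norm_num) _) _) _) _
  have hpa : ¬ (p : ℤ) ∣ a 0 := fun hd => hpM (by
    rw [hM]
    exact Dvd.dvd.mul_right (Dvd.dvd.mul_right (Dvd.dvd.mul_right (Dvd.dvd.mul_left hd _) _) _) _)
  have hpN1 : ¬ (p : ℤ) ∣ N1 := fun hd => hpM (by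
    rw [hM]
    exact Dvd.dvd.mul_right (Dvd.dvd.mul_right (Dvd.dvd.mul_left hd _) _) _)
  have hpN2 : ¬ (p : ℤ) ∣ N2 := fun hd => hpM (by
    rw [hM]
    exact Dvd.dvd.mul_right (Dvd.dvd.mul_left hd _) _)
  have hpN3 : ¬ (p : ℤ) ∣ N3 := fun hd => hpM (by
    rw [hM]
    exact Dvd.dvd.mul_left hd _)
  have hunit : ∀ N : ℤ, ¬ (p : ℤ) ∣ N → IsUnit (N : ℤ_[p]) := by
    intro N hN
    rw [PadicInt.isUnit_iff, PadicInt.norm_def]
    have := norm_int_eq_one hN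
    exact_mod_cast this
  obtain ⟨g, c, hc, hg, hgn, hgm, hgf⟩ := exists_mon p a hpa
  have hFp : C c * g = (GZ ℤ a).map (Int.castRingHom ℤ_[p]) := by
    apply Core.toQ_inj
    rw [hgf]
    unfold toQ
    rw [Polynomial.map_map, BF.LocLat.GZ_map]
  -- squarefree modulo `p`
  have hsq : Squarefree (g.map (PadicInt.toZMod : ℤ_[p] →+* ZMod p)) := by
    have hdvd : g.map (PadicInt.toZMod : ℤ_[p] →+* ZMod p) ∣
        (GZ ℤ a).map (Int.castRingHom (ZMod p)) := by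
      refine ⟨C ((PadicInt.toZMod : ℤ_[p] →+* ZMod p) c), ?_⟩
      have h1 := congrArg (Polynomial.map (PadicInt.toZMod : ℤ_[p] →+* ZMod p)) hFp
      rw [Polynomial.map_mul, map_C, Polynomial.map_map] at h1
      rw [mul_comm, h1]
      congr 1
      exact RingHom.ext_int _ _
    refine Squarefree.squarefree_of_dvd hdvd ?_
    apply Polynomial.Separable.squarefree
    have h1 := congrArg (Polynomial.map (Int.castRingHom (ZMod p))) hUV
    rw [Polynomial.map_add, Polynomial.map_mul, Polynomial.map_mul, map_C, ← derivative_map] at h1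
    have h2 : (Int.castRingHom (ZMod p)) N1 ≠ 0 := by
      rw [eq_intCast, Ne, ZMod.intCast_zmod_eq_zero_iff_dvd]
      exact hpN1
    refine ⟨C ((Int.castRingHom (ZMod p)) N1)⁻¹ * U.map (Int.castRingHom (ZMod p)),
      C ((Int.castRingHom (ZMod p)) N1)⁻¹ * V.map (Int.castRingHom (ZMod p)), ?_⟩
    have h3 : C ((Int.castRingHom (ZMod p)) N1)⁻¹ * C ((Int.castRingHom (ZMod p)) N1) =
        (1 : (ZMod p)[X]) := by
      rw [← C_mul, inv_mul_cancel₀ h2, C_1]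
    linear_combination C ((Int.castRingHom (ZMod p)) N1)⁻¹ * h1 + h3
  -- `δ` over `ℤ_p`
  obtain ⟨w2, hw2⟩ := (hunit N2 hpN2).exists_left_inv
  obtain ⟨w3, hw3⟩ := (hunit N3 hpN3).exists_left_inv
  set δ' : ℤ_[p][X] := C w2 * D.map (Int.castRingHom ℤ_[p]) with hδ'
  have hD' : D.map (Int.castRingHom ℤ_[p]) = C (N2 : ℤ_[p]) * δ' := by
    rw [hδ', ← mul_assoc, ← C_mul, mul_comm (N2 : ℤ_[p]), hw2, C_1, one_mul]
  have hδQ : toQ δ' = δ.map (algebraMap ℚ ℚ_[p]) := by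
    have h1 : toQ (D.map (Int.castRingHom ℤ_[p])) =
        C (N2 : ℚ_[p]) * δ.map (algebraMap ℚ ℚ_[p]) := by
      have h2 := congrArg (Polynomial.map (algebraMap ℚ ℚ_[p])) hD
      rw [Polynomial.map_mul, map_C, Polynomial.map_map, map_intCast] at h2
      rw [← h2]
      unfold toQ
      rw [Polynomial.map_map]
      congr 1
    have h2 : (N2 : ℚ_[p]) ≠ 0 := by exact_mod_cast hN2
    have h3 : toQ (D.map (Int.castRingHom ℤ_[p])) = C (N2 : ℚ_[p]) * toQ δ' := by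
      rw [hD']
      unfold toQ
      rw [Polynomial.map_mul, map_C, map_intCast]
    rw [h3] at h1
    exact mul_left_cancel₀ (by rwa [Ne, C_eq_zero]) h1
  have hcop : IsCoprime δ' g := by
    have h1 := congrArg (Polynomial.map (Int.castRingHom ℤ_[p])) hUV'
    rw [Polynomial.map_add, Polynomial.map_mul, Polynomial.map_mul, map_C, hD', ← hFp,
      eq_intCast] at h1
    refine ⟨C w3 * U'.map (Int.castRingHom ℤ_[p]) * C (N2 : ℤ_[p]),
      C w3 * V'.map (Int.castRingHom ℤ_[p]) * C c, ?_⟩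
    have h3 : C w3 * C (N3 : ℤ_[p]) = (1 : ℤ_[p][X]) := by
      rw [← C_mul, hw3, C_1]
    linear_combination C w3 * h1 + h3
  have hgood := good_unit hn p hp2 a hpa _ h hprim hcls
  rw [← hδQ, ← hgm] at hgood
  exact not_good (by omega) p g hg hgn hsq δ' hcop hgood

theorem exists_scale {n m : ℕ} (hn : 2 ≤ n) (a : Fin (n + 1) → ℤ) (b : Fin (m + 1) → ℤ)
    (h0 : a 0 ≠ 0) (hF : Irreducible (GZ ℚ a)) (δ ε : ℚ[X]) (hδ : IsCoprime δ (GZ ℚ a))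
    (hloc : ∀ (p : ℕ) [Fact p.Prime], p ≠ 2 → DLoc (GZ ℚ_[p] a) (GZ ℚ_[p] b)
      (δ.map (algebraMap ℚ ℚ_[p])) (ε.map (algebraMap ℚ ℚ_[p]))) :
    ∃ κ : ℚ, κ ≠ 0 ∧ ∀ (p : ℕ) [Fact p.Prime], p ≠ 2 → ULoc p (GZ ℚ_[p] a) (GZ ℚ_[p] b)
      ((C κ * δ).map (algebraMap ℚ ℚ_[p])) ((C κ * ε).map (algebraMap ℚ ℚ_[p])) := by
  classical
  obtain ⟨S, hS⟩ := exists_bad_primes hn a h0 hF δ hδ
  set T : Finset ℕ := S.filter fun p => ∃ hp : Fact p.Prime, p ≠ 2 ∧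
    ¬ ULoc p (GZ ℚ_[p] a) (GZ ℚ_[p] b) (δ.map (algebraMap ℚ ℚ_[p]))
      (ε.map (algebraMap ℚ ℚ_[p])) with hT
  have hTp : ∀ p ∈ T, p.Prime := by
    intro p hp
    rw [hT, mem_filter] at hp
    obtain ⟨-, ⟨hp⟩, -⟩ := hp
    exact hp
  have hunit : ∀ (p : ℕ) [Fact p.Prime] (R : Finset ℕ), (∀ l ∈ R, l.Prime) → p ∉ R →
      ‖((∏ l ∈ R, (l : ℚ) : ℚ) : ℚ_[p])‖ = 1 := by
    intro p hp R hR hpR
    push_cast
    rw [norm_prod]
    refine prod_eq_one fun l hl => ?_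
    have h1 : ¬ (p : ℤ) ∣ (l : ℤ) := by
      intro hd
      rw [Int.natCast_dvd_natCast, Nat.prime_dvd_prime_iff_eq hp.out (hR l hl)] at hd
      rw [hd] at hpR
      exact hpR hl
    have h2 := norm_int_eq_one h1
    exact_mod_cast h2
  refine ⟨∏ p ∈ T, (p : ℚ), ?_, fun p hp hp2 => ?_⟩
  · rw [prod_ne_zero_iff]
    intro p hp
    have := (hTp p hp).ne_zero
    exact_mod_cast this
  have hdeg : 0 < (GZ ℚ_[p] a).natDegree := by
    have h1 : (GZ ℚ_[p] a).coeff n ≠ 0 := by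
      rw [BF.LocLat.GZ_coeff_top]
      exact_mod_cast h0
    have := le_natDegree_of_ne_zero h1
    omega
  have hmul : ∀ (κ : ℚ) (γ : ℚ[X]), (C κ * γ).map (algebraMap ℚ ℚ_[p]) =
      C (κ : ℚ_[p]) * γ.map (algebraMap ℚ ℚ_[p]) := by
    intro κ γ
    rw [Polynomial.map_mul, map_C, eq_ratCast]
  rw [hmul, hmul]
  by_cases hU : ULoc p (GZ ℚ_[p] a) (GZ ℚ_[p] b) (δ.map (algebraMap ℚ ℚ_[p]))
      (ε.map (algebraMap ℚ ℚ_[p]))
  · have hpT : p ∉ T := by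
      intro hpT
      rw [hT, mem_filter] at hpT
      obtain ⟨-, _, -, h2⟩ := hpT
      exact h2 hU
    exact hU.unit_mul _ (hunit p T hTp hpT)
  · have hpS : p ∈ S := by
      by_contra hpS
      rcases uloc_or p _ _ _ _ hdeg (hloc p hp2) with h1 | ⟨h, h1, h2, -⟩
      · exact hU h1
      · exact hS p hpS h h1 h2
    have hpT : p ∈ T := by
      rw [hT, mem_filter]
      exact ⟨hpS, hp, hp2, hU⟩
    have h1 := (uloc_or p _ _ _ _ hdeg (hloc p hp2)).resolve_left hU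
    have h2 := h1.unit_mul _ (hunit p (T.erase p) (fun l hl => hTp l (mem_of_mem_erase hl))
      (notMem_erase p T))
    have h3 : ((∏ l ∈ T, (l : ℚ) : ℚ) : ℚ_[p]) =
        ((∏ l ∈ T.erase p, (l : ℚ) : ℚ) : ℚ_[p]) * (p : ℚ_[p]) := by
      rw [← prod_erase_mul T _ hpT]
      push_cast
      ring
    rw [h3, C_mul, mul_assoc, mul_assoc]
    exact h2

end Stoll308.DQ
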