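import Pool.Agent.Work.MP_308fa9_nt.DQ.Exc
import Pool.Agent.Work.MP_308fa9_nt.DQ.Poly
import Pool.Agent.Work.MP_308fa9_nt.DQ.Scale
import Pool.Agent.Work.MP_308fa9_nt.DQ.Pair
import Pool.Agent.Work.MP_308fa9_nt.DQ.Rep
import Pool.Agent.Work.MP_308fa9_nt.DQ.LCond
import Pool.Agent.Work.MP_308fa9_nt.DQ.LargeT

set_option autoImplicit false

/-!
The upper bound.
-/

namespace Stoll308.DQ

open Polynomial Finset Matrix BG BF SC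

lemma RPair.mono_K {n : ℕ} {K K' H : ℝ} {a : Fin (n + 1) → ℤ} {A B : Matrix (Fin n) (Fin n) ℤ}
    {t : Fin n → ℝ} (h : BF.RPair K H a A B t) (hK : K ≤ K') (hH : 0 ≤ H) :
    BF.RPair K' H a A B t := by
  refine ⟨h.symA, h.symB, h.char, h.pos, h.hA, h.hB, h.mono, ?_, ?_⟩
  · exact h.prod.trans (mul_le_mul_of_nonneg_right hK hH)
  · intro i
    exact (h.prod' i).trans (mul_le_mul_of_nonneg_right hK (sq_nonneg _))

lemma Cls.sc {n : ℕ} {K : Type*} [Field K] [CharZero K] {a : Fin (n + 1) → ℤ} {δ h : K[X]}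
    (hc : Cls (GZ K a) δ h) {N : ℕ} (hN : 0 < N) : Cls (GZ K (SC.sc N a)) δ h := by
  obtain ⟨h1, h2, ⟨r, h3⟩, s, h4, h5⟩ := hc
  rw [GZ_sc]
  refine ⟨h1, (isCoprime_mul_unit_left_right (isUnit_sc hN) _ _).2 h2, ⟨C (N : K) * r, ?_⟩, s,
    (isCoprime_mul_unit_left_right (isUnit_sc hN) _ _).2 h4, ((isUnit_sc hN).mul_left_dvd).2 h5⟩
  have e : C ((N : K) ^ 2) * GZ K a - (C (N : K) * r) ^ 2 = C ((N : K) ^ 2) * (GZ K a - r ^ 2) := by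
    rw [C_pow]
    ring
  rw [e]
  exact Dvd.dvd.mul_left h3 _

lemma irr_sc {n : ℕ} {a : Fin (n + 1) → ℤ} (hF : Irreducible (GZ ℚ a)) {N : ℕ} (hN : 0 < N) :
    Irreducible (GZ ℚ (SC.sc N a)) := by
  rw [GZ_sc]
  exact (irreducible_isUnit_mul (isUnit_sc hN)).2 hF

lemma coprime_sc {n : ℕ} {a : Fin (n + 1) → ℤ} {δ : ℚ[X]} (hδ : IsCoprime δ (GZ ℚ a)) {N : ℕ}
    (hN : 0 < N) : IsCoprime δ (GZ ℚ (SC.sc N a)) := by
  rw [GZ_sc]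
  exact (isCoprime_mul_unit_left_right (isUnit_sc hN) _ _).2 hδ

lemma sc_ne {n : ℕ} {a : Fin (n + 1) → ℤ} (h0 : a 0 ≠ 0) {N : ℕ} (hN : 0 < N) :
    SC.sc N a 0 ≠ 0 := by
  unfold SC.sc
  have : (0 : ℤ) < (N : ℤ) ^ 2 := by positivity
  exact mul_ne_zero this.ne' h0

lemma sc_bound {n : ℕ} {a : Fin (n + 1) → ℤ} {H : ℕ} (ha : ∀ i, |a i| ≤ (H : ℤ)) (N : ℕ)
    (i : Fin (n + 1)) : |((SC.sc N a i : ℤ) : ℝ)| ≤ (N : ℝ) ^ 2 * H := by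
  unfold SC.sc
  push_cast
  rw [abs_mul, abs_of_nonneg (by positivity : (0 : ℝ) ≤ (N : ℝ) ^ 2)]
  have : |(a i : ℝ)| ≤ H := by exact_mod_cast ha i
  exact mul_le_mul_of_nonneg_left this (by positivity)

/-- The reduced pair of one polynomial. -/
lemma one_pair {n : ℕ} (hn : 4 ≤ n) (he : Even n) {K : ℝ}
    (hred : ∀ a : Fin (n + 1) → ℤ, a 0 ≠ 0 → Irreducible (GZ ℚ a) → ∀ H : ℝ,
      (∀ i, |(a i : ℝ)| ≤ H) → ∀ δ : ℚ[X], IsCoprime δ (GZ ℚ a) →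
      ∀ A₀ B₀ : Matrix (Fin n) (Fin n) ℤ, BF.IsPair a δ A₀ B₀ →
      A₀.det = (-1) ^ (n / 2) * a 0 →
      ∃ (A B : Matrix (Fin n) (Fin n) ℤ) (t : Fin n → ℝ), BF.RPair K H a A B t ∧
        BF.IsPair a δ A B ∧ A.det = (-1) ^ (n / 2) * a 0)
    (P : ℕ) (hP : 2 ≤ P) (a : Fin (n + 1) → ℤ) (ha : Nice P a) (H : ℕ)
    (hH : ∀ i, |a i| ≤ (H : ℤ)) (δ : ℚ[X]) (hδ : IsCoprime δ (GZ ℚ a))
    (hloc : ∀ (p : ℕ) [Fact p.Prime], p ≠ 2 →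
      ∃ h : ℚ_[p][X], Prim p h ∧ Cls (GZ ℚ_[p] a) (δ.map (algebraMap ℚ ℚ_[p])) h) :
    ∃ N : ℕ, 0 < N ∧ N ≤ P.factorial ^ (2 * n) ∧
      ∃ (A B : Matrix (Fin n) (Fin n) ℤ) (t : Fin n → ℝ),
        BF.RPair K ((N : ℝ) ^ 2 * H) (SC.sc N a) A B t ∧ BF.IsPair (SC.sc N a) δ A B ∧
          A.det = (-1) ^ (n / 2) * SC.sc N a 0 := by
  obtain ⟨h0, -, hF, hl, h2, h3⟩ := ha
  obtain ⟨A₀, B₀, N, hN, hNM, hpair, hdet⟩ := exists_pair hn he P hP a h0 hl h2 h3 δ hδ hloc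
  obtain ⟨A, B, t, h4, h5, h6⟩ := hred (SC.sc N a) (sc_ne h0 hN) (irr_sc hF hN)
    ((N : ℝ) ^ 2 * H) (sc_bound hH N) δ (coprime_sc hδ hN) A₀ B₀ (IsPair.sc hpair hN) hdet
  exact ⟨N, hN, hNM, A, B, t, h4, h5, h6⟩

theorem oddSel_small (n m : ℕ) (hn : 4 ≤ n) (he : Even n) (hm : 4 ≤ m) (hem : Even m) (ε : ℝ)
    (hε : 0 < ε) :
    ∃ H₀ : ℕ, ∀ H : ℕ, H₀ ≤ H →
      (cnt n m (fun a b => OddSel a b) H : ℝ) ≤ ε * H ^ (n + m + 2) := by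
  obtain ⟨K₁, hK₁, hred₁⟩ := red_of_pair hn he
  obtain ⟨K₂, hK₂, hred₂⟩ := red_of_pair hm hem
  obtain ⟨K, hK⟩ : ∃ K, K = max K₁ K₂ := ⟨_, rfl⟩
  have hK1 : 1 ≤ K := by rw [hK]; exact hK₁.trans (le_max_left _ _)
  have hKK₁ : K₁ ≤ K := by rw [hK]; exact le_max_left _ _
  have hKK₂ : K₂ ≤ K := by rw [hK]; exact le_max_right _ _
  obtain ⟨P₁, R₁, H₁, hP₁, hR₁, h1⟩ := exc_small n hn he K hK1 (ε / 3 / 3 ^ (m + 1))
    (by positivity)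
  obtain ⟨P₂, R₂, H₂, hP₂, hR₂, h2⟩ := exc_small m hm hem K hK1 (ε / 3 / 3 ^ (n + 1))
    (by positivity)
  obtain ⟨R, hR⟩ : ∃ R, R = max R₁ R₂ := ⟨_, rfl⟩
  have hR1 : R₁ ≤ R := by rw [hR]; exact le_max_left _ _
  have hR2 : R₂ ≤ R := by rw [hR]; exact le_max_right _ _
  obtain ⟨M, hM⟩ : ∃ M : ℕ, M = P₁.factorial ^ (2 * n) := ⟨_, rfl⟩
  obtain ⟨M', hM'⟩ : ∃ M' : ℕ, M' = P₂.factorial ^ (2 * m) := ⟨_, rfl⟩
  have hM1 : 1 ≤ M := by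
    rw [hM]
    exact Nat.one_le_pow _ _ P₁.factorial_pos
  have hM1' : 1 ≤ M' := by
    rw [hM']
    exact Nat.one_le_pow _ _ P₂.factorial_pos
  have hMr : (1 : ℝ) ≤ M := by exact_mod_cast hM1
  have hMr' : (1 : ℝ) ≤ M' := by exact_mod_cast hM1'
  obtain ⟨ε', hε'⟩ : ∃ ε' : ℝ,
      ε' = ε / 3 / (M * M' * (((M : ℝ) ^ 2) ^ (n + 1) * ((M' : ℝ) ^ 2) ^ (m + 1))) := ⟨_, rfl⟩
  have hε'0 : 0 < ε' := by rw [hε']; positivity
  obtain ⟨H₃, h3⟩ := large_t hn he hm hem K R hK1 (hR₁.trans hR1) ε' hε'0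
  refine ⟨H₁ + H₂ + ⌈|H₃|⌉₊ + 1, ?_⟩
  intro H hH
  have hH1 : 1 ≤ H := by omega
  have hHr : (1 : ℝ) ≤ H := by exact_mod_cast hH1
  have g1 := h1 R hR1 H (by omega)
  have g2 := h2 R hR2 H (by omega)
  rw [← hM] at g1
  rw [← hM'] at g2
  have hbig : ∀ N : ℕ, 0 < N → H₃ ≤ (N : ℝ) ^ 2 * H := by
    intro N hN
    have hx : ⌈|H₃|⌉₊ ≤ H := by omega
    have e1 : |H₃| ≤ ⌈|H₃|⌉₊ := Nat.le_ceil _
    have e2 : ((⌈|H₃|⌉₊ : ℕ) : ℝ) ≤ H := by exact_mod_cast hx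
    have e3 : (1 : ℝ) ≤ (N : ℝ) ^ 2 := one_le_pow₀ (by exact_mod_cast hN)
    have e4 : (H : ℝ) ≤ (N : ℝ) ^ 2 * H := by
      calc (H : ℝ) = 1 * H := by ring
        _ ≤ (N : ℝ) ^ 2 * H := mul_le_mul_of_nonneg_right e3 (by linarith)
    linarith [le_abs_self H₃]
  set X1 : (Fin (n + 1) → ℤ) → Prop := fun a => ¬ Nice P₁ a ∨ Cusp K R H M a with hX1
  set X2 : (Fin (m + 1) → ℤ) → Prop := fun b => ¬ Nice P₂ b ∨ Cusp K R H M' b with hX2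
  set Q : ℕ → ℕ → (Fin (n + 1) → ℤ) → (Fin (m + 1) → ℤ) → Prop := fun N N' a b =>
    ∃ (A B : Matrix (Fin n) (Fin n) ℤ) (t : Fin n → ℝ)
      (A' B' : Matrix (Fin m) (Fin m) ℤ) (t' : Fin m → ℝ),
      BF.RPair K ((N : ℝ) ^ 2 * H) a A B t ∧ BF.RPair K ((N' : ℝ) ^ 2 * H) b A' B' t' ∧
      (∀ i j, t j ≤ R * t i) ∧ (∀ i j, t' j ≤ R * t' i) ∧ ∀ l : ℕ, l ≠ 2 → ¬ Bad l A B A' B'
    with hQ
  set X3 : (Fin (n + 1) → ℤ) → (Fin (m + 1) → ℤ) → Prop := fun a b =>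
    ∃ N N', 0 < N ∧ N ≤ M ∧ 0 < N' ∧ N' ≤ M' ∧ Q N N' (SC.sc N a) (SC.sc N' b) with hX3
  have hle : cnt n m (fun a b => OddSel a b) H ≤ cnt n m (fun a _ => X1 a) H +
      (cnt n m (fun _ b => X2 b) H + cnt n m X3 H) := by
    refine le_trans (cnt_mono (Q := fun a b => X1 a ∨ X2 b ∨ X3 a b) H ?_) ?_
    · intro a b ha hb h
      by_cases q1 : X1 a
      · exact Or.inl q1
      by_cases q2 : X2 b
      · exact Or.inr (Or.inl q2)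
      right; right
      rw [hX1] at q1
      rw [hX2] at q2
      simp only [not_or, not_not] at q1 q2
      obtain ⟨hna, hca⟩ := q1
      obtain ⟨hnb, hcb⟩ := q2
      obtain ⟨δ, ε₀, hδ, hε₀, hloc⟩ := h
      have hdloc : ∀ (p : ℕ) [Fact p.Prime], p ≠ 2 → DLoc (GZ ℚ_[p] a) (GZ ℚ_[p] b)
          (δ.map (algebraMap ℚ ℚ_[p])) (ε₀.map (algebraMap ℚ ℚ_[p])) :=
        fun p _ hp => dloc_of_image a b δ ε₀ ℚ_[p] (hloc p hp)
      obtain ⟨κ, hκ, huloc⟩ := exists_scale (by omega) a b hna.1 hna.2.2.1 δ ε₀ hδ hdloc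
      have hκu : IsUnit (C κ : ℚ[X]) := isUnit_C.2 (isUnit_iff_ne_zero.2 hκ)
      have hδ' : IsCoprime (C κ * δ) (GZ ℚ a) := (isCoprime_mul_unit_left_left hκu _ _).2 hδ
      have hε' : IsCoprime (C κ * ε₀) (GZ ℚ b) := (isCoprime_mul_unit_left_left hκu _ _).2 hε₀
      obtain ⟨N, hN, hNM, A, B, t, r1, r2, r3⟩ := one_pair hn he hred₁ P₁ hP₁ a hna H ha
        (C κ * δ) hδ' (fun p _ hp => by
          obtain ⟨h, e1, e2, -⟩ := huloc p hp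
          exact ⟨h, e1, e2⟩)
      obtain ⟨N', hN', hNM', A', B', t', r1', r2', r3'⟩ := one_pair hm hem hred₂ P₂ hP₂ b hnb H hb
        (C κ * ε₀) hε' (fun p _ hp => by
          obtain ⟨h, e1, -, e2⟩ := huloc p hp
          exact ⟨h, e1, e2⟩)
      have hHN : ∀ N : ℕ, (0 : ℝ) ≤ (N : ℝ) ^ 2 * H := fun N => by positivity
      have r4 := RPair.mono_K r1 hKK₁ (hHN N)
      have r4' := RPair.mono_K r1' hKK₂ (hHN N')
      refine ⟨N, N', hN, by rw [hM]; exact hNM, hN', by rw [hM']; exact hNM', A, B, t, A', B', t',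
        r4, r4', ?_, ?_, ?_⟩
      · by_contra hcon
        push Not at hcon
        exact hca ⟨N, hN, by rw [hM]; exact hNM, A, B, t, r4, hcon⟩
      · by_contra hcon
        push Not at hcon
        exact hcb ⟨N', hN', by rw [hM']; exact hNM', A', B', t', r4', hcon⟩
      · intro l h2 hbad
        obtain ⟨_, _, _, _, _, _, hl', _⟩ := id hbad
        have := hl'
        refine lcond hn he hm hem (SC.sc N a) (SC.sc N' b) (sc_ne hna.1 hN) (sc_ne hnb.1 hN')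
          (C κ * δ) (C κ * ε₀) (coprime_sc hδ' hN) (coprime_sc hε' hN') l h2 ?_ A B A' B' r2 r3
          r2' r3' hbad
        obtain ⟨h, -, e1, e2⟩ := huloc l h2
        refine ⟨h, 1, one_ne_zero, ?_, ?_⟩
        · rw [C_1, one_mul]
          exact e1.sc hN
        · rw [C_1, one_mul]
          exact e2.sc hN'
    · refine (cnt_or _ _ H).trans ?_
      gcongr
      exact cnt_or _ _ H
  have hH3 : 2 * (H : ℝ) + 1 ≤ 3 * H := by linarith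
  have k1 : (cnt n m (fun a _ => X1 a) H : ℝ) ≤ ε / 3 * H ^ (n + m + 2) := by
    rw [cnt_fst]
    calc (BF.cnt n X1 H : ℝ) * (2 * (H : ℝ) + 1) ^ (m + 1)
        ≤ (ε / 3 / 3 ^ (m + 1) * H ^ (n + 1)) * (3 * H) ^ (m + 1) := by gcongr
      _ = ε / 3 * H ^ (n + m + 2) := by
          rw [mul_pow, show n + m + 2 = (n + 1) + (m + 1) by ring, pow_add (H : ℝ) (n + 1) (m + 1)]
          field_simp
  have k2 : (cnt n m (fun _ b => X2 b) H : ℝ) ≤ ε / 3 * H ^ (n + m + 2) := by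
    rw [cnt_snd]
    calc (2 * (H : ℝ) + 1) ^ (n + 1) * (BF.cnt m X2 H : ℝ)
        ≤ (3 * H) ^ (n + 1) * (ε / 3 / 3 ^ (n + 1) * H ^ (m + 1)) := by gcongr
      _ = ε / 3 * H ^ (n + m + 2) := by
          rw [mul_pow, show n + m + 2 = (n + 1) + (m + 1) by ring, pow_add (H : ℝ) (n + 1) (m + 1)]
          field_simp
  have k3 : (cnt n m X3 H : ℝ) ≤ ε / 3 * H ^ (n + m + 2) := by
    have e1 := cnt_exists (fun N N' a b => Q N N' (SC.sc (n := n) N a) (SC.sc (n := m) N' b))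
      M M' H
    have e2 : ∀ N ∈ Icc 1 M, ∀ N' ∈ Icc 1 M',
        (cnt n m (fun a b => Q N N' (SC.sc (n := n) N a) (SC.sc (n := m) N' b)) H : ℝ) ≤
        ε' * ((((M : ℝ) ^ 2) * H) ^ (n + 1) * (((M' : ℝ) ^ 2) * H) ^ (m + 1)) := by
      intro N hN N' hN'
      rw [mem_Icc] at hN hN'
      have hN0 : 0 < N := by omega
      have hN0' : 0 < N' := by omega
      refine (cnt_scale _ (Q N N') N N' hN0 hN0' H _ (fun a b hab => hab) (fun T hT =>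
        h3 ((N : ℝ) ^ 2 * H) ((N' : ℝ) ^ 2 * H) (hbig N hN0) (hbig N' hN0') T hT)).trans ?_
      have e3 : (N : ℝ) ≤ M := by exact_mod_cast hN.2
      have e3' : (N' : ℝ) ≤ M' := by exact_mod_cast hN'.2
      gcongr
    calc (cnt n m X3 H : ℝ)
        ≤ ((∑ N ∈ Icc 1 M, ∑ N' ∈ Icc 1 M', cnt n m
            (fun a b => Q N N' (SC.sc (n := n) N a) (SC.sc (n := m) N' b)) H : ℕ) : ℝ) := by
          exact_mod_cast e1
      _ = ∑ N ∈ Icc 1 M, ∑ N' ∈ Icc 1 M', (cnt n m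
            (fun a b => Q N N' (SC.sc (n := n) N a) (SC.sc (n := m) N' b)) H : ℝ) := by
          push_cast; rfl
      _ ≤ ∑ _N ∈ Icc 1 M, ∑ _N' ∈ Icc 1 M',
            ε' * ((((M : ℝ) ^ 2) * H) ^ (n + 1) * (((M' : ℝ) ^ 2) * H) ^ (m + 1)) :=
          sum_le_sum fun N hN => sum_le_sum fun N' hN' => e2 N hN N' hN'
      _ = ε / 3 * H ^ (n + m + 2) := by
          rw [sum_const, sum_const, Nat.card_Icc, Nat.card_Icc, Nat.add_sub_cancel,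
            Nat.add_sub_cancel, nsmul_eq_mul, nsmul_eq_mul, hε', mul_pow, mul_pow,
            show n + m + 2 = (n + 1) + (m + 1) by ring, pow_add (H : ℝ) (n + 1) (m + 1)]
          field_simp
  calc ((cnt n m (fun a b => OddSel a b) H : ℕ) : ℝ)
      ≤ ((cnt n m (fun a _ => X1 a) H + (cnt n m (fun _ b => X2 b) H + cnt n m X3 H) : ℕ) : ℝ) := by
        exact_mod_cast hle
    _ ≤ ε * H ^ (n + m + 2) := by
        push_cast
        linarith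

end Stoll308.DQ
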