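import Pool.Agent.Work.MP_308fa9_nt.DQ.Els
import Pool.Agent.Work.MP_308fa9_nt.DQ.Smooth
import Pool.Agent.Work.MP_308fa9_nt.DQ.Upper
import Pool.Agent.Work.MP_308fa9_nt.DQ.Norm
import Pool.Agent.Work.MP_308fa9_nt.DQ.Pt

set_option autoImplicit false

/-!
The theorem on the curves `y² = f(t)`, `w² = q(t)`.
-/

namespace Stoll308.DQ

open Polynomial Finset Matrix BG BF SC

/-- Conditions on one of the two polynomials. -/
lemma single_small (n m : ℕ) (hn : 4 ≤ n) (hm : 4 ≤ m) (ε : ℝ) (hε : 0 < ε) :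
    ∃ H₀ : ℕ, ∀ H : ℕ, H₀ ≤ H →
      (cnt n m (fun a _ => a 0 = 0 ∨ IsSquare (a 0) ∨ ¬ Irreducible (BF.GZ ℚ a)) H : ℝ) ≤
        ε * H ^ (n + m + 2) ∧
      (cnt n m (fun _ b => b 0 = 0 ∨ IsSquare (b 0) ∨ ¬ Irreducible (BF.GZ ℚ b)) H : ℝ) ≤
        ε * H ^ (n + m + 2) := by
  obtain ⟨H₁, h1⟩ := BF.reducible_small n (by omega) (ε / 3 ^ (m + 1)) (by positivity)
  obtain ⟨H₂, h2⟩ := BF.reducible_small m (by omega) (ε / 3 ^ (n + 1)) (by positivity)
  refine ⟨H₁ + H₂ + 1, fun H hH => ?_⟩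
  have g1 := h1 H (by omega)
  have g2 := h2 H (by omega)
  have hH1 : (1 : ℝ) ≤ H := by
    have : 1 ≤ H := by omega
    exact_mod_cast this
  have hpow : (H : ℝ) ^ (n + m + 2) = (H : ℝ) ^ (n + 1) * (H : ℝ) ^ (m + 1) := by
    rw [← pow_add]
    congr 1
    omega
  have hb : ∀ k : ℕ, (2 * (H : ℝ) + 1) ^ k ≤ 3 ^ k * (H : ℝ) ^ k := by
    intro k
    rw [← mul_pow]
    exact pow_le_pow_left₀ (by positivity) (by linarith) k
  constructor
  · rw [cnt_fst, hpow]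
    calc _ ≤ (ε / 3 ^ (m + 1) * (H : ℝ) ^ (n + 1)) * (3 ^ (m + 1) * (H : ℝ) ^ (m + 1)) := by
          gcongr
          exact hb _
      _ = ε * ((H : ℝ) ^ (n + 1) * (H : ℝ) ^ (m + 1)) := by
          field_simp
  · rw [cnt_snd, hpow]
    calc _ ≤ (3 ^ (n + 1) * (H : ℝ) ^ (n + 1)) * (ε / 3 ^ (n + 1) * (H : ℝ) ^ (m + 1)) := by
          gcongr
          exact hb _
      _ = ε * ((H : ℝ) ^ (n + 1) * (H : ℝ) ^ (m + 1)) := by
          field_simp

theorem oddField_small (n m : ℕ) (hn : 4 ≤ n) (he : Even n) (hm : 4 ≤ m) (hem : Even m) (ε : ℝ)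
    (hε : 0 < ε) :
    ∃ H₀ : ℕ, ∀ H : ℕ, H₀ ≤ H →
      (cnt n m (fun a b => OddField a b) H : ℝ) ≤ ε * H ^ (n + m + 2) := by
  obtain ⟨H₁, h1⟩ := oddSel_small n m hn he hm hem (ε / 3) (by positivity)
  obtain ⟨H₂, h2⟩ := single_small n m hn hm (ε / 3) (by positivity)
  refine ⟨H₁ + H₂, fun H hH => ?_⟩
  have g1 := h1 H (by omega)
  obtain ⟨g2, g3⟩ := h2 H (by omega)
  set P2 : (Fin (n + 1) → ℤ) → Prop := fun a => a 0 = 0 ∨ IsSquare (a 0) ∨
    ¬ Irreducible (BF.GZ ℚ a) with hP2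
  set P3 : (Fin (m + 1) → ℤ) → Prop := fun b => b 0 = 0 ∨ IsSquare (b 0) ∨
    ¬ Irreducible (BF.GZ ℚ b) with hP3
  have hle : cnt n m (fun a b => OddField a b) H ≤ cnt n m (fun a b => OddSel a b) H +
      (cnt n m (fun a _ => P2 a) H + cnt n m (fun _ b => P3 b) H) := by
    refine le_trans (cnt_mono (Q := fun a b => OddSel a b ∨ P2 a ∨ P3 b) H ?_) ?_
    · intro a b _ _ h
      by_cases q2 : P2 a
      · exact Or.inr (Or.inl q2)
      by_cases q3 : P3 b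
      · exact Or.inr (Or.inr q3)
      left
      rw [hP2] at q2
      rw [hP3] at q3
      simp only [not_or, not_not] at q2 q3
      obtain ⟨h0, hsq, hF⟩ := q2
      obtain ⟨h0', _, hF'⟩ := q3
      obtain ⟨k, hk1, hk2, ho, h | h⟩ := h
      · exact oddSel_of_point (by omega) he (by omega) hem a b h0 h0' hsq hF hF' k ho h
      · exact oddSel_of_selOver a b k ho h
    · refine (cnt_or _ _ H).trans ?_
      gcongr
      exact cnt_or _ _ H
  calc ((cnt n m (fun a b => OddField a b) H : ℕ) : ℝ)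
      ≤ ((cnt n m (fun a b => OddSel a b) H +
        (cnt n m (fun a _ => P2 a) H + cnt n m (fun _ b => P3 b) H) : ℕ) : ℝ) := by
        exact_mod_cast hle
    _ ≤ ε * H ^ (n + m + 2) := by
        push_cast
        linarith

theorem main (n m : ℕ) (hn : 4 ≤ n) (he : Even n) (hm : 4 ≤ m) (hem : Even m) :
    (∃ c₀ : ℝ, 0 < c₀ ∧ ∃ H₀ : ℕ, ∀ H : ℕ, H₀ ≤ H →
      c₀ * H ^ (n + m + 2) ≤ (cnt n m (fun a b => ELS a b ∧ Smooth a b) H : ℝ)) ∧
    ∀ ε : ℝ, 0 < ε → ∃ H₀ : ℕ, ∀ H : ℕ, H₀ ≤ H →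
      (cnt n m (fun a b => OddField a b) H : ℝ) ≤ ε * H ^ (n + m + 2) := by
  refine ⟨?_, fun ε hε => oddField_small n m hn he hm hem ε hε⟩
  obtain ⟨c, hc, H₁, h1⟩ := els_many n m hn he hm hem
  obtain ⟨H₂, h2⟩ := smooth_small n m hn hm (c / 2) (by positivity)
  refine ⟨c / 2, by positivity, H₁ + H₂, ?_⟩
  intro H hH
  have g1 := h1 H (by omega)
  have g2 := h2 H (by omega)
  have h3 : cnt n m (fun a b => ELS a b) H ≤ cnt n m (fun a b => ELS a b ∧ Smooth a b) H +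
      cnt n m (fun a b => ¬ Smooth a b) H := by
    refine le_trans (cnt_mono (Q := fun a b => (ELS a b ∧ Smooth a b) ∨ ¬ Smooth a b) H ?_)
      (cnt_or _ _ H)
    intro a b _ _ hb
    by_cases h : Smooth a b
    · exact Or.inl ⟨hb, h⟩
    · exact Or.inr h
  have h4 : (cnt n m (fun a b => ELS a b) H : ℝ) ≤
      cnt n m (fun a b => ELS a b ∧ Smooth a b) H + cnt n m (fun a b => ¬ Smooth a b) H := by
    exact_mod_cast h3
  linarith

end Stoll308.DQ
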