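import Mathlib
import Pool.Agent.Work.MP_308fa9_nt.BE.ElsPoly

set_option autoImplicit false

/-!
Two polynomials over `𝔽_p` which are squares at the same place.
-/

namespace Stoll308.DQ

open Polynomial Finset

open Pool.Agent.Work.MP_2b9663_nt in
/-- The Weil bound for a polynomial which is not a constant times a square. -/
theorem weil_charSum {p : ℕ} [hp : Fact p.Prime] (hp2 : p ≠ 2) (f : (ZMod p)[X])
    (hns : ∀ e s, f ≠ C e * s ^ 2) :
    |(charSum (ZMod p) f : ℝ)| ≤ ((f.natDegree : ℝ) - 1) * Real.sqrt p := by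
  classical
  have hf : f ≠ 0 := fun h => hns 0 0 (by rw [h]; simp)
  obtain ⟨h, s, hsf, hfs⟩ := BE.exists_squarefree_part f hf
  have hp2' : ringChar (ZMod p) ≠ 2 := by
    rw [ZMod.ringChar_zmod_n]
    exact hp2
  have hh0 : h ≠ 0 := by
    rintro rfl
    rw [zero_mul] at hfs
    exact hf hfs
  have hs0 : s ≠ 0 := by
    rintro rfl
    rw [zero_pow two_ne_zero, mul_zero] at hfs
    exact hf hfs
  have hd : 1 ≤ h.natDegree := by
    by_contra hcon
    have h1 : h.natDegree = 0 := by omega
    obtain ⟨e, he⟩ := natDegree_eq_zero.1 h1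
    exact hns e s (by rw [hfs, he])
  have hdeg : f.natDegree = h.natDegree + 2 * s.natDegree := by
    rw [hfs, natDegree_mul hh0 (pow_ne_zero _ hs0), natDegree_pow]
  have hw := weil_bound hp2' hsf hd
  rw [ZMod.card] at hw
  have hZc : (univ.filter fun x : ZMod p => s.eval x = 0).card ≤ s.natDegree := by
    refine le_trans ?_ (card_roots' s)
    refine le_trans ?_ (Multiset.toFinset_card_le _)
    apply card_le_card
    intro x hx
    rw [mem_filter] at hx
    rw [Multiset.mem_toFinset, mem_roots hs0]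
    exact hx.2
  have hdiff : |(charSum (ZMod p) f : ℤ) - charSum (ZMod p) h| ≤ s.natDegree := by
    rw [charSum, charSum, ← sum_sub_distrib]
    refine (abs_sum_le_sum_abs _ _).trans ?_
    have h1 : ∀ x : ZMod p, |quadraticChar (ZMod p) (f.eval x) - quadraticChar (ZMod p) (h.eval x)|
        ≤ if s.eval x = 0 then 1 else 0 := by
      intro x
      by_cases hx : s.eval x = 0
      · rw [if_pos hx, hfs, eval_mul, eval_pow, hx, zero_pow two_ne_zero, mul_zero]
        rw [quadraticChar_zero, zero_sub, abs_neg]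
        by_cases h0 : h.eval x = 0
        · rw [h0, quadraticChar_zero]; simp
        · rcases quadraticChar_dichotomy h0 with h1 | h1
          · rw [h1]; simp
          · rw [h1]; simp
      · rw [if_neg hx, hfs, eval_mul, eval_pow, map_mul, quadraticChar_sq_one' hx, mul_one,
          sub_self, abs_zero]
    refine (sum_le_sum fun x _ => h1 x).trans ?_
    rw [← sum_filter, sum_const, nsmul_eq_mul, mul_one]
    exact_mod_cast hZc
  have hdiffR : |(charSum (ZMod p) f : ℝ) - (charSum (ZMod p) h : ℝ)| ≤ s.natDegree := by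
    exact_mod_cast hdiff
  have h4 : ((h.natDegree - 1 : ℕ) : ℝ) = h.natDegree - 1 := by
    rw [Nat.cast_sub hd]; push_cast; ring
  rw [h4] at hw
  have h7 : (1 : ℝ) ≤ Real.sqrt p := by
    rw [Real.one_le_sqrt]
    exact_mod_cast hp.out.one_lt.le
  have h8 : (f.natDegree : ℝ) = h.natDegree + 2 * s.natDegree := by exact_mod_cast hdeg
  have h10 : (0 : ℝ) ≤ s.natDegree := Nat.cast_nonneg _
  have h11 := abs_sub_abs_le_abs_sub (charSum (ZMod p) f : ℝ) (charSum (ZMod p) h : ℝ)
  rw [h8]
  nlinarith [mul_nonneg h10 (sub_nonneg.2 h7)]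

open Pool.Agent.Work.MP_2b9663_nt in
theorem exists_two_sq {p : ℕ} [hp : Fact p.Prime] (hp2 : p ≠ 2) (f q : (ZMod p)[X])
    (hbig : (2 * (f.natDegree + q.natDegree) + 4) ^ 2 ≤ p)
    (h1 : ∀ e s, f ≠ C e * s ^ 2) (h2 : ∀ e s, q ≠ C e * s ^ 2)
    (h3 : ∀ e s, f * q ≠ C e * s ^ 2) :
    ∃ x y z : ZMod p, y ≠ 0 ∧ z ≠ 0 ∧ y ^ 2 = f.eval x ∧ z ^ 2 = q.eval x := by
  classical
  have hf : f ≠ 0 := fun h => h1 0 0 (by rw [h]; simp)
  have hq : q ≠ 0 := fun h => h2 0 0 (by rw [h]; simp)
  have w1 := weil_charSum hp2 f h1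
  have w2 := weil_charSum hp2 q h2
  have w3 := weil_charSum hp2 (f * q) h3
  rw [natDegree_mul hf hq] at w3
  by_contra hcon
  have hno : ∀ x : ZMod p, ¬ (quadraticChar (ZMod p) (f.eval x) = 1 ∧
      quadraticChar (ZMod p) (q.eval x) = 1) := by
    rintro x ⟨ha, hb⟩
    have hfx : f.eval x ≠ 0 := by
      intro h0
      rw [h0] at ha
      simp at ha
    have hqx : q.eval x ≠ 0 := by
      intro h0
      rw [h0] at hb
      simp at hb
    rw [quadraticChar_one_iff_isSquare hfx] at ha
    rw [quadraticChar_one_iff_isSquare hqx] at hb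
    obtain ⟨y, hy⟩ := ha
    obtain ⟨z, hz⟩ := hb
    apply hcon
    refine ⟨x, y, z, ?_, ?_, by rw [hy, sq], by rw [hz, sq]⟩
    · rintro rfl
      exact hfx (by rw [hy, mul_zero])
    · rintro rfl
      exact hqx (by rw [hz, mul_zero])
  have hZ : ∀ g : (ZMod p)[X], g ≠ 0 →
      (univ.filter fun x : ZMod p => g.eval x = 0).card ≤ g.natDegree := by
    intro g hg
    refine le_trans ?_ (card_roots' g)
    refine le_trans ?_ (Multiset.toFinset_card_le _)
    apply card_le_card
    intro x hx
    rw [mem_filter] at hx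
    rw [Multiset.mem_toFinset, mem_roots hg]
    exact hx.2
  have hle : ∀ x : ZMod p, (1 + quadraticChar (ZMod p) (f.eval x)) *
      (1 + quadraticChar (ZMod p) (q.eval x)) ≤
      2 * (if f.eval x = 0 then 1 else 0) + 2 * (if q.eval x = 0 then 1 else 0) := by
    intro x
    have hn := hno x
    by_cases ha : f.eval x = 0
    · rw [if_pos ha, ha, quadraticChar_zero]
      by_cases hb : q.eval x = 0
      · rw [if_pos hb, hb, quadraticChar_zero]; norm_num
      · rw [if_neg hb]
        rcases quadraticChar_dichotomy hb with h | h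
        · rw [h]; norm_num
        · rw [h]; norm_num
    · rw [if_neg ha]
      by_cases hb : q.eval x = 0
      · rw [if_pos hb, hb, quadraticChar_zero]
        rcases quadraticChar_dichotomy ha with h | h
        · rw [h]; norm_num
        · rw [h]; norm_num
      · rw [if_neg hb]
        rcases quadraticChar_dichotomy ha with h | h
        · rcases quadraticChar_dichotomy hb with h' | h'
          · exact absurd ⟨h, h'⟩ hn
          · rw [h, h']; norm_num
        · rw [h]; norm_num
  have hsum : ∑ x : ZMod p, (1 + quadraticChar (ZMod p) (f.eval x)) *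
      (1 + quadraticChar (ZMod p) (q.eval x)) ≤ 2 * f.natDegree + 2 * q.natDegree := by
    refine (sum_le_sum fun x _ => hle x).trans ?_
    rw [sum_add_distrib, ← mul_sum, ← mul_sum, ← sum_filter, ← sum_filter, sum_const, sum_const,
      nsmul_eq_mul, nsmul_eq_mul, mul_one, mul_one]
    have ha : ((univ.filter fun x : ZMod p => f.eval x = 0).card : ℤ) ≤ f.natDegree := by
      exact_mod_cast hZ f hf
    have hb : ((univ.filter fun x : ZMod p => q.eval x = 0).card : ℤ) ≤ q.natDegree := by
      exact_mod_cast hZ q hq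
    linarith
  have hsum2 : ∑ x : ZMod p, (1 + quadraticChar (ZMod p) (f.eval x)) *
      (1 + quadraticChar (ZMod p) (q.eval x)) =
      (p : ℤ) + charSum (ZMod p) f + charSum (ZMod p) q + charSum (ZMod p) (f * q) := by
    have : ∀ x : ZMod p, (1 + quadraticChar (ZMod p) (f.eval x)) *
      (1 + quadraticChar (ZMod p) (q.eval x)) = 1 + quadraticChar (ZMod p) (f.eval x) +
        quadraticChar (ZMod p) (q.eval x) + quadraticChar (ZMod p) ((f * q).eval x) := by
      intro x
      rw [eval_mul, map_mul]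
      ring
    rw [sum_congr rfl fun x _ => this x, sum_add_distrib, sum_add_distrib, sum_add_distrib]
    simp only [charSum]
    simp
  rw [hsum2] at hsum
  have hmainR : (p : ℝ) + (charSum (ZMod p) f : ℝ) + (charSum (ZMod p) q : ℝ) +
      (charSum (ZMod p) (f * q) : ℝ) ≤ 2 * f.natDegree + 2 * q.natDegree := by
    exact_mod_cast hsum
  have h6 : (2 * ((f.natDegree : ℝ) + q.natDegree) + 4) ≤ Real.sqrt p := by
    apply Real.le_sqrt_of_sq_le
    exact_mod_cast hbig
  have h7 : Real.sqrt p * Real.sqrt p = p := Real.mul_self_sqrt (Nat.cast_nonneg p)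
  have h9 : (0 : ℝ) ≤ f.natDegree := Nat.cast_nonneg _
  have h10 : (0 : ℝ) ≤ q.natDegree := Nat.cast_nonneg _
  have w1' := (abs_le.1 w1).1
  have w2' := (abs_le.1 w2).1
  have w3' := (abs_le.1 w3).1
  push_cast at w3'
  have h11 : (2 * ((f.natDegree : ℝ) + q.natDegree) + 4) * Real.sqrt p ≤ p := by
    nlinarith [Real.sqrt_nonneg (p : ℝ)]
  nlinarith [Real.sqrt_nonneg (p : ℝ)]

end Stoll308.DQ
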